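import Pool.Agent.Helper64.FL.Sem

/-! Full list for MP_866009_co: statements about the symbolic engine. -/

set_option autoImplicit false

namespace Pool.Agent.Helper64.FL

open Pool.Agent.Helper64.CT Pool.Agent.Helper64.DT
open Pool.Agent.Helper64.HG (Ovl Model Circ IC HellyCircle ChordModel)

/-- bits -/
def ST_TBS : Prop :=
  (∀ m i j, tb (sb m i) j = (tb m j || decide (i = j))) ∧
  (∀ m k j, tb (Nat.shiftLeft m k) j = (decide (k ≤ j) && tb m (j - k))) ∧
  (∀ a b j, tb (Nat.lor a b) j = (tb a j || tb b j)) ∧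
  (∀ a b j, tb (Nat.land a b) j = (tb a j && tb b j)) ∧
  (∀ a b j, tb (Nat.xor a b) j = xor (tb a j) (tb b j)) ∧
  (∀ j, tb 0 j = false) ∧
  (∀ a b, sub a b = true ↔ ∀ i, tb a i = true → tb b i = true) ∧
  (∀ m i j, tb (clr m i) j = (tb m j && !(decide (i = j)))) ∧
  (∀ n i, tb (Nat.pred (Nat.shiftLeft 1 n)) i = decide (i < n)) ∧
  (∀ l i, tb (msk l) i = decide (i ∈ l))

/-- indices of pairs -/
def ST_PXI : Prop :=
  (∀ i j, px i j = px j i) ∧
  (∀ i j k l, i < 32 → j < 32 → k < 32 → l < 32 → px i j = px k l →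
    (i = k ∧ j = l) ∨ (i = l ∧ j = k)) ∧
  (∀ i j k l, i < 32 → j < 32 → k < 32 → l < 32 → ox i j = ox k l → i = k ∧ j = l) ∧
  (∀ i j, i < 32 → j < 32 → ox i j < 1024) ∧
  (∀ i j, px i j = 32 * max i j + min i j)

/-- induced paths -/
def ST_IPL : Prop := ∀ (V : Type) (G : SimpleGraph V),
  (∀ l, IPt G l → IPt G l.reverse) ∧
  (∀ (A B : List V) (z : V), IPt G (A ++ z :: B) ↔ (IPt G (A ++ [z]) ∧ IPt G (z :: B) ∧
    (∀ x ∈ A, ∀ y ∈ B, x ≠ y ∧ ¬ G.Adj x y))) ∧
  (∀ l, IPt G l → l.Nodup) ∧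
  (∀ l, IPt G l → ∀ (i j : ℕ) (hi : i < l.length) (hj : j < l.length), i < j →
    (G.Adj l[i] l[j] ↔ j = i + 1))

/-- setting a bit -/
def ST_SET : Prop := ∀ (V : Type) (G : SimpleGraph V) (A : ℕ → Prop) (s : Sk) (f : ℕ → V)
    (L : List (Seg × List V)) (i j : ℕ), ModA G A s f L → okp s i j = true →
  (G.Adj (f i) (f j) → ModA G A (setE s i j) f L) ∧ (¬ G.Adj (f i) (f j) → ModA G A (setD s i j) f L)

/-- moving a segment to the front and reversing the first segment -/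
def ST_FRF : Prop := ∀ (V : Type) (G : SimpleGraph V) (A : ℕ → Prop) (s : Sk) (f : ℕ → V)
    (L : List (Seg × List V)), ModA G A s f L →
  (∀ k, ∃ L', ModA G A (front s k) f L' ∧ (CovA A f L → CovA A f L')) ∧
  (∃ L', ModA G A (flipS s) f L' ∧ (CovA A f L → CovA A f L'))

/-- dropping the first segment when its ends are adjacent -/
def ST_DRP : Prop := ∀ (V : Type) (G : SimpleGraph V) (s : Sk) (f : ℕ → V)
    (L : List (Seg × List V)) (g : Seg) (l : List Seg), Mod G s f L → s.sg = g :: l →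
  eb s g.u g.w = true → ∃ L', Mod G (dropS s) f L' ∧ (Cov s f L → Cov (dropS s) f L')

/-- attaching: either `x` is clean to the first segment or the first interior vertex adjacent to
`x` gets a name -/
def ST_ATH : Prop := ∀ (V : Type) (G : SimpleGraph V) (s : Sk) (f : ℕ → V)
    (L : List (Seg × List V)) (g : Seg) (l : List Seg) (x : ℕ), Mod G s f L → s.sg = g :: l →
  okp s x g.u = true → okp s x g.w = true → s.n < 32 →
  (∃ L', Mod G (clean s x) f L' ∧ (Cov s f L → Cov (clean s x) f L')) ∨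
  ∃ f' L', Mod G (attach s x) f' L' ∧ (Cov s f L → Cov (attach s x) f' L')

/-- naming the first interior vertex of the first segment -/
def ST_NAM : Prop := ∀ (V : Type) (G : SimpleGraph V) (s : Sk) (f : ℕ → V)
    (L : List (Seg × List V)) (g : Seg) (l : List Seg), Mod G s f L → s.sg = g :: l →
  db s g.u g.w = true → s.n < 32 → ∃ f' L', Mod G (nameS s) f' L' ∧ (Cov s f L → Cov (nameS s) f' L')

/-- certificates -/
def ST_CRT : Prop := ∀ (V : Type) (G : SimpleGraph V) (s : Sk) (f : ℕ → V)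
    (L : List (Seg × List V)) (z k m : ℕ) (S : Set V), Mod G s f L → NAJ G S →
  (∀ i, i < s.n → i ≠ z → f i ∈ S) → (∀ p ∈ L, ∀ x ∈ p.2, x ∈ S) → crt s z k m 0 = false

/-- chains -/
def ST_CHN : Prop := ∀ (V : Type) (G : SimpleGraph V) (s : Sk) (f : ℕ → V)
    (m : ℕ) (i : ℕ) (l : List ℕ) (L : List (Seg × List V)) (sg : List Seg),
  (∀ i j, i < 32 → j < 32 → eb s i j = true → i ≠ j → G.Adj (f i) (f j)) →
  (∀ i j, i < 32 → j < 32 → db s i j = true → i ≠ j → ¬ G.Adj (f i) (f j)) → s.n ≤ 32 →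
  (∀ i j, i < s.n → j < s.n → f i = f j → i = j) → L.map Prod.fst = sg → i < s.n →
  (∀ p ∈ L, IPt G (f p.1.u :: (p.2 ++ [f p.1.w]))) →
  (∀ p ∈ L, ∀ x ∈ p.2, ∀ i, i < s.n → x ≠ f i) →
  (∀ p ∈ L, ∀ i, tb p.1.cl i = true → i < s.n → ∀ x ∈ p.2, ¬ G.Adj (f i) x) →
  L.Pairwise (fun p q => ∀ x ∈ p.2, ∀ y ∈ q.2, x ≠ y ∧ ¬ G.Adj x y) →
  (∀ j ∈ i :: l, tb m j = true) → chn s m i l sg = true →
  ∃ M, IPt G (f i :: M) ∧ (∀ x, x ∈ f i :: M ↔ (∃ j ∈ i :: l, x = f j) ∨ ∃ p ∈ L, x ∈ p.2) ∧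
    (∀ j, (i :: l).getLast? = some j → (f i :: M).getLast? = some (f j)) ∧ (∀ j ∈ l, j < s.n) ∧
    ∀ p ∈ L, p.1.u ∈ i :: l ∧ p.1.w ∈ i :: l ∧
      ∀ k, tb m k = true → k ≠ p.1.u → k ≠ p.1.w → tb p.1.cl k = true

/-- wheel leaf -/
def ST_WHE : Prop := ∀ (V : Type) (G : SimpleGraph V) (s : Sk) (f : ℕ → V)
    (L : List (Seg × List V)) (h r i : ℕ) (l : List ℕ), Mod G s f L → Cov s f L →
  whl s h r i l = true → Wh G

/-- ladder leaf -/
def ST_LDE : Prop := ∀ (V : Type) (G : SimpleGraph V) (s : Sk) (f : ℕ → V)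
    (L : List (Seg × List V)) (c h k i : ℕ) (l : List ℕ), Mod G s f L → Cov s f L →
  ldr s c h k i l = true → Ld G

/-- table operations -/
def ST_TAP : Prop := ∀ (V : Type) (G : SimpleGraph V) (t t' : TS) (f : ℕ → V)
    (L : List (Seg × List V)) (o : TOp), ModA G (Al t) t.s f L → CovA (Al t) f L →
  tap o t = some t' → ∃ L', ModA G (Al t') t'.s f L' ∧ CovA (Al t') f L'

/-- final comparison -/
def ST_FIN : Prop := ∀ (V : Type) (G : SimpleGraph V) (t : TS) (f : ℕ → V)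
    (L : List (Seg × List V)) (T : Ent) (p : List ℕ), ModA G (Al t) t.s f L → CovA (Al t) f L →
  fin T t p = true → Real G T

/-- soundness of the checker -/
def ST_SND : Prop := ∀ (V : Type) (G : SimpleGraph V) (tb0 : List Ent) (cv : Bool) (t : Tr)
    (s : Sk) (f : ℕ → V) (L : List (Seg × List V)), Red G → Mod G s f L →
  (cv = true → Cov s f L) → chk tb0 cv t s = true → cv = true ∧ Out G tb0

/-- a certificate gives the covering -/
def ST_COV : Prop := ∀ (V : Type) (G : SimpleGraph V) (s : Sk) (f : ℕ → V)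
    (L : List (Seg × List V)) (k m : ℕ), Red G → Mod G s f L → crt s 32 k m 0 = true → Cov s f L

/-- the engine -/
def ST_ENG : Prop := ∀ (V : Type) (G : SimpleGraph V) (tb0 : List Ent) (t : Tr)
    (s : Sk) (f : ℕ → V) (L : List (Seg × List V)) (k m : ℕ), Red G → Mod G s f L →
  crt s 32 k m 0 = true → chk tb0 true t s = true → Out G tb0

end Pool.Agent.Helper64.FL
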