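import Pool.Agent.Helper64.FL.Eng

set_option autoImplicit false

namespace Pool.Agent.Helper64.FL

def table : List Ent := [
  ⟨9, [(0, 6), (1, 7), (2, 7), (3, 8), (4, 8), (5, 8), (6, 7), (6, 8), (7, 8)], [(0, 3), (1, 4), (2, 5)]⟩,
  ⟨8, [(0, 6), (1, 7), (2, 6), (3, 6), (4, 7), (5, 7), (6, 7)], [(0, 1), (2, 4), (3, 5)]⟩,
  ⟨8, [(0, 3), (0, 7), (1, 4), (1, 7), (2, 5), (2, 7), (3, 6), (3, 7), (4, 6), (4, 7), (5, 6), (5, 7)], []⟩,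
  ⟨9, [(0, 4), (1, 8), (2, 5), (2, 8), (3, 6), (3, 8), (4, 7), (4, 8), (5, 7), (5, 8), (6, 7), (6, 8)], [(0, 1)]⟩,
  ⟨10, [(0, 5), (1, 6), (2, 9), (3, 9), (4, 7), (4, 9), (5, 8), (5, 9), (6, 8), (6, 9), (7, 8), (7, 9)], [(0, 2), (1, 3)]⟩,
  ⟨11, [(0, 6), (1, 7), (2, 8), (3, 10), (4, 10), (5, 10), (6, 9), (6, 10), (7, 9), (7, 10), (8, 9), (8, 10)], [(0, 3), (1, 4), (2, 5)]⟩,
  ⟨8, [(0, 4), (1, 7), (2, 5), (2, 7), (3, 6), (3, 7), (4, 5), (4, 6), (5, 7), (6, 7)], [(0, 1)]⟩,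
  ⟨9, [(0, 5), (1, 6), (2, 8), (3, 8), (4, 7), (4, 8), (5, 6), (5, 7), (6, 8), (7, 8)], [(0, 2), (1, 3)]⟩,
  ⟨10, [(0, 6), (1, 7), (2, 8), (3, 9), (4, 9), (5, 9), (6, 7), (6, 8), (7, 9), (8, 9)], [(0, 3), (1, 4), (2, 5)]⟩,
  ⟨8, [(0, 5), (1, 5), (2, 7), (3, 7), (4, 6), (4, 7), (5, 6), (6, 7)], [(0, 2), (1, 3)]⟩,
  ⟨9, [(0, 6), (1, 6), (2, 7), (3, 8), (4, 8), (5, 8), (6, 7), (7, 8)], [(0, 3), (1, 4), (2, 5)]⟩,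
  ⟨8, [(0, 6), (1, 7), (2, 6), (3, 6), (4, 7), (5, 7)], [(0, 1), (2, 4), (3, 5)]⟩,
  ⟨10, [(0, 6), (1, 7), (2, 8), (3, 9), (4, 9), (5, 9), (6, 7), (6, 8), (6, 9), (7, 8), (7, 9), (8, 9)], [(0, 3), (1, 4), (2, 5)]⟩,
  ⟨7, [(0, 3), (0, 5), (1, 4), (1, 5), (2, 5), (2, 6), (3, 4), (3, 6), (4, 6), (5, 6)], []⟩,
  ⟨8, [(0, 6), (1, 7), (2, 4), (2, 6), (3, 5), (3, 6), (4, 5), (4, 7), (5, 7), (6, 7)], [(0, 1)]⟩,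
  ⟨8, [(0, 4), (1, 6), (2, 5), (2, 6), (3, 6), (3, 7), (4, 5), (4, 7), (5, 7), (6, 7)], [(0, 1)]⟩,
  ⟨9, [(0, 5), (1, 7), (2, 7), (3, 8), (4, 6), (4, 7), (5, 6), (5, 8), (6, 8), (7, 8)], [(0, 1), (2, 3)]⟩,
  ⟨9, [(0, 5), (1, 6), (2, 7), (3, 7), (4, 7), (4, 8), (5, 6), (5, 8), (6, 8), (7, 8)], [(0, 2), (1, 3)]⟩,
  ⟨10, [(0, 6), (1, 7), (2, 8), (3, 8), (4, 8), (5, 9), (6, 7), (6, 9), (7, 9), (8, 9)], [(0, 2), (1, 3), (4, 5)]⟩,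
  ⟨7, [(0, 3), (0, 4), (1, 3), (1, 5), (2, 3), (2, 6), (4, 5), (4, 6), (5, 6)], []⟩,
  ⟨8, [(0, 4), (1, 5), (2, 4), (2, 6), (3, 4), (3, 7), (5, 6), (5, 7), (6, 7)], [(0, 1)]⟩,
  ⟨9, [(0, 5), (1, 5), (2, 6), (3, 7), (4, 5), (4, 8), (6, 7), (6, 8), (7, 8)], [(0, 2), (1, 3)]⟩,
  ⟨10, [(0, 6), (1, 6), (2, 6), (3, 7), (4, 8), (5, 9), (7, 8), (7, 9), (8, 9)], [(0, 3), (1, 4), (2, 5)]⟩,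
  ⟨11, [(0, 5), (1, 7), (2, 6), (2, 8), (3, 5), (3, 10), (4, 6), (4, 10), (5, 9), (6, 9), (7, 8), (7, 10), (8, 10), (9, 10)], [(0, 1)]⟩,
  ⟨12, [(0, 6), (1, 7), (2, 8), (3, 9), (4, 6), (4, 11), (5, 7), (5, 11), (6, 10), (7, 10), (8, 9), (8, 11), (9, 11), (10, 11)], [(0, 2), (1, 3)]⟩,
  ⟨11, [(0, 6), (1, 7), (2, 8), (3, 8), (4, 6), (4, 10), (5, 7), (5, 10), (6, 9), (7, 9), (8, 10), (9, 10)], [(0, 2), (1, 3)]⟩,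
  ⟨11, [(0, 5), (1, 6), (2, 5), (2, 7), (3, 8), (3, 9), (4, 5), (4, 10), (6, 8), (6, 10), (7, 9), (7, 10), (8, 10), (9, 10)], [(0, 1)]⟩,
  ⟨12, [(0, 6), (1, 6), (2, 7), (3, 8), (4, 9), (4, 10), (5, 6), (5, 11), (7, 9), (7, 11), (8, 10), (8, 11), (9, 11), (10, 11)], [(0, 2), (1, 3)]⟩,
  ⟨12, [(0, 6), (1, 7), (2, 8), (3, 9), (4, 6), (4, 10), (5, 6), (5, 11), (7, 8), (7, 11), (8, 11), (9, 10), (9, 11), (10, 11)], [(0, 1), (2, 3)]⟩,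
  ⟨13, [(0, 7), (1, 7), (2, 8), (3, 9), (4, 10), (5, 11), (6, 7), (6, 12), (8, 10), (8, 12), (9, 11), (9, 12), (10, 12), (11, 12)], [(0, 2), (1, 3), (4, 5)]⟩,
  ⟨11, [(0, 6), (1, 6), (2, 7), (3, 8), (4, 7), (4, 9), (5, 6), (5, 10), (7, 10), (8, 9), (8, 10), (9, 10)], [(0, 2), (1, 3)]⟩,
  ⟨12, [(0, 7), (1, 7), (2, 8), (3, 8), (4, 9), (5, 10), (6, 7), (6, 11), (8, 11), (9, 10), (9, 11), (10, 11)], [(0, 2), (1, 4), (3, 5)]⟩,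
  ⟨11, [(0, 6), (1, 7), (2, 5), (2, 8), (3, 5), (3, 9), (4, 5), (4, 10), (6, 8), (6, 10), (7, 9), (7, 10), (8, 10), (9, 10)], [(0, 1)]⟩,
  ⟨11, [(0, 6), (1, 7), (2, 7), (3, 8), (4, 6), (4, 9), (5, 6), (5, 10), (7, 10), (8, 9), (8, 10), (9, 10)], [(0, 1), (2, 3)]⟩,
  ⟨11, [(0, 7), (1, 7), (2, 8), (3, 9), (4, 8), (5, 9), (6, 7), (6, 10), (8, 10), (9, 10)], [(0, 2), (1, 3), (4, 5)]⟩,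
  ⟨10, [(0, 4), (1, 5), (2, 6), (2, 7), (3, 4), (3, 9), (4, 8), (5, 6), (5, 9), (6, 9), (7, 8), (7, 9), (8, 9)], [(0, 1)]⟩,
  ⟨11, [(0, 5), (1, 6), (2, 7), (3, 8), (4, 5), (4, 10), (5, 9), (6, 7), (6, 10), (7, 10), (8, 9), (8, 10), (9, 10)], [(0, 1), (2, 3)]⟩,
  ⟨10, [(0, 5), (1, 7), (2, 5), (2, 6), (3, 6), (3, 8), (4, 5), (4, 9), (6, 9), (7, 8), (7, 9), (8, 9)], [(0, 1)]⟩,
  ⟨11, [(0, 6), (1, 7), (2, 8), (3, 9), (4, 6), (4, 7), (5, 6), (5, 10), (7, 10), (8, 9), (8, 10), (9, 10)], [(0, 2), (1, 3)]⟩,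
  ⟨10, [(0, 4), (0, 5), (1, 4), (1, 6), (2, 7), (2, 8), (3, 4), (3, 9), (5, 7), (5, 9), (6, 8), (6, 9), (7, 9), (8, 9)], []⟩,
  ⟨10, [(0, 5), (1, 6), (2, 4), (2, 7), (3, 4), (3, 9), (4, 8), (5, 7), (5, 9), (6, 8), (6, 9), (7, 9), (8, 9)], [(0, 1)]⟩,
  ⟨10, [(0, 6), (1, 7), (2, 5), (2, 6), (3, 5), (3, 8), (4, 5), (4, 9), (6, 9), (7, 8), (7, 9), (8, 9)], [(0, 1)]⟩,
  ⟨10, [(0, 5), (1, 6), (2, 5), (2, 7), (3, 6), (3, 8), (4, 5), (4, 9), (6, 9), (7, 8), (7, 9), (8, 9)], [(0, 1)]⟩,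
  ⟨10, [(0, 5), (1, 6), (2, 6), (3, 7), (4, 5), (4, 9), (5, 8), (6, 9), (7, 8), (7, 9), (8, 9)], [(0, 1), (2, 3)]⟩,
  ⟨10, [(0, 6), (1, 7), (2, 7), (3, 8), (4, 6), (4, 8), (5, 6), (5, 9), (7, 9), (8, 9)], [(0, 1), (2, 3)]⟩,
  ⟨10, [(0, 4), (1, 6), (2, 4), (2, 9), (3, 5), (3, 9), (4, 7), (5, 7), (5, 8), (6, 8), (6, 9), (7, 9), (8, 9)], [(0, 1)]⟩,
  ⟨10, [(0, 4), (0, 6), (1, 5), (1, 7), (2, 4), (2, 9), (3, 5), (3, 9), (4, 8), (5, 8), (6, 7), (6, 9), (7, 9), (8, 9)], []⟩,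
  ⟨10, [(0, 5), (1, 7), (2, 6), (2, 7), (3, 5), (3, 9), (4, 6), (4, 9), (5, 8), (6, 8), (7, 9), (8, 9)], [(0, 1)]⟩,
  ⟨10, [(0, 4), (1, 5), (2, 4), (2, 9), (3, 6), (3, 8), (4, 8), (5, 7), (5, 9), (6, 7), (6, 9), (7, 8), (8, 9)], [(0, 1)]⟩,
  ⟨11, [(0, 5), (1, 6), (2, 7), (3, 9), (4, 5), (4, 10), (5, 9), (6, 8), (6, 10), (7, 8), (7, 10), (8, 9), (9, 10)], [(0, 1), (2, 3)]⟩,
  ⟨10, [(0, 6), (1, 6), (2, 7), (3, 8), (4, 6), (4, 9), (5, 7), (5, 8), (7, 9), (8, 9)], [(0, 2), (1, 3)]⟩,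
  ⟨9, [(0, 3), (0, 4), (1, 5), (1, 6), (2, 3), (2, 8), (3, 7), (4, 5), (4, 8), (5, 8), (6, 7), (6, 8), (7, 8)], []⟩,
  ⟨9, [(0, 4), (0, 5), (1, 4), (1, 6), (2, 5), (2, 7), (3, 4), (3, 8), (5, 8), (6, 7), (6, 8), (7, 8)], []⟩,
  ⟨9, [(0, 4), (1, 5), (2, 5), (2, 6), (3, 4), (3, 8), (4, 7), (5, 8), (6, 7), (6, 8), (7, 8)], [(0, 1)]⟩,
  ⟨9, [(0, 3), (0, 4), (1, 3), (1, 5), (2, 3), (2, 6), (4, 5), (4, 7), (5, 8), (6, 7), (6, 8), (7, 8)], []⟩,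
  ⟨10, [(0, 4), (1, 5), (2, 4), (2, 6), (3, 4), (3, 7), (5, 8), (5, 9), (6, 7), (6, 8), (7, 9), (8, 9)], [(0, 1)]⟩,
  ⟨9, [(0, 5), (1, 6), (2, 5), (2, 7), (3, 5), (3, 8), (4, 6), (4, 7), (6, 8), (7, 8)], [(0, 1)]⟩,
  ⟨10, [(0, 2), (0, 3), (1, 4), (1, 5), (2, 6), (2, 7), (3, 4), (3, 9), (4, 9), (5, 8), (5, 9), (6, 7), (6, 8), (7, 9), (8, 9)], []⟩,
  ⟨11, [(0, 3), (1, 4), (2, 5), (2, 6), (3, 7), (3, 8), (4, 5), (4, 10), (5, 10), (6, 9), (6, 10), (7, 8), (7, 9), (8, 10), (9, 10)], [(0, 1)]⟩,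
  ⟨11, [(0, 3), (0, 5), (1, 4), (1, 6), (2, 7), (2, 8), (3, 4), (3, 9), (4, 9), (5, 7), (5, 10), (6, 8), (6, 10), (7, 10), (8, 10), (9, 10)], []⟩,
  ⟨12, [(0, 4), (1, 6), (2, 5), (2, 7), (3, 8), (3, 9), (4, 5), (4, 10), (5, 10), (6, 8), (6, 11), (7, 9), (7, 11), (8, 11), (9, 11), (10, 11)], [(0, 1)]⟩,
  ⟨13, [(0, 5), (1, 6), (2, 7), (3, 8), (4, 9), (4, 10), (5, 6), (5, 11), (6, 11), (7, 9), (7, 12), (8, 10), (8, 12), (9, 12), (10, 12), (11, 12)], [(0, 2), (1, 3)]⟩,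
  ⟨11, [(0, 4), (1, 5), (2, 3), (2, 6), (3, 7), (3, 8), (4, 6), (4, 10), (5, 9), (5, 10), (6, 10), (7, 8), (7, 9), (8, 10), (9, 10)], [(0, 1)]⟩,
  ⟨12, [(0, 6), (1, 7), (2, 4), (2, 8), (3, 5), (3, 9), (4, 5), (4, 10), (5, 10), (6, 8), (6, 11), (7, 9), (7, 11), (8, 11), (9, 11), (10, 11)], [(0, 1)]⟩,
  ⟨13, [(0, 5), (1, 7), (2, 8), (3, 9), (4, 6), (4, 10), (5, 6), (5, 11), (6, 11), (7, 8), (7, 12), (8, 12), (9, 10), (9, 12), (10, 12), (11, 12)], [(0, 1), (2, 3)]⟩,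
  ⟨12, [(0, 4), (1, 5), (2, 6), (3, 7), (4, 8), (4, 9), (5, 6), (5, 11), (6, 11), (7, 10), (7, 11), (8, 9), (8, 10), (9, 11), (10, 11)], [(0, 1), (2, 3)]⟩,
  ⟨14, [(0, 6), (1, 7), (2, 8), (3, 9), (4, 10), (5, 11), (6, 7), (6, 12), (7, 12), (8, 10), (8, 13), (9, 11), (9, 13), (10, 13), (11, 13), (12, 13)], [(0, 2), (1, 3), (4, 5)]⟩,
  ⟨10, [(0, 2), (1, 3), (2, 6), (2, 9), (3, 7), (3, 9), (4, 5), (4, 6), (4, 8), (5, 7), (5, 8), (6, 9), (7, 9), (8, 9)], [(0, 1)]⟩,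
  ⟨10, [(0, 3), (1, 5), (2, 3), (2, 4), (3, 9), (4, 6), (4, 7), (5, 8), (5, 9), (6, 7), (6, 8), (7, 9), (8, 9)], [(0, 1)]⟩,
  ⟨11, [(0, 4), (1, 4), (2, 5), (3, 6), (4, 10), (5, 7), (5, 8), (6, 9), (6, 10), (7, 8), (7, 9), (8, 10), (9, 10)], [(0, 2), (1, 3)]⟩,
  ⟨10, [(0, 3), (0, 4), (1, 3), (1, 6), (2, 5), (2, 7), (3, 9), (4, 5), (4, 8), (5, 8), (6, 7), (6, 9), (7, 9), (8, 9)], []⟩,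
  ⟨11, [(0, 4), (1, 5), (2, 4), (2, 7), (3, 6), (3, 8), (4, 10), (5, 6), (5, 9), (6, 9), (7, 8), (7, 10), (8, 10), (9, 10)], [(0, 1)]⟩,
  ⟨11, [(0, 4), (1, 7), (2, 4), (2, 5), (3, 6), (3, 8), (4, 10), (5, 6), (5, 9), (6, 9), (7, 8), (7, 10), (8, 10), (9, 10)], [(0, 1)]⟩,
  ⟨12, [(0, 5), (1, 5), (2, 6), (3, 8), (4, 7), (4, 9), (5, 11), (6, 7), (6, 10), (7, 10), (8, 9), (8, 11), (9, 11), (10, 11)], [(0, 2), (1, 3)]⟩,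
  ⟨11, [(0, 5), (1, 7), (2, 4), (2, 6), (3, 4), (3, 8), (4, 10), (5, 6), (5, 9), (6, 9), (7, 8), (7, 10), (8, 10), (9, 10)], [(0, 1)]⟩,
  ⟨12, [(0, 5), (1, 6), (2, 7), (3, 8), (4, 5), (4, 9), (5, 11), (6, 7), (6, 10), (7, 10), (8, 9), (8, 11), (9, 11), (10, 11)], [(0, 1), (2, 3)]⟩,
  ⟨12, [(0, 5), (1, 6), (2, 8), (3, 9), (4, 5), (4, 7), (5, 11), (6, 7), (6, 10), (7, 10), (8, 9), (8, 11), (9, 11), (10, 11)], [(0, 2), (1, 3)]⟩,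
  ⟨13, [(0, 6), (1, 6), (2, 7), (3, 8), (4, 9), (5, 10), (6, 12), (7, 8), (7, 11), (8, 11), (9, 10), (9, 12), (10, 12), (11, 12)], [(0, 2), (1, 4), (3, 5)]⟩,
  ⟨10, [(0, 4), (1, 5), (2, 4), (2, 6), (3, 5), (3, 7), (4, 8), (5, 8), (6, 7), (6, 9), (7, 9), (8, 9)], [(0, 1)]⟩,
  ⟨11, [(0, 5), (1, 6), (2, 5), (3, 7), (4, 6), (4, 8), (5, 9), (6, 9), (7, 8), (7, 10), (8, 10), (9, 10)], [(0, 1), (2, 3)]⟩,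
  ⟨12, [(0, 6), (1, 7), (2, 6), (3, 7), (4, 8), (5, 9), (6, 10), (7, 10), (8, 9), (8, 11), (9, 11), (10, 11)], [(0, 1), (2, 4), (3, 5)]⟩,
  ⟨9, [(0, 1), (0, 2), (1, 5), (1, 8), (2, 6), (2, 8), (3, 4), (3, 5), (3, 7), (4, 6), (4, 7), (5, 8), (6, 8), (7, 8)], []⟩,
  ⟨10, [(0, 3), (1, 4), (2, 5), (2, 6), (3, 7), (3, 8), (4, 7), (4, 9), (5, 7), (5, 8), (6, 8), (6, 9), (7, 9), (8, 9)], [(0, 1)]⟩,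
  ⟨11, [(0, 4), (1, 5), (2, 6), (3, 7), (4, 8), (4, 9), (5, 8), (5, 9), (6, 8), (6, 10), (7, 9), (7, 10), (8, 10), (9, 10)], [(0, 2), (1, 3)]⟩,
  ⟨9, [(0, 3), (1, 5), (2, 4), (2, 7), (3, 6), (3, 8), (4, 6), (4, 8), (5, 7), (5, 8), (6, 7), (7, 8)], [(0, 1)]⟩,
  ⟨10, [(0, 4), (1, 6), (2, 5), (3, 8), (4, 7), (4, 9), (5, 7), (5, 9), (6, 8), (6, 9), (7, 8), (8, 9)], [(0, 1), (2, 3)]⟩,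
  ⟨10, [(0, 2), (0, 4), (1, 3), (1, 5), (2, 6), (2, 8), (3, 7), (3, 9), (4, 8), (4, 9), (5, 8), (5, 9), (6, 7), (6, 8), (7, 9)], []⟩,
  ⟨11, [(0, 3), (1, 5), (2, 4), (2, 6), (3, 7), (3, 9), (4, 8), (4, 10), (5, 9), (5, 10), (6, 9), (6, 10), (7, 8), (7, 9), (8, 10)], [(0, 1)]⟩,
  ⟨12, [(0, 4), (1, 5), (2, 6), (3, 7), (4, 8), (4, 10), (5, 9), (5, 11), (6, 10), (6, 11), (7, 10), (7, 11), (8, 9), (8, 10), (9, 11)], [(0, 2), (1, 3)]⟩,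
  ⟨9, [(0, 2), (0, 3), (1, 4), (1, 5), (2, 6), (2, 7), (3, 6), (3, 8), (4, 6), (4, 8), (5, 7), (5, 8), (7, 8)], []⟩,
  ⟨10, [(0, 4), (1, 5), (2, 3), (2, 6), (3, 7), (3, 8), (4, 7), (4, 9), (5, 8), (5, 9), (6, 7), (6, 9), (8, 9)], [(0, 1)]⟩,
  ⟨10, [(0, 3), (1, 4), (2, 5), (2, 6), (3, 7), (3, 8), (4, 7), (4, 9), (5, 7), (5, 9), (6, 8), (6, 9), (8, 9)], [(0, 1)]⟩,
  ⟨11, [(0, 4), (1, 5), (2, 6), (3, 7), (4, 8), (4, 9), (5, 8), (5, 10), (6, 8), (6, 10), (7, 9), (7, 10), (9, 10)], [(0, 1), (2, 3)]⟩,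
  ⟨9, [(0, 2), (1, 3), (2, 4), (2, 8), (3, 6), (3, 8), (4, 5), (4, 7), (5, 6), (5, 7), (6, 8), (7, 8)], [(0, 1)]⟩,
  ⟨11, [(0, 3), (0, 4), (1, 5), (1, 7), (2, 6), (2, 8), (3, 5), (3, 9), (4, 6), (4, 10), (5, 9), (6, 10), (7, 9), (7, 10), (8, 9), (8, 10)], []⟩,
  ⟨12, [(0, 4), (1, 8), (2, 5), (2, 6), (3, 7), (3, 9), (4, 5), (4, 10), (5, 10), (6, 7), (6, 11), (7, 11), (8, 10), (8, 11), (9, 10), (9, 11)], [(0, 1)]⟩,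
  ⟨13, [(0, 5), (1, 6), (2, 9), (3, 10), (4, 7), (4, 8), (5, 7), (5, 11), (6, 8), (6, 12), (7, 11), (8, 12), (9, 11), (9, 12), (10, 11), (10, 12)], [(0, 2), (1, 3)]⟩,
  ⟨9, [(0, 2), (0, 3), (1, 4), (1, 5), (2, 6), (2, 7), (3, 4), (3, 8), (4, 8), (5, 6), (5, 8), (6, 7), (7, 8)], []⟩,
  ⟨10, [(0, 3), (0, 4), (1, 3), (1, 6), (2, 5), (2, 7), (3, 8), (4, 5), (4, 9), (5, 9), (6, 8), (6, 9), (7, 8), (7, 9)], []⟩,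
  ⟨11, [(0, 4), (1, 5), (2, 4), (2, 6), (3, 7), (3, 8), (4, 9), (5, 9), (5, 10), (6, 7), (6, 10), (7, 10), (8, 9), (8, 10)], [(0, 1)]⟩,
  ⟨10, [(0, 4), (1, 5), (2, 3), (2, 6), (3, 7), (3, 8), (4, 6), (4, 9), (5, 7), (5, 9), (6, 9), (7, 8), (8, 9)], [(0, 1)]⟩,
  ⟨11, [(0, 5), (1, 6), (2, 4), (2, 7), (3, 4), (3, 8), (4, 9), (5, 7), (5, 10), (6, 9), (6, 10), (7, 10), (8, 9), (8, 10)], [(0, 1)]⟩,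
  ⟨12, [(0, 5), (1, 7), (2, 6), (3, 8), (4, 5), (4, 9), (5, 10), (6, 9), (6, 11), (7, 10), (7, 11), (8, 10), (8, 11), (9, 11)], [(0, 1), (2, 3)]⟩,
  ⟨13, [(0, 5), (1, 7), (2, 6), (3, 9), (4, 8), (4, 10), (5, 6), (5, 11), (6, 11), (7, 8), (7, 12), (8, 12), (9, 11), (9, 12), (10, 11), (10, 12)], [(0, 1), (2, 3)]⟩,
  ⟨14, [(0, 6), (1, 7), (2, 8), (3, 9), (4, 10), (5, 11), (6, 8), (6, 12), (7, 9), (7, 13), (8, 12), (9, 13), (10, 12), (10, 13), (11, 12), (11, 13)], [(0, 1), (2, 4), (3, 5)]⟩,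
  ⟨11, [(0, 4), (1, 5), (2, 6), (3, 7), (4, 8), (4, 9), (5, 6), (5, 10), (6, 10), (7, 8), (7, 10), (8, 9), (9, 10)], [(0, 1), (2, 3)]⟩,
  ⟨12, [(0, 5), (1, 6), (2, 7), (3, 8), (4, 5), (4, 9), (5, 10), (6, 7), (6, 11), (7, 11), (8, 10), (8, 11), (9, 10), (9, 11)], [(0, 1), (2, 3)]⟩,
  ⟨13, [(0, 6), (1, 6), (2, 7), (3, 9), (4, 8), (5, 10), (6, 11), (7, 8), (7, 12), (8, 12), (9, 11), (9, 12), (10, 11), (10, 12)], [(0, 2), (1, 3), (4, 5)]⟩,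
  ⟨12, [(0, 4), (1, 5), (2, 6), (2, 8), (3, 7), (3, 9), (4, 6), (4, 10), (5, 7), (5, 11), (6, 10), (7, 11), (8, 10), (8, 11), (9, 10), (9, 11)], [(0, 1)]⟩,
  ⟨10, [(0, 3), (1, 4), (2, 5), (2, 6), (3, 7), (3, 8), (4, 5), (4, 9), (5, 9), (6, 7), (6, 9), (7, 8), (8, 9)], [(0, 1)]⟩,
  ⟨11, [(0, 4), (1, 5), (2, 4), (2, 7), (3, 6), (3, 8), (4, 9), (5, 6), (5, 10), (6, 10), (7, 9), (7, 10), (8, 9), (8, 10)], [(0, 1)]⟩,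
  ⟨12, [(0, 5), (1, 5), (2, 6), (3, 7), (4, 8), (4, 9), (5, 10), (6, 8), (6, 11), (7, 10), (7, 11), (8, 11), (9, 10), (9, 11)], [(0, 2), (1, 3)]⟩,
  ⟨9, [(0, 2), (0, 3), (1, 2), (1, 4), (2, 8), (3, 5), (3, 6), (4, 7), (4, 8), (5, 6), (5, 7), (6, 8), (7, 8)], []⟩,
  ⟨10, [(0, 3), (1, 4), (2, 3), (2, 5), (3, 9), (4, 6), (4, 7), (5, 8), (5, 9), (6, 7), (6, 8), (7, 9), (8, 9)], [(0, 1)]⟩,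
  ⟨9, [(0, 2), (1, 3), (2, 4), (2, 8), (3, 5), (3, 8), (4, 5), (4, 6), (5, 7), (6, 7), (6, 8), (7, 8)], [(0, 1)]⟩,
  ⟨10, [(0, 3), (1, 4), (2, 5), (2, 6), (3, 7), (3, 9), (4, 8), (4, 9), (5, 7), (5, 9), (6, 8), (6, 9), (7, 8)], [(0, 1)]⟩,
  ⟨11, [(0, 4), (1, 5), (2, 6), (3, 7), (4, 8), (4, 10), (5, 9), (5, 10), (6, 8), (6, 10), (7, 9), (7, 10), (8, 9)], [(0, 1), (2, 3)]⟩,
  ⟨9, [(0, 3), (0, 4), (1, 3), (1, 5), (2, 4), (2, 6), (3, 7), (4, 7), (5, 6), (5, 8), (6, 8), (7, 8)], []⟩,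
  ⟨10, [(0, 4), (1, 6), (2, 4), (2, 5), (3, 5), (3, 7), (4, 8), (5, 8), (6, 7), (6, 9), (7, 9), (8, 9)], [(0, 1)]⟩,
  ⟨11, [(0, 5), (1, 6), (2, 7), (3, 8), (4, 5), (4, 6), (5, 9), (6, 9), (7, 8), (7, 10), (8, 10), (9, 10)], [(0, 2), (1, 3)]⟩,
  ⟨9, [(0, 2), (0, 3), (1, 4), (1, 5), (2, 6), (2, 8), (3, 7), (3, 8), (4, 6), (4, 8), (5, 7), (5, 8), (6, 7)], []⟩,
  ⟨9, [(0, 3), (1, 4), (2, 5), (2, 6), (3, 5), (3, 7), (4, 7), (4, 8), (5, 8), (6, 7), (6, 8)], [(0, 1)]⟩,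
  ⟨10, [(0, 4), (1, 5), (2, 6), (3, 7), (4, 5), (4, 8), (5, 9), (6, 8), (6, 9), (7, 8), (7, 9)], [(0, 2), (1, 3)]⟩,
  ⟨9, [(0, 3), (1, 4), (2, 3), (2, 5), (3, 6), (4, 6), (4, 7), (5, 7), (5, 8), (6, 8), (7, 8)], [(0, 1)]⟩,
  ⟨10, [(0, 4), (1, 6), (2, 4), (2, 5), (3, 5), (3, 7), (4, 8), (5, 9), (6, 8), (6, 9), (7, 8), (7, 9)], [(0, 1)]⟩,
  ⟨11, [(0, 5), (1, 6), (2, 7), (3, 8), (4, 5), (4, 6), (5, 9), (6, 10), (7, 9), (7, 10), (8, 9), (8, 10)], [(0, 2), (1, 3)]⟩,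
  ⟨10, [(0, 4), (1, 4), (2, 5), (3, 6), (4, 7), (5, 7), (5, 8), (6, 8), (6, 9), (7, 9), (8, 9)], [(0, 2), (1, 3)]⟩,
  ⟨11, [(0, 5), (1, 6), (2, 5), (3, 7), (4, 6), (4, 8), (5, 9), (6, 10), (7, 9), (7, 10), (8, 9), (8, 10)], [(0, 1), (2, 3)]⟩,
  ⟨12, [(0, 6), (1, 7), (2, 6), (3, 7), (4, 8), (5, 9), (6, 10), (7, 11), (8, 10), (8, 11), (9, 10), (9, 11)], [(0, 1), (2, 4), (3, 5)]⟩,
  ⟨9, [(0, 4), (1, 5), (2, 3), (2, 8), (3, 6), (3, 7), (4, 6), (4, 8), (5, 7), (5, 8), (6, 8), (7, 8)], [(0, 1)]⟩,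
  ⟨9, [(0, 5), (1, 6), (2, 4), (2, 5), (3, 4), (3, 8), (4, 7), (5, 8), (6, 7), (6, 8), (7, 8)], [(0, 1)]⟩,
  ⟨9, [(0, 6), (1, 7), (2, 5), (2, 6), (3, 5), (3, 7), (4, 5), (4, 8), (6, 8), (7, 8)], [(0, 1)]⟩,
  ⟨8, [(0, 1), (0, 2), (1, 3), (1, 7), (2, 5), (2, 7), (3, 4), (3, 6), (4, 5), (4, 6), (5, 7), (6, 7)], []⟩,
  ⟨9, [(0, 2), (0, 4), (1, 3), (1, 5), (2, 6), (2, 7), (3, 6), (3, 7), (4, 6), (4, 8), (5, 7), (5, 8), (6, 8), (7, 8)], []⟩,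
  ⟨8, [(0, 2), (0, 4), (1, 3), (1, 6), (2, 5), (2, 7), (3, 5), (3, 7), (4, 6), (4, 7), (5, 6), (6, 7)], []⟩,
  ⟨9, [(0, 3), (1, 7), (2, 4), (2, 5), (3, 6), (3, 8), (4, 6), (4, 8), (5, 7), (5, 8), (6, 7), (7, 8)], [(0, 1)]⟩,
  ⟨8, [(0, 1), (0, 2), (1, 3), (1, 7), (2, 4), (2, 7), (3, 4), (3, 5), (4, 6), (5, 6), (5, 7), (6, 7)], []⟩,
  ⟨8, [(0, 1), (0, 2), (0, 3), (1, 2), (1, 4), (2, 5), (3, 4), (3, 6), (4, 7), (5, 6), (5, 7), (6, 7)], []⟩,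
  ⟨9, [(0, 1), (0, 2), (1, 3), (1, 4), (2, 5), (2, 6), (3, 4), (3, 7), (4, 8), (5, 6), (5, 7), (6, 8), (7, 8)], []⟩,
  ⟨10, [(0, 2), (1, 3), (2, 4), (2, 5), (3, 6), (3, 7), (4, 5), (4, 8), (5, 9), (6, 7), (6, 8), (7, 9), (8, 9)], [(0, 1)]⟩,
  ⟨8, [(0, 2), (0, 3), (1, 2), (1, 4), (2, 5), (3, 5), (3, 6), (4, 6), (4, 7), (5, 7), (6, 7)], []⟩,
  ⟨9, [(0, 3), (1, 4), (2, 3), (2, 5), (3, 6), (4, 7), (4, 8), (5, 6), (5, 7), (6, 8), (7, 8)], [(0, 1)]⟩,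
  ⟨8, [(0, 2), (1, 3), (2, 4), (2, 5), (3, 4), (3, 6), (4, 7), (5, 6), (5, 7), (6, 7)], [(0, 1)]⟩,
  ⟨8, [(0, 2), (0, 4), (1, 3), (1, 5), (2, 3), (2, 6), (3, 7), (4, 6), (4, 7), (5, 6), (5, 7)], []⟩,
  ⟨9, [(0, 3), (0, 4), (1, 3), (1, 5), (2, 4), (2, 6), (3, 7), (4, 8), (5, 7), (5, 8), (6, 7), (6, 8)], []⟩,
  ⟨10, [(0, 4), (1, 5), (2, 4), (2, 6), (3, 5), (3, 7), (4, 8), (5, 9), (6, 8), (6, 9), (7, 8), (7, 9)], [(0, 1)]⟩,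
  ⟨10, [(0, 4), (1, 5), (2, 4), (2, 9), (3, 5), (3, 9), (4, 7), (5, 8), (6, 7), (6, 8), (6, 9), (7, 8), (7, 9), (8, 9)], [(0, 1)]⟩,
  ⟨10, [(0, 6), (1, 7), (2, 6), (2, 8), (3, 6), (3, 9), (4, 7), (4, 8), (5, 7), (5, 9), (8, 9)], [(0, 1)]⟩,
  ⟨9, [(0, 3), (0, 4), (1, 3), (1, 8), (2, 4), (2, 8), (3, 6), (4, 7), (5, 6), (5, 7), (5, 8), (6, 7), (6, 8), (7, 8)], []⟩,
  ⟨9, [(0, 3), (0, 5), (1, 3), (1, 8), (2, 4), (2, 8), (3, 6), (4, 6), (4, 7), (5, 7), (5, 8), (6, 8), (7, 8)], []⟩,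
  ⟨9, [(0, 4), (0, 6), (1, 5), (1, 6), (2, 4), (2, 8), (3, 5), (3, 8), (4, 7), (5, 7), (6, 8), (7, 8)], []⟩,
  ⟨9, [(0, 3), (0, 4), (1, 3), (1, 5), (2, 4), (2, 5), (3, 6), (4, 7), (5, 8), (6, 7), (6, 8), (7, 8)], []⟩,
  ⟨9, [(0, 5), (0, 6), (1, 5), (1, 7), (2, 5), (2, 8), (3, 6), (3, 7), (4, 6), (4, 8), (7, 8)], []⟩,
  ⟨9, [(0, 3), (0, 4), (1, 3), (1, 8), (2, 5), (2, 7), (3, 7), (4, 6), (4, 8), (5, 6), (5, 8), (6, 7), (7, 8)], []⟩,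
  ⟨10, [(0, 5), (1, 8), (2, 4), (2, 6), (3, 4), (3, 9), (4, 8), (5, 7), (5, 9), (6, 7), (6, 9), (7, 8), (8, 9)], [(0, 1)]⟩,
  ⟨8, [(0, 3), (0, 4), (1, 2), (1, 7), (2, 5), (2, 6), (3, 5), (3, 7), (4, 6), (4, 7), (5, 7), (6, 7)], []⟩,
  ⟨8, [(0, 3), (0, 4), (1, 4), (1, 5), (2, 3), (2, 7), (3, 6), (4, 7), (5, 6), (5, 7), (6, 7)], []⟩,
  ⟨8, [(0, 1), (0, 2), (1, 3), (1, 4), (2, 5), (2, 6), (3, 5), (3, 7), (4, 6), (4, 7), (5, 7), (6, 7)], []⟩,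
  ⟨8, [(0, 2), (0, 3), (1, 2), (1, 4), (2, 5), (3, 4), (3, 6), (4, 7), (5, 6), (5, 7), (6, 7)], []⟩,
  ⟨8, [(0, 4), (0, 5), (1, 4), (1, 6), (2, 4), (2, 7), (3, 5), (3, 6), (5, 7), (6, 7)], []⟩,
  ⟨8, [(0, 1), (0, 2), (0, 5), (1, 3), (1, 6), (2, 4), (2, 7), (3, 4), (3, 7), (4, 6), (5, 6), (5, 7), (6, 7)], []⟩,
  ⟨8, [(0, 1), (0, 2), (0, 3), (1, 4), (1, 5), (2, 4), (2, 6), (3, 5), (3, 7), (4, 7), (5, 6), (6, 7)], []⟩,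
  ⟨9, [(0, 2), (0, 8), (1, 3), (1, 8), (2, 5), (2, 7), (3, 6), (3, 7), (4, 5), (4, 6), (4, 7), (5, 8), (6, 8), (7, 8)], []⟩,
  ⟨10, [(0, 3), (1, 9), (2, 4), (2, 9), (3, 6), (3, 8), (4, 7), (4, 8), (5, 6), (5, 7), (5, 8), (6, 9), (7, 9), (8, 9)], [(0, 1)]⟩,
  ⟨11, [(0, 4), (1, 5), (2, 10), (3, 10), (4, 7), (4, 9), (5, 8), (5, 9), (6, 7), (6, 8), (6, 9), (7, 10), (8, 10), (9, 10)], [(0, 2), (1, 3)]⟩,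
  ⟨7, [(0, 1), (0, 2), (0, 3), (1, 4), (1, 5), (2, 4), (2, 6), (3, 5), (3, 6), (4, 6), (5, 6)], []⟩,
  ⟨7, [(0, 1), (0, 2), (1, 3), (1, 4), (2, 3), (2, 5), (3, 6), (4, 5), (4, 6), (5, 6)], []⟩,
  ⟨11, [(0, 5), (1, 6), (2, 5), (2, 10), (3, 6), (3, 10), (4, 7), (4, 10), (5, 8), (6, 9), (7, 8), (7, 9), (8, 10), (9, 10)], [(0, 1)]⟩,
  ⟨10, [(0, 4), (0, 5), (1, 4), (1, 9), (2, 5), (2, 9), (3, 6), (3, 9), (4, 7), (5, 8), (6, 7), (6, 8), (7, 9), (8, 9)], []⟩,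
  ⟨10, [(0, 6), (0, 7), (1, 6), (1, 8), (2, 6), (2, 9), (3, 7), (3, 8), (4, 7), (4, 9), (5, 8), (5, 9)], []⟩,
  ⟨9, [(0, 3), (0, 8), (1, 4), (1, 8), (2, 5), (2, 8), (3, 4), (3, 6), (4, 7), (5, 6), (5, 7), (6, 8), (7, 8)], []⟩,
  ⟨10, [(0, 4), (1, 9), (2, 5), (2, 9), (3, 6), (3, 9), (4, 7), (4, 8), (5, 6), (5, 7), (6, 8), (7, 9), (8, 9)], [(0, 1)]⟩,
  ⟨8, [(0, 3), (0, 7), (1, 4), (1, 7), (2, 6), (2, 7), (3, 5), (3, 6), (4, 5), (4, 6), (5, 7), (6, 7)], []⟩,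
  ⟨9, [(0, 4), (1, 8), (2, 5), (2, 8), (3, 7), (3, 8), (4, 6), (4, 7), (5, 6), (5, 7), (6, 8), (7, 8)], [(0, 1)]⟩,
  ⟨10, [(0, 5), (1, 6), (2, 9), (3, 9), (4, 8), (4, 9), (5, 7), (5, 8), (6, 7), (6, 8), (7, 9), (8, 9)], [(0, 2), (1, 3)]⟩,
  ⟨10, [(0, 4), (0, 6), (1, 5), (1, 7), (2, 3), (2, 9), (3, 6), (3, 7), (4, 8), (4, 9), (5, 8), (5, 9), (6, 8), (6, 9), (7, 8), (7, 9)], []⟩,
  ⟨11, [(0, 5), (1, 7), (2, 6), (2, 8), (3, 4), (3, 10), (4, 7), (4, 8), (5, 9), (5, 10), (6, 9), (6, 10), (7, 9), (7, 10), (8, 9), (8, 10)], [(0, 1)]⟩,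
  ⟨12, [(0, 6), (1, 7), (2, 8), (3, 9), (4, 5), (4, 11), (5, 8), (5, 9), (6, 10), (6, 11), (7, 10), (7, 11), (8, 10), (8, 11), (9, 10), (9, 11)], [(0, 2), (1, 3)]⟩,
  ⟨9, [(0, 5), (1, 6), (2, 5), (2, 8), (3, 6), (3, 7), (4, 7), (4, 8), (5, 7), (6, 8), (7, 8)], [(0, 1)]⟩,
  ⟨8, [(0, 4), (0, 5), (1, 4), (1, 6), (2, 5), (2, 7), (3, 6), (3, 7), (4, 7), (5, 6), (6, 7)], []⟩,
  ⟨8, [(0, 2), (0, 7), (1, 3), (1, 7), (2, 3), (2, 5), (3, 6), (4, 5), (4, 6), (4, 7), (5, 6), (5, 7), (6, 7)], []⟩,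
  ⟨8, [(0, 4), (0, 5), (1, 4), (1, 6), (2, 5), (2, 7), (3, 6), (3, 7), (4, 7), (5, 6)], []⟩,
  ⟨9, [(0, 6), (1, 7), (2, 5), (2, 8), (3, 6), (3, 8), (4, 7), (4, 8), (5, 6), (5, 7), (6, 8), (7, 8)], [(0, 1)]⟩,
  ⟨10, [(0, 7), (1, 8), (2, 7), (3, 9), (4, 6), (4, 9), (5, 8), (5, 9), (6, 7), (6, 8), (7, 9), (8, 9)], [(0, 1), (2, 3)]⟩,
  ⟨11, [(0, 8), (1, 9), (2, 8), (3, 9), (4, 10), (5, 10), (6, 7), (6, 10), (7, 8), (7, 9), (8, 10), (9, 10)], [(0, 1), (2, 4), (3, 5)]⟩,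
  ⟨9, [(0, 4), (0, 6), (1, 5), (1, 7), (2, 6), (2, 7), (3, 6), (3, 8), (4, 5), (4, 8), (5, 8), (6, 7), (7, 8)], []⟩,
  ⟨10, [(0, 7), (1, 8), (2, 5), (2, 7), (3, 6), (3, 8), (4, 7), (4, 9), (5, 6), (5, 9), (6, 9), (7, 8), (8, 9)], [(0, 1)]⟩,
  ⟨10, [(0, 5), (1, 7), (2, 6), (2, 8), (3, 7), (3, 8), (4, 7), (4, 9), (5, 6), (5, 9), (6, 9), (7, 8), (8, 9)], [(0, 1)]⟩,
  ⟨11, [(0, 6), (1, 8), (2, 8), (3, 9), (4, 7), (4, 9), (5, 8), (5, 10), (6, 7), (6, 10), (7, 10), (8, 9), (9, 10)], [(0, 1), (2, 3)]⟩,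
  ⟨10, [(0, 5), (1, 8), (2, 6), (2, 7), (3, 7), (3, 8), (4, 7), (4, 9), (5, 6), (5, 9), (6, 9), (7, 8), (8, 9)], [(0, 1)]⟩,
  ⟨11, [(0, 6), (1, 9), (2, 8), (3, 9), (4, 7), (4, 8), (5, 8), (5, 10), (6, 7), (6, 10), (7, 10), (8, 9), (9, 10)], [(0, 1), (2, 3)]⟩,
  ⟨11, [(0, 6), (1, 7), (2, 8), (3, 9), (4, 8), (4, 9), (5, 8), (5, 10), (6, 7), (6, 10), (7, 10), (8, 9), (9, 10)], [(0, 2), (1, 3)]⟩,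
  ⟨12, [(0, 7), (1, 8), (2, 9), (3, 10), (4, 9), (5, 10), (6, 9), (6, 11), (7, 8), (7, 11), (8, 11), (9, 10), (10, 11)], [(0, 2), (1, 3), (4, 5)]⟩,
  ⟨9, [(0, 5), (1, 8), (2, 5), (2, 7), (3, 6), (3, 7), (4, 7), (4, 8), (5, 6), (6, 8), (7, 8)], [(0, 1)]⟩,
  ⟨10, [(0, 6), (1, 9), (2, 8), (3, 9), (4, 6), (4, 8), (5, 7), (5, 8), (6, 7), (7, 9), (8, 9)], [(0, 1), (2, 3)]⟩,
  ⟨10, [(0, 6), (1, 6), (2, 8), (3, 9), (4, 7), (4, 8), (5, 8), (5, 9), (6, 7), (7, 9), (8, 9)], [(0, 2), (1, 3)]⟩,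
  ⟨11, [(0, 7), (1, 7), (2, 9), (3, 10), (4, 9), (5, 10), (6, 8), (6, 9), (7, 8), (8, 10), (9, 10)], [(0, 2), (1, 3), (4, 5)]⟩,
  ⟨8, [(0, 4), (0, 7), (1, 5), (1, 6), (2, 5), (2, 7), (3, 6), (3, 7), (4, 5), (4, 6), (5, 7), (6, 7)], []⟩,
  ⟨9, [(0, 6), (1, 8), (2, 5), (2, 8), (3, 6), (3, 7), (4, 7), (4, 8), (5, 6), (5, 7), (6, 8), (7, 8)], [(0, 1)]⟩,
  ⟨10, [(0, 7), (1, 8), (2, 9), (3, 9), (4, 6), (4, 9), (5, 7), (5, 8), (6, 7), (6, 8), (7, 9), (8, 9)], [(0, 2), (1, 3)]⟩,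
  ⟨8, [(0, 4), (0, 6), (1, 4), (1, 7), (2, 5), (2, 6), (3, 6), (3, 7), (4, 5), (5, 7), (6, 7)], []⟩,
  ⟨9, [(0, 7), (1, 8), (2, 5), (2, 7), (3, 5), (3, 8), (4, 6), (4, 7), (5, 6), (6, 8), (7, 8)], [(0, 1)]⟩,
  ⟨9, [(0, 5), (1, 7), (2, 5), (2, 8), (3, 6), (3, 7), (4, 7), (4, 8), (5, 6), (6, 8), (7, 8)], [(0, 1)]⟩,
  ⟨10, [(0, 6), (1, 8), (2, 8), (3, 9), (4, 6), (4, 9), (5, 7), (5, 8), (6, 7), (7, 9), (8, 9)], [(0, 1), (2, 3)]⟩,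
  ⟨10, [(0, 7), (1, 8), (2, 7), (3, 9), (4, 8), (5, 9), (6, 7), (6, 8), (6, 9), (7, 8), (7, 9), (8, 9)], [(0, 1), (2, 3), (4, 5)]⟩,
  ⟨10, [(0, 6), (1, 6), (2, 8), (3, 9), (4, 8), (5, 9), (6, 7), (7, 8), (7, 9), (8, 9)], [(0, 2), (1, 3), (4, 5)]⟩,
  ⟨9, [(0, 5), (1, 7), (2, 7), (3, 8), (4, 5), (4, 8), (5, 6), (6, 7), (6, 8), (7, 8)], [(0, 1), (2, 3)]⟩,
  ⟨8, [(0, 6), (1, 7), (2, 4), (2, 6), (3, 4), (3, 7), (4, 5), (5, 6), (5, 7), (6, 7)], [(0, 1)]⟩,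
  ⟨10, [(0, 4), (1, 5), (2, 9), (3, 9), (4, 6), (4, 7), (5, 6), (5, 8), (6, 9), (7, 8), (7, 9), (8, 9)], [(0, 2), (1, 3)]⟩,
  ⟨9, [(0, 3), (1, 8), (2, 4), (2, 8), (3, 5), (3, 6), (4, 5), (4, 7), (5, 8), (6, 7), (6, 8), (7, 8)], [(0, 1)]⟩,
  ⟨9, [(0, 4), (1, 8), (2, 5), (2, 7), (3, 6), (3, 8), (4, 7), (4, 8), (5, 7), (5, 8), (6, 7), (6, 8)], [(0, 1)]⟩,
  ⟨10, [(0, 5), (1, 6), (2, 8), (3, 9), (4, 7), (4, 9), (5, 8), (5, 9), (6, 8), (6, 9), (7, 8), (7, 9)], [(0, 2), (1, 3)]⟩,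
  ⟨10, [(0, 5), (1, 6), (2, 9), (3, 9), (4, 7), (4, 8), (5, 8), (5, 9), (6, 8), (6, 9), (7, 8), (7, 9)], [(0, 2), (1, 3)]⟩,
  ⟨11, [(0, 6), (1, 7), (2, 8), (3, 9), (4, 10), (5, 10), (6, 9), (6, 10), (7, 9), (7, 10), (8, 9), (8, 10)], [(0, 3), (1, 4), (2, 5)]⟩,
  ⟨8, [(0, 2), (0, 7), (1, 3), (1, 7), (2, 4), (2, 5), (3, 4), (3, 6), (4, 7), (5, 6), (5, 7), (6, 7)], []⟩,
  ⟨9, [(0, 4), (1, 7), (2, 5), (2, 8), (3, 6), (3, 8), (4, 7), (4, 8), (5, 7), (5, 8), (6, 7), (6, 8)], [(0, 1)]⟩,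
  ⟨9, [(0, 5), (1, 7), (2, 7), (3, 8), (4, 6), (4, 8), (5, 7), (5, 8), (6, 7), (6, 8)], [(0, 1), (2, 3)]⟩,
  ⟨10, [(0, 6), (1, 7), (2, 8), (3, 9), (4, 8), (5, 9), (6, 8), (6, 9), (7, 8), (7, 9)], [(0, 2), (1, 3), (4, 5)]⟩,
  ⟨11, [(0, 6), (1, 6), (2, 8), (3, 10), (4, 8), (4, 9), (5, 9), (5, 10), (6, 7), (7, 8), (7, 9), (8, 10), (9, 10)], [(0, 2), (1, 3)]⟩,
  ⟨12, [(0, 7), (1, 7), (2, 9), (3, 11), (4, 10), (5, 11), (6, 9), (6, 10), (7, 8), (8, 9), (8, 10), (9, 11), (10, 11)], [(0, 2), (1, 3), (4, 5)]⟩,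
  ⟨10, [(0, 5), (1, 9), (2, 5), (2, 7), (3, 7), (3, 8), (4, 8), (4, 9), (5, 6), (6, 7), (6, 8), (7, 9), (8, 9)], [(0, 1)]⟩,
  ⟨11, [(0, 6), (1, 10), (2, 8), (3, 10), (4, 6), (4, 9), (5, 8), (5, 9), (6, 7), (7, 8), (7, 9), (8, 10), (9, 10)], [(0, 1), (2, 3)]⟩,
  ⟨11, [(0, 4), (1, 9), (2, 5), (2, 10), (3, 9), (3, 10), (4, 6), (4, 8), (5, 7), (5, 8), (6, 9), (6, 10), (7, 9), (7, 10), (8, 9), (8, 10)], [(0, 1)]⟩,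
  ⟨12, [(0, 5), (1, 6), (2, 10), (3, 11), (4, 10), (4, 11), (5, 7), (5, 9), (6, 8), (6, 9), (7, 10), (7, 11), (8, 10), (8, 11), (9, 10), (9, 11)], [(0, 2), (1, 3)]⟩,
  ⟨10, [(0, 3), (0, 8), (1, 4), (1, 9), (2, 8), (2, 9), (3, 5), (3, 7), (4, 6), (4, 7), (5, 8), (5, 9), (6, 8), (6, 9), (7, 8), (7, 9)], []⟩,
  ⟨10, [(0, 5), (1, 7), (2, 5), (2, 9), (3, 7), (3, 8), (4, 8), (4, 9), (5, 6), (6, 7), (6, 8), (7, 9), (8, 9)], [(0, 1)]⟩,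
  ⟨11, [(0, 6), (1, 8), (2, 9), (3, 10), (4, 6), (4, 10), (5, 8), (5, 9), (6, 7), (7, 8), (7, 9), (8, 10), (9, 10)], [(0, 1), (2, 3)]⟩,
  ⟨9, [(0, 4), (0, 6), (1, 4), (1, 8), (2, 6), (2, 7), (3, 7), (3, 8), (4, 5), (5, 6), (5, 7), (6, 8), (7, 8)], []⟩,
  ⟨10, [(0, 7), (1, 9), (2, 5), (2, 8), (3, 5), (3, 9), (4, 7), (4, 8), (5, 6), (6, 7), (6, 8), (7, 9), (8, 9)], [(0, 1)]⟩,
  ⟨10, [(0, 4), (1, 6), (2, 6), (2, 7), (3, 7), (3, 8), (4, 5), (4, 9), (5, 8), (5, 9), (6, 8), (6, 9), (7, 8), (7, 9)], [(0, 1)]⟩,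
  ⟨11, [(0, 5), (1, 7), (2, 8), (3, 9), (4, 7), (4, 8), (5, 6), (5, 10), (6, 9), (6, 10), (7, 9), (7, 10), (8, 9), (8, 10)], [(0, 1), (2, 3)]⟩,
  ⟨11, [(0, 6), (1, 8), (2, 4), (2, 9), (3, 6), (3, 7), (4, 5), (4, 10), (5, 7), (5, 10), (6, 8), (6, 9), (7, 8), (7, 9), (8, 10), (9, 10)], [(0, 1)]⟩,
  ⟨12, [(0, 5), (1, 9), (2, 7), (3, 10), (4, 7), (4, 8), (5, 6), (5, 11), (6, 8), (6, 11), (7, 9), (7, 10), (8, 9), (8, 10), (9, 11), (10, 11)], [(0, 1), (2, 3)]⟩,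
  ⟨10, [(0, 6), (1, 7), (2, 4), (2, 8), (3, 6), (3, 9), (4, 5), (4, 9), (5, 7), (5, 8), (6, 7), (6, 8), (7, 9), (8, 9)], [(0, 1)]⟩,
  ⟨11, [(0, 5), (1, 8), (2, 7), (3, 9), (4, 7), (4, 10), (5, 6), (5, 10), (6, 8), (6, 9), (7, 8), (7, 9), (8, 10), (9, 10)], [(0, 1), (2, 3)]⟩,
  ⟨10, [(0, 3), (0, 7), (1, 5), (1, 6), (2, 5), (2, 8), (3, 4), (3, 9), (4, 6), (4, 9), (5, 7), (5, 8), (6, 7), (6, 8), (7, 9), (8, 9)], []⟩,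
  ⟨11, [(0, 4), (1, 8), (2, 6), (2, 7), (3, 6), (3, 9), (4, 5), (4, 10), (5, 7), (5, 10), (6, 8), (6, 9), (7, 8), (7, 9), (8, 10), (9, 10)], [(0, 1)]⟩,
  ⟨10, [(0, 4), (1, 7), (2, 6), (2, 8), (3, 6), (3, 9), (4, 5), (4, 8), (5, 7), (5, 9), (6, 7), (6, 9), (7, 8), (8, 9)], [(0, 1)]⟩,
  ⟨11, [(0, 4), (0, 6), (1, 5), (1, 8), (2, 6), (2, 7), (3, 7), (3, 9), (4, 5), (4, 10), (5, 10), (6, 8), (6, 9), (7, 8), (7, 9), (8, 10), (9, 10)], []⟩,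
  ⟨12, [(0, 7), (1, 9), (2, 5), (2, 8), (3, 6), (3, 10), (4, 7), (4, 8), (5, 6), (5, 11), (6, 11), (7, 9), (7, 10), (8, 9), (8, 10), (9, 11), (10, 11)], [(0, 1)]⟩,
  ⟨12, [(0, 5), (1, 7), (2, 6), (2, 9), (3, 7), (3, 8), (4, 8), (4, 10), (5, 6), (5, 11), (6, 11), (7, 9), (7, 10), (8, 9), (8, 10), (9, 11), (10, 11)], [(0, 1)]⟩,
  ⟨13, [(0, 6), (1, 8), (2, 9), (3, 10), (4, 7), (4, 11), (5, 8), (5, 9), (6, 7), (6, 12), (7, 12), (8, 10), (8, 11), (9, 10), (9, 11), (10, 12), (11, 12)], [(0, 1), (2, 3)]⟩,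
  ⟨10, [(0, 4), (0, 6), (1, 4), (1, 8), (2, 6), (2, 7), (3, 7), (3, 9), (4, 5), (5, 8), (5, 9), (6, 8), (6, 9), (7, 8), (7, 9)], []⟩,
  ⟨11, [(0, 7), (1, 9), (2, 5), (2, 8), (3, 5), (3, 10), (4, 7), (4, 8), (5, 6), (6, 9), (6, 10), (7, 9), (7, 10), (8, 9), (8, 10)], [(0, 1)]⟩,
  ⟨11, [(0, 5), (1, 7), (2, 5), (2, 9), (3, 7), (3, 8), (4, 8), (4, 10), (5, 6), (6, 9), (6, 10), (7, 9), (7, 10), (8, 9), (8, 10)], [(0, 1)]⟩,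
  ⟨12, [(0, 6), (1, 8), (2, 9), (3, 10), (4, 6), (4, 11), (5, 8), (5, 9), (6, 7), (7, 10), (7, 11), (8, 10), (8, 11), (9, 10), (9, 11)], [(0, 1), (2, 3)]⟩,
  ⟨13, [(0, 6), (1, 10), (2, 8), (3, 11), (4, 7), (4, 9), (5, 8), (5, 9), (6, 7), (6, 12), (7, 12), (8, 10), (8, 11), (9, 10), (9, 11), (10, 12), (11, 12)], [(0, 1), (2, 3)]⟩,
  ⟨14, [(0, 7), (1, 8), (2, 9), (3, 11), (4, 10), (5, 12), (6, 9), (6, 10), (7, 8), (7, 13), (8, 13), (9, 11), (9, 12), (10, 11), (10, 12), (11, 13), (12, 13)], [(0, 2), (1, 3), (4, 5)]⟩,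
  ⟨10, [(0, 6), (1, 8), (2, 4), (2, 7), (3, 6), (3, 7), (4, 5), (4, 9), (5, 8), (5, 9), (6, 8), (6, 9), (7, 8), (7, 9)], [(0, 1)]⟩,
  ⟨12, [(0, 6), (1, 10), (2, 8), (3, 11), (4, 6), (4, 9), (5, 8), (5, 9), (6, 7), (7, 10), (7, 11), (8, 10), (8, 11), (9, 10), (9, 11)], [(0, 1), (2, 3)]⟩,
  ⟨13, [(0, 7), (1, 7), (2, 9), (3, 11), (4, 10), (5, 12), (6, 9), (6, 10), (7, 8), (8, 11), (8, 12), (9, 11), (9, 12), (10, 11), (10, 12)], [(0, 2), (1, 3), (4, 5)]⟩,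
  ⟨12, [(0, 5), (1, 9), (2, 6), (2, 7), (3, 7), (3, 8), (4, 8), (4, 10), (5, 6), (5, 11), (6, 11), (7, 9), (7, 10), (8, 9), (8, 10), (9, 11), (10, 11)], [(0, 1)]⟩,
  ⟨13, [(0, 6), (1, 7), (2, 8), (3, 10), (4, 8), (4, 9), (5, 9), (5, 11), (6, 7), (6, 12), (7, 12), (8, 10), (8, 11), (9, 10), (9, 11), (10, 12), (11, 12)], [(0, 2), (1, 3)]⟩,
  ⟨11, [(0, 5), (1, 9), (2, 5), (2, 7), (3, 7), (3, 8), (4, 8), (4, 10), (5, 6), (6, 9), (6, 10), (7, 9), (7, 10), (8, 9), (8, 10)], [(0, 1)]⟩,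
  ⟨12, [(0, 6), (1, 6), (2, 8), (3, 10), (4, 8), (4, 9), (5, 9), (5, 11), (6, 7), (7, 10), (7, 11), (8, 10), (8, 11), (9, 10), (9, 11)], [(0, 2), (1, 3)]⟩,
  ⟨9, [(0, 5), (1, 6), (2, 5), (2, 8), (3, 6), (3, 7), (4, 7), (4, 8), (5, 6), (5, 7), (6, 8), (7, 8)], [(0, 1)]⟩,
  ⟨10, [(0, 6), (1, 7), (2, 8), (3, 9), (4, 6), (4, 9), (5, 7), (5, 8), (6, 7), (6, 8), (7, 9), (8, 9)], [(0, 1), (2, 3)]⟩,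
  ⟨9, [(0, 3), (0, 5), (1, 5), (1, 6), (2, 6), (2, 7), (3, 4), (3, 8), (4, 7), (4, 8), (5, 7), (5, 8), (6, 7), (6, 8)], []⟩,
  ⟨9, [(0, 3), (0, 6), (1, 5), (1, 7), (2, 5), (2, 8), (3, 4), (3, 7), (4, 6), (4, 8), (5, 6), (5, 8), (6, 7), (7, 8)], []⟩,
  ⟨9, [(0, 6), (1, 7), (2, 4), (2, 7), (3, 6), (3, 8), (4, 5), (4, 8), (5, 6), (5, 8), (6, 7), (7, 8)], [(0, 1)]⟩,
  ⟨12, [(0, 6), (1, 7), (2, 8), (3, 9), (4, 8), (4, 10), (5, 9), (5, 10), (6, 7), (6, 11), (7, 11), (8, 9), (8, 10), (9, 11), (10, 11)], [(0, 2), (1, 3)]⟩,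
  ⟨13, [(0, 7), (1, 8), (2, 9), (3, 10), (4, 9), (5, 11), (6, 10), (6, 11), (7, 8), (7, 12), (8, 12), (9, 10), (9, 11), (10, 12), (11, 12)], [(0, 2), (1, 3), (4, 5)]⟩,
  ⟨12, [(0, 6), (1, 8), (2, 8), (3, 9), (4, 7), (4, 10), (5, 9), (5, 10), (6, 7), (6, 11), (7, 11), (8, 9), (8, 10), (9, 11), (10, 11)], [(0, 1), (2, 3)]⟩,
  ⟨11, [(0, 5), (1, 7), (2, 6), (2, 8), (3, 7), (3, 9), (4, 8), (4, 9), (5, 6), (5, 10), (6, 10), (7, 8), (7, 9), (8, 10), (9, 10)], [(0, 1)]⟩,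
  ⟨10, [(0, 5), (1, 8), (2, 7), (3, 8), (4, 7), (4, 9), (5, 6), (5, 9), (6, 7), (6, 9), (7, 8), (8, 9)], [(0, 1), (2, 3)]⟩,
  ⟨11, [(0, 5), (1, 7), (2, 6), (2, 8), (3, 7), (3, 9), (4, 8), (4, 9), (5, 6), (5, 10), (6, 10), (7, 8), (7, 10), (8, 9), (9, 10)], [(0, 1)]⟩,
  ⟨12, [(0, 6), (1, 9), (2, 8), (3, 10), (4, 7), (4, 8), (5, 9), (5, 10), (6, 7), (6, 11), (7, 11), (8, 9), (8, 10), (9, 11), (10, 11)], [(0, 1), (2, 3)]⟩,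
  ⟨11, [(0, 7), (1, 8), (2, 5), (2, 7), (3, 6), (3, 9), (4, 8), (4, 9), (5, 6), (5, 10), (6, 10), (7, 8), (7, 9), (8, 10), (9, 10)], [(0, 1)]⟩,
  ⟨10, [(0, 4), (0, 6), (1, 5), (1, 7), (2, 6), (2, 8), (3, 7), (3, 8), (4, 5), (4, 9), (5, 9), (6, 7), (6, 8), (7, 9), (8, 9)], []⟩,
  ⟨10, [(0, 4), (1, 5), (2, 6), (2, 8), (3, 7), (3, 9), (4, 5), (4, 6), (4, 7), (5, 8), (5, 9), (6, 8), (6, 9), (7, 8), (7, 9)], [(0, 1)]⟩,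
  ⟨11, [(0, 5), (1, 6), (2, 7), (3, 8), (4, 9), (4, 10), (5, 6), (5, 7), (5, 9), (6, 8), (6, 10), (7, 8), (7, 10), (8, 9), (9, 10)], [(0, 1), (2, 3)]⟩,
  ⟨12, [(0, 6), (1, 7), (2, 8), (3, 9), (4, 10), (5, 11), (6, 7), (6, 8), (6, 9), (7, 10), (7, 11), (8, 10), (8, 11), (9, 10), (9, 11)], [(0, 1), (2, 4), (3, 5)]⟩,
  ⟨12, [(0, 8), (1, 9), (2, 8), (3, 10), (4, 9), (5, 11), (6, 10), (6, 11), (7, 8), (7, 9), (7, 10), (8, 11), (9, 11), (10, 11)], [(0, 1), (2, 3), (4, 5)]⟩,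
  ⟨13, [(0, 9), (1, 9), (2, 10), (3, 11), (4, 10), (5, 11), (6, 12), (7, 12), (8, 9), (8, 10), (8, 11), (9, 12), (10, 12), (11, 12)], [(0, 2), (1, 3), (4, 6), (5, 7)]⟩,
  ⟨11, [(0, 7), (1, 7), (2, 8), (3, 9), (4, 8), (4, 10), (5, 9), (5, 10), (6, 7), (6, 8), (6, 9), (7, 10), (8, 10), (9, 10)], [(0, 2), (1, 3)]⟩,
  ⟨11, [(0, 7), (1, 8), (2, 7), (3, 10), (4, 8), (4, 9), (5, 9), (5, 10), (6, 7), (6, 8), (6, 9), (7, 10), (8, 10), (9, 10)], [(0, 1), (2, 3)]⟩,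
  ⟨12, [(0, 8), (1, 9), (2, 8), (3, 10), (4, 11), (5, 11), (6, 9), (6, 10), (7, 8), (7, 9), (7, 10), (8, 11), (9, 11), (10, 11)], [(0, 1), (2, 4), (3, 5)]⟩,
  ⟨10, [(0, 6), (1, 7), (2, 6), (2, 8), (3, 7), (3, 9), (4, 8), (4, 9), (5, 6), (5, 7), (5, 8), (6, 9), (7, 9), (8, 9)], [(0, 1)]⟩,
  ⟨11, [(0, 7), (1, 9), (2, 8), (3, 10), (4, 7), (4, 8), (5, 9), (5, 10), (6, 7), (6, 8), (6, 9), (7, 10), (8, 10), (9, 10)], [(0, 1), (2, 3)]⟩,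
  ⟨10, [(0, 6), (1, 9), (2, 6), (2, 7), (3, 7), (3, 8), (4, 8), (4, 9), (5, 6), (5, 7), (5, 8), (6, 9), (7, 9), (8, 9)], [(0, 1)]⟩,
  ⟨11, [(0, 7), (1, 8), (2, 10), (3, 10), (4, 7), (4, 9), (5, 8), (5, 9), (6, 7), (6, 8), (6, 9), (7, 10), (8, 10), (9, 10)], [(0, 2), (1, 3)]⟩,
  ⟨9, [(0, 5), (0, 6), (1, 5), (1, 7), (2, 6), (2, 8), (3, 7), (3, 8), (4, 5), (4, 6), (4, 7), (5, 8), (6, 8), (7, 8)], []⟩,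
  ⟨8, [(0, 6), (1, 7), (2, 4), (2, 6), (3, 5), (3, 7), (4, 6), (4, 7), (5, 6), (5, 7)], [(0, 1)]⟩,
  ⟨8, [(0, 3), (0, 6), (1, 4), (1, 7), (2, 5), (2, 7), (3, 6), (3, 7), (4, 6), (4, 7), (5, 6), (5, 7)], []⟩,
  ⟨9, [(0, 4), (1, 7), (2, 6), (2, 7), (3, 6), (3, 8), (4, 5), (4, 8), (5, 6), (5, 8), (6, 7), (7, 8)], [(0, 1)]⟩,
  ⟨8, [(0, 4), (0, 5), (1, 4), (1, 6), (2, 5), (2, 7), (3, 6), (3, 7), (4, 5), (4, 7), (5, 6), (6, 7)], []⟩,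
  ⟨8, [(0, 3), (0, 6), (1, 5), (1, 6), (2, 5), (2, 7), (3, 4), (3, 7), (4, 5), (4, 7), (5, 6), (6, 7)], []⟩,
  ⟨9, [(0, 3), (0, 4), (1, 5), (1, 6), (2, 7), (2, 8), (3, 4), (3, 5), (3, 7), (4, 6), (4, 8), (5, 6), (5, 8), (6, 7), (7, 8)], []⟩,
  ⟨9, [(0, 3), (0, 4), (1, 5), (1, 6), (2, 7), (2, 8), (3, 5), (3, 7), (4, 6), (4, 8), (5, 7), (6, 8)], []⟩,
  ⟨10, [(0, 4), (1, 5), (2, 6), (2, 8), (3, 7), (3, 9), (4, 6), (4, 7), (5, 8), (5, 9), (6, 7), (8, 9)], [(0, 1)]⟩,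
  ⟨11, [(0, 5), (1, 6), (2, 7), (3, 8), (4, 9), (4, 10), (5, 7), (5, 9), (6, 8), (6, 10), (7, 9), (8, 10)], [(0, 1), (2, 3)]⟩,
  ⟨12, [(0, 6), (1, 7), (2, 8), (3, 9), (4, 10), (5, 11), (6, 8), (6, 9), (7, 10), (7, 11), (8, 9), (10, 11)], [(0, 1), (2, 4), (3, 5)]⟩,
  ⟨8, [(0, 2), (0, 3), (1, 4), (1, 5), (2, 4), (2, 6), (3, 5), (3, 7), (4, 6), (5, 7), (6, 7)], []⟩,
  ⟨9, [(0, 3), (1, 4), (2, 5), (2, 6), (3, 5), (3, 7), (4, 6), (4, 8), (5, 7), (6, 8), (7, 8)], [(0, 1)]⟩,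
  ⟨10, [(0, 4), (1, 5), (2, 6), (3, 7), (4, 6), (4, 8), (5, 7), (5, 9), (6, 8), (7, 9), (8, 9)], [(0, 1), (2, 3)]⟩,
  ⟨7, [(0, 1), (0, 2), (1, 3), (1, 4), (2, 5), (2, 6), (3, 4), (3, 5), (4, 6), (5, 6)], []⟩,
  ⟨8, [(0, 2), (1, 3), (2, 4), (2, 5), (3, 6), (3, 7), (4, 5), (4, 6), (5, 7), (6, 7)], [(0, 1)]⟩,
  ⟨6, [(0, 1), (0, 2), (0, 3), (1, 2), (1, 4), (2, 5), (3, 4), (3, 5), (4, 5)], []⟩,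
  ⟨11, [(0, 6), (1, 7), (2, 8), (3, 9), (4, 8), (5, 9), (6, 7), (6, 10), (7, 10), (8, 9), (8, 10), (9, 10)], [(0, 2), (1, 3), (4, 5)]⟩,
  ⟨10, [(0, 5), (1, 7), (2, 7), (3, 8), (4, 6), (4, 8), (5, 6), (5, 9), (6, 9), (7, 8), (7, 9), (8, 9)], [(0, 1), (2, 3)]⟩,
  ⟨9, [(0, 6), (1, 7), (2, 4), (2, 6), (3, 5), (3, 7), (4, 5), (4, 8), (5, 8), (6, 7), (6, 8), (7, 8)], [(0, 1)]⟩,
  ⟨11, [(0, 6), (1, 6), (2, 7), (3, 8), (4, 9), (5, 10), (6, 10), (7, 8), (7, 9), (7, 10), (8, 9), (8, 10), (9, 10)], [(0, 2), (1, 3), (4, 5)]⟩,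
  ⟨10, [(0, 5), (1, 6), (2, 7), (3, 9), (4, 5), (4, 8), (5, 9), (6, 7), (6, 8), (6, 9), (7, 8), (7, 9), (8, 9)], [(0, 1), (2, 3)]⟩,
  ⟨9, [(0, 5), (1, 8), (2, 4), (2, 6), (3, 4), (3, 7), (4, 8), (5, 6), (5, 7), (5, 8), (6, 7), (6, 8), (7, 8)], [(0, 1)]⟩,
  ⟨12, [(0, 6), (1, 7), (2, 8), (3, 9), (4, 10), (5, 11), (6, 7), (6, 11), (7, 11), (8, 9), (8, 10), (8, 11), (9, 10), (9, 11), (10, 11)], [(0, 2), (1, 3), (4, 5)]⟩,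
  ⟨11, [(0, 5), (1, 7), (2, 8), (3, 10), (4, 6), (4, 9), (5, 6), (5, 10), (6, 10), (7, 8), (7, 9), (7, 10), (8, 9), (8, 10), (9, 10)], [(0, 1), (2, 3)]⟩,
  ⟨10, [(0, 6), (1, 9), (2, 4), (2, 7), (3, 5), (3, 8), (4, 5), (4, 9), (5, 9), (6, 7), (6, 8), (6, 9), (7, 8), (7, 9), (8, 9)], [(0, 1)]⟩]

end Pool.Agent.Helper64.FL
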