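import Pool.Agent.Helper64.FL.StC

/-! Full list for MP_866009_co: module H1B. -/

set_option autoImplicit false

namespace Pool.Agent.Helper64.FL

open Pool.Agent.Helper64.CT Pool.Agent.Helper64.DT
open Pool.Agent.Helper64.HG (Ovl Model Circ IC HellyCircle ChordModel)

theorem h1b_mix {V : Type} {G : SimpleGraph V} {x b : V} {N : Set V} (hx : x ∈ N)
    (h : Mixed G b N) : ∃ n ∈ N, n ≠ x ∧ ((G.Adj b x ∧ ¬ G.Adj b n) ∨ (G.Adj b n ∧ ¬ G.Adj b x)) := by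
  obtain ⟨⟨n1, h1, h2⟩, n2, h3, h4⟩ := h
  by_cases hb : G.Adj b x
  · refine ⟨n2, h3, ?_, Or.inl ⟨hb, h4⟩⟩
    rintro rfl
    exact h4 hb
  · refine ⟨n1, h1, ?_, Or.inr ⟨h2, hb⟩⟩
    rintro rfl
    exact hb h2

theorem h1b_core (hCNB : ST_CNB) (hRAY : ST_RAY) (hSPL : ST_SPL) (hONF : ST_ONF) (hPKX : ST_PKX)
    (hQHA : ST_QHA) (hQHB : ST_QHB) (hQHC : ST_QHC) {V : Type} {G : SimpleGraph V} {Q : Set V}
    (hD : DF G) (hP : NoP G preCs) (hQ : MaxC G Q) {x y z u u' : V} (hu : RayQ G Q x u)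
    (hu' : RayQ G Q x u') (hy : y ∈ Q) (hyx : y ≠ x) (hz : z ∈ Q) (hzx : z ≠ x) (hzy : z ≠ y)
    (hC : Conf G y u u') (hA : ∀ n ∈ Att G y u, G.Adj u' n) : False := by
  obtain ⟨R1, R2, -, -, -, R6⟩ := hRAY V G Q hD hQ
  obtain ⟨-, -, -, -, -, C6, -⟩ := hCNB V G
  have C1 := (hCNB V G).1
  have hadj : ∀ a ∈ Q, ∀ b ∈ Q, a ≠ b → G.Adj a b := fun a ha b hb hab => hQ.1 a ha b hb hab
  have hxQ : x ∈ Q := hu.1
  have hyu := R1 x u y hu hy hyx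
  have hyu' := R1 x u' y hu' hy hyx
  obtain ⟨hnc, ⟨a, ha, haM⟩, b, hb, hbM⟩ := hC
  have hcu : Comp G y u u := ⟨hyu.1, hyu.1, SimpleGraph.Reachable.refl _⟩
  have hcu' : Comp G y u' u' := ⟨hyu'.1, hyu'.1, SimpleGraph.Reachable.refl _⟩
  have hu'z : ¬ G.Adj u' z := fun e => hzx (R2 z x u' ⟨hz, e.symm, hu'.2.2⟩ hu')
  have hzu : ∀ v, Comp G y u v → ¬ G.Adj z v := fun v hv e =>
    hu'z (hA z ⟨hadj y hy z hz (Ne.symm hzy), v, hv, e⟩)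
  have hnQ : ∀ n ∈ Att G y u, n ≠ x → n ∈ Far G x ∧ n ∈ Far G z := by
    intro n hn hnx
    have h1 : n ∉ Q := fun h => hnx (R2 n x u' ⟨h, (hA n hn).symm, hu'.2.2⟩ hu')
    exact ⟨R6 y hy n hn.1 h1 x hxQ (Ne.symm hyx), R6 y hy n hn.1 h1 z hz hzy⟩
  obtain ⟨n, hnA, hnx, hw⟩ := h1b_mix hyu.2 hbM
  obtain ⟨s, hsA, hsx, hv⟩ := h1b_mix hyu'.2 haM
  obtain ⟨M, hM⟩ := hPKX V G y u' u' b hcu' hb
  have exy := hadj x hxQ y hy (Ne.symm hyx)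
  have exz := hadj x hxQ z hz (Ne.symm hzx)
  have eyz := hadj y hy z hz (Ne.symm hzy)
  by_cases hcA : ∃ v', Comp G y u v' ∧ ((G.Adj v' x ∧ ¬ G.Adj v' n) ∨ (G.Adj v' n ∧ ¬ G.Adj v' x))
  · exact hQHA V G hP x y z n u u' M b exy exz eyz hnA.1 (hnQ n hnA hnx).1 (hnQ n hnA hnx).2
      hnc hzu (hSPL V G y u x n hyu.2 hnA hcA) hu'.2.1.symm (hA n hnA) hu'z hM hw
  have hB : ∀ v', Comp G y u v' → (G.Adj v' x ↔ G.Adj v' n) := by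
    intro v' hv'
    constructor
    · intro h
      by_contra hc
      exact hcA ⟨v', hv', Or.inl ⟨h, hc⟩⟩
    · intro h
      by_contra hc
      exact hcA ⟨v', hv', Or.inr ⟨h, hc⟩⟩
  by_cases hs : s ∈ Att G y u
  · have hSp := hSPL V G y u x s hyu.2 hs ⟨a, ha, hv⟩
    by_cases hcB : ∃ w', Comp G y u' w' ∧ ((G.Adj w' x ∧ ¬ G.Adj w' s) ∨ (G.Adj w' s ∧ ¬ G.Adj w' x))
    · obtain ⟨w', hw', hw2⟩ := hcB
      obtain ⟨M', hM'⟩ := hPKX V G y u' u' w' hcu' hw'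
      exact hQHA V G hP x y z s u u' M' w' exy exz eyz hs.1 (hnQ s hs hsx).1 (hnQ s hs hsx).2
        hnc hzu hSp hu'.2.1.symm (hA s hs) hu'z hM' hw2
    · have hB2 : ∀ v', Comp G y u' v' → (G.Adj v' x ↔ G.Adj v' s) := by
        intro v' hv'
        constructor
        · intro h
          by_contra hc
          exact hcB ⟨v', hv', Or.inl ⟨h, hc⟩⟩
        · intro h
          by_contra hc
          exact hcB ⟨v', hv', Or.inr ⟨h, hc⟩⟩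
      have hsn : s ≠ n := by
        rintro rfl
        have := hB2 b hb
        tauto
      exact hQHC V G hP x y z n s u u' M b exy exz eyz hnA.1 (hnQ n hnA hnx).1 (hnQ n hnA hnx).2
        hs.1 (hnQ s hs hsx).1 (hnQ s hs hsx).2 hsn hnc hzu hB hB2 hSp hu'.2.1.symm (hA n hnA)
        hu'z hM hw
  · have hus : ¬ G.Adj u s := fun e => hs ⟨hsA.1, u, hcu, e.symm⟩
    have hsn : s ≠ n := fun e => hs (e ▸ hnA)
    obtain ⟨hys, y0, hy0, hsy0⟩ := hsA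
    have hcn := (C1 _ _ _ (C6 y u' y0 hy0)).2
    obtain ⟨l1, f, l2, -, -, -, hO⟩ := hONF V G (KC G y u') (fun v => G.Adj v s) u' b M hM
      ⟨y0, hsy0.symm, hcn⟩
    exact hQHB V G hP x y z n s u u' l1 f l2 b exy exz eyz hnA.1 (hnQ n hnA hnx).1
      (hnQ n hnA hnx).2 hys hsx hsn hyu.1 hnc hzu hu.2.1.symm ((hB u hcu).1 hu.2.1.symm) hus
      hu'.2.1.symm (hA n hnA) hu'z hw hO

theorem st_H1B (hCNB : ST_CNB) (hRAY : ST_RAY) (hSPL : ST_SPL) (hHB0 : ST_HB0) (hONF : ST_ONF)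
    (hPKX : ST_PKX) (hQHA : ST_QHA) (hQHB : ST_QHB) (hQHC : ST_QHC) : ST_H1B := by
  intro V G Q hD hCI hP hQ x y z u u' hu hu' hy hyx hz hzx hzy h
  obtain ⟨h1, h2⟩ := h
  rcases hHB0 V G Q hD hCI hQ x y z u u' hu hu' hy hyx hz hzx hzy h1 h2.1 with h3 | h3
  · exact h1b_core hCNB hRAY hSPL hONF hPKX hQHA hQHB hQHC hD hP hQ hu hu' hy hyx hz hzx hzy h2 h3
  · refine h1b_core hCNB hRAY hSPL hONF hPKX hQHA hQHB hQHC hD hP hQ hu' hu hy hyx hz hzx hzy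
      ⟨fun e => h2.1 ?_, h2.2.2, h2.2.1⟩ h3
    obtain ⟨p, q, r⟩ := e
    exact ⟨q, p, r.symm⟩

end Pool.Agent.Helper64.FL
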