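import Pool.Agent.Helper11.FL.CRT
import Pool.Agent.Helper11.FL.IIB
import Pool.Agent.Helper11.FL.VWX
import Pool.Agent.Helper14.FL.CPT
import Pool.Agent.Helper14.FL.D1M
import Pool.Agent.Helper14.FL.EWD
import Pool.Agent.Helper14.FL.HT3
import Pool.Agent.Helper14.FL.LWR
import Pool.Agent.Helper14.FL.R3S
import Pool.Agent.Helper2.FL.DJ0
import Pool.Agent.Helper2.FL.NKO
import Pool.Agent.Helper2.FL.PIN
import Pool.Agent.Helper2.FL.QBB
import Pool.Agent.Helper2.FL.QPR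
import Pool.Agent.Helper20.FL.L3
import Pool.Agent.Helper24.FL.CWX
import Pool.Agent.Helper24.FL.CYO
import Pool.Agent.Helper24.FL.HCM
import Pool.Agent.Helper24.FL.HTA
import Pool.Agent.Helper24.FL.LWB
import Pool.Agent.Helper24.FL.NAM
import Pool.Agent.Helper24.FL.TTX
import Pool.Agent.Helper25.FL.F1X
import Pool.Agent.Helper25.FL.HC0
import Pool.Agent.Helper3.FL.ARC
import Pool.Agent.Helper3.FL.CAB
import Pool.Agent.Helper3.FL.CI0
import Pool.Agent.Helper3.FL.CQ2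
import Pool.Agent.Helper3.FL.EQ2
import Pool.Agent.Helper3.FL.FRY
import Pool.Agent.Helper3.FL.LM3
import Pool.Agent.Helper3.FL.NCF
import Pool.Agent.Helper3.FL.PKX
import Pool.Agent.Helper3.FL.RAY
import Pool.Agent.Helper3.FL.VWC
import Pool.Agent.Helper3.FL.XSB
import Pool.Agent.Helper30.FL.CA2
import Pool.Agent.Helper30.FL.CLX
import Pool.Agent.Helper30.FL.DI0
import Pool.Agent.Helper30.FL.QKB
import Pool.Agent.Helper35.FL.ATH
import Pool.Agent.Helper35.FL.F2X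
import Pool.Agent.Helper35.FL.HTD
import Pool.Agent.Helper35.FL.QK1
import Pool.Agent.Helper38.FL.DJ1
import Pool.Agent.Helper38.FL.F2A
import Pool.Agent.Helper38.FL.HCB
import Pool.Agent.Helper38.FL.QB2
import Pool.Agent.Helper38.FL.WHE
import Pool.Agent.Helper4.FL.CHN
import Pool.Agent.Helper4.FL.CI3
import Pool.Agent.Helper4.FL.QCD
import Pool.Agent.Helper42.FL.D0F
import Pool.Agent.Helper42.FL.EXI
import Pool.Agent.Helper42.FL.HB0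
import Pool.Agent.Helper42.FL.LKX
import Pool.Agent.Helper42.FL.NJC
import Pool.Agent.Helper42.FL.NUB
import Pool.Agent.Helper42.FL.PRE
import Pool.Agent.Helper42.FL.SEP
import Pool.Agent.Helper42.FL.SPL
import Pool.Agent.Helper42.FL.TDC
import Pool.Agent.Helper45.FL.B3
import Pool.Agent.Helper45.FL.DRP
import Pool.Agent.Helper45.FL.F1A
import Pool.Agent.Helper46.FL.QCF
import Pool.Agent.Helper47.FL.JIN
import Pool.Agent.Helper47.FL.MNT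
import Pool.Agent.Helper48.FL.CCF
import Pool.Agent.Helper49.FL.CIB
import Pool.Agent.Helper49.FL.PHI
import Pool.Agent.Helper5.FL.D1F
import Pool.Agent.Helper5.FL.FIN
import Pool.Agent.Helper5.FL.FRF
import Pool.Agent.Helper5.FL.NKC
import Pool.Agent.Helper5.FL.SHF
import Pool.Agent.Helper5.FL.TAP
import Pool.Agent.Helper51.FL.CIM
import Pool.Agent.Helper51.FL.COV
import Pool.Agent.Helper51.FL.ENG
import Pool.Agent.Helper51.FL.ENU
import Pool.Agent.Helper51.FL.IIA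
import Pool.Agent.Helper51.FL.QC4
import Pool.Agent.Helper51.FL.RPS
import Pool.Agent.Helper51.FL.TRN
import Pool.Agent.Helper52.FL.CA0
import Pool.Agent.Helper52.FL.D1A
import Pool.Agent.Helper52.FL.VW4
import Pool.Agent.Helper57.FL.PTB
import Pool.Agent.Helper57.FL.UTQ
import Pool.Agent.Helper58.FL.HC1
import Pool.Agent.Helper61.FL.CNB
import Pool.Agent.Helper61.FL.STB
import Pool.Agent.Helper63.FL.D2D
import Pool.Agent.Helper63.FL.HCC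
import Pool.Agent.Helper63.FL.IPL
import Pool.Agent.Helper63.FL.QBC
import Pool.Agent.Helper64.FL.H1B
import Pool.Agent.Helper67.FL.BCF
import Pool.Agent.Helper67.FL.CA3
import Pool.Agent.Helper68.FL.DO2
import Pool.Agent.Helper68.FL.DOM
import Pool.Agent.Helper68.FL.MNN
import Pool.Agent.Helper7.FL.ALT
import Pool.Agent.Helper7.FL.B5
import Pool.Agent.Helper7.FL.D1S
import Pool.Agent.Helper7.FL.HCA
import Pool.Agent.Helper7.FL.NRX
import Pool.Agent.Helper7.FL.PRP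
import Pool.Agent.Helper71.FL.ARI
import Pool.Agent.Helper71.FL.LDS
import Pool.Agent.Helper71.FL.MOC
import Pool.Agent.Helper71.FL.PXI
import Pool.Agent.Helper71.FL.QHC
import Pool.Agent.Helper71.FL.SPN
import Pool.Agent.Helper72.FL.ARX
import Pool.Agent.Helper72.FL.H1L
import Pool.Agent.Helper72.FL.NKM
import Pool.Agent.Helper72.FL.ONF
import Pool.Agent.Helper72.FL.PRM
import Pool.Agent.Helper72.FL.SET
import Pool.Agent.Helper72.FL.SGF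
import Pool.Agent.Helper72.FL.SGX
import Pool.Agent.Helper72.FL.VNO
import Pool.Agent.Helper77.FL.QHB
import Pool.Agent.Helper78.FL.DI2
import Pool.Agent.Helper78.FL.LPN
import Pool.Agent.Helper78.FL.QCA
import Pool.Agent.Helper79.FL.LPW
import Pool.Agent.Helper79.FL.MNP
import Pool.Agent.Helper79.FL.NKX
import Pool.Agent.Helper79.FL.QI0
import Pool.Agent.Helper79.FL.SAR
import Pool.Agent.Helper8.FL.CDX
import Pool.Agent.Helper8.FL.DI1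
import Pool.Agent.Helper8.FL.NKE
import Pool.Agent.Helper8.FL.QPY
import Pool.Agent.Helper81.FL.CUT
import Pool.Agent.Helper81.FL.LDE
import Pool.Agent.Helper81.FL.LWX
import Pool.Agent.Helper83.FL.FTH
import Pool.Agent.Helper83.FL.LPA
import Pool.Agent.Helper83.FL.QK2
import Pool.Agent.Helper85.FL.MNC
import Pool.Agent.Helper85.FL.NCV
import Pool.Agent.Helper85.FL.QAB
import Pool.Agent.Helper85.FL.W1
import Pool.Agent.Helper88.FL.HR3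
import Pool.Agent.Helper88.FL.HTE
import Pool.Agent.Helper90.FL.TBS
import Pool.Agent.Helper91.FL.RCY
import Pool.Agent.Helper91.FL.SND
import Pool.Agent.Helper94.FL.LW2
import Pool.Agent.Helper94.FL.LWA
import Pool.Agent.Helper94.FL.QI2
import Pool.Agent.Helper94.FL.STE
import Pool.Agent.Helper97.FL.BCX
import Pool.Agent.Helper97.FL.CA1
import Pool.Agent.Helper97.FL.NKW
import Pool.Agent.Helper97.FL.OVL
import Pool.Agent.Helper97.FL.PRC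
import Pool.Agent.Helper97.FL.QHA
import Pool.Agent.Helper97.FL.QI7
import Pool.Agent.Helper97.FL.RCX
import Pool.Agent.Helper97.FL.RGE
import Pool.Agent.Helper97.FL.SP3
import Pool.Agent.Helper97.FL.TCH
import Pool.Agent.Helper24.FF.All
import Pool.Agent.Helper64.DT.FINAL
import Pool.Agent.Helper64.CT.FINAL

/-! Full list for MP_866009_co: all modules. -/

set_option autoImplicit false

namespace Pool.Agent.Helper64.FL

open Pool.Agent.Helper64.CT Pool.Agent.Helper64.DT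

theorem b_SPG : CT.ST_SPG :=
  CT.st_SPG Pool.Agent.Helper64.HG.st_ROT Pool.Agent.Helper64.HG.st_XFER

theorem a_IPL : ST_IPL := Pool.Agent.Helper64.FL.st_IPL

theorem a_FRF : ST_FRF := Pool.Agent.Helper64.FL.st_FRF a_IPL

theorem a_TBS : ST_TBS := Pool.Agent.Helper64.FL.st_TBS

theorem a_PXI : ST_PXI := Pool.Agent.Helper64.FL.st_PXI

theorem a_FIN : ST_FIN := Pool.Agent.Helper64.FL.st_FIN a_TBS a_PXI

theorem a_SET : ST_SET := Pool.Agent.Helper72.FL.st_SET a_TBS a_PXI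

theorem a_DRP : ST_DRP := Pool.Agent.Helper64.FL.st_DRP

theorem a_ATH : ST_ATH := Pool.Agent.Helper64.FL.st_ATH a_TBS a_PXI a_IPL

theorem a_NAM : ST_NAM := Pool.Agent.Helper64.FL.st_NAM a_TBS a_PXI a_IPL

theorem a_CRT : ST_CRT := Pool.Agent.Helper64.FL.st_CRT a_TBS a_PXI

theorem a_CHN : ST_CHN := Pool.Agent.Helper64.FL.st_CHN a_TBS a_IPL

theorem a_WHE : ST_WHE := Pool.Agent.Helper38.FL.st_WHE a_TBS a_CHN

theorem a_LDE : ST_LDE := Pool.Agent.Helper64.FL.st_LDE a_TBS a_PXI a_CHN a_IPL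

theorem a_TAP : ST_TAP := Pool.Agent.Helper64.FL.st_TAP a_TBS a_PXI a_IPL a_FRF

theorem a_SND : ST_SND := Pool.Agent.Helper64.FL.st_SND a_SET a_FRF a_DRP a_ATH a_NAM a_CRT a_WHE
  a_LDE a_TAP a_FIN

theorem a_RPS : ST_RPS := Pool.Agent.Helper64.FL.st_RPS

theorem a_COV : ST_COV := Pool.Agent.Helper64.FL.st_COV a_CRT

theorem a_ENG : ST_ENG := Pool.Agent.Helper64.FL.st_ENG a_SND a_COV

theorem a_NUB : ST_NUB := Pool.Agent.Helper64.FL.st_NUB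

theorem a_STB : ST_STB := Pool.Agent.Helper61.FL.st_STB

theorem a_CNB : ST_CNB := Pool.Agent.Helper61.FL.st_CNB

theorem a_NCV : ST_NCV := Pool.Agent.Helper64.FL.st_NCV a_CNB

theorem a_SPN : ST_SPN := Pool.Agent.Helper64.FL.st_SPN

theorem a_EXI : ST_EXI := Pool.Agent.Helper64.FL.st_EXI a_CNB

theorem a_PTB : ST_PTB := Pool.Agent.Helper64.FL.st_PTB a_IPL

theorem a_CUT : ST_CUT := Pool.Agent.Helper81.FL.st_CUT a_PTB

theorem a_ONF : ST_ONF := Pool.Agent.Helper64.FL.st_ONF a_CNB a_SPN a_EXI a_CUT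

theorem a_PIN : ST_PIN := Pool.Agent.Helper64.FL.st_PIN a_RPS a_NUB a_TBS a_PXI

theorem a_PRE : ST_PRE := Pool.Agent.Helper64.FL.st_PRE a_PIN a_ENG

theorem a_CIB : ST_CIB := Pool.Agent.Helper64.FL.st_CIB a_CNB

theorem a_CI0 : ST_CI0 := Pool.Agent.Helper64.FL.st_CI0 a_CIB a_NCV

theorem a_PRC : ST_PRC := Pool.Agent.Helper64.FL.st_PRC a_PIN a_CRT

theorem a_SEP : ST_SEP := Pool.Agent.Helper64.FL.st_SEP a_CNB

theorem a_PKX : ST_PKX := Pool.Agent.Helper64.FL.st_PKX a_CNB a_SPN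

theorem a_EQ2 : ST_EQ2 := Pool.Agent.Helper64.FL.st_EQ2

theorem a_LKX : ST_LKX := Pool.Agent.Helper64.FL.st_LKX a_CNB a_SPN

theorem a_CCF : ST_CCF := Pool.Agent.Helper48.FL.st_CCF

theorem a_SP3 : ST_SP3 := Pool.Agent.Helper64.FL.st_SP3 a_CNB a_PTB a_SPN a_EXI

theorem a_NRX : ST_NRX := Pool.Agent.Helper64.FL.st_NRX a_CNB a_SPN

theorem a_QI7 : ST_QI7 := Pool.Agent.Helper64.FL.st_QI7 a_SEP a_PTB

theorem a_CI3 : ST_CI3 := Pool.Agent.Helper64.FL.st_CI3 a_CIB a_CNB a_PTB a_SPN a_SP3 a_CUT a_CI0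

theorem a_STE : ST_STE := Pool.Agent.Helper64.FL.st_STE a_CNB a_PTB a_SPN

theorem a_CA0 : ST_CA0 := Pool.Agent.Helper64.FL.st_CA0 a_CIB a_PTB

theorem a_CA1 : ST_CA1 := Pool.Agent.Helper64.FL.st_CA1 a_CIB a_PTB

theorem a_CA2 : ST_CA2 := Pool.Agent.Helper64.FL.st_CA2 a_CIB a_CNB a_PTB a_SP3 a_CUT

theorem a_CA3 : ST_CA3 := Pool.Agent.Helper64.FL.st_CA3 a_CA2 a_CIB a_PTB

theorem a_CIM : ST_CIM := Pool.Agent.Helper64.FL.st_CIM a_CIB a_CNB a_CI3 a_STE a_CA0 a_CA1 a_CA3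

theorem a_PRP : ST_PRP := Pool.Agent.Helper64.FL.st_PRP

theorem a_SHF : ST_SHF := Pool.Agent.Helper5.FL.st_SHF

theorem a_DOM : ST_DOM := Pool.Agent.Helper64.FL.st_DOM a_PRP a_SHF

theorem a_DO2 : ST_DO2 := Pool.Agent.Helper64.FL.st_DO2

theorem a_TCH : ST_TCH := Pool.Agent.Helper64.FL.st_TCH a_DOM a_DO2 a_SHF

theorem a_QB2 : ST_QB2 := Pool.Agent.Helper64.FL.st_QB2 a_SEP a_PTB

theorem a_QI0 : ST_QI0 := Pool.Agent.Helper64.FL.st_QI0 a_SEP a_PTB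

theorem a_QI2 : ST_QI2 := Pool.Agent.Helper64.FL.st_QI2 a_SEP a_PTB

theorem a_QK1 : ST_QK1 := Pool.Agent.Helper64.FL.st_QK1 a_SEP a_PTB

theorem a_QK2 : ST_QK2 := Pool.Agent.Helper64.FL.st_QK2 a_SEP a_PTB

theorem a_MOC : ST_MOC := Pool.Agent.Helper64.FL.st_MOC

theorem a_QBB : ST_QBB := Pool.Agent.Helper64.FL.st_QBB a_SEP a_PTB

theorem a_IIA : ST_IIA := Pool.Agent.Helper64.FL.st_IIA a_CNB a_NRX a_PKX a_ONF a_EQ2 a_QI0 a_QI2
  a_QI7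

theorem a_QBC : ST_QBC := Pool.Agent.Helper64.FL.st_QBC a_SEP a_PTB

theorem a_IIB : ST_IIB := Pool.Agent.Helper64.FL.st_IIB a_CNB a_LKX a_NRX a_PKX a_ONF a_EQ2 a_QK1
  a_QK2 a_QBB a_QBC

theorem a_B3 : ST_B3 := Pool.Agent.Helper64.FL.st_B3 a_CNB a_SEP a_LKX a_CCF a_CIB a_QB2 a_IIA
  a_IIB

theorem a_NJC : ST_NJC := Pool.Agent.Helper64.FL.st_NJC

theorem a_TRN : ST_TRN := Pool.Agent.Helper64.FL.st_TRN a_NJC

theorem a_JIN : ST_JIN := Pool.Agent.Helper64.FL.st_JIN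

theorem a_ARI : ST_ARI := Pool.Agent.Helper64.FL.st_ARI a_JIN

theorem a_LPA : ST_LPA := Pool.Agent.Helper64.FL.st_LPA a_ARI a_JIN

theorem a_ARC : ST_ARC := Pool.Agent.Helper64.FL.st_ARC a_CNB a_PTB

theorem a_W1 : ST_W1 := Pool.Agent.Helper64.FL.st_W1 a_PTB a_IPL a_PRC

theorem a_ARX : ST_ARX := Pool.Agent.Helper64.FL.st_ARX a_SEP a_LKX a_PTB

theorem a_OVL : ST_OVL := Pool.Agent.Helper64.FL.st_OVL a_NJC

theorem a_ALT : ST_ALT := Pool.Agent.Helper64.FL.st_ALT a_NJC a_OVL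

theorem a_F1X : ST_F1X := Pool.Agent.Helper64.FL.st_F1X a_NJC a_TRN

theorem a_LDS : ST_LDS := Pool.Agent.Helper64.FL.st_LDS Pool.Agent.Helper24.FF.a_LNJ
  Pool.Agent.Helper24.FF.a_NNS

theorem a_LPN : ST_LPN := Pool.Agent.Helper64.FL.st_LPN a_LPA a_LDS

theorem a_LPW : ST_LPW := Pool.Agent.Helper64.FL.st_LPW a_LPA a_W1

theorem a_F2X : ST_F2X := Pool.Agent.Helper64.FL.st_F2X a_NJC a_TRN a_ALT

theorem a_D0F : ST_D0F := Pool.Agent.Helper64.FL.st_D0F a_SHF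

theorem a_D1F : ST_D1F := Pool.Agent.Helper5.FL.st_D1F a_D0F

theorem a_DI2 : ST_DI2 := Pool.Agent.Helper64.FL.st_DI2 a_D1F a_STB a_W1 a_CNB

theorem a_L3 : ST_L3 := Pool.Agent.Helper64.FL.st_L3 a_CNB Pool.Agent.Helper64.CT.st_ALS

theorem a_CLX : ST_CLX := Pool.Agent.Helper64.FL.st_CLX a_CNB a_D0F a_L3 a_STB

theorem a_D1S : ST_D1S := Pool.Agent.Helper64.FL.st_D1S a_SPN a_CNB

theorem a_D1A : ST_D1A := Pool.Agent.Helper64.FL.st_D1A a_ARX a_D0F a_STB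

theorem a_DI0 : ST_DI0 := Pool.Agent.Helper64.FL.st_DI0 a_CNB a_D0F a_D1F a_D1A a_ARC a_STB

theorem a_DI1 : ST_DI1 := Pool.Agent.Helper64.FL.st_DI1 a_D0F a_D1F a_D1A a_STB a_PTB a_LPN

theorem a_DJ0 : ST_DJ0 := Pool.Agent.Helper64.FL.st_DJ0 a_CNB a_D1F a_D1A a_ARC a_PTB a_LPN a_LPW

theorem a_DJ1 : ST_DJ1 := Pool.Agent.Helper64.FL.st_DJ1 a_CNB a_D0F a_D1F a_D1A a_STB a_LPW

theorem a_D1M : ST_D1M := Pool.Agent.Helper64.FL.st_D1M a_CLX a_D1S a_DI0 a_DI1 a_DI2 a_DJ0 a_DJ1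
  a_SHF

theorem a_NKC : ST_NKC := Pool.Agent.Helper5.FL.st_NKC a_ALT

theorem a_NKX : ST_NKX := Pool.Agent.Helper64.FL.st_NKX a_CNB a_SEP a_LKX a_PTB a_SHF

theorem a_SAR : ST_SAR := Pool.Agent.Helper64.FL.st_SAR a_ARC a_CNB

theorem a_F2A : ST_F2A := Pool.Agent.Helper64.FL.st_F2A a_F2X

theorem a_F1A : ST_F1A := Pool.Agent.Helper64.FL.st_F1A a_F1X a_CNB

theorem a_NKW : ST_NKW := Pool.Agent.Helper64.FL.st_NKW

theorem a_NKO : ST_NKO := Pool.Agent.Helper64.FL.st_NKO a_NKC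

theorem a_RGE : ST_RGE := Pool.Agent.Helper64.FL.st_RGE Pool.Agent.Helper24.FF.a_RAL
  Pool.Agent.Helper24.FF.a_CLA

theorem a_NKE : ST_NKE := Pool.Agent.Helper64.FL.st_NKE a_RGE

theorem a_NKM : ST_NKM := Pool.Agent.Helper64.FL.st_NKM a_NKX a_SAR a_F2A a_F1A a_NKW a_NKO a_NKE

theorem a_QHA : ST_QHA := Pool.Agent.Helper64.FL.st_QHA

theorem a_QHB : ST_QHB := Pool.Agent.Helper64.FL.st_QHB a_SEP a_PTB

theorem a_SPL : ST_SPL := Pool.Agent.Helper64.FL.st_SPL a_NRX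

theorem a_D2D : ST_D2D := Pool.Agent.Helper64.FL.st_D2D a_CNB a_SEP a_SPN a_D0F a_L3 a_SHF a_STB
  a_ARX a_LPN

theorem a_B5 : ST_B5 := Pool.Agent.Helper64.FL.st_B5 a_B3 a_MOC a_TCH a_D2D a_D1M a_NKM

theorem a_RAY : ST_RAY := Pool.Agent.Helper64.FL.st_RAY a_CNB

theorem a_TDC : ST_TDC := Pool.Agent.Helper64.FL.st_TDC a_RAY a_CNB Pool.Agent.Helper64.DT.st_AT2

theorem a_QHC : ST_QHC := Pool.Agent.Helper64.FL.st_QHC

theorem a_HB0 : ST_HB0 := Pool.Agent.Helper64.FL.st_HB0 a_RAY a_CNB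

theorem a_NCF : ST_NCF := Pool.Agent.Helper64.FL.st_NCF a_RAY a_CNB

theorem a_LWR : ST_LWR := Pool.Agent.Helper64.FL.st_LWR a_ARX a_STB a_RAY

theorem a_QPY : ST_QPY := Pool.Agent.Helper64.FL.st_QPY a_PTB

theorem a_LW2 : ST_LW2 := Pool.Agent.Helper64.FL.st_LW2 a_RAY a_STB

theorem a_MNT : ST_MNT := Pool.Agent.Helper64.FL.st_MNT a_CNB

theorem a_QPR : ST_QPR := Pool.Agent.Helper64.FL.st_QPR a_PTB

theorem a_LWB : ST_LWB := Pool.Agent.Helper64.FL.st_LWB a_LWR a_LW2 a_RAY a_STB a_PTB a_CNB a_SPN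
  a_ARC a_LPN

theorem a_CWX : ST_CWX := Pool.Agent.Helper64.FL.st_CWX

theorem a_H1B : ST_H1B := Pool.Agent.Helper64.FL.st_H1B a_CNB a_RAY a_SPL a_HB0 a_ONF a_PKX a_QHA
  a_QHB a_QHC

theorem a_SGX : ST_SGX := Pool.Agent.Helper64.FL.st_SGX a_TDC a_H1B a_RAY

theorem a_SGF : ST_SGF := Pool.Agent.Helper64.FL.st_SGF a_TDC a_RAY

theorem a_LWX : ST_LWX := Pool.Agent.Helper64.FL.st_LWX a_CWX a_SGF a_RAY a_PRP

theorem a_LWA : ST_LWA := Pool.Agent.Helper64.FL.st_LWA a_LWR a_LW2 a_RAY a_ARC a_LPN a_LPW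

theorem a_H1L : ST_H1L := Pool.Agent.Helper64.FL.st_H1L a_LWX a_LWA a_LWB

theorem a_EWD : ST_EWD := Pool.Agent.Helper64.FL.st_EWD a_NCF

theorem a_QKB : ST_QKB := Pool.Agent.Helper64.FL.st_QKB a_PTB

theorem a_ENU : ST_ENU := Pool.Agent.Helper64.FL.st_ENU

theorem a_R3S : ST_R3S := Pool.Agent.Helper64.FL.st_R3S a_F1X a_RAY a_CNB a_PTB

theorem a_XSB : ST_XSB := Pool.Agent.Helper64.FL.st_XSB

theorem a_RCY : ST_RCY := Pool.Agent.Helper64.FL.st_RCY a_NJC a_TRN a_OVL a_XSB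

theorem a_RCX : ST_RCX := Pool.Agent.Helper64.FL.st_RCX a_RCY a_SGF a_RAY a_CNB

theorem a_MNC : ST_MNC := Pool.Agent.Helper64.FL.st_MNC a_QPY a_RAY a_PTB a_CNB

theorem a_MNN : ST_MNN := Pool.Agent.Helper64.FL.st_MNN a_QPR a_RAY a_PTB a_CNB

theorem a_MNP : ST_MNP := Pool.Agent.Helper64.FL.st_MNP a_RAY a_PTB a_CNB

theorem a_TTX : ST_TTX := Pool.Agent.Helper64.FL.st_TTX a_MNT a_STE a_MNC a_MNN a_MNP a_CNB

theorem a_QCA : ST_QCA := Pool.Agent.Helper64.FL.st_QCA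

theorem a_CAB : ST_CAB := Pool.Agent.Helper64.FL.st_CAB a_QCA a_SP3 a_CUT a_CNB a_PTB

theorem a_QCD : ST_QCD := Pool.Agent.Helper64.FL.st_QCD a_CUT

theorem a_QCF : ST_QCF := Pool.Agent.Helper64.FL.st_QCF

theorem a_HTE : ST_HTE := Pool.Agent.Helper64.FL.st_HTE a_CAB a_QCD a_QCF a_SPN a_RAY a_CNB a_PTB

theorem a_HTD : ST_HTD := Pool.Agent.Helper35.FL.st_HTD a_CAB a_QKB a_SPN a_SGF a_RAY a_CNB

theorem a_HTA : ST_HTA := Pool.Agent.Helper64.FL.st_HTA a_EWD a_HTE a_HTD a_RAY a_CNB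

theorem a_HT3 : ST_HT3 := Pool.Agent.Helper64.FL.st_HT3 a_TTX a_HTA a_SGF a_RAY a_CNB

theorem a_QC4 : ST_QC4 := Pool.Agent.Helper64.FL.st_QC4

theorem a_HR3 : ST_HR3 := Pool.Agent.Helper64.FL.st_HR3 a_R3S a_RCX a_NCF a_TTX a_HT3 a_QC4 a_SPN
  a_RAY a_CNB a_PTB

theorem a_BCX : ST_BCX := Pool.Agent.Helper64.FL.st_BCX a_SPN a_EWD a_RAY a_XSB a_CNB

theorem a_BCF : ST_BCF := Pool.Agent.Helper64.FL.st_BCF a_RAY a_NCF a_SGF a_CNB

theorem a_CYO : ST_CYO := Pool.Agent.Helper64.FL.st_CYO a_BCF a_RCX a_XSB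

theorem a_HC0 : ST_HC0 := Pool.Agent.Helper64.FL.st_HC0 a_BCF a_RCX a_XSB

theorem a_HCA : ST_HCA := Pool.Agent.Helper64.FL.st_HCA a_BCF a_RCY a_XSB a_RAY a_CNB

theorem a_HCB : ST_HCB := Pool.Agent.Helper64.FL.st_HCB a_HR3 a_BCF a_RAY a_CNB a_PTB

theorem a_HCC : ST_HCC := Pool.Agent.Helper64.FL.st_HCC a_BCF a_RCY a_XSB a_RAY a_CNB

theorem a_HC1 : ST_HC1 := Pool.Agent.Helper64.FL.st_HC1 a_HCA a_HCB a_HCC a_BCF

theorem a_HCM : ST_HCM := Pool.Agent.Helper64.FL.st_HCM a_HT3 a_HC0 a_HC1 a_BCF a_XSB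

theorem a_FTH : ST_FTH := Pool.Agent.Helper64.FL.st_FTH a_ENU a_HR3 a_BCX a_CYO a_HCM a_EWD a_RAY
  a_XSB

theorem a_LM3 : ST_LM3 := Pool.Agent.Helper64.FL.st_LM3 a_RAY

theorem a_FRY : ST_FRY := Pool.Agent.Helper64.FL.st_FRY a_SPN a_RAY a_CNB a_PTB

theorem a_VWC : ST_VWC := Pool.Agent.Helper64.FL.st_VWC a_ARX a_F2X a_ARC a_RAY a_CNB

theorem a_PHI : ST_PHI := Pool.Agent.Helper64.FL.st_PHI a_RAY a_CNB

theorem a_VWX : ST_VWX := Pool.Agent.Helper64.FL.st_VWX a_PHI a_LM3 a_FRY a_CWX a_RAY a_PRP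

theorem a_QAB : ST_QAB := Pool.Agent.Helper64.FL.st_QAB

theorem a_VW4 : ST_VW4 := Pool.Agent.Helper64.FL.st_VW4 a_RGE a_F2X a_F1X a_ARC a_CNB

theorem a_VNO : ST_VNO := Pool.Agent.Helper64.FL.st_VNO a_VWC a_QAB a_VW4

theorem a_UTQ : ST_UTQ := Pool.Agent.Helper64.FL.st_UTQ a_VWX a_VNO a_PHI a_CWX a_RAY

theorem a_CDX : ST_CDX := Pool.Agent.Helper64.FL.st_CDX a_UTQ a_RAY

theorem a_CQ2 : ST_CQ2 := Pool.Agent.Helper64.FL.st_CQ2

theorem a_CPT : ST_CPT := Pool.Agent.Helper64.FL.st_CPT a_SGX a_FTH a_H1L a_CDX a_CQ2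

theorem a_PRM : ST_PRM := Pool.Agent.Helper64.FL.st_PRM b_SPG Pool.Agent.Helper64.HG.st_GLUE0

end Pool.Agent.Helper64.FL
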