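import Pool.Agent.Helper64.FL.Pre

set_option autoImplicit false

namespace Pool.Agent.Helper64.FL

/-- symbols: 0=x 1=y 2=z 3=n 4=l 5=r 6=u' 7=w -/
def preHA00 : Pre :=
  ⟨8,
    [(0, 1), (0, 2), (1, 2), (1, 3), (4, 0), (5, 3), (6, 0), (6, 3), (7, 0)],
    [(3, 0), (3, 2), (1, 4), (2, 4), (1, 5), (2, 5), (4, 3), (5, 0), (1, 6), (6, 4), (6, 5), (1, 7), (7, 4), (7, 5), (6, 2), (7, 3)],
    [(6, 2), (7, 2)],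
    [],
    [],
    [],
    [(4, 5, [0]), (6, 7, [0, 3, 2])]⟩

/-- symbols: 0=x 1=y 2=z 3=n 4=l 5=r 6=u' 7=w -/
def preHA01 : Pre :=
  ⟨8,
    [(0, 1), (0, 2), (1, 2), (1, 3), (4, 0), (5, 3), (6, 0), (6, 3), (7, 3)],
    [(3, 0), (3, 2), (1, 4), (2, 4), (1, 5), (2, 5), (4, 3), (5, 0), (1, 6), (6, 4), (6, 5), (1, 7), (7, 4), (7, 5), (6, 2), (7, 0)],
    [(6, 2), (7, 2)],
    [],
    [],
    [],
    [(4, 5, [0]), (6, 7, [0, 3, 2])]⟩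

/-- symbols: 0=x 1=y 2=z 3=n 4=l 5=r 6=u' 7=w -/
def preHA10 : Pre :=
  ⟨8,
    [(0, 1), (0, 2), (1, 2), (1, 3), (4, 0), (5, 3), (5, 0), (6, 0), (6, 3), (7, 0)],
    [(3, 0), (3, 2), (1, 4), (2, 4), (1, 5), (2, 5), (4, 3), (1, 6), (6, 4), (6, 5), (1, 7), (7, 4), (7, 5), (6, 2), (7, 3)],
    [(6, 2), (7, 2)],
    [],
    [],
    [],
    [(4, 5, [0]), (6, 7, [0, 3, 2])]⟩

/-- symbols: 0=x 1=y 2=z 3=n 4=l 5=r 6=u' 7=w -/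
def preHA11 : Pre :=
  ⟨8,
    [(0, 1), (0, 2), (1, 2), (1, 3), (4, 0), (5, 3), (5, 0), (6, 0), (6, 3), (7, 3)],
    [(3, 0), (3, 2), (1, 4), (2, 4), (1, 5), (2, 5), (4, 3), (1, 6), (6, 4), (6, 5), (1, 7), (7, 4), (7, 5), (6, 2), (7, 0)],
    [(6, 2), (7, 2)],
    [],
    [],
    [],
    [(4, 5, [0]), (6, 7, [0, 3, 2])]⟩

/-- symbols: 0=x 1=y 2=z 3=n 4=l 5=r 6=u' 7=w -/
def preHA20 : Pre :=
  ⟨8,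
    [(0, 1), (0, 2), (1, 2), (1, 3), (4, 3), (5, 0), (5, 3), (6, 0), (6, 3), (7, 0)],
    [(3, 0), (3, 2), (1, 4), (2, 4), (1, 5), (2, 5), (4, 0), (1, 6), (6, 4), (6, 5), (1, 7), (7, 4), (7, 5), (6, 2), (7, 3)],
    [(6, 2), (7, 2)],
    [],
    [],
    [],
    [(4, 5, [3]), (6, 7, [0, 3, 2])]⟩

/-- symbols: 0=x 1=y 2=z 3=n 4=l 5=r 6=u' 7=w -/
def preHA21 : Pre :=
  ⟨8,
    [(0, 1), (0, 2), (1, 2), (1, 3), (4, 3), (5, 0), (5, 3), (6, 0), (6, 3), (7, 3)],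
    [(3, 0), (3, 2), (1, 4), (2, 4), (1, 5), (2, 5), (4, 0), (1, 6), (6, 4), (6, 5), (1, 7), (7, 4), (7, 5), (6, 2), (7, 0)],
    [(6, 2), (7, 2)],
    [],
    [],
    [],
    [(4, 5, [3]), (6, 7, [0, 3, 2])]⟩

/-- symbols: 0=x 1=y 2=z 3=n 4=s 5=u 6=u' 7=w 8=f 9=y1 10=y2 -/
def preHB000 : Pre :=
  ⟨11,
    [(0, 1), (0, 2), (1, 2), (1, 3), (1, 4), (5, 0), (5, 3), (6, 0), (6, 3), (7, 0), (9, 4), (10, 8)],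
    [(3, 0), (3, 2), (1, 5), (2, 5), (5, 4), (1, 6), (6, 5), (1, 7), (7, 5), (6, 2), (7, 3), (7, 4), (6, 4), (1, 8), (8, 5), (8, 4), (1, 9), (9, 5), (1, 10), (10, 5)],
    [(4, 0), (4, 2), (4, 3), (6, 2), (7, 2), (8, 2), (9, 2), (10, 2), (10, 6), (10, 7), (9, 6), (9, 7), (9, 8)],
    [(6, 8), (7, 8), (9, 10)],
    [([(6, 8), (8, 7)], 6, 7), ([(9, 10)], 10, 4), ([(6, 8)], 6, 10), ([(9, 10)], 9, 6), ([(9, 10)], 9, 8), ([(9, 10)], 9, 7)],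
    [],
    [(6, 8, [0, 3, 2]), (8, 7, [0, 3, 2, 9, 10]), (9, 10, [0, 3, 2])]⟩

/-- symbols: 0=x 1=y 2=z 3=n 4=s 5=u 6=u' 7=w 8=f -/
def preHB001 : Pre :=
  ⟨9,
    [(0, 1), (0, 2), (1, 2), (1, 3), (1, 4), (5, 0), (5, 3), (6, 0), (6, 3), (7, 0), (8, 4)],
    [(3, 0), (3, 2), (1, 5), (2, 5), (5, 4), (1, 6), (6, 5), (1, 7), (7, 5), (6, 2), (7, 3), (1, 8), (8, 5)],
    [(4, 0), (4, 2), (4, 3), (6, 2), (7, 2), (8, 2)],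
    [(6, 8), (7, 8)],
    [([(6, 8)], 6, 4), ([(6, 8), (8, 7)], 6, 7)],
    [],
    [(6, 8, [0, 3, 2]), (8, 7, [0, 3, 2, 4])]⟩

/-- symbols: 0=x 1=y 2=z 3=n 4=s 5=u 6=u' 7=w 8=f 9=y1 10=y2 -/
def preHB010 : Pre :=
  ⟨11,
    [(0, 1), (0, 2), (1, 2), (1, 3), (1, 4), (5, 0), (5, 3), (6, 0), (6, 3), (7, 3), (9, 4), (10, 8)],
    [(3, 0), (3, 2), (1, 5), (2, 5), (5, 4), (1, 6), (6, 5), (1, 7), (7, 5), (6, 2), (7, 0), (7, 4), (6, 4), (1, 8), (8, 5), (8, 4), (1, 9), (9, 5), (1, 10), (10, 5)],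
    [(4, 0), (4, 2), (4, 3), (6, 2), (7, 2), (8, 2), (9, 2), (10, 2), (10, 6), (10, 7), (9, 6), (9, 7), (9, 8)],
    [(6, 8), (7, 8), (9, 10)],
    [([(6, 8), (8, 7)], 6, 7), ([(9, 10)], 10, 4), ([(6, 8)], 6, 10), ([(9, 10)], 9, 6), ([(9, 10)], 9, 8), ([(9, 10)], 9, 7)],
    [],
    [(6, 8, [0, 3, 2]), (8, 7, [0, 3, 2, 9, 10]), (9, 10, [0, 3, 2])]⟩

/-- symbols: 0=x 1=y 2=z 3=n 4=s 5=u 6=u' 7=w 8=f -/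
def preHB011 : Pre :=
  ⟨9,
    [(0, 1), (0, 2), (1, 2), (1, 3), (1, 4), (5, 0), (5, 3), (6, 0), (6, 3), (7, 3), (8, 4)],
    [(3, 0), (3, 2), (1, 5), (2, 5), (5, 4), (1, 6), (6, 5), (1, 7), (7, 5), (6, 2), (7, 0), (1, 8), (8, 5)],
    [(4, 0), (4, 2), (4, 3), (6, 2), (7, 2), (8, 2)],
    [(6, 8), (7, 8)],
    [([(6, 8)], 6, 4), ([(6, 8), (8, 7)], 6, 7)],
    [],
    [(6, 8, [0, 3, 2]), (8, 7, [0, 3, 2, 4])]⟩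

/-- symbols: 0=x 1=y 2=z 3=n 4=u 5=u' 6=w 7=f 8=y1 9=y2 -/
def preHB100 : Pre :=
  ⟨10,
    [(0, 1), (0, 2), (1, 2), (1, 3), (4, 0), (4, 3), (5, 0), (5, 3), (6, 0), (8, 2), (9, 7)],
    [(3, 0), (3, 2), (1, 4), (2, 4), (1, 5), (5, 4), (1, 6), (6, 4), (5, 2), (6, 3), (6, 2), (1, 7), (7, 4), (7, 2), (1, 8), (8, 4), (1, 9), (9, 4)],
    [(5, 2), (6, 2), (7, 2), (8, 2), (9, 2), (9, 5), (9, 6), (8, 5), (8, 6), (8, 7)],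
    [(5, 7), (6, 7), (8, 9)],
    [([(5, 7), (7, 6)], 5, 6), ([(8, 9)], 9, 2), ([(5, 7)], 5, 9), ([(8, 9)], 8, 5), ([(8, 9)], 8, 7), ([(8, 9)], 8, 6)],
    [],
    [(5, 7, [0, 3]), (7, 6, [0, 3, 8, 9]), (8, 9, [0, 3])]⟩

/-- symbols: 0=x 1=y 2=z 3=n 4=u 5=u' 6=w 7=f -/
def preHB101 : Pre :=
  ⟨8,
    [(0, 1), (0, 2), (1, 2), (1, 3), (4, 0), (4, 3), (5, 0), (5, 3), (6, 0), (7, 2)],
    [(3, 0), (3, 2), (1, 4), (2, 4), (1, 5), (5, 4), (1, 6), (6, 4), (5, 2), (6, 3), (1, 7), (7, 4)],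
    [(5, 2), (6, 2), (7, 2), (5, 7)],
    [(6, 7)],
    [([(5, 7), (7, 6)], 5, 6)],
    [],
    [(5, 7, [0, 3]), (7, 6, [0, 3, 2])]⟩

/-- symbols: 0=x 1=y 2=z 3=n 4=u 5=u' 6=w 7=f 8=y1 9=y2 -/
def preHB110 : Pre :=
  ⟨10,
    [(0, 1), (0, 2), (1, 2), (1, 3), (4, 0), (4, 3), (5, 0), (5, 3), (6, 3), (8, 2), (9, 7)],
    [(3, 0), (3, 2), (1, 4), (2, 4), (1, 5), (5, 4), (1, 6), (6, 4), (5, 2), (6, 0), (6, 2), (1, 7), (7, 4), (7, 2), (1, 8), (8, 4), (1, 9), (9, 4)],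
    [(5, 2), (6, 2), (7, 2), (8, 2), (9, 2), (9, 5), (9, 6), (8, 5), (8, 6), (8, 7)],
    [(5, 7), (6, 7), (8, 9)],
    [([(5, 7), (7, 6)], 5, 6), ([(8, 9)], 9, 2), ([(5, 7)], 5, 9), ([(8, 9)], 8, 5), ([(8, 9)], 8, 7), ([(8, 9)], 8, 6)],
    [],
    [(5, 7, [0, 3]), (7, 6, [0, 3, 8, 9]), (8, 9, [0, 3])]⟩

/-- symbols: 0=x 1=y 2=z 3=n 4=u 5=u' 6=w 7=f -/
def preHB111 : Pre :=
  ⟨8,
    [(0, 1), (0, 2), (1, 2), (1, 3), (4, 0), (4, 3), (5, 0), (5, 3), (6, 3), (7, 2)],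
    [(3, 0), (3, 2), (1, 4), (2, 4), (1, 5), (5, 4), (1, 6), (6, 4), (5, 2), (6, 0), (1, 7), (7, 4)],
    [(5, 2), (6, 2), (7, 2), (5, 7)],
    [(6, 7)],
    [([(5, 7), (7, 6)], 5, 6)],
    [],
    [(5, 7, [0, 3]), (7, 6, [0, 3, 2])]⟩

/-- symbols: 0=x 1=y 2=z 3=n 4=s 5=l 6=r 7=u' 8=w -/
def preHC00 : Pre :=
  ⟨9,
    [(0, 1), (0, 2), (1, 2), (1, 3), (1, 4), (5, 0), (5, 3), (6, 4), (7, 0), (7, 3), (7, 4), (8, 0), (8, 4)],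
    [(3, 0), (3, 2), (4, 0), (4, 2), (1, 5), (2, 5), (1, 6), (2, 6), (5, 4), (6, 0), (6, 3), (1, 7), (7, 5), (7, 6), (1, 8), (8, 5), (8, 6), (7, 2), (8, 3)],
    [(3, 4), (7, 2), (8, 2)],
    [],
    [],
    [],
    [(5, 6, [0, 3]), (7, 8, [0, 3, 4, 2])]⟩

/-- symbols: 0=x 1=y 2=z 3=n 4=s 5=l 6=r 7=u' 8=w -/
def preHC01 : Pre :=
  ⟨9,
    [(0, 1), (0, 2), (1, 2), (1, 3), (1, 4), (5, 0), (5, 3), (6, 4), (7, 0), (7, 3), (7, 4), (8, 3)],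
    [(3, 0), (3, 2), (4, 0), (4, 2), (1, 5), (2, 5), (1, 6), (2, 6), (5, 4), (6, 0), (6, 3), (1, 7), (7, 5), (7, 6), (1, 8), (8, 5), (8, 6), (7, 2), (8, 0), (8, 4)],
    [(3, 4), (7, 2), (8, 2)],
    [],
    [],
    [],
    [(5, 6, [0, 3]), (7, 8, [0, 3, 4, 2])]⟩

/-- symbols: 0=x 1=y 2=z 3=n 4=s 5=l 6=r 7=u' 8=w -/
def preHC10 : Pre :=
  ⟨9,
    [(0, 1), (0, 2), (1, 2), (1, 3), (1, 4), (5, 0), (5, 3), (6, 4), (6, 0), (6, 3), (7, 0), (7, 3), (7, 4), (8, 0), (8, 4)],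
    [(3, 0), (3, 2), (4, 0), (4, 2), (1, 5), (2, 5), (1, 6), (2, 6), (5, 4), (1, 7), (7, 5), (7, 6), (1, 8), (8, 5), (8, 6), (7, 2), (8, 3)],
    [(3, 4), (7, 2), (8, 2)],
    [],
    [],
    [],
    [(5, 6, [0, 3]), (7, 8, [0, 3, 4, 2])]⟩

/-- symbols: 0=x 1=y 2=z 3=n 4=s 5=l 6=r 7=u' 8=w -/
def preHC11 : Pre :=
  ⟨9,
    [(0, 1), (0, 2), (1, 2), (1, 3), (1, 4), (5, 0), (5, 3), (6, 4), (6, 0), (6, 3), (7, 0), (7, 3), (7, 4), (8, 3)],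
    [(3, 0), (3, 2), (4, 0), (4, 2), (1, 5), (2, 5), (1, 6), (2, 6), (5, 4), (1, 7), (7, 5), (7, 6), (1, 8), (8, 5), (8, 6), (7, 2), (8, 0), (8, 4)],
    [(3, 4), (7, 2), (8, 2)],
    [],
    [],
    [],
    [(5, 6, [0, 3]), (7, 8, [0, 3, 4, 2])]⟩

/-- symbols: 0=x 1=y 2=z 3=n 4=s 5=l 6=r 7=u' 8=w -/
def preHC20 : Pre :=
  ⟨9,
    [(0, 1), (0, 2), (1, 2), (1, 3), (1, 4), (5, 4), (6, 0), (6, 3), (6, 4), (7, 0), (7, 3), (7, 4), (8, 0), (8, 4)],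
    [(3, 0), (3, 2), (4, 0), (4, 2), (1, 5), (2, 5), (1, 6), (2, 6), (5, 0), (5, 3), (1, 7), (7, 5), (7, 6), (1, 8), (8, 5), (8, 6), (7, 2), (8, 3)],
    [(3, 4), (7, 2), (8, 2)],
    [],
    [],
    [],
    [(5, 6, [4]), (7, 8, [0, 3, 4, 2])]⟩

/-- symbols: 0=x 1=y 2=z 3=n 4=s 5=l 6=r 7=u' 8=w -/
def preHC21 : Pre :=
  ⟨9,
    [(0, 1), (0, 2), (1, 2), (1, 3), (1, 4), (5, 4), (6, 0), (6, 3), (6, 4), (7, 0), (7, 3), (7, 4), (8, 3)],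
    [(3, 0), (3, 2), (4, 0), (4, 2), (1, 5), (2, 5), (1, 6), (2, 6), (5, 0), (5, 3), (1, 7), (7, 5), (7, 6), (1, 8), (8, 5), (8, 6), (7, 2), (8, 0), (8, 4)],
    [(3, 4), (7, 2), (8, 2)],
    [],
    [],
    [],
    [(5, 6, [4]), (7, 8, [0, 3, 4, 2])]⟩

/-- symbols: 0=x 1=y 2=z 3=o 4=a 5=b 6=c -/
def prePy : Pre :=
  ⟨7,
    [(0, 1), (0, 2), (1, 2), (4, 0), (5, 1), (6, 2)],
    [(3, 0), (3, 1), (3, 2), (4, 1), (4, 2), (4, 5), (4, 6), (5, 0), (5, 2), (5, 6), (6, 0), (6, 1)],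
    [(4, 3), (5, 3), (6, 3)],
    [],
    [],
    [],
    [(4, 3, []), (5, 3, []), (6, 3, [])]⟩

/-- symbols: 0=x 1=y 2=z 3=p 4=q 5=r 6=a 7=b 8=c -/
def prePr : Pre :=
  ⟨9,
    [(0, 1), (0, 2), (1, 2), (3, 4), (3, 5), (4, 5), (6, 0), (7, 1), (8, 2)],
    [(3, 1), (3, 2), (4, 0), (4, 2), (5, 0), (5, 1), (6, 1), (6, 2), (7, 0), (7, 2), (8, 0), (8, 1)],
    [(3, 7), (3, 8), (4, 6), (4, 8), (5, 6), (5, 7), (6, 7), (6, 8), (7, 8), (3, 0), (4, 1), (5, 2)],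
    [(3, 6), (4, 7), (5, 8)],
    [([(3, 6)], 3, 0), ([(4, 7)], 4, 1), ([(5, 8)], 5, 2), ([(3, 6)], 6, 4), ([(3, 6)], 6, 5), ([(4, 7)], 7, 3), ([(4, 7)], 7, 5), ([(5, 8)], 8, 3), ([(5, 8)], 8, 4), ([(3, 6)], 6, 7), ([(3, 6)], 6, 8), ([(4, 7)], 7, 6), ([(4, 7)], 7, 8), ([(5, 8)], 8, 6), ([(5, 8)], 8, 7)],
    [],
    [(3, 6, []), (4, 7, []), (5, 8, [])]⟩

/-- symbols: 0=x 1=y 2=z 3=m 4=a 5=aj 6=as 7=b 8=bj 9=bt 10=q1 11=qk -/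
def preCia : Pre :=
  ⟨12,
    [(0, 1), (0, 2), (1, 2), (3, 2), (4, 0), (7, 1), (3, 6), (3, 9), (10, 5), (11, 8)],
    [(3, 0), (3, 1), (1, 4), (2, 4), (4, 7), (4, 8), (4, 9), (1, 5), (2, 5), (5, 7), (5, 8), (5, 9), (1, 6), (2, 6), (6, 7), (6, 8), (6, 9), (0, 7), (2, 7), (0, 8), (2, 8), (0, 9), (2, 9), (2, 10), (2, 11)],
    [(0, 5), (0, 6), (1, 8), (1, 9), (10, 4), (10, 6), (11, 7), (11, 9), (10, 7), (10, 8), (10, 9), (11, 4), (11, 5), (11, 6), (10, 0), (10, 1), (11, 0), (11, 1)],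
    [(10, 11), (4, 5), (5, 6), (4, 6), (7, 8), (8, 9), (7, 9)],
    [([(4, 5)], 0, 5), ([(4, 6)], 0, 6), ([(7, 8)], 1, 8), ([(7, 9)], 1, 9), ([(4, 6)], 3, 4), ([(5, 6)], 3, 5), ([(7, 9)], 3, 7), ([(8, 9)], 3, 8), ([(4, 5)], 4, 10), ([(7, 8)], 7, 11), ([(10, 11)], 10, 7), ([(10, 11)], 10, 8), ([(10, 11)], 10, 9), ([(10, 11)], 11, 4), ([(10, 11)], 11, 5), ([(10, 11)], 11, 6), ([(4, 5), (5, 6)], 4, 6), ([(7, 8), (8, 9)], 7, 9)],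
    [([(4, 5)], 4, 6), ([(5, 6)], 4, 6), ([(7, 8)], 7, 9), ([(8, 9)], 7, 9)],
    [(10, 11, [0, 1, 3]), (4, 5, []), (5, 6, [10, 11]), (7, 8, []), (8, 9, [10, 11])]⟩

/-- symbols: 0=x 1=y 2=z 3=m 4=m' 5=a 6=aj 7=as 8=b 9=bj 10=bt 11=q1 12=qk -/
def preCib : Pre :=
  ⟨13,
    [(0, 1), (0, 2), (1, 2), (3, 2), (4, 2), (3, 4), (5, 0), (8, 1), (3, 7), (4, 10), (11, 6), (12, 9)],
    [(3, 0), (3, 1), (4, 0), (4, 1), (1, 5), (2, 5), (5, 8), (5, 9), (5, 10), (1, 6), (2, 6), (6, 8), (6, 9), (6, 10), (1, 7), (2, 7), (7, 8), (7, 9), (7, 10), (0, 8), (2, 8), (0, 9), (2, 9), (0, 10), (2, 10), (3, 8), (3, 9), (3, 10), (4, 5), (4, 6), (4, 7), (2, 11), (2, 12)],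
    [(0, 6), (0, 7), (1, 9), (1, 10), (11, 5), (11, 7), (12, 8), (12, 10), (11, 8), (11, 9), (11, 10), (12, 5), (12, 6), (12, 7), (11, 0), (11, 1), (12, 0), (12, 1)],
    [(11, 12), (5, 6), (6, 7), (5, 7), (8, 9), (9, 10), (8, 10)],
    [([(5, 6)], 0, 6), ([(5, 7)], 0, 7), ([(8, 9)], 1, 9), ([(8, 10)], 1, 10), ([(5, 7)], 3, 5), ([(6, 7)], 3, 6), ([(8, 10)], 4, 8), ([(9, 10)], 4, 9), ([(5, 6)], 5, 11), ([(8, 9)], 8, 12), ([(11, 12)], 11, 8), ([(11, 12)], 11, 9), ([(11, 12)], 11, 10), ([(11, 12)], 12, 5), ([(11, 12)], 12, 6), ([(11, 12)], 12, 7), ([(5, 6), (6, 7)], 5, 7), ([(8, 9), (9, 10)], 8, 10)],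
    [([(5, 6)], 5, 7), ([(6, 7)], 5, 7), ([(8, 9)], 8, 10), ([(9, 10)], 8, 10)],
    [(11, 12, [0, 1, 3, 4]), (5, 6, []), (6, 7, [11, 12]), (8, 9, []), (9, 10, [11, 12])]⟩

/-- symbols: 0=x 1=y 2=z 3=m 4=m' 5=a 6=b 7=bj 8=bt -/
def preCid : Pre :=
  ⟨9,
    [(0, 1), (0, 2), (1, 2), (3, 2), (4, 2), (3, 4), (5, 0), (5, 3), (6, 1), (4, 8), (5, 7)],
    [(3, 0), (3, 1), (4, 0), (4, 1), (5, 1), (5, 2), (0, 6), (2, 6), (0, 7), (2, 7), (0, 8), (2, 8), (3, 6), (3, 7), (3, 8)],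
    [(5, 6), (5, 7), (5, 8), (1, 7), (1, 8), (5, 4)],
    [(6, 7), (7, 8), (6, 8)],
    [([(6, 7)], 1, 7), ([(6, 8)], 1, 8), ([(6, 8)], 4, 6), ([(7, 8)], 4, 7), ([(6, 7)], 6, 5), ([(6, 7), (7, 8)], 6, 8)],
    [([(6, 7)], 6, 8), ([(7, 8)], 6, 8)],
    [(6, 7, []), (7, 8, [5])]⟩

/-- symbols: 0=x 1=y 2=z 3=m 4=m' 5=a 6=b -/
def preCif : Pre :=
  ⟨7,
    [(0, 1), (0, 2), (1, 2), (3, 2), (4, 2), (3, 4), (5, 0), (5, 3), (6, 1), (6, 4)],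
    [(3, 0), (3, 1), (4, 0), (4, 1), (5, 1), (5, 2), (6, 0), (6, 2)],
    [(5, 4), (6, 3)],
    [],
    [],
    [],
    [(5, 6, [3, 4])]⟩

/-- symbols: 0=x 1=y 2=z 3=m 4=m' 5=a 6=as 7=b 8=bt 9=s 10=t -/
def preKB : Pre :=
  ⟨11,
    [(0, 1), (0, 2), (1, 2), (3, 2), (4, 2), (3, 4), (5, 0), (7, 1), (3, 6), (4, 8), (9, 0), (10, 1)],
    [(3, 0), (3, 1), (4, 0), (4, 1), (1, 5), (2, 5), (5, 7), (5, 8), (4, 5), (1, 6), (2, 6), (6, 7), (6, 8), (4, 6), (0, 7), (2, 7), (3, 7), (0, 8), (2, 8), (3, 8), (9, 1), (9, 2), (10, 0), (10, 2), (9, 5), (10, 5), (9, 6), (10, 6), (9, 7), (10, 7), (9, 8), (10, 8), (9, 3), (10, 4)],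
    [(0, 6), (1, 8), (9, 4), (10, 3)],
    [(5, 6), (7, 8)],
    [([(5, 6)], 0, 6), ([(7, 8)], 1, 8), ([(5, 6)], 3, 5), ([(7, 8)], 4, 7)],
    [],
    [(5, 6, []), (7, 8, []), (9, 10, [3, 4])]⟩

/-- symbols: 0=h 1=a 2=b 3=n1 4=n2 5=p 6=p' 7=r 8=r' 9=l 10=l' -/
def preAB : Pre :=
  ⟨11,
    [(0, 1), (0, 2), (1, 2), (0, 3), (0, 4), (3, 4), (1, 5), (3, 6), (4, 7), (2, 8), (9, 3), (10, 4)],
    [(1, 3), (1, 4), (2, 3), (2, 4), (9, 4), (10, 3), (5, 0), (5, 2), (5, 4), (5, 7), (5, 8), (5, 9), (5, 10), (6, 0), (6, 2), (6, 4), (6, 7), (6, 8), (6, 9), (6, 10), (7, 0), (7, 1), (7, 3), (7, 9), (7, 10), (8, 0), (8, 1), (8, 3), (8, 9), (8, 10), (9, 0), (9, 1), (9, 2), (10, 0), (10, 1), (10, 2)],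
    [(1, 6), (3, 5), (4, 8), (2, 7)],
    [(5, 6), (7, 8)],
    [([(5, 6)], 1, 6), ([(5, 6)], 3, 5), ([(7, 8)], 4, 8), ([(7, 8)], 2, 7)],
    [],
    [(5, 6, []), (7, 8, []), (9, 10, [])]⟩

/-- symbols: 0=z 1=y1 2=y2 3=y3 4=m 5=n 6=a 7=a' 8=b 9=b' 10=c 11=c' -/
def preC4a : Pre :=
  ⟨12,
    [(0, 1), (0, 2), (0, 3), (1, 2), (1, 3), (2, 3), (4, 0), (5, 0), (1, 6), (4, 7), (2, 8), (4, 9), (3, 10), (5, 11)],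
    [(4, 1), (4, 2), (4, 3), (5, 1), (5, 2), (5, 3), (4, 5), (6, 0), (6, 2), (6, 3), (6, 5), (6, 8), (6, 9), (6, 10), (6, 11), (7, 0), (7, 2), (7, 3), (7, 5), (7, 8), (7, 9), (7, 10), (7, 11), (8, 0), (8, 1), (8, 3), (8, 5), (8, 10), (8, 11), (9, 0), (9, 1), (9, 3), (9, 5), (9, 10), (9, 11), (10, 0), (10, 1), (10, 2), (10, 4), (11, 0), (11, 1), (11, 2), (11, 4)],
    [(1, 7), (4, 6), (2, 9), (4, 8), (3, 11), (5, 10)],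
    [(6, 7), (8, 9), (10, 11)],
    [([(6, 7)], 1, 7), ([(6, 7)], 4, 6), ([(8, 9)], 2, 9), ([(8, 9)], 4, 8), ([(10, 11)], 3, 11), ([(10, 11)], 5, 10)],
    [],
    [(6, 7, []), (8, 9, []), (10, 11, [])]⟩

/-- symbols: 0=z 1=y1 2=y2 3=y3 4=m 5=m' 6=n 7=a 8=a' 9=b 10=b' 11=c 12=c' -/
def preC4b : Pre :=
  ⟨13,
    [(0, 1), (0, 2), (0, 3), (1, 2), (1, 3), (2, 3), (4, 0), (6, 0), (5, 0), (4, 5), (1, 7), (4, 8), (2, 9), (5, 10), (3, 11), (6, 12)],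
    [(4, 1), (4, 2), (4, 3), (6, 1), (6, 2), (6, 3), (5, 1), (5, 2), (5, 3), (4, 6), (5, 6), (7, 0), (7, 2), (7, 3), (7, 6), (7, 5), (7, 9), (7, 10), (7, 11), (7, 12), (8, 0), (8, 2), (8, 3), (8, 6), (8, 5), (8, 9), (8, 10), (8, 11), (8, 12), (9, 0), (9, 1), (9, 3), (9, 6), (9, 4), (9, 11), (9, 12), (10, 0), (10, 1), (10, 3), (10, 6), (10, 4), (10, 11), (10, 12), (11, 0), (11, 1), (11, 2), (11, 4), (11, 5), (12, 0), (12, 1), (12, 2), (12, 4), (12, 5)],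
    [(1, 8), (4, 7), (2, 10), (5, 9), (3, 12), (6, 11)],
    [(7, 8), (9, 10), (11, 12)],
    [([(7, 8)], 1, 8), ([(7, 8)], 4, 7), ([(9, 10)], 2, 10), ([(9, 10)], 5, 9), ([(11, 12)], 3, 12), ([(11, 12)], 6, 11)],
    [],
    [(7, 8, []), (9, 10, []), (11, 12, [])]⟩

end Pool.Agent.Helper64.FL
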