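import Pool.Agent.Helper64.FL.StH
import Pool.Agent.Helper64.FL.PreC

/-! Full list for MP_866009_co: statements for the condition at the cliques. -/

set_option autoImplicit false

namespace Pool.Agent.Helper64.FL

open Pool.Agent.Helper64.CT Pool.Agent.Helper64.DT
open Pool.Agent.Helper64.HG (Ovl Model Circ IC HellyCircle ChordModel)

variable {V : Type}

/-- the configurations used for the cliques -/
def preCs : List Pre := [preHA00, preHA01, preHA10, preHA11, preHA20, preHA21, preHB000, preHB001,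
  preHB010, preHB011, preHB100, preHB101, preHB110, preHB111, preHC00, preHC01, preHC10, preHC11,
  preHC20, preHC21, prePy, prePr, preCia, preCib, preCid, preCif, preKB, preAB, preC4a, preC4b]

/-! ### Notions -/

/-- `u` is a neighbour outside `Q` of the vertex `x` of `Q` -/
def RayQ (G : SimpleGraph V) (Q : Set V) (x u : V) : Prop := x ∈ Q ∧ G.Adj x u ∧ u ∉ Q

/-- signs of the rays at the same vertex -/
def Sgn (G : SimpleGraph V) (Q : Set V) (σ : V → Bool) : Prop :=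
  ∀ x u u' y, RayQ G Q x u → RayQ G Q x u' → y ∈ Q → y ≠ x →
    (Comp G y u u' → σ u = σ u') ∧ (Conf G y u u' → σ u ≠ σ u')

/-- the signs are compatible with the colourings at all vertices of `Q` -/
def Sgw (G : SimpleGraph V) (Q : Set V) (σ : V → Bool) : Prop :=
  ∀ x u u' y, RayQ G Q x u → RayQ G Q x u' → y ∈ Q → y ≠ x → Clu G y u u' →
    ∀ c, PropC G y c → (σ u = σ u' ↔ c u = c u')

/-- the vertices outside `Q` adjacent to no vertex of `Q` except possibly `a`, `b` -/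
def ZZ (G : SimpleGraph V) (Q : Set V) (a b : V) : Set V :=
  {v | v ∉ Q ∧ ∀ q ∈ Q, q ≠ a → q ≠ b → ¬ G.Adj q v}

/-- the rays `u` of `a` and `w` of `b` are connected outside the neighbourhoods of the other
vertices of `Q` -/
def BE (G : SimpleGraph V) (Q : Set V) (a b u w : V) : Prop :=
  a ≠ b ∧ RayQ G Q a u ∧ RayQ G Q b w ∧ Cn G (ZZ G Q a b) u w

/-- environment -/
structure EnvC (G : SimpleGraph V) (Q : Set V) (σ : V → Bool) : Prop where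
  red : Red G
  pr : Prime G
  ci : CI G
  cii : CII G
  np : NoP G preCs
  mx : MaxC G Q
  big : Big Q
  sg : Sgn G Q σ

/-- the vertices of a path -/
def PV (a : V) (l : List V) (b : V) : Set V := {u | u = a ∨ u ∈ l ∨ u = b}

/-- induced path from `b` to `b'`; only `b` is adjacent to `y`, only `b'` is adjacent to `m` -/
structure Arm (G : SimpleGraph V) (y m b : V) (l : List V) (b' : V) : Prop where
  pth : Pth G b l b'
  yb : G.Adj y b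
  mb : G.Adj m b'
  ny : ∀ u ∈ PV b l b', u ≠ y ∧ (G.Adj y u → u = b)
  nm : ∀ u ∈ PV b l b', u ≠ m ∧ (G.Adj m u → u = b')

/-- path in `S` from the neighbour `a` of `x` to the neighbour `b` of `y` through the neighbours
`m`, `m'` (equal or adjacent) of `z`, without further neighbours of `x`, `y`, `z` -/
structure TTp (G : SimpleGraph V) (S : Set V) (x y z a : V) (la : List V) (a' b : V) (lb : List V)
    (b' m m' : V) : Prop where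
  A : Arm G x m a la a'
  B : Arm G y m' b lb b'
  Ay : PV a la a' ⊆ Far G y
  Az : PV a la a' ⊆ Far G z
  Bx : PV b lb b' ⊆ Far G x
  Bz : PV b lb b' ⊆ Far G z
  AB : Anti G (PV a la a') (PV b lb b')
  mm : m = m' ∨ (G.Adj m m' ∧ PV a la a' ⊆ Far G m' ∧ PV b lb b' ⊆ Far G m)
  zm : G.Adj z m
  zm' : G.Adj z m'
  mF : m ∈ Far G x ∧ m ∈ Far G y
  mF' : m' ∈ Far G x ∧ m' ∈ Far G y
  inS : PV a la a' ⊆ S ∧ PV b lb b' ⊆ S ∧ m ∈ S ∧ m' ∈ S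

/-- `T` is a minimal connected set containing neighbours `a`, `b`, `c` of `x`, `y`, `z` -/
structure MnT (G : SimpleGraph V) (T : Set V) (x y z a b c : V) : Prop where
  aT : a ∈ T
  bT : b ∈ T
  cT : c ∈ T
  xa : G.Adj x a
  yb : G.Adj y b
  zc : G.Adj z c
  con : ∀ u ∈ T, Cn G T a u
  min : ∀ T' ⊆ T, ∀ a' b' c', G.Adj x a' → G.Adj y b' → G.Adj z c' → Cn G T' a' b' →
    Cn G T' a' c' → T' = T

/-- sum modulo 2 of `f 0, …, f (m-1)` -/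
def xs (f : ℕ → Bool) : ℕ → Bool
  | 0 => false
  | m + 1 => xor (xs f m) (f m)

/-- cyclic data at a clique inside `S` -/
structure RCd (G : SimpleGraph V) (S : Set V) (m : ℕ) (q u w : ℕ → V) (d : ℕ → Bool) : Prop where
  m3 : 3 ≤ m
  pq : ∀ i, q (i + m) = q i
  pu : ∀ i, u (i + m) = u i
  pw : ∀ i, w (i + m) = w i
  pd : ∀ i, d (i + m) = d i
  qS : ∀ i, q i ∈ S ∧ u i ∈ S ∧ w i ∈ S
  qu : ∀ i, G.Adj (q i) (u i) ∧ G.Adj (q i) (w i)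
  qq : ∀ i j, i < j → j < i + m → G.Adj (q i) (q j) ∧ u i ∈ Far G (q j) ∧ w i ∈ Far G (q j)
  lk : ∀ i j, i + 1 < j → j < i + m → Cn G (S ∩ Far G (q j)) (u i) (w (i + 1))
  dd : ∀ i, ∃ j, i < j ∧ j < i + m ∧
    ((d i = false ∧ Cn G (S ∩ Far G (q j)) (w i) (u i)) ∨
      (d i = true ∧ w i ≠ u i ∧ ¬ G.Adj (w i) (u i) ∧ Cn G (S ∩ Far G (w i)) (u i) (q j) ∧
        Cn G (S ∩ Far G (u i)) (w i) (q j)))

/-- cyclic sequence in `Q`: the ray `u i` of `q i` and the ray `w (i+1)` of `q (i+1)` are connected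
outside the neighbourhood of every other vertex of the sequence -/
structure Rcy (G : SimpleGraph V) (Q : Set V) (m : ℕ) (q u w : ℕ → V) : Prop where
  m3 : 3 ≤ m
  pq : ∀ i, q (i + m) = q i
  pu : ∀ i, u (i + m) = u i
  pw : ∀ i, w (i + m) = w i
  inj : ∀ i j, i < j → j < i + m → q i ≠ q j
  rU : ∀ i, RayQ G Q (q i) (u i)
  rW : ∀ i, RayQ G Q (q i) (w i)
  lk : ∀ i j, i + 1 < j → j < i + m → Comp G (q j) (u i) (w (i + 1))

/-- cycle of the relation `BE` with induced paths `P i` from `u i` to `w (i+1)` -/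
structure BCy (G : SimpleGraph V) (Q : Set V) (m : ℕ) (q : ℕ → V) (P : ℕ → List V) (u w : ℕ → V) :
    Prop where
  m3 : 3 ≤ m
  pq : ∀ i, q (i + m) = q i
  pP : ∀ i, P (i + m) = P i
  pu : ∀ i, u (i + m) = u i
  pw : ∀ i, w (i + m) = w i
  inj : ∀ i j, i < j → j < i + m → q i ≠ q j
  rU : ∀ i, RayQ G Q (q i) (u i)
  rW : ∀ i, RayQ G Q (q i) (w i)
  ip : ∀ i, IPt G (P i)
  hd : ∀ i, (P i).head? = some (u i)
  lt : ∀ i, (P i).getLast? = some (w (i + 1))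
  zz : ∀ i, ∀ v ∈ P i, v ∈ ZZ G Q (q i) (q (i + 1)) ∧ (G.Adj (q i) v → v = u i) ∧
    (G.Adj (q (i + 1)) v → v = w (i + 1))

/-- a shortest walk of conflicts violating `Sgw` -/
structure LWk (G : SimpleGraph V) (Q : Set V) (x y : V) (r : ℕ) (E : ℕ → V) : Prop where
  xQ : x ∈ Q
  yQ : y ∈ Q
  xy : x ≠ y
  odd : Odd r
  r3 : 3 ≤ r
  ray0 : RayQ G Q x (E 0)
  rayr : RayQ G Q x (E r)
  cf : ∀ i, i < r → Conf G y (E i) (E (i + 1))
  nc : ∀ i j, i + 2 ≤ j → j ≤ r → ¬ Conf G y (E i) (E j)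
  ncm : ∀ i j, i < j → j ≤ r → ¬ Comp G y (E i) (E j)
  le : ∀ i, i + 2 ≤ r → Le G y (E i) (E r)
  dsj : ∀ i j, i + 2 ≤ j → j < r → ∀ n, n ∈ Att G y (E i) → n ∉ Att G y (E j)
  xat : ∀ i, 1 ≤ i → i < r → x ∉ Att G y (E i)
  qat : ∀ i, i + 2 ≤ r → ∀ q ∈ Q, q ≠ x → q ∉ Att G y (E i)
  cpl : ∀ v, Comp G y (E r) v → (∀ i, i + 2 ≤ r → ∀ n ∈ Att G y (E i), G.Adj v n) ∨
    ∀ i, i + 2 ≤ r → ∀ n ∈ Att G y (E i), ¬ G.Adj v n

/-- layout of the clique `Q` -/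
structure Lay (G : SimpleGraph V) (Q : Set V) (σ : V → Bool) (n : ℕ) (θ : V → ℕ)
    (f : V → Bool) : Prop where
  n3 : 3 ≤ n
  inj : Set.InjOn θ Q
  lt : ∀ x ∈ Q, θ x < n
  be : ∀ a b u w, BE G Q a b u w → θ a < θ b →
    (θ b = θ a + 1 ∧ xor (σ u) (σ w) = xor (f a) (f b)) ∨
    (θ a = 0 ∧ θ b + 1 = n ∧ xor (σ u) (σ w) = !(xor (f a) (f b)))

/-- the side of `y` for the ray `u` of `x` -/
def phi (σ : V → Bool) (θ : V → ℕ) (f : V → Bool) (y x u : V) : Bool :=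
  xor (xor (σ u) (f x)) (decide (θ x < θ y))

/-- a shortest walk of conflicts at `h` violating the parity of `phi`: `n i` is a common attachment
of `E (i-1)` and `E i` for `1 ≤ i ≤ r`, `a` and `b` are the vertices of `Q` reached from `n 1`
through `E 0` and from `n r` through `E r` -/
structure VWk (G : SimpleGraph V) (Q : Set V) (h a b : V) (r : ℕ) (E n : ℕ → V) : Prop where
  hQ : h ∈ Q
  aQ : a ∈ Q
  bQ : b ∈ Q
  ab : a ≠ b
  ha : h ≠ a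
  hb : h ≠ b
  ev : Even r
  r2 : 2 ≤ r
  cf : ∀ i, i < r → Conf G h (E i) (E (i + 1))
  ncm : ∀ i j, i < j → j ≤ r → ¬ Comp G h (E i) (E j)
  dsj : ∀ i j, i + 2 ≤ j → j ≤ r → ∀ m, m ∈ Att G h (E i) → m ∉ Att G h (E j)
  at0 : n 0 = a
  atr : n (r + 1) = b
  att : ∀ i, i ≤ r → n i ∈ Att G h (E i) ∧ n (i + 1) ∈ Att G h (E i)
  nQ : ∀ i, 1 ≤ i → i ≤ r → n i ∉ Q
  rl : ∀ i, 1 ≤ i → i < r → ∀ q ∈ Q, q ∉ Att G h (E i)

/-! ### Rays and components -/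

def ST_RAY : Prop := ∀ (V : Type) (G : SimpleGraph V) (Q : Set V), DF G → MaxC G Q →
  (∀ x u y, RayQ G Q x u → y ∈ Q → y ≠ x → u ∈ Far G y ∧ x ∈ Att G y u) ∧
  (∀ x y u, RayQ G Q x u → RayQ G Q y u → x = y) ∧
  (∀ y ∈ Q, ∀ v ∈ Far G y, v ∉ Q) ∧
  (∀ a b u w, BE G Q a b u w → BE G Q b a w u ∧ a ∈ Q ∧ b ∈ Q ∧ u ≠ w ∧
    ∀ y ∈ Q, y ≠ a → y ≠ b → Comp G y u w) ∧
  (∀ y ∈ Q, ∀ q ∈ Q, ∀ v, q ∈ Att G y v ↔ q ≠ y ∧ ∃ u, RayQ G Q q u ∧ Comp G y v u) ∧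
  (∀ y ∈ Q, ∀ m, G.Adj y m → m ∉ Q → ∀ q ∈ Q, q ≠ y → m ∈ Far G q)

/-- two components with rays at other vertices are equal or conflict -/
def ST_NCF : Prop := ∀ (V : Type) (G : SimpleGraph V) (Q : Set V), DF G → MaxC G Q →
  ∀ x y v v' a r b r', RayQ G Q x v → RayQ G Q x v' → y ∈ Q → y ≠ x → RayQ G Q a r → a ≠ x →
    a ≠ y → Comp G y v r → RayQ G Q b r' → b ≠ x → b ≠ y → Comp G y v' r' →
    Comp G y v v' ∨ Conf G y v v'

/-- in a prime graph every component of `G - N[c]` has two attachments, unless it is the only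
component -/
def ST_TDC : Prop := ∀ (V : Type) (G : SimpleGraph V) (Q : Set V), DF G → Prime G → MaxC G Q →
  ∀ x y z u u', RayQ G Q x u → RayQ G Q x u' → y ∈ Q → y ≠ x → z ∈ Q → z ≠ x → z ≠ y →
    Comp G y u u' ∨ Conf G y u u' ∨ Comp G z u u'

/-- a pair of attachments split by a component -/
def ST_SPL : Prop := ∀ (V : Type) (G : SimpleGraph V) (x y p p' : V), p ∈ Att G x y →
  p' ∈ Att G x y → (∃ u, Comp G x y u ∧ ((G.Adj u p ∧ ¬ G.Adj u p') ∨ (G.Adj u p' ∧ ¬ G.Adj u p))) →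
  Spl3 G (KC G x y) p p'

def ST_HB0 : Prop := ∀ (V : Type) (G : SimpleGraph V) (Q : Set V), DF G → CI G → MaxC G Q →
  ∀ x y z u u', RayQ G Q x u → RayQ G Q x u' → y ∈ Q → y ≠ x → z ∈ Q → z ≠ x → z ≠ y →
    Comp G z u u' → ¬ Comp G y u u' →
    (∀ n ∈ Att G y u, G.Adj u' n) ∨ ∀ n ∈ Att G y u', G.Adj u n

def ST_QHA : Prop := ∀ (V : Type) (G : SimpleGraph V), NoP G preCs → ∀ x y z n u u' M w,
  G.Adj x y → G.Adj x z → G.Adj y z → G.Adj y n → n ∈ Far G x → n ∈ Far G z →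
  ¬ Comp G y u u' → (∀ v, Comp G y u v → ¬ G.Adj z v) → Spl3 G (KC G y u) x n →
  G.Adj u' x → G.Adj u' n → ¬ G.Adj u' z → PtK G (KC G y u') u' M w →
  ((G.Adj w x ∧ ¬ G.Adj w n) ∨ (G.Adj w n ∧ ¬ G.Adj w x)) → False

def ST_QHB : Prop := ∀ (V : Type) (G : SimpleGraph V), NoP G preCs →
  ∀ x y z n s u u' l1 f l2 w, G.Adj x y → G.Adj x z → G.Adj y z → G.Adj y n → n ∈ Far G x →
  n ∈ Far G z → G.Adj y s → s ≠ x → s ≠ n → u ∈ Far G y → ¬ Comp G y u u' →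
  (∀ v, Comp G y u v → ¬ G.Adj z v) → G.Adj u x → G.Adj u n → ¬ G.Adj u s → G.Adj u' x →
  G.Adj u' n → ¬ G.Adj u' z → ((G.Adj w x ∧ ¬ G.Adj w n) ∨ (G.Adj w n ∧ ¬ G.Adj w x)) →
  (OnP G (KC G y u') (fun v => G.Adj v s) u' l1 f l2 w ∨
    ∃ y0 l3 y', OffP G (KC G y u') (fun v => G.Adj v s) u' l1 f l2 w y0 l3 y') → False

def ST_QHC : Prop := ∀ (V : Type) (G : SimpleGraph V), NoP G preCs →
  ∀ x y z n s u u' M w, G.Adj x y → G.Adj x z → G.Adj y z → G.Adj y n → n ∈ Far G x →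
  n ∈ Far G z → G.Adj y s → s ∈ Far G x → s ∈ Far G z → s ≠ n → ¬ Comp G y u u' →
  (∀ v, Comp G y u v → ¬ G.Adj z v) → (∀ v, Comp G y u v → (G.Adj v x ↔ G.Adj v n)) →
  (∀ v, Comp G y u' v → (G.Adj v x ↔ G.Adj v s)) → Spl3 G (KC G y u) x s →
  G.Adj u' x → G.Adj u' n → ¬ G.Adj u' z → PtK G (KC G y u') u' M w →
  ((G.Adj w x ∧ ¬ G.Adj w n) ∨ (G.Adj w n ∧ ¬ G.Adj w x)) → False

def ST_H1B : Prop := ∀ (V : Type) (G : SimpleGraph V) (Q : Set V), DF G → CI G → NoP G preCs →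
  MaxC G Q → ∀ x y z u u', RayQ G Q x u → RayQ G Q x u' → y ∈ Q → y ≠ x → z ∈ Q → z ≠ x →
    z ≠ y → ¬ (Comp G z u u' ∧ Conf G y u u')

def ST_SGX : Prop := ∀ (V : Type) (G : SimpleGraph V) (Q : Set V), Red G → Prime G → CI G →
  CII G → NoP G preCs → MaxC G Q → Big Q → ∃ σ, EnvC G Q σ

def ST_SGF : Prop := ∀ (V : Type) (G : SimpleGraph V) (Q : Set V) (σ : V → Bool), EnvC G Q σ →
  ∀ x u u', RayQ G Q x u → RayQ G Q x u' →
    (σ u = σ u' → ∀ y ∈ Q, ∀ z ∈ Q, y ≠ x → z ≠ x → y ≠ z → Comp G y u u' ∨ Comp G z u u') ∧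
    (σ u ≠ σ u' → ∀ y ∈ Q, y ≠ x → Conf G y u u')

def ST_EWD : Prop := ∀ (V : Type) (G : SimpleGraph V) (Q : Set V) (σ : V → Bool), EnvC G Q σ →
  ∀ a b y u u' w w', a ≠ b → y ∈ Q → y ≠ a → y ≠ b → RayQ G Q a u → RayQ G Q a u' →
    RayQ G Q b w → RayQ G Q b w' → Comp G y u w → Comp G y u' w' →
    xor (σ u) (σ w) = xor (σ u') (σ w')

/-! ### Compatibility with the colourings -/

/-- walks of conflicts -/
def ST_CWX : Prop := ∀ (V : Type) (G : SimpleGraph V) (y : V),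
  (∀ u w, u ∈ Far G y → Clu G y u w → Comp G y u w ∨ ∃ (r : ℕ) (E : ℕ → V), 1 ≤ r ∧ E 0 = u ∧
    E r = w ∧ ∀ i, i < r → Conf G y (E i) (E (i + 1))) ∧
  (∀ (r : ℕ) (E : ℕ → V), (∀ i, i < r → Conf G y (E i) (E (i + 1))) → Clu G y (E 0) (E r) ∧
    ∀ c, PropC G y c → (c (E 0) = c (E r) ↔ Even r))

def ST_LWX : Prop := ∀ (V : Type) (G : SimpleGraph V) (Q : Set V) (σ : V → Bool), EnvC G Q σ →
  ¬ Sgw G Q σ → ∃ x y r E, LWk G Q x y r E

def ST_LW2 : Prop := ∀ (V : Type) (G : SimpleGraph V) (Q : Set V), DF G → CI G → MaxC G Q →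
  ∀ x y r E, LWk G Q x y r E → ∀ q ∈ Q, q ∉ Att G y (E (r - 1))

/-- the arc of a violating walk -/
def ST_LWR : Prop := ∀ (V : Type) (G : SimpleGraph V) (Q : Set V), DF G → MaxC G Q →
  ∀ x y r E, LWk G Q x y r E → ∀ p, p ∈ Att G y (E (r - 1)) →
  (∀ i, i + 2 ≤ r → p ∉ Att G y (E i)) → ∃ n P, Arc G y n P 0 r ∧ n 0 = x ∧ n r = p ∧
    (∀ i, 1 ≤ i → i < r → n i ∉ Q ∧ n i ∈ Att G y (E (i - 1)) ∧ n i ∈ Att G y (E i)) ∧
    (∀ i, i < r → ∀ u ∈ P i, Comp G y (E i) u) ∧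
    ∀ i j, i < j → j < r → ¬ G.Adj (n i) (n j)

/-- some vertex complete to the first attachments is not complete to the last ones -/
def ST_LWA : Prop := ∀ (V : Type) (G : SimpleGraph V) (Q : Set V), Red G → CI G → MaxC G Q →
  Big Q → ∀ x y r E, LWk G Q x y r E → ∀ w q, Comp G y (E r) w →
  (∀ i, i + 2 ≤ r → ∀ n ∈ Att G y (E i), G.Adj w n) → q ∈ Att G y (E (r - 1)) → ¬ G.Adj w q →
  LadS G

def ST_LWB : Prop := ∀ (V : Type) (G : SimpleGraph V) (Q : Set V), Red G → CI G → MaxC G Q →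
  Big Q → ∀ x y r E, LWk G Q x y r E →
  (∀ w, Comp G y (E r) w → (∀ i, i + 2 ≤ r → ∀ n ∈ Att G y (E i), G.Adj w n) →
    ∀ q ∈ Att G y (E (r - 1)), G.Adj w q) → LadS G

def ST_H1L : Prop := ∀ (V : Type) (G : SimpleGraph V) (Q : Set V) (σ : V → Bool), EnvC G Q σ →
  LadS G ∨ Sgw G Q σ

/-! ### Connections of three rays -/

def ST_QPY : Prop := ∀ (V : Type) (G : SimpleGraph V) (S : Set V), NoP G preCs →
  ∀ x y z o la a lb b lc c, G.Adj x y → G.Adj x z → G.Adj y z → Clw G S o la a lb b lc c →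
  o ≠ a → o ≠ b → o ≠ c → G.Adj x a → G.Adj y b → G.Adj z c → a ∈ Far G y → a ∈ Far G z →
  b ∈ Far G x → b ∈ Far G z → c ∈ Far G x → c ∈ Far G y →
  (∀ u, (u = o ∨ u ∈ la ∨ u ∈ lb ∨ u ∈ lc) → u ∈ Far G x ∧ u ∈ Far G y ∧ u ∈ Far G z) → False

def ST_QPR : Prop := ∀ (V : Type) (G : SimpleGraph V) (S : Set V), NoP G preCs →
  ∀ x y z p q r la a lb b lc c, G.Adj x y → G.Adj x z → G.Adj y z →
  Net G S p q r la a lb b lc c → G.Adj x a → G.Adj y b → G.Adj z c → a ∈ Far G y → a ∈ Far G z →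
  b ∈ Far G x → b ∈ Far G z → c ∈ Far G x → c ∈ Far G y →
  (∀ u, ((u = p ∧ p ≠ a) ∨ (u = q ∧ q ≠ b) ∨ (u = r ∧ r ≠ c) ∨ u ∈ la ∨ u ∈ lb ∨ u ∈ lc) →
    u ∈ Far G x ∧ u ∈ Far G y ∧ u ∈ Far G z) → False

def ST_MNT : Prop := ∀ (V : Type) [Finite V] (G : SimpleGraph V) (S : Set V), ∀ x y z a0 b0 c0,
  G.Adj x a0 → G.Adj y b0 → G.Adj z c0 → Cn G S a0 b0 → Cn G S a0 c0 →
  ∃ (T : Set V) (a b c : V), T ⊆ S ∧ MnT G T x y z a b c

/-- a claw with three legs contradicts the absence of `prePy` -/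
def ST_MNC : Prop := ∀ (V : Type) [Finite V] (G : SimpleGraph V) (Q T : Set V), DF G →
  NoP G preCs → MaxC G Q → (∀ v ∈ T, v ∉ Q) → ∀ x y z a b c, x ∈ Q → y ∈ Q → z ∈ Q → x ≠ y →
  x ≠ z → y ≠ z → MnT G T x y z a b c → ∀ o la lb lc, Clw G T o la a lb b lc c → o ≠ a → o ≠ b →
  o ≠ c → False

/-- a net contradicts the absence of `prePr` -/
def ST_MNN : Prop := ∀ (V : Type) [Finite V] (G : SimpleGraph V) (Q T : Set V), DF G →
  NoP G preCs → MaxC G Q → (∀ v ∈ T, v ∉ Q) → ∀ x y z a b c, x ∈ Q → y ∈ Q → z ∈ Q → x ≠ y →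
  x ≠ z → y ≠ z → MnT G T x y z a b c → ∀ p q r la lb lc, ¬ Net G T p q r la a lb b lc c

/-- a path with `c` in the middle -/
def ST_MNP : Prop := ∀ (V : Type) [Finite V] (G : SimpleGraph V) (Q T : Set V), DF G → CI G →
  MaxC G Q → (∀ v ∈ T, v ∉ Q) → ∀ x y z a b c, x ∈ Q → y ∈ Q → z ∈ Q → x ≠ y →
  x ≠ z → y ≠ z → MnT G T x y z a b c → ∀ la lb lc, Clw G T c la a lb b lc c →
  ∃ a la a' b lb b' m m', TTp G T x y z a la a' b lb b' m m'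

def ST_TTX : Prop := ∀ (V : Type) [Finite V] (G : SimpleGraph V) (Q S : Set V), DF G → CI G →
  NoP G preCs → MaxC G Q → (∀ v ∈ S, v ∉ Q) → ∀ x y z a0 b0 c0, x ∈ Q → y ∈ Q → z ∈ Q → x ≠ y →
  x ≠ z → y ≠ z → a0 ∈ S → b0 ∈ S → c0 ∈ S → G.Adj x a0 → G.Adj y b0 → G.Adj z c0 →
  Cn G S a0 b0 → Cn G S a0 c0 →
  (∃ a la a' b lb b' m m', TTp G S x y z a la a' b lb b' m m') ∨
  (∃ a la a' b lb b' m m', TTp G S y z x a la a' b lb b' m m') ∨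
  ∃ a la a' b lb b' m m', TTp G S z x y a la a' b lb b' m m'

/-! ### Triangles of connections -/

/-- the two arms are connected outside the neighbourhood of `z` -/
def ST_QCA : Prop := ∀ (V : Type) (G : SimpleGraph V) (S : Set V), NoP G preCs →
  ∀ x y z a l1 aj l2 a' b l3 bj l4 b' m m' la lb, G.Adj x y → G.Adj x z → G.Adj y z →
  TTp G S x y z a la a' b lb b' m m' → ∀ q M q', Pth G q M q' →
  (∀ u ∈ PV q M q', u ∈ Far G z ∧ u ∉ PV a la a' ∧ u ∉ PV b lb b') →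
  (∀ u ∈ M, ∀ v, (v ∈ PV a la a' ∨ v ∈ PV b lb b') → ¬ G.Adj u v) →
  (q ≠ q' → (∀ v ∈ PV b lb b', ¬ G.Adj q v) ∧ ∀ v ∈ PV a la a', ¬ G.Adj q' v) →
  OnP G (PV a la a') (fun v => G.Adj v q) a l1 aj l2 a' →
  OnP G (PV b lb b') (fun v => G.Adj v q') b l3 bj l4 b' → False

def ST_CAB : Prop := ∀ (V : Type) (G : SimpleGraph V) (S : Set V), NoP G preCs →
  ∀ x y z a la a' b lb b' m m', G.Adj x y → G.Adj x z → G.Adj y z →
  TTp G S x y z a la a' b lb b' m m' → ¬ Comp G z a b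

/-- the arm at `x` is a single vertex attached to the other arm -/
def ST_QCD : Prop := ∀ (V : Type) (G : SimpleGraph V), NoP G preCs →
  ∀ x y z a b lb b' m m', G.Adj x y → G.Adj x z → G.Adj y z → G.Adj x a → G.Adj m a →
  a ∈ Far G y → a ∈ Far G z → Arm G y m' b lb b' → PV b lb b' ⊆ Far G x → PV b lb b' ⊆ Far G z →
  PV b lb b' ⊆ Far G m → G.Adj z m → G.Adj z m' → G.Adj m m' → m ∈ Far G x → m ∈ Far G y →
  m' ∈ Far G x → m' ∈ Far G y → (∃ v ∈ PV b lb b', G.Adj a v) → False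

def ST_QCF : Prop := ∀ (V : Type) (G : SimpleGraph V), NoP G preCs →
  ∀ x y z a l b m m', G.Adj x y → G.Adj x z → G.Adj y z → G.Adj x a → G.Adj m a →
  a ∈ Far G y → a ∈ Far G z → G.Adj y b → G.Adj m' b → b ∈ Far G x → b ∈ Far G z →
  G.Adj z m → G.Adj z m' → G.Adj m m' → m ∈ Far G x → m ∈ Far G y →
  m' ∈ Far G x → m' ∈ Far G y → Pth G a l b →
  (∀ u ∈ l, u ∈ Far G x ∧ u ∈ Far G y ∧ u ∈ Far G z) → False

def ST_QKB : Prop := ∀ (V : Type) (G : SimpleGraph V) (S : Set V), NoP G preCs →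
  ∀ x y z a la a' b lb b' m m', G.Adj x y → G.Adj x z → G.Adj y z →
  TTp G S x y z a la a' b lb b' m m' → m ≠ m' → ∀ s l t, Pth G s l t → G.Adj x s → G.Adj y t →
  s ∈ Far G y → s ∈ Far G z → t ∈ Far G x → t ∈ Far G z → s ∈ Far G m → t ∈ Far G m' →
  (∀ u ∈ l, u ∈ Far G x ∧ u ∈ Far G y ∧ u ∈ Far G z) →
  Anti G (PV s l t) (PV a la a') → Anti G (PV s l t) (PV b lb b') → False

/-- equal signs -/
def ST_HTE : Prop := ∀ (V : Type) (G : SimpleGraph V) (Q : Set V) (σ : V → Bool), EnvC G Q σ →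
  ∀ x y z a la a' b lb b' m m' x3 y3, x ∈ Q → y ∈ Q → z ∈ Q → x ≠ y → x ≠ z → y ≠ z →
  TTp G Qᶜ x y z a la a' b lb b' m m' → BE G Q x y x3 y3 → σ a = σ x3 → σ b = σ y3 → False

/-- different signs -/
def ST_HTD : Prop := ∀ (V : Type) (G : SimpleGraph V) (Q : Set V) (σ : V → Bool), EnvC G Q σ →
  ∀ x y z a la a' b lb b' m m' x3 y3, x ∈ Q → y ∈ Q → z ∈ Q → x ≠ y → x ≠ z → y ≠ z →
  TTp G Qᶜ x y z a la a' b lb b' m m' → BE G Q x y x3 y3 → σ a ≠ σ x3 → σ b ≠ σ y3 → False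

def ST_HTA : Prop := ∀ (V : Type) (G : SimpleGraph V) (Q : Set V) (σ : V → Bool), EnvC G Q σ →
  ∀ x y z a la a' b lb b' m m' x3 y3 y1 z1 z2 x2, TTp G Qᶜ x y z a la a' b lb b' m m' →
  BE G Q x y x3 y3 → BE G Q y z y1 z1 → BE G Q z x z2 x2 →
  xor (xor (σ x3) (σ y3)) (xor (xor (σ y1) (σ z1)) (xor (σ z2) (σ x2))) = true

def ST_HT3 : Prop := ∀ (V : Type) [Finite V] (G : SimpleGraph V) (Q : Set V) (σ : V → Bool),
  EnvC G Q σ → ∀ x y z x3 y3 y1 z1 z2 x2, BE G Q x y x3 y3 → BE G Q y z y1 z1 →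
  BE G Q z x z2 x2 →
  xor (xor (σ x3) (σ y3)) (xor (xor (σ y1) (σ z1)) (xor (σ z2) (σ x2))) = true

/-! ### Cycles of connections -/

def ST_XSB : Prop := ∀ (f g : ℕ → Bool) (m : ℕ),
  (xs (fun i => xor (f i) (g i)) m = xor (xs f m) (xs g m)) ∧
  ((∀ i, f (i + m) = f i) → ∀ s, xs (fun i => f (i + s)) m = xs f m) ∧
  (xs f (m + 1) = xor (f 0) (xs (fun i => f (i + 1)) m)) ∧
  ((∀ i, i < m → f i = g i) → xs f m = xs g m) ∧
  (xs (fun _ => false) m = false) ∧ (xs (fun _ => true) m = decide (Odd m))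

def ST_RCY : Prop := ∀ (V : Type) (G : SimpleGraph V) (S : Set V) (m : ℕ) (q u w : ℕ → V)
  (d : ℕ → Bool), RCd G S m q u w d → xs d m = false → ¬ NAJ G S

def ST_RCX : Prop := ∀ (V : Type) (G : SimpleGraph V) (Q : Set V) (σ : V → Bool), EnvC G Q σ →
  ∀ m q u w, Rcy G Q m q u w → xs (fun i => xor (σ (u i)) (σ (w i))) m = false →
    ∀ z ∈ Q, ∃ i, q i = z

/-- three shortest connections at one vertex cover the graph -/
def ST_R3S : Prop := ∀ (V : Type) (G : SimpleGraph V) (Q : Set V), Red G → MaxC G Q →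
  ∀ (z : V) (y l m : ℕ → V) (M : ℕ → List V), (∀ i < 3, z ≠ y i ∧ RayQ G Q z (m i) ∧
    RayQ G Q (y i) (l i) ∧ Pth G (m i) (M i) (l i) ∧ PV (m i) (M i) (l i) ⊆ ZZ G Q z (y i) ∧
    ∀ u ∈ PV (m i) (M i) (l i), (G.Adj z u → u = m i) ∧ (G.Adj (y i) u → u = l i)) →
  (∀ i < 3, ∀ j < 3, i ≠ j → y i ≠ y j) →
  ∀ v, v = z ∨ ∃ i < 3, v = y i ∨ v ∈ PV (m i) (M i) (l i)

def ST_QC4 : Prop := ∀ (V : Type) (G : SimpleGraph V) (S : Set V), NoP G preCs →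
  ∀ z y1 y2 y3 a la a' b lb b' m m' n c lc c', G.Adj z y1 → G.Adj z y2 → G.Adj z y3 →
  G.Adj y1 y2 → G.Adj y1 y3 → G.Adj y2 y3 → TTp G S y1 y2 z a la a' b lb b' m m' →
  PV a la a' ⊆ Far G y3 → PV b lb b' ⊆ Far G y3 → m ∈ Far G y3 → m' ∈ Far G y3 →
  G.Adj z n → n ∈ Far G y1 → n ∈ Far G y2 → n ∈ Far G y3 → Arm G y3 n c lc c' →
  PV c lc c' ⊆ Far G z → PV c lc c' ⊆ Far G y1 → PV c lc c' ⊆ Far G y2 →
  Anti G {u | u = n ∨ u ∈ PV c lc c'}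
    {u | u = m ∨ u = m' ∨ u ∈ PV a la a' ∨ u ∈ PV b lb b'} → False

def ST_HR3 : Prop := ∀ (V : Type) [Finite V] (G : SimpleGraph V) (Q : Set V) (σ : V → Bool),
  EnvC G Q σ → ∀ z (y u w : ℕ → V), (∀ i < 3, BE G Q z (y i) (u i) (w i)) →
  (∀ i < 3, ∀ j < 3, i ≠ j → y i ≠ y j) → False

/-- shortest paths for a cycle -/
def ST_BCX : Prop := ∀ (V : Type) (G : SimpleGraph V) (Q : Set V) (σ : V → Bool), EnvC G Q σ →
  ∀ (m : ℕ) (q u0 w0 : ℕ → V), 3 ≤ m → (∀ i, q (i + m) = q i) → (∀ i, u0 (i + m) = u0 i) →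
  (∀ i, w0 (i + m) = w0 i) → (∀ i j, i < j → j < i + m → q i ≠ q j) →
  (∀ i, BE G Q (q i) (q (i + 1)) (u0 i) (w0 (i + 1))) → ∃ P u w, BCy G Q m q P u w ∧
    xs (fun i => xor (σ (u i)) (σ (w i))) m = xs (fun i => xor (σ (u0 i)) (σ (w0 i))) m

/-- basic facts on cycles of connections -/
def ST_BCF : Prop := ∀ (V : Type) (G : SimpleGraph V) (Q : Set V) (σ : V → Bool), EnvC G Q σ →
  ∀ m q P u w, BCy G Q m q P u w →
  (∀ i, BE G Q (q i) (q (i + 1)) (u i) (w (i + 1))) ∧ Rcy G Q m q u w ∧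
  (∀ i, ∀ z ∈ Q, z ≠ q i → z ≠ q (i + 1) → Comp G z (u i) (w (i + 1))) ∧
  (∀ i, ∀ z ∈ Q, z ≠ q i → z ≠ q (i + 1) → z ≠ q (i + 2) →
    (σ (w (i + 1)) = σ (u (i + 1)) → Comp G z (w (i + 1)) (u (i + 1))) ∧
    (σ (w (i + 1)) ≠ σ (u (i + 1)) → Conf G z (w (i + 1)) (u (i + 1)))) ∧
  ∀ i, 4 ≤ m → σ (w (i + 1)) ≠ σ (u (i + 1)) →
    Anti G {v | v ∈ P i} {v | v ∈ P (i + 1)}

def ST_CYO : Prop := ∀ (V : Type) (G : SimpleGraph V) (Q : Set V) (σ : V → Bool), EnvC G Q σ →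
  ∀ m q P u w, BCy G Q m q P u w → ∀ z ∈ Q, ∃ i, q i = z

/-- some vertex with equal signs -/
def ST_HC0 : Prop := ∀ (V : Type) (G : SimpleGraph V) (Q : Set V) (σ : V → Bool), EnvC G Q σ →
  ∀ m q P u w, BCy G Q m q P u w → 4 ≤ m → (∃ i, σ (u i) = σ (w i)) →
  xs (fun i => xor (σ (u i)) (σ (w i))) m = false → False

/-- all signs different: the cycle covers the graph -/
def ST_HCA : Prop := ∀ (V : Type) (G : SimpleGraph V) (Q : Set V) (σ : V → Bool), EnvC G Q σ →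
  ∀ m q P u w, BCy G Q m q P u w → 4 ≤ m → Even m → (∀ i, σ (u i) ≠ σ (w i)) →
  ∀ v, (∃ i, v = q i) ∨ ∃ i, v ∈ P i

/-- all signs different: paths that are not consecutive are anticomplete, except possibly for an
edge between the end of one and the beginning of the next but one -/
def ST_HCB : Prop := ∀ (V : Type) [Finite V] (G : SimpleGraph V) (Q : Set V) (σ : V → Bool),
  EnvC G Q σ → ∀ m q P u w, BCy G Q m q P u w → 4 ≤ m → ∀ i j, i + 2 ≤ j → j + 2 ≤ i + m →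
  ∀ p ∈ P i, ∀ p' ∈ P j, (p = p' ∨ G.Adj p p') →
    (j = i + 2 ∧ p = w (i + 1) ∧ p' = u (i + 2)) ∨
    (j + 2 = i + m ∧ p = u i ∧ p' = w (j + 1))

/-- all signs different: there is no such edge -/
def ST_HCC : Prop := ∀ (V : Type) (G : SimpleGraph V) (Q : Set V) (σ : V → Bool), EnvC G Q σ →
  ∀ m q P u w, BCy G Q m q P u w → 4 ≤ m → Even m → (∀ i, σ (u i) ≠ σ (w i)) →
  (∀ i j, i + 2 ≤ j → j + 2 ≤ i + m → ∀ p ∈ P i, p ∉ P j) →
  ∀ i, ¬ G.Adj (w (i + 1)) (u (i + 2))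

def ST_HC1 : Prop := ∀ (V : Type) [Finite V] (G : SimpleGraph V) (Q : Set V) (σ : V → Bool),
  EnvC G Q σ → ∀ m q P u w, BCy G Q m q P u w → 4 ≤ m → Even m → (∀ i, σ (u i) ≠ σ (w i)) →
  RingE G

def ST_HCM : Prop := ∀ (V : Type) [Finite V] (G : SimpleGraph V) (Q : Set V) (σ : V → Bool),
  EnvC G Q σ → ∀ m q P u w, BCy G Q m q P u w →
  xs (fun i => xor (σ (u i)) (σ (w i))) m = true ∨ RingE G

/-! ### Layout -/

def ST_ENU : Prop := ∀ (α : Type) [Finite α] (B : α → α → Prop), 3 ≤ Nat.card α →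
  (∀ a b, B a b → B b a) → (∀ a, ¬ B a a) →
  (∀ a b c d, B a b → B a c → B a d → b ≠ c → b ≠ d → c ≠ d → False) →
  (∀ (m : ℕ) (q : ℕ → α), 3 ≤ m → (∀ i, q (i + m) = q i) → (∀ i j, i < j → j < i + m → q i ≠ q j) →
    (∀ i, B (q i) (q (i + 1))) → ∀ a, ∃ i, q i = a) →
  ∃ θ : α → ℕ, Function.Injective θ ∧ (∀ a, θ a < Nat.card α) ∧
    ∀ a b, B a b → θ a < θ b → θ b = θ a + 1 ∨ (θ a = 0 ∧ θ b + 1 = Nat.card α ∧
      ∀ c d, θ d = θ c + 1 → B c d)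

def ST_FTH : Prop := ∀ (V : Type) [Finite V] (G : SimpleGraph V) (Q : Set V) (σ : V → Bool),
  EnvC G Q σ → (∃ n θ f, Lay G Q σ n θ f) ∨ RingE G

def ST_PHI : Prop := ∀ (V : Type) (G : SimpleGraph V) (Q : Set V) (σ : V → Bool) (n : ℕ)
  (θ : V → ℕ) (f : V → Bool), EnvC G Q σ → Lay G Q σ n θ f → ∀ y x x' u u', y ∈ Q → y ≠ x →
  y ≠ x' → RayQ G Q x u → RayQ G Q x' u' → Comp G y u u' → phi σ θ f y x u = phi σ θ f y x' u'

def ST_LM3 : Prop := ∀ (V : Type) (G : SimpleGraph V) (Q : Set V) (σ : V → Bool) (n : ℕ)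
  (θ : V → ℕ) (f : V → Bool), Lay G Q σ n θ f → ∀ y a b m m' u u', DF G → MaxC G Q →
  BE G Q y a m u → BE G Q y b m' u' →
  (a = b → xor (phi σ θ f y a u) (phi σ θ f y b u') = xor (σ m) (σ m')) ∧
  (a ≠ b → xor (phi σ θ f y a u) (phi σ θ f y b u') = !(xor (σ m) (σ m')))

/-- the first ray reached from an attachment -/
def ST_FRY : Prop := ∀ (V : Type) (G : SimpleGraph V) (Q : Set V), DF G → MaxC G Q →
  ∀ y v m q, y ∈ Q → m ∈ Att G y v → m ∉ Q → q ∈ Q → q ∈ Att G y v →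
  ∃ a u, BE G Q y a m u ∧ Comp G y v u

/-! ### Parity along walks -/

def ST_VWX : Prop := ∀ (V : Type) (G : SimpleGraph V) (Q : Set V) (σ : V → Bool) (n : ℕ)
  (θ : V → ℕ) (f : V → Bool), EnvC G Q σ → Lay G Q σ n θ f → Sgw G Q σ →
  (∀ h a b r E n', ¬ VWk G Q h a b r E n') →
  ∀ (h x x' u u' : V) (r : ℕ) (E : ℕ → V), h ∈ Q → h ≠ x → h ≠ x' → RayQ G Q x u →
  RayQ G Q x' u' → 1 ≤ r → (∀ i, i < r → Conf G h (E i) (E (i + 1))) → Comp G h u (E 0) →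
  Comp G h u' (E r) → (∀ i, 1 ≤ i → i < r → ∀ q ∈ Q, q ∉ Att G h (E i)) →
  (phi σ θ f h x u = phi σ θ f h x' u' ↔ Even r)

/-- the arc of a violating walk covers the graph -/
def ST_VWC : Prop := ∀ (V : Type) (G : SimpleGraph V) (Q : Set V), Red G → CI G → MaxC G Q →
  ∀ h a b r E n, VWk G Q h a b r E n → ∃ P, Arc G h n P 0 (r + 1) ∧
    (∀ v, v ∈ arcV h n P 0 (r + 1)) ∧ G.Adj a b ∧ (∀ i, 1 ≤ i → i ≤ r → ¬ G.Adj a (n i) ∧
    ¬ G.Adj b (n i)) ∧ G.Adj (n 1) (n r)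

def ST_QAB : Prop := ∀ (V : Type) (G : SimpleGraph V), DF G → NoP G preCs →
  ∀ h n P, Arc G h n P 0 3 → G.Adj (n 0) (n 3) → G.Adj (n 1) (n 2) → ¬ G.Adj (n 0) (n 1) →
  ¬ G.Adj (n 0) (n 2) → ¬ G.Adj (n 3) (n 1) → ¬ G.Adj (n 3) (n 2) → False

/-- long walks -/
def ST_VW4 : Prop := ∀ (V : Type) (G : SimpleGraph V), Red G → ∀ h n P r, 4 ≤ r → Even r →
  Arc G h n P 0 (r + 1) → (∀ v, v ∈ arcV h n P 0 (r + 1)) → G.Adj (n 0) (n (r + 1)) →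
  (∀ i, 1 ≤ i → i ≤ r → ¬ G.Adj (n 0) (n i) ∧ ¬ G.Adj (n (r + 1)) (n i)) →
  G.Adj (n 1) (n r) → False

def ST_VNO : Prop := ∀ (V : Type) (G : SimpleGraph V) (Q : Set V), Red G → CI G →
  NoP G preCs → MaxC G Q → ∀ h a b r E n, ¬ VWk G Q h a b r E n

/-- the colouring `c` and `phi` agree on clusters -/
def ST_UTQ : Prop := ∀ (V : Type) (G : SimpleGraph V) (Q : Set V) (σ : V → Bool) (n : ℕ)
  (θ : V → ℕ) (f : V → Bool), EnvC G Q σ → Lay G Q σ n θ f → Sgw G Q σ →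
  ∀ y x x' u u', y ∈ Q → y ≠ x → y ≠ x' → RayQ G Q x u → RayQ G Q x' u' → Clu G y u u' →
  ∀ c, PropC G y c → (phi σ θ f y x u = phi σ θ f y x' u' ↔ c u = c u')

def ST_CDX : Prop := ∀ (V : Type) (G : SimpleGraph V) (Q : Set V) (σ : V → Bool) (n : ℕ)
  (θ : V → ℕ) (f : V → Bool), EnvC G Q σ → Lay G Q σ n θ f → Sgw G Q σ → CQ G Q

def ST_CQ2 : Prop := ∀ (V : Type) (G : SimpleGraph V) (Q : Set V), DF G → CII G → MaxC G Q →
  ¬ Big Q → CQ G Q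

/-- result of part 4 -/
def ST_CPT : Prop := ∀ (V : Type) [Finite V] (G : SimpleGraph V), Red G → Prime G → CI G →
  CII G → NoP G preCs → (∀ Q, MaxC G Q → CQ G Q) ∨ LadS G ∨ RingE G

/-! ### The result -/

def ST_PRM : Prop := ∀ (V : Type) [Finite V] (G : SimpleGraph V), MinNC G → Prime G

end Pool.Agent.Helper64.FL
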