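import Pool.Agent.Helper64.FL.TrB

set_option autoImplicit false
set_option maxRecDepth 100000

namespace Pool.Agent.Helper64.FL

def trA2g_19 : ℕ × ℕ × Tr :=
  (11, 0x1822ce20e808d3104a0434e50a418928c28c40861042082, (.bit 0 8 (.dia 0 8 1 2) (.bit 0 4 (.bit 0 6 (.dia 0 4 3 6) (.bit 0 5 (.bit 0 7 (.dia 0 5 3 7) (.bit 4 5 (.bit 4 8 (.bit 5 8 (.dia 4 5 0 8) (.cert 3 10 0x1012a710730459ca15022a6209290494408a1042082)) (.cert 3 10 0xe20e608b404898824e50a811129029040881042082)) (.dia 0 3 4 5))) (.bit 4 5 (.dia 3 4 0 5) (.bit 0 7 (.bit 7 8 (.cert 2 10 0xa30a609f40469ca15071a621d20ce9c608e1043082) (.bit 4 8 (.cert 6 11 0x20235013a821d3942a0434a30a419d38879c608e1043082) (.bit 5 8 (.cert 2 11 0x1827ca30a418540489ca150522621d39489c808e1044082) (.front 1 (.att 8 (.cert 2 11 0x20234a30a609f394298875281a419d3a479c608e1043082) (.bit 6 8 (.att 0 (.cert 1 11 0x2443ca312811d39449d23d063a621d20ce9c608e2043102)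 (.front 1 (.att 0 (.cert 9 12 0x4046a0274e50a831d408698874a30a710f20ce9c608e1043082) (.att 8 (.cert 9 12 0x4046a0274e50a831d408698874a30a710f20ce9c608e1043082) (.bit 2 7 (.front 1 (.drop (.bit 1 6 (.drop (.tab 81 [] [5, 3, 7, 6, 8, 4, 2, 1, 0])) (.name (.cert 9 12 0x4046a0274e50a831d408698874a30a710d20ce9c608e1043082))))) (.cert 1 10 0xe21e811d28c49ca25063a621d20ce9c608e2043102)))))) (.att 0 (.front 2 (.att 8 (.cert 1 12 0x28c4a443d023aa41d39449d23cca3e621d20ce9c608e2043102) (.front 2 (.front 2 (.front 2 (.flip (.whl 0 3 4 [6, 1, 8, 2, 9, 7, 5]))))))) (.front 1 (.att 0 (.bit 8 9 (.cert 1 11 0x20434831271273952a5034c412648b28d2a460922043102) (.att 8 (.cert 1 12 0x20c49c49d021a62093952a9034a34a648b4a87a460922043102) (.front 1 (.att 8 (.cert 9 13 0x808d404ea9075021a728528c29c43cca3e621d20ce9c608e1043082) (.front 2 (.front 2 (.flip (.front 2 (.flip (.whl 0 3 4 [6, 9, 1, 8, 2, 7, 5]))))))))))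 (.att 8 (.front 1 (.att 8 (.cert 9 13 0x808d404e9ca15021aa41d28c29947ce21e621d20ce9c608e1043082) (.bit 2 7 (.front 2 (.drop (.bit 9 6 (.drop (.bit 1 9 (.drop (.tab 57 [] [6, 5, 9, 4, 3, 7, 8, 1, 2, 0])) (.name (.cert 10 13 0x809d40469ca15283a810d498e94614e21a621d20ce9c608e1043082)))) (.name (.bit 1 9 (.front 1 (.drop (.tab 58 [.flip, .flip] [10, 6, 5, 9, 4, 3, 7, 8, 1, 2, 0]))) (.front 1 (.name (.cert 11 14 0x1011a809d3942a5075021a710d524e94614ca3e621d20ce9c608e1043082)))))))) (.cert 1 11 0x1c43ca312811d3944a5074c93e621d20ce9c608e2043102)))) (.front 1 (.front 1 (.flip (.whl 0 3 4 [6, 1, 8, 2, 7, 5])))))))))))))) (.bit 4 8 (.bit 5 8 (.cert 6 9 0x418928c490054e2262015394894888a2444122) (.bit 7 8 (.cert 6 17 0x810d180010624e5023021200a9c44c8318400041c09ca44a41c819220810c4090024500e) (.bit 6 8 (.att 0 (.cert 1 12 0x408690624e24e72a53104a0c34a34a648f3245a460922043102) (.att 8 (.cert 7 12 0x201288094c40a9093080c88064c9169222489118488c14440a2)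 (.bit 1 6 (.drop (.dia 6 8 1 4)) (.front 1 (.att 8 (.cert 2 14 0xa30a418530538c0642032728528cc98814e90e72993a4da4c89214460a2) (.att 0 (.cert 6 12 0x4046a0295021a7487411290694e50a910f28c2a460921043082) (.front 1 (.name (.bit 9 6 (.drop (.bit 2 7 (.drop (.tab 82 [.eseg 5 7, .flip] [7, 5, 9, 2, 3, 1, 6, 0, 8, 4])) (.name (.tab 82 [.flip, .eseg 5 7, .merge, .flip] [10, 5, 9, 2, 3, 1, 6, 0, 8, 4])))) (.flip (.name (.bit 2 7 (.front 1 (.drop (.tab 83 [.eseg 5 7, .front 1, .flip, .front 1, .flip] [7, 9, 5, 10, 2, 1, 3, 6, 0, 8, 4]))) (.front 1 (.name (.tab 83 [.flip, .eseg 5 7, .merge, .front 1, .flip, .front 1, .flip, .front 1] [9, 11, 10, 5, 1, 2, 6, 3, 8, 0, 4]))))))))))))))) (.att 0 (.bit 8 9 (.cert 1 11 0x10625021a71273952a5034c412648b28d2a460922043102) (.cert 7 12 0x4092a423d011a648b4086a0894c41241a520c4a460922043102)) (.att 8 (.cert 7 16 0x20c290094404a909340469922d021a620920c4a48892244310220510c20841442082)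 (.front 1 (.att 0 (.bit 8 9 (.cert 2 11 0x14615011a60a731129ca15281a748720d2a460921043082) (.cert 6 12 0x4046a0295021a7487411290694e50a910f28c2a460921043082)) (.att 8 (.cert 6 19 0x10001021a300020c610624e5029113181090054e90674934a009ca44a41c819220810c4090024500e) (.bit 2 7 (.drop (.bit 1 6 (.drop (.tab 84 [.eseg 5 7, .flip] [7, 5, 6, 2, 1, 3, 8, 4, 0])) (.name (.tab 85 [.eseg 5 7, .front 1, .flip, .flip, .front 1, .flip] [7, 5, 9, 6, 2, 1, 3, 8, 4, 0])))) (.name (.bit 1 6 (.front 1 (.drop (.tab 84 [.flip, .eseg 5 7, .merge, .flip] [9, 5, 6, 2, 1, 3, 8, 4, 0]))) (.front 1 (.name (.tab 85 [.front 1, .flip, .eseg 5 7, .merge, .front 1, .flip, .flip, .front 1, .flip] [9, 5, 10, 6, 2, 1, 3, 8, 4, 0])))))))))))))) (.bit 5 8 (.bit 6 8 (.cert 7 17 0x4185180020a04c11e4015404890630800030194180a0a44a41c619220410c208c024500e) (.att 8 (.cert 1 13 0x518920c49c49c402a4015395298824c42a64973245a4a8922445122)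 (.att 0 (.cert 7 12 0x4046a423d024a648b4086a0a94c41251a520c4a460922043102) (.front 1 (.att 0 (.cert 2 13 0x518520c29829d0122829131129ca14e90e72913a49a480921044082) (.att 8 (.cert 6 11 0xc094204a1015100a94695222e74873942a4a89214450a2) (.bit 7 8 (.bit 2 7 (.drop (.dia 7 8 2 5)) (.name (.bit 9 7 (.drop (.bit 1 6 (.drop (.tab 86 [] [6, 9, 4, 7, 1, 2, 3, 5, 0, 8])) (.name (.tab 87 [.flip] [6, 10, 9, 4, 7, 1, 2, 3, 5, 0, 8])))) (.flip (.name (.bit 1 6 (.front 1 (.drop (.tab 87 [.flip, .flip] [10, 9, 6, 7, 4, 2, 1, 5, 3, 8, 0]))) (.front 1 (.name (.tab 88 [.flip, .front 1, .flip, .flip, .front 1] [6, 10, 11, 9, 4, 7, 1, 2, 3, 5, 0, 8]))))))))) (.bit 2 7 (.drop (.bit 1 6 (.drop (.tab 89 [] [7, 6, 5, 2, 1, 4, 8, 3, 0])) (.name (.tab 90 [.flip, .flip] [9, 6, 7, 5, 1, 4, 2, 8, 3, 0])))) (.name (.bit 1 6 (.front 1 (.drop (.tab 91 [.flip] [7, 9, 6, 5, 2, 1, 4, 8, 3, 0]))) (.front 1 (.name (.tab 92 [.flip,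 .front 1, .flip, .front 1, .flip, .front 1] [7, 9, 10, 6, 5, 2, 1, 4, 8, 3, 0]))))))))))))) (.bit 6 8 (.bit 7 8 (.cert 2 19 0x10000c11e300020c29ca0460324015404890631072283813948a0c04a41c619220410c208c024500e) (.att 0 (.cert 1 12 0x408690624e24e830d395298824a34a648b3247a460922043102) (.front 1 (.att 8 (.cert 2 23 0x20c0480005185080020244830a60a7418c1008501086210180c9ca14a3327487394c9d26d2644821a485110209000c6012) (.att 0 (.front 1 (.att 0 (.cert 1 12 0x4094a443ca31283293944a923cea16622920d4a860942043102) (.front 2 (.att 8 (.cert 10 13 0x80a54046a0c94e90e810d31129ca15221e518520d2a460921043082) (.bit 2 9 (.front 2 (.drop (.bit 1 6 (.drop (.bit 9 7 (.drop (.tab 67 [.eseg 5 7] [5, 7, 3, 9, 6, 8, 4, 2, 1, 0])) (.name (.tab 67 [.flip, .eseg 5 7, .merge] [5, 10, 3, 9, 6, 8, 4, 2, 1, 0])))) (.name (.cert 10 13 0x80a54046a0c94e90e810d31129ca15221a518520d2a460921043082))))) (.cert 1 11 0x2443ca312812541929ca24e916622520d2a460922043102))))))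 (.front 1 (.att 8 (.front 1 (.att 8 (.cert 7 11 0x10094404a1019100ca426cc44aa48b3285a4c8922446122) (.bit 6 9 (.drop (.bit 1 9 (.drop (.dia 8 9 1 6)) (.name (.bit 10 9 (.drop (.bit 2 7 (.drop (.tab 87 [.eseg 5 7] [5, 7, 10, 3, 9, 2, 1, 4, 6, 0, 8])) (.name (.tab 87 [.flip, .eseg 5 7, .merge] [5, 11, 10, 3, 9, 2, 1, 4, 6, 0, 8])))) (.flip (.name (.bit 2 7 (.front 1 (.drop (.tab 88 [.eseg 5 7, .front 1, .flip, .flip, .front 1] [5, 11, 7, 10, 3, 9, 2, 1, 4, 6, 0, 8]))) (.front 1 (.name (.tab 88 [.flip, .eseg 5 7, .merge, .front 1, .flip, .flip, .front 1] [5, 11, 12, 10, 3, 9, 2, 1, 4, 6, 0, 8])))))))))) (.cert 7 10 0x404a4025080c88064c44a648b484da4c8922446122)))) (.bit 1 6 (.drop (.bit 2 7 (.drop (.tab 93 [.eseg 5 7, .flip] [7, 5, 2, 3, 8, 6, 4, 1, 0])) (.name (.tab 93 [.flip, .eseg 5 7, .merge, .flip] [9, 5, 2, 3, 8, 6, 4, 1, 0])))) (.name (.bit 9 6 (.drop (.bit 2 7 (.drop (.tab 90 [.eseg 5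 7, .flip] [7, 5, 9, 6, 2, 3, 1, 8, 4, 0])) (.name (.tab 90 [.flip, .eseg 5 7, .merge, .flip] [10, 5, 9, 6, 2, 3, 1, 8, 4, 0])))) (.flip (.name (.bit 2 7 (.front 1 (.drop (.tab 92 [.eseg 5 7, .front 1, .flip, .front 1, .flip, .front 1, .flip] [10, 9, 7, 5, 6, 1, 2, 3, 8, 4, 0]))) (.front 1 (.name (.tab 92 [.flip, .eseg 5 7, .merge, .front 1, .flip, .front 1, .flip, .front 1, .flip] [10, 9, 11, 5, 6, 1, 2, 3, 8, 4, 0])))))))))))))))) (.bit 7 8 (.att 8 (.cert 1 28 0x39408c000e21e2015100010624e24e839c1810a0420e528301d28c610075070251a1310498875022a649f3245a4e89053c719648910c4090014500e) (.front 1 (.att 0 (.cert 2 12 0x404694614c14e72853112a0e34e90e748f20d2a460921043082) (.att 8 (.front 1 (.att 8 (.cert 6 12 0x100e84074204a3025488fa921ca34a75073952a4e89214470a2) (.front 2 (.att 0 (.cert 9 13 0xa08f4094a02350752650b40869caa4c41251a920c4a860942043102) (.bit 7 9 (.front 1 (.drop (.bit 2 9 (.front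 1 (.drop (.dia 8 9 2 7))) (.front 1 (.name (.bit 10 9 (.drop (.bit 1 6 (.drop (.tab 94 [] [5, 6, 10, 3, 7, 4, 9, 1, 2, 0, 8])) (.name (.tab 95 [.flip] [6, 11, 5, 10, 4, 3, 7, 9, 1, 2, 0, 8])))) (.flip (.name (.bit 1 6 (.front 1 (.drop (.tab 95 [.flip, .flip] [11, 10, 5, 6, 9, 7, 3, 4, 2, 1, 8, 0]))) (.front 1 (.name (.tab 96 [.flip, .front 1, .flip, .flip, .front 1] [6, 11, 12, 10, 5, 4, 9, 3, 7, 1, 2, 0, 8])))))))))))) (.cert 6 11 0xc094204a101d100ea447ca34a74873952a4e89214470a2)))))) (.front 1 (.att 0 (.front 1 (.att 0 (.cert 2 12 0x4054a423c830a83a93102a923ce552650728d4a860941043082) (.bit 1 9 (.front 1 (.drop (.bit 9 6 (.drop (.bit 2 7 (.drop (.tab 57 [] [5, 6, 7, 3, 4, 9, 8, 2, 1, 0])) (.name (.cert 10 13 0x908d4092a0235074a930940869ca94c41251a520c4a460922043102)))) (.name (.bit 2 7 (.front 1 (.drop (.tab 62 [.flip] [6, 10, 5, 7, 4, 9, 3, 8, 2, 1, 0]))) (.front 1 (.name (.cert 11 14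 0x1211a808d4092a0e954912810d32859ca94c41251a520c4a460922043102)))))))) (.cert 2 11 0x10615211e80a53102a0e94c90e72a528d2a460921043082)))) (.bit 1 6 (.drop (.bit 2 7 (.drop (.tab 97 [] [5, 6, 7, 3, 4, 1, 8, 2, 0])) (.name (.bit 9 7 (.drop (.tab 98 [] [5, 9, 6, 7, 3, 4, 2, 1, 8, 0])) (.flip (.name (.tab 99 [.flip, .flip] [10, 9, 5, 6, 7, 2, 3, 4, 1, 8, 0]))))))) (.name (.bit 2 7 (.front 1 (.drop (.tab 100 [.flip] [6, 9, 5, 7, 4, 1, 3, 8, 2, 0]))) (.front 1 (.name (.bit 10 7 (.drop (.tab 101 [.flip] [6, 9, 5, 10, 7, 4, 1, 3, 2, 8, 0])) (.flip (.name (.tab 102 [.front 1, .flip, .front 1, .flip, .front 1, .front 1, .flip] [11, 10, 6, 9, 5, 7, 4, 2, 1, 3, 8, 0]))))))))))))))) (.att 0 (.bit 8 9 (.cert 1 11 0x20434831271273952a5034c412648b28d2a460922043102) (.att 8 (.cert 1 12 0x20c49c49d021a62093952a9034c916950f28d2a460922043102) (.front 1 (.att 8 (.cert 1 13 0x418940869c49cc41272a5520694694ca16a48f5245a460922043102)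 (.att 0 (.front 3 (.att 8 (.cert 2 13 0x908f405490614c40aa48f5a149d6acca0e72a928d4a860941043082) (.front 3 (.flip (.front 2 (.flip (.front 3 (.flip (.whl 0 3 4 [6, 10, 9, 1, 8, 2, 7, 5]))))))))) (.front 2 (.att 0 (.bit 8 10 (.cert 2 12 0x404694615215664ab3942a9034c452750720d4a860941043082) (.att 8 (.cert 2 13 0x808d485594614e50a64ab5a06a963cea0e622920d4a860941043082) (.front 1 (.att 8 (.cert 10 14 0x1211e808d4092ad094c916810d3ad398824e54a418928d2a460922043102) (.front 1 (.front 3 (.flip (.front 3 (.flip (.whl 0 3 4 [6, 9, 1, 8, 2, 10, 7, 5])))))))))) (.att 8 (.front 1 (.att 8 (.cert 10 14 0x1211e808d40929922d684a810d31049d69ce54a418928d2a460922043102) (.bit 1 9 (.front 3 (.drop (.bit 10 7 (.drop (.bit 2 10 (.drop (.bit 9 6 (.drop (.tab 58 [.eseg 5 7, .flip] [7, 5, 6, 10, 3, 4, 9, 8, 2, 1, 0])) (.name (.tab 65 [.eseg 5 7, .front 1, .flip, .front 1, .flip] [7, 5, 6, 11, 10, 3, 4, 9, 8, 2,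 1, 0])))) (.name (.cert 11 14 0x1211a808d4092a9094c916810d51d298824e54a418928d2a460922043102)))) (.name (.bit 2 10 (.front 1 (.drop (.bit 9 6 (.front 1 (.drop (.tab 58 [.flip, .eseg 5 7, .merge, .flip] [11, 5, 6, 10, 3, 4, 9, 8, 2, 1, 0]))) (.front 1 (.name (.tab 65 [.front 1, .flip, .eseg 5 7, .merge, .front 1, .flip, .front 1, .flip] [11, 5, 6, 12, 10, 3, 4, 9, 8, 2, 1, 0])))))) (.front 1 (.name (.cert 12 15 0x24235011a812540869922d484a62095a929d69c831272a528d2a460922043102)))))))) (.cert 2 12 0x405290615211ea42531029921cea4e72a528d2a460921043082)))) (.front 2 (.flip (.front 2 (.flip (.whl 0 3 4 [6, 9, 1, 8, 2, 7, 5]))))))))))))) (.att 8 (.front 1 (.att 8 (.front 1 (.att 8 (.cert 7 12 0x81690094405a20254857a922cc44ab50b32d3ad28962449122) (.front 3 (.att 8 (.cert 2 16 0x48578c0a42052418528c298814e50a51a952579caa4ca0e75873ad5ad4896144a0a2) (.att 0 (.cert 9 14 0x1011a80ad3ac3a0435485a652f58879ca14a30a622d20d6ac60961043082)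 (.bit 9 10 (.front 2 (.drop (.bit 1 9 (.front 2 (.drop (.dia 8 9 1 10))) (.front 2 (.name (.bit 11 9 (.drop (.bit 2 7 (.drop (.bit 10 6 (.drop (.tab 95 [.eseg 5 7] [5, 7, 6, 11, 3, 4, 10, 9, 2, 1, 0, 8])) (.name (.tab 103 [.eseg 5 7, .front 1, .flip, .front 1, .front 1] [6, 12, 5, 7, 11, 4, 3, 10, 9, 2, 1, 0, 8])))) (.name (.bit 10 6 (.front 1 (.drop (.tab 95 [.flip, .eseg 5 7, .merge] [5, 12, 6, 11, 3, 4, 10, 9, 2, 1, 0, 8]))) (.front 1 (.name (.tab 103 [.front 1, .flip, .eseg 5 7, .merge, .front 1, .flip, .front 1, .front 1] [6, 13, 5, 12, 11, 4, 3, 10, 9, 2, 1, 0, 8]))))))) (.flip (.name (.bit 2 7 (.front 1 (.drop (.bit 10 6 (.front 1 (.drop (.tab 96 [.eseg 5 7, .front 1, .flip, .flip, .front 1] [5, 12, 7, 11, 6, 3, 9, 4, 10, 2, 1, 0, 8]))) (.front 1 (.name (.tab 104 [.eseg 5 7, .front 1, .flip, .front 2, .flip, .flip, .front 2, .front 2] [6, 13, 5, 12, 7, 11, 4, 10, 3, 9, 2, 1, 0, 8]))))))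 (.front 1 (.name (.bit 10 6 (.front 2 (.drop (.tab 96 [.flip, .eseg 5 7, .merge, .front 1, .flip, .flip, .front 1] [5, 12, 13, 11, 6, 3, 9, 4, 10, 2, 1, 0, 8]))) (.front 2 (.name (.tab 104 [.front 1, .flip, .eseg 5 7, .merge, .front 1, .flip, .front 2, .flip, .flip, .front 2, .front 2] [6, 14, 5, 12, 13, 11, 4, 10, 3, 9, 2, 1, 0, 8]))))))))))))))) (.cert 7 11 0x80a4804a20250814a922cc44a90ab3293a928942449122))))))) (.front 2 (.att 0 (.bit 8 10 (.cert 2 12 0x28c2a0235215664ab3942a9034c452750720d4a860941043082) (.att 8 (.cert 2 13 0x90ab404694614e50ab40d3255988a4ea0ea58f20d4a860941043082) (.front 1 (.att 8 (.cert 10 21 0x809128c290614404a302548579ca14a34a648b40889ca94eb0e62093ad3ad2892244410258511020841442082) (.att 0 (.cert 1 13 0x812d508794624e512942d5a879d62cc95e622d20d6ac60962043102) (.bit 2 10 (.front 1 (.drop (.bit 10 7 (.drop (.bit 9 6 (.drop (.bit 1 9 (.drop (.tab 62 [.eseg 5 7] [5,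 7, 6, 9, 3, 10, 4, 8, 1, 2, 0])) (.name (.cert 11 14 0x1011a80a951c2a04352852932950869ca14a30a622920d4a860941043082)))) (.name (.bit 1 9 (.front 1 (.drop (.tab 65 [.eseg 5 7, .front 1, .flip, .front 1, .front 1, .flip] [11, 6, 5, 7, 9, 4, 3, 10, 8, 1, 2, 0]))) (.front 1 (.name (.cert 12 15 0x202a5011aa3854086a50a4e50ab4a9508694614cb56622920d4a860941043082))))))) (.name (.bit 9 6 (.front 1 (.drop (.bit 1 9 (.front 1 (.drop (.tab 62 [.flip, .eseg 5 7, .merge] [5, 11, 6, 9, 3, 10, 4, 8, 1, 2, 0]))) (.front 1 (.name (.cert 12 15 0x202350152810d4a14ad414eb0ea10d49949ca14c452518520d4a860941043082)))))) (.front 1 (.name (.bit 1 9 (.front 2 (.drop (.tab 65 [.front 1, .flip, .eseg 5 7, .merge, .front 1, .flip, .front 1, .front 1, .flip] [12, 6, 5, 11, 9, 4, 3, 10, 8, 1, 2, 0]))) (.front 2 (.name (.cert 13 16 0x4046a02a56a0a810d4a149d61d8952a10d33159ca14a30a622920d4a860941043082))))))))))) (.cert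 1 12 0x4094a843ca31272894a149d42cc956622920d4a860942043102))))))) (.att 8 (.cert 2 23 0xc064600040154048a423c8318400020c29ca04c91e75035208a9004ea26940139489920ca41c619220410c208c024500e) (.bit 2 7 (.drop (.bit 9 6 (.drop (.bit 1 9 (.drop (.tab 100 [.eseg 5 7] [5, 7, 6, 9, 3, 2, 4, 8, 1, 0])) (.name (.bit 10 9 (.drop (.tab 101 [.eseg 5 7] [5, 7, 6, 10, 9, 3, 2, 4, 1, 8, 0])) (.flip (.name (.tab 102 [.eseg 5 7, .front 1, .flip, .front 1, .front 1, .flip] [11, 10, 5, 7, 6, 9, 3, 1, 2, 4, 8, 0]))))))) (.name (.bit 1 9 (.front 1 (.drop (.tab 105 [.eseg 5 7, .front 1, .flip, .front 1, .front 1, .flip] [10, 6, 5, 7, 9, 4, 3, 2, 8, 1, 0]))) (.front 1 (.name (.bit 11 9 (.drop (.tab 106 [.eseg 5 7, .front 1, .flip, .front 1, .front 1, .flip] [10, 6, 5, 7, 11, 9, 4, 3, 2, 1, 8, 0])) (.flip (.name (.tab 107 [.eseg 5 7, .front 2, .flip, .front 2, .flip, .front 2, .front 1, .flip, .front 2, .flip] [10,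 12, 6, 11, 5, 7, 9, 4, 3, 1, 2, 8, 0])))))))))) (.name (.bit 9 6 (.front 1 (.drop (.bit 1 9 (.front 1 (.drop (.tab 100 [.flip, .eseg 5 7, .merge] [5, 10, 6, 9, 3, 2, 4, 8, 1, 0]))) (.front 1 (.name (.bit 11 9 (.drop (.tab 101 [.flip, .eseg 5 7, .merge] [5, 10, 6, 11, 9, 3, 2, 4, 1, 8, 0])) (.flip (.name (.tab 102 [.front 1, .flip, .eseg 5 7, .merge, .front 1, .flip, .front 1, .front 1, .flip] [12, 11, 5, 10, 6, 9, 3, 1, 2, 4, 8, 0]))))))))) (.front 1 (.name (.bit 1 9 (.front 2 (.drop (.tab 105 [.front 1, .flip, .eseg 5 7, .merge, .front 1, .flip, .front 1, .front 1, .flip] [11, 6, 5, 10, 9, 4, 3, 2, 8, 1, 0]))) (.front 2 (.name (.bit 12 9 (.drop (.tab 106 [.front 1, .flip, .eseg 5 7, .merge, .front 1, .flip, .front 1, .front 1, .flip] [11, 6, 5, 10, 12, 9, 4, 3, 2, 1, 8, 0])) (.flip (.name (.tab 107 [.front 2, .flip, .eseg 5 7, .merge, .front 2, .flip, .front 2, .flip, .front 2, .front 1,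 .flip, .front 2, .flip] [11, 13, 6, 12, 5, 10, 9, 4, 3, 1, 2, 8, 0]))))))))))))))))) (.front 1 (.att 0 (.bit 8 9 (.cert 2 11 0x14615011a60a731129ca15281a748720d2a460921043082) (.att 8 (.cert 2 12 0x28c2a0234c14e72853112a9034e90e950f20d2a460921043082) (.front 1 (.att 8 (.cert 2 13 0x518540469829ce50aa40d3112a923c834a75075243a460921043082) (.front 1 (.front 2 (.flip (.whl 0 3 4 [6, 1, 8, 2, 9, 7, 5])))))))) (.att 8 (.front 1 (.att 8 (.front 1 (.att 8 (.cert 6 13 0x202d08168c094204aa487489794694e54ab5073ad3ad289614490a2) (.bit 9 10 (.front 1 (.drop (.bit 2 9 (.front 1 (.drop (.dia 8 9 2 10))) (.front 1 (.name (.bit 11 9 (.drop (.bit 10 7 (.drop (.bit 1 6 (.drop (.tab 108 [.eseg 5 7] [5, 7, 6, 11, 3, 10, 4, 9, 1, 2, 0, 8])) (.name (.tab 103 [.eseg 5 7, .front 1, .flip, .front 1] [5, 7, 6, 12, 11, 3, 4, 10, 9, 1, 2, 0, 8])))) (.name (.bit 1 6 (.front 1 (.drop (.tab 108 [.flip, .eseg 5 7, .merge]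 [5, 12, 6, 11, 3, 10, 4, 9, 1, 2, 0, 8]))) (.front 1 (.name (.tab 103 [.front 1, .flip, .eseg 5 7, .merge, .front 1, .flip, .front 1] [5, 12, 6, 13, 11, 3, 4, 10, 9, 1, 2, 0, 8]))))))) (.flip (.name (.bit 10 7 (.front 1 (.drop (.bit 1 6 (.front 1 (.drop (.tab 103 [.eseg 5 7, .front 1, .flip, .flip, .front 1, .flip] [7, 5, 12, 11, 6, 10, 9, 3, 4, 2, 1, 8, 0]))) (.front 1 (.name (.tab 104 [.eseg 5 7, .front 1, .flip, .front 2, .flip, .flip, .front 1, .front 2] [5, 7, 6, 12, 13, 11, 3, 10, 4, 9, 1, 2, 0, 8])))))) (.front 1 (.name (.bit 1 6 (.front 2 (.drop (.tab 103 [.flip, .eseg 5 7, .merge, .front 1, .flip, .flip, .front 1, .flip] [13, 5, 12, 11, 6, 10, 9, 3, 4, 2, 1, 8, 0]))) (.front 2 (.name (.tab 104 [.front 1, .flip, .eseg 5 7, .merge, .front 1, .flip, .front 2, .flip, .flip, .front 1, .front 2] [5, 13, 6, 12, 14, 11, 3, 10, 4, 9, 1, 2, 0, 8]))))))))))))))) (.cert 6 12 0x1812880a420521025524394695225672a53a93a9289414490a2))))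 (.bit 9 7 (.drop (.bit 2 9 (.drop (.bit 1 6 (.drop (.tab 109 [.eseg 5 7, .flip] [7, 5, 6, 9, 3, 4, 1, 8, 2, 0])) (.name (.tab 105 [.eseg 5 7, .front 1, .flip, .front 1, .flip] [7, 5, 6, 10, 9, 3, 4, 1, 8, 2, 0])))) (.name (.bit 10 9 (.drop (.bit 1 6 (.drop (.tab 110 [.eseg 5 7, .flip] [7, 5, 10, 6, 9, 3, 4, 2, 1, 8, 0])) (.name (.tab 106 [.eseg 5 7, .front 1, .flip, .front 1, .flip] [7, 5, 6, 11, 10, 9, 3, 4, 1, 2, 8, 0])))) (.flip (.name (.bit 1 6 (.front 1 (.drop (.tab 111 [.eseg 5 7, .front 1, .flip, .flip, .front 1, .flip] [7, 11, 5, 10, 6, 9, 3, 2, 4, 1, 8, 0]))) (.front 1 (.name (.tab 107 [.eseg 5 7, .front 1, .flip, .front 2, .flip, .front 1, .front 1, .flip, .front 2, .flip] [7, 11, 5, 10, 6, 12, 9, 3, 4, 2, 1, 8, 0])))))))))) (.name (.bit 2 9 (.front 1 (.drop (.bit 1 6 (.front 1 (.drop (.tab 109 [.flip, .eseg 5 7, .merge, .flip] [10, 5, 6, 9, 3, 4, 1, 8, 2, 0]))) (.front 1 (.name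 (.tab 105 [.front 1, .flip, .eseg 5 7, .merge, .front 1, .flip, .front 1, .flip] [10, 5, 6, 11, 9, 3, 4, 1, 8, 2, 0])))))) (.front 1 (.name (.bit 11 9 (.drop (.bit 1 6 (.front 1 (.drop (.tab 110 [.flip, .eseg 5 7, .merge, .flip] [10, 5, 11, 6, 9, 3, 4, 2, 1, 8, 0]))) (.front 1 (.name (.tab 106 [.front 1, .flip, .eseg 5 7, .merge, .front 1, .flip, .front 1, .flip] [10, 5, 6, 12, 11, 9, 3, 4, 1, 2, 8, 0]))))) (.flip (.name (.bit 1 6 (.front 2 (.drop (.tab 111 [.front 1, .flip, .eseg 5 7, .merge, .front 1, .flip, .flip, .front 1, .flip] [10, 12, 5, 11, 6, 9, 3, 2, 4, 1, 8, 0]))) (.front 2 (.name (.tab 107 [.front 2, .flip, .eseg 5 7, .merge, .front 1, .flip, .front 2, .flip, .front 1, .front 1, .flip, .front 2, .flip] [10, 12, 5, 11, 6, 13, 9, 3, 4, 2, 1, 8, 0])))))))))))))) (.front 1 (.flip (.whl 0 3 4 [6, 1, 8, 2, 7, 5])))))))))))))))) (.bit 0 5 (.bit 0 7 (.dia 0 5 3 7) (.bit 4 5 (.dia 3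 5 0 4) (.bit 0 6 (.bit 6 8 (.cert 1 10 0x8312810d388d9ca64c412830d28cc98608c2043102) (.bit 5 8 (.cert 7 11 0x20464c11e808d414ca0434c412519920c498608c2043102) (.bit 4 8 (.cert 1 11 0x1462483128115388d98825042a7299310a98a08c2045102) (.att 8 (.cert 1 11 0x204348312711b394ca5034c412648f28cc98608c2043102) (.bit 7 8 (.att 0 (.cert 2 11 0x10615211e809931029923d0732729928cc98608c1043082) (.front 1 (.att 0 (.cert 9 12 0x40469823d023283993104a0434e532418928cc98608c2043102) (.att 8 (.cert 9 12 0x40469823d023283993104a0434e532418928cc98608c2043102) (.bit 1 6 (.front 1 (.drop (.bit 2 7 (.drop (.tab 81 [] [4, 3, 6, 7, 8, 5, 1, 2, 0])) (.name (.cert 9 12 0x3046a0235023283993104a0434e532418928cc98608c2043102))))) (.cert 2 10 0xc11e4185404c988150732729928cc98608c1043082)))))) (.att 0 (.front 2 (.att 8 (.cert 2 12 0x20c2a423d01326205520c9923cea36729928cc98608c1043082) (.front 1 (.flip (.front 2 (.flip (.whl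 0 3 4 [6, 9, 1, 8, 2, 7, 5]))))))) (.front 1 (.att 0 (.bit 8 9 (.cert 2 11 0x20234a30a60a731129ca15281a748720d2a460921043082) (.att 8 (.cert 2 12 0x40469829ca30a622552069ca14e90e41a54a87a460921043082) (.front 1 (.att 8 (.cert 9 13 0x808d3047a0464c412a419408690624ea36729928cc98608c2043102) (.front 1 (.front 2 (.flip (.whl 0 3 4 [6, 1, 8, 2, 9, 7, 5])))))))) (.att 8 (.front 1 (.att 8 (.cert 9 13 0x808d3047a0464c412810d520c9d46c8312729928cc98608c2043102) (.bit 1 6 (.front 2 (.drop (.bit 9 7 (.drop (.bit 2 9 (.drop (.tab 57 [] [7, 4, 9, 5, 3, 6, 8, 2, 1, 0])) (.name (.cert 10 13 0x808d3046a0464c412810d4a0c906252732729928cc98608c2043102)))) (.name (.bit 2 9 (.front 1 (.drop (.tab 58 [.flip, .flip] [10, 7, 4, 9, 5, 3, 6, 8, 2, 1, 0]))) (.front 1 (.name (.cert 11 14 0x1011a608d408c988252832810d524c90624ea36729928cc98608c2043102)))))))) (.cert 2 11 0x1823c830a80994a0c98814e936729928cc98608c1043082))))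 (.front 1 (.flip (.whl 0 3 4 [6, 1, 8, 2, 7, 5])))))))))))) (.bit 4 8 (.bit 5 8 (.cert 7 9 0x418528c284044a0226097310a94888a14440a2) (.bit 7 8 (.cert 6 12 0x28c29061420225011080e8c074e50a419d39489c888e14440a2) (.att 0 (.cert 1 13 0x518920c49c49d022a6209410a9ca94c9166215324ba4a0922045102) (.att 8 (.cert 7 11 0xc094404a10111008906952126648b3104a488922444122) (.front 1 (.att 8 (.cert 2 13 0x5011080894614830a60a731129ca14e52274873a49a4889214440a2) (.att 0 (.cert 6 12 0x4046a0294e90e822540869ca14834a910f28c2a460921043082) (.bit 6 8 (.bit 1 6 (.front 1 (.drop (.dia 6 8 1 4))) (.front 1 (.name (.bit 9 6 (.drop (.bit 2 7 (.drop (.tab 86 [] [7, 9, 5, 6, 2, 1, 3, 4, 0, 8])) (.name (.tab 87 [.flip] [7, 10, 9, 5, 6, 2, 1, 3, 4, 0, 8])))) (.flip (.name (.bit 2 7 (.front 1 (.drop (.tab 87 [.flip, .flip] [10, 9, 7, 6, 5, 1, 2, 4, 3, 8, 0]))) (.front 1 (.name (.tab 88 [.flip, .front 1, .flip, .flip, .front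 1] [7, 10, 11, 9, 5, 6, 2, 1, 3, 4, 0, 8])))))))))) (.bit 2 7 (.drop (.bit 1 6 (.drop (.tab 89 [] [6, 7, 4, 1, 2, 5, 8, 3, 0])) (.name (.tab 91 [.flip] [6, 9, 7, 4, 1, 2, 5, 8, 3, 0])))) (.name (.bit 1 6 (.front 1 (.drop (.tab 90 [.flip, .flip] [9, 7, 6, 4, 2, 5, 1, 8, 3, 0]))) (.front 1 (.name (.tab 92 [.flip, .front 1, .flip, .flip, .front 1] [6, 10, 9, 7, 4, 1, 2, 5, 8, 3, 0])))))))))))))) (.bit 5 8 (.bit 6 8 (.cert 7 17 0x518540468c000c402302128089825ca3185000310aa0c04a41c819628410c209002c400e) (.bit 7 8 (.front 1 (.att 0 (.cert 2 12 0x28c29829d011a62253942a0e34e90e41a53a47a460921043082) (.att 8 (.cert 6 12 0x281284094e5129117080e88074e90e92a2389114489214470a2) (.bit 2 7 (.drop (.dia 7 8 2 5)) (.front 1 (.att 8 (.cert 1 14 0x8312518938938c074403a728920ce98824c916621d324fa4e8922447122) (.att 0 (.cert 7 12 0x4847a0235024a82a53245a0434c41251a520c4a460922043102) (.front 1 (.name (.bit 9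 7 (.drop (.bit 1 6 (.drop (.tab 82 [.eseg 4 6, .flip] [6, 4, 9, 1, 3, 2, 7, 0, 8, 5])) (.name (.tab 82 [.flip, .eseg 4 6, .merge, .flip] [10, 4, 9, 1, 3, 2, 7, 0, 8, 5])))) (.flip (.name (.bit 1 6 (.front 1 (.drop (.tab 83 [.eseg 4 6, .front 1, .flip, .front 1, .flip] [6, 9, 4, 10, 1, 2, 3, 7, 0, 8, 5]))) (.front 1 (.name (.tab 83 [.flip, .eseg 4 6, .merge, .front 1, .flip, .front 1, .flip, .front 1] [9, 11, 10, 4, 2, 1, 7, 3, 8, 0, 5])))))))))))))))) (.att 0 (.bit 8 9 (.cert 1 11 0x2043483127127395298825281a51a53245a460922043102) (.cert 7 12 0x4847a0235024a82a53245a0434c41251a520c4a460922043102)) (.att 8 (.cert 7 19 0x14044c402300028c2a023460425000484b94630c92e6483310aa5004a41c819628410c209002c400e) (.front 1 (.att 0 (.bit 8 9 (.cert 2 11 0x20234a30a60a73112a5034e50a41a53a43a460921043082) (.cert 6 12 0x4052a0234e90e810d41529ca15221e51a528c2a460921043082)) (.att 8 (.cert 6 16 0x28c494094204a911740469d21d021a728528c2a4a88a2043102485114288a1043082)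 (.bit 2 7 (.drop (.bit 1 6 (.drop (.tab 84 [.eseg 4 6, .flip] [6, 4, 7, 1, 2, 3, 8, 5, 0])) (.name (.tab 84 [.flip, .eseg 4 6, .merge, .flip] [9, 4, 7, 1, 2, 3, 8, 5, 0])))) (.name (.bit 1 6 (.front 1 (.drop (.tab 85 [.eseg 4 6, .front 1, .flip, .flip, .front 1, .flip] [6, 4, 9, 7, 1, 2, 3, 8, 5, 0]))) (.front 1 (.name (.tab 85 [.flip, .eseg 4 6, .merge, .front 1, .flip, .flip, .front 1, .flip] [10, 4, 9, 7, 1, 2, 3, 8, 5, 0]))))))))))))) (.bit 6 8 (.bit 7 8 (.cert 2 19 0x14044c402808d28c28c000a000518c304b8c075071a62154180a0e04a41c719628410c208e02c400e) (.att 0 (.cert 1 12 0x408690624e24e72a53104a0c34c91651a53247a460922043102) (.front 1 (.att 8 (.cert 2 28 0x3047840002022418c180018804a30a60a7418c0c0850108501931080c0650602809120d09ca14e53274873a4da4c890434619248510c209000c400e) (.att 0 (.front 1 (.att 0 (.cert 1 12 0x488794625025283293944a923cc452750b20d4a860942043102) (.front 2 (.att 8 (.cert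 10 13 0x808d40529d21d064a810d3112a443ce50a518520d2a460921043082) (.bit 2 9 (.front 2 (.drop (.bit 1 6 (.drop (.bit 9 7 (.drop (.tab 57 [] [4, 7, 6, 3, 5, 9, 8, 1, 2, 0])) (.name (.tab 62 [.flip] [7, 10, 4, 6, 5, 9, 3, 8, 1, 2, 0])))) (.name (.cert 10 13 0x808d40529d21d064a810d31129ca15221a518520d2a460921043082))))) (.cert 1 11 0x2443ca312812541929ca24e916622520d2a460922043102)))))) (.front 1 (.att 8 (.front 1 (.att 8 (.cert 7 12 0x10128806420323025484da922c834a650b3112a4c8922446122) (.bit 6 9 (.drop (.bit 1 9 (.drop (.dia 8 9 1 6)) (.name (.bit 10 9 (.drop (.bit 2 7 (.drop (.tab 94 [] [4, 7, 10, 3, 6, 5, 9, 2, 1, 0, 8])) (.name (.tab 95 [.flip] [7, 11, 4, 10, 5, 3, 6, 9, 2, 1, 0, 8])))) (.flip (.name (.bit 2 7 (.front 1 (.drop (.tab 95 [.flip, .flip] [11, 10, 4, 7, 9, 6, 3, 5, 1, 2, 8, 0]))) (.front 1 (.name (.tab 96 [.flip, .front 1, .flip, .flip, .front 1] [7, 11, 12, 10, 4, 5, 9, 3, 6,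 2, 1, 0, 8])))))))))) (.cert 7 11 0xc094404a2019080c90694c916909b3112a4c8922446122)))) (.bit 1 6 (.drop (.bit 2 7 (.drop (.tab 97 [] [4, 7, 6, 3, 5, 2, 8, 1, 0])) (.name (.tab 100 [.flip] [7, 9, 4, 6, 5, 2, 3, 8, 1, 0])))) (.name (.bit 9 6 (.drop (.bit 2 7 (.drop (.tab 98 [] [4, 9, 7, 6, 3, 5, 1, 2, 8, 0])) (.name (.tab 101 [.flip] [7, 10, 4, 9, 6, 5, 2, 3, 1, 8, 0])))) (.flip (.name (.bit 2 7 (.front 1 (.drop (.tab 99 [.flip, .flip] [10, 9, 4, 7, 6, 1, 3, 5, 2, 8, 0]))) (.front 1 (.name (.tab 102 [.flip, .front 1, .flip, .front 1, .front 1, .flip] [10, 9, 7, 11, 4, 6, 5, 1, 2, 3, 8, 0])))))))))))))))) (.bit 7 8 (.att 8 (.cert 1 23 0x140010702200028c490624e24e839c2810a0420e5288115180e90674c412648b310e9927d2744829e48911440900147016) (.front 1 (.att 0 (.cert 2 12 0x28c29829d011a62253942a0e34834a74873a47a460921043082) (.att 8 (.front 1 (.att 8 (.cert 6 11 0x14094203a1025100ea447d490e72a53a83a4e89214470a2)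 (.front 2 (.att 0 (.cert 9 13 0xa08f4046a04a50752650b408698824e55251a920c4a860942043102) (.bit 7 9 (.front 1 (.drop (.bit 2 9 (.front 1 (.drop (.dia 8 9 2 7))) (.front 1 (.name (.bit 10 9 (.drop (.bit 1 6 (.drop (.tab 87 [.eseg 4 6] [4, 6, 10, 3, 9, 1, 2, 5, 7, 0, 8])) (.name (.tab 87 [.flip, .eseg 4 6, .merge] [4, 11, 10, 3, 9, 1, 2, 5, 7, 0, 8])))) (.flip (.name (.bit 1 6 (.front 1 (.drop (.tab 88 [.eseg 4 6, .front 1, .flip, .flip, .front 1] [4, 11, 6, 10, 3, 9, 1, 2, 5, 7, 0, 8]))) (.front 1 (.name (.tab 88 [.flip, .eseg 4 6, .merge, .front 1, .flip, .flip, .front 1] [4, 11, 12, 10, 3, 9, 1, 2, 5, 7, 0, 8])))))))))))) (.cert 6 10 0xa04a1025080e88074e90e72a5488fa4e89214470a2)))))) (.front 1 (.att 0 (.front 1 (.att 0 (.cert 2 12 0x4054a423c830a83a93102a923ce552650728d4a860941043082) (.bit 1 9 (.front 1 (.drop (.bit 9 6 (.drop (.bit 2 7 (.drop (.tab 67 [.eseg 4 6] [4, 6, 3, 9, 7, 8, 5,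 1, 2, 0])) (.name (.cert 10 13 0x908d4046a0495074a930940869ca94c41251a520c4a460922043102)))) (.name (.bit 2 7 (.front 1 (.drop (.tab 67 [.flip, .eseg 4 6, .merge] [4, 10, 3, 9, 7, 8, 5, 1, 2, 0]))) (.front 1 (.name (.cert 11 14 0x1211a808d4092a0e95021aa48939529942ca34a620920c4a460922043102)))))))) (.cert 2 11 0x10615211e80a53102a0e94c90e72a528d2a460921043082)))) (.bit 1 6 (.drop (.bit 2 7 (.drop (.tab 93 [.eseg 4 6, .flip] [6, 4, 1, 3, 8, 7, 5, 2, 0])) (.name (.bit 9 7 (.drop (.tab 90 [.eseg 4 6, .flip] [6, 4, 9, 7, 1, 3, 2, 8, 5, 0])) (.flip (.name (.tab 92 [.eseg 4 6, .front 1, .flip, .front 1, .flip, .front 1, .flip] [10, 9, 6, 4, 7, 2, 1, 3, 8, 5, 0]))))))) (.name (.bit 2 7 (.front 1 (.drop (.tab 93 [.flip, .eseg 4 6, .merge, .flip] [9, 4, 1, 3, 8, 7, 5, 2, 0]))) (.front 1 (.name (.bit 10 7 (.drop (.tab 90 [.flip, .eseg 4 6, .merge, .flip] [9, 4, 10, 7, 1, 3, 2, 8, 5, 0])) (.flip (.name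 (.tab 92 [.front 1, .flip, .eseg 4 6, .merge, .front 1, .flip, .front 1, .flip, .front 1, .flip] [11, 10, 9, 4, 7, 2, 1, 3, 8, 5, 0]))))))))))))))) (.att 0 (.bit 8 9 (.cert 1 11 0x20434831271273952a5034c412648b28d2a460922043102) (.att 8 (.cert 1 12 0x40869c49c831262093952a9034c916950f28d2a460922043102) (.front 1 (.att 8 (.cert 1 13 0x810d389390625481a72a531049942d491e51a55245a460922043102) (.att 0 (.front 3 (.att 8 (.cert 2 13 0x908f405490615491e62055a149d6acca0e72a928d4a860941043082) (.front 3 (.flip (.front 2 (.flip (.front 3 (.flip (.whl 0 3 4 [6, 10, 9, 1, 8, 2, 7, 5]))))))))) (.front 2 (.att 0 (.bit 8 10 (.cert 2 12 0x404694615215664ab3942a9034ea0e622920d4a860941043082) (.att 8 (.cert 2 13 0x808d485594614e50a64ab5a06a963cea0e622920d4a860941043082) (.front 1 (.att 8 (.cert 10 14 0x1211e808d4092ad094c916810d3ad398824e54a418928d2a460922043102) (.front 1 (.front 3 (.flip (.front 3 (.flip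 (.whl 0 3 4 [6, 9, 1, 8, 2, 10, 7, 5])))))))))) (.att 8 (.front 1 (.att 8 (.cert 10 14 0x1011a908f4092ad094c916810d3ad398824e54a418928d2a460922043102) (.bit 1 9 (.front 3 (.drop (.bit 10 7 (.drop (.bit 2 10 (.drop (.bit 9 6 (.drop (.tab 62 [.eseg 4 6] [4, 6, 7, 10, 3, 9, 5, 8, 2, 1, 0])) (.name (.tab 62 [.flip, .eseg 4 6, .merge] [4, 11, 7, 10, 3, 9, 5, 8, 2, 1, 0])))) (.name (.cert 11 14 0x1211a808d40929922d484a810d3104a8e94e54a418928d2a460922043102)))) (.name (.bit 2 10 (.front 1 (.drop (.bit 9 6 (.front 1 (.drop (.tab 65 [.eseg 4 6, .front 1, .flip, .front 1, .front 1, .flip] [11, 7, 4, 6, 10, 5, 3, 9, 8, 2, 1, 0]))) (.front 1 (.name (.tab 65 [.flip, .eseg 4 6, .merge, .front 1, .flip, .front 1, .front 1, .flip] [11, 7, 4, 12, 10, 5, 3, 9, 8, 2, 1, 0])))))) (.front 1 (.name (.cert 12 15 0x20235211a81254086a9094c916b52531049d69c831272a528d2a460922043102)))))))) (.cert 2 12 0x4052a423c830a620552129d49cc90e72a528d2a460921043082))))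 (.front 2 (.flip (.front 2 (.flip (.whl 0 3 4 [6, 9, 1, 8, 2, 7, 5]))))))))))))) (.att 8 (.front 1 (.att 8 (.front 1 (.att 8 (.cert 7 13 0x202d081688094604a90af524590694c44ab50b32d3ad28962449122) (.front 3 (.att 8 (.cert 2 15 0x242bc830a51850814940a4e50a620552579caa4eb5665073ac3ad4896144a0a2) (.att 0 (.cert 9 14 0x1011a80ad3ac3a0435485a72853297ac43ca30a622d20d6ac60961043082) (.bit 9 10 (.front 2 (.drop (.bit 1 9 (.front 2 (.drop (.dia 8 9 1 10))) (.front 2 (.name (.bit 11 9 (.drop (.bit 2 7 (.drop (.bit 10 6 (.drop (.tab 108 [.eseg 4 6] [4, 6, 7, 11, 3, 10, 5, 9, 2, 1, 0, 8])) (.name (.tab 108 [.flip, .eseg 4 6, .merge] [4, 12, 7, 11, 3, 10, 5, 9, 2, 1, 0, 8])))) (.name (.bit 10 6 (.front 1 (.drop (.tab 103 [.eseg 4 6, .front 1, .flip, .front 1] [4, 6, 7, 12, 11, 3, 5, 10, 9, 2, 1, 0, 8]))) (.front 1 (.name (.tab 103 [.flip, .eseg 4 6, .merge, .front 1, .flip, .front 1] [4, 13, 7, 12, 11,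 3, 5, 10, 9, 2, 1, 0, 8]))))))) (.flip (.name (.bit 2 7 (.front 1 (.drop (.bit 10 6 (.front 1 (.drop (.tab 103 [.eseg 4 6, .front 1, .flip, .flip, .front 1, .flip] [6, 4, 12, 11, 7, 10, 9, 3, 5, 1, 2, 8, 0]))) (.front 1 (.name (.tab 103 [.flip, .eseg 4 6, .merge, .front 1, .flip, .flip, .front 1, .flip] [13, 4, 12, 11, 7, 10, 9, 3, 5, 1, 2, 8, 0])))))) (.front 1 (.name (.bit 10 6 (.front 2 (.drop (.tab 104 [.eseg 4 6, .front 1, .flip, .front 2, .flip, .flip, .front 1, .front 2] [4, 6, 7, 12, 13, 11, 3, 10, 5, 9, 2, 1, 0, 8]))) (.front 2 (.name (.tab 104 [.flip, .eseg 4 6, .merge, .front 1, .flip, .front 2, .flip, .flip, .front 1, .front 2] [4, 14, 7, 12, 13, 11, 3, 10, 5, 9, 2, 1, 0, 8]))))))))))))))) (.cert 7 12 0x1812880a4205220254855a922c834a62253293a928942449122))))))) (.front 2 (.att 0 (.bit 8 10 (.cert 2 12 0x404694615215664ab3942a9034c452750720d4a860941043082) (.att 8 (.cert 2 13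 0x90ab404694614e50a64ab5a06988a4ea0ea58f20d4a860941043082) (.front 1 (.att 8 (.cert 10 20 0x404a88094a04a90af32459ca14e54a81153ad39d61cc412418928c4ad2892244510258511420841442082) (.att 0 (.cert 1 13 0x51895087a04b4e512942d5a87992bceb16622d20d6ac60962043102) (.bit 2 10 (.front 1 (.drop (.bit 10 7 (.drop (.bit 9 6 (.drop (.bit 1 9 (.drop (.tab 58 [.eseg 4 6, .flip] [6, 4, 7, 9, 3, 5, 10, 8, 1, 2, 0])) (.name (.cert 11 14 0x1011a80a951c2a0435285272854994a8434a30a622920d4a860941043082)))) (.name (.bit 1 9 (.front 1 (.drop (.tab 58 [.flip, .eseg 4 6, .merge, .flip] [11, 4, 7, 9, 3, 5, 10, 8, 1, 2, 0]))) (.front 1 (.name (.cert 12 15 0x202350152a3854a14a0434e50aa10d5a54996aca30a622920d4a860941043082))))))) (.name (.bit 9 6 (.front 1 (.drop (.bit 1 9 (.front 1 (.drop (.tab 65 [.eseg 4 6, .front 1, .flip, .front 1, .flip] [6, 4, 7, 11, 9, 3, 5, 10, 8, 1, 2, 0]))) (.front 1 (.name (.cert 12 15 0x202350152810d4a14ad414eb0e93295086988a4e50a518520d4a860941043082))))))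 (.front 1 (.name (.bit 1 9 (.front 2 (.drop (.tab 65 [.flip, .eseg 4 6, .merge, .front 1, .flip, .front 1, .flip] [12, 4, 7, 11, 9, 3, 5, 10, 8, 1, 2, 0]))) (.front 2 (.name (.cert 13 16 0x4046a02a5021ab5054a149d61d8952a10d3942998aca30a622920d4a860941043082))))))))))) (.cert 1 12 0x5087a04a4a31272894a14992acea16622920d4a860942043102))))))) (.att 8 (.cert 2 23 0x2425c6000518c280020234a0226201180e94614c906a40d324ba5004ea1e621552009d40ca41c719628410c208e02c400e) (.bit 2 7 (.drop (.bit 9 6 (.drop (.bit 1 9 (.drop (.tab 109 [.eseg 4 6, .flip] [6, 4, 7, 9, 3, 5, 2, 8, 1, 0])) (.name (.bit 10 9 (.drop (.tab 110 [.eseg 4 6, .flip] [6, 4, 10, 7, 9, 3, 5, 1, 2, 8, 0])) (.flip (.name (.tab 111 [.eseg 4 6, .front 1, .flip, .flip, .front 1, .flip] [6, 11, 4, 10, 7, 9, 3, 1, 5, 2, 8, 0]))))))) (.name (.bit 1 9 (.front 1 (.drop (.tab 109 [.flip, .eseg 4 6, .merge, .flip] [10, 4, 7, 9, 3, 5, 2, 8, 1, 0])))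 (.front 1 (.name (.bit 11 9 (.drop (.tab 110 [.flip, .eseg 4 6, .merge, .flip] [10, 4, 11, 7, 9, 3, 5, 1, 2, 8, 0])) (.flip (.name (.tab 111 [.front 1, .flip, .eseg 4 6, .merge, .front 1, .flip, .flip, .front 1, .flip] [10, 12, 4, 11, 7, 9, 3, 1, 5, 2, 8, 0])))))))))) (.name (.bit 9 6 (.front 1 (.drop (.bit 1 9 (.front 1 (.drop (.tab 105 [.eseg 4 6, .front 1, .flip, .front 1, .flip] [6, 4, 7, 10, 9, 3, 5, 2, 8, 1, 0]))) (.front 1 (.name (.bit 11 9 (.drop (.tab 106 [.eseg 4 6, .front 1, .flip, .front 1, .flip] [6, 4, 7, 10, 11, 9, 3, 5, 2, 1, 8, 0])) (.flip (.name (.tab 107 [.eseg 4 6, .front 2, .flip, .front 2, .flip, .front 1, .front 1, .flip, .front 2, .flip] [6, 12, 4, 11, 7, 10, 9, 3, 5, 1, 2, 8, 0]))))))))) (.front 1 (.name (.bit 1 9 (.front 2 (.drop (.tab 105 [.flip, .eseg 4 6, .merge, .front 1, .flip, .front 1, .flip] [11, 4, 7, 10, 9, 3, 5, 2, 8, 1, 0]))) (.front 2 (.name (.bit 12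 9 (.drop (.tab 106 [.flip, .eseg 4 6, .merge, .front 1, .flip, .front 1, .flip] [11, 4, 7, 10, 12, 9, 3, 5, 2, 1, 8, 0])) (.flip (.name (.tab 107 [.front 1, .flip, .eseg 4 6, .merge, .front 2, .flip, .front 2, .flip, .front 1, .front 1, .flip, .front 2, .flip] [11, 13, 4, 12, 7, 10, 9, 3, 5, 1, 2, 8, 0]))))))))))))))))) (.front 1 (.att 0 (.bit 8 9 (.cert 2 11 0x20234a30a60a731129ca15281a748720d2a460921043082) (.att 8 (.cert 2 12 0x3053a0234a30a72853112a9034e90e950f20d2a460921043082) (.front 1 (.att 8 (.cert 2 13 0x60a728c2a0234e50aa40d311290694ea0ea48f5243a460921043082) (.front 1 (.front 2 (.flip (.whl 0 3 4 [6, 1, 8, 2, 9, 7, 5])))))))) (.att 8 (.front 1 (.att 8 (.front 1 (.att 8 (.cert 6 12 0x101694094204a102d5243a44bce54ab5073ad3ad289614490a2) (.bit 9 10 (.front 1 (.drop (.bit 2 9 (.front 1 (.drop (.dia 8 9 2 10))) (.front 1 (.name (.bit 11 9 (.drop (.bit 10 7 (.drop (.bit 1 6 (.drop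 (.tab 95 [.eseg 4 6] [4, 6, 7, 11, 3, 5, 10, 9, 1, 2, 0, 8])) (.name (.tab 95 [.flip, .eseg 4 6, .merge] [4, 12, 7, 11, 3, 5, 10, 9, 1, 2, 0, 8])))) (.name (.bit 1 6 (.front 1 (.drop (.tab 103 [.eseg 4 6, .front 1, .flip, .front 1, .front 1] [7, 12, 4, 6, 11, 5, 3, 10, 9, 1, 2, 0, 8]))) (.front 1 (.name (.tab 103 [.flip, .eseg 4 6, .merge, .front 1, .flip, .front 1, .front 1] [7, 12, 4, 13, 11, 5, 3, 10, 9, 1, 2, 0, 8]))))))) (.flip (.name (.bit 10 7 (.front 1 (.drop (.bit 1 6 (.front 1 (.drop (.tab 96 [.eseg 4 6, .front 1, .flip, .flip, .front 1] [4, 12, 6, 11, 7, 3, 9, 5, 10, 1, 2, 0, 8]))) (.front 1 (.name (.tab 96 [.flip, .eseg 4 6, .merge, .front 1, .flip, .flip, .front 1] [4, 12, 13, 11, 7, 3, 9, 5, 10, 1, 2, 0, 8])))))) (.front 1 (.name (.bit 1 6 (.front 2 (.drop (.tab 104 [.eseg 4 6, .front 1, .flip, .front 2, .flip, .flip, .front 2, .front 2] [7, 13, 4, 12, 6, 11, 5, 10, 3, 9, 1,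 2, 0, 8]))) (.front 2 (.name (.tab 104 [.flip, .eseg 4 6, .merge, .front 1, .flip, .front 2, .flip, .flip, .front 2, .front 2] [7, 13, 4, 12, 14, 11, 5, 10, 3, 9, 1, 2, 0, 8]))))))))))))))) (.cert 6 11 0x40a4405250250812a921ce54a912b3a93a9289414490a2)))) (.bit 9 7 (.drop (.bit 2 9 (.drop (.bit 1 6 (.drop (.tab 100 [.eseg 4 6] [4, 6, 7, 9, 3, 1, 5, 8, 2, 0])) (.name (.tab 100 [.flip, .eseg 4 6, .merge] [4, 10, 7, 9, 3, 1, 5, 8, 2, 0])))) (.name (.bit 10 9 (.drop (.bit 1 6 (.drop (.tab 101 [.eseg 4 6] [4, 6, 7, 10, 9, 3, 1, 5, 2, 8, 0])) (.name (.tab 101 [.flip, .eseg 4 6, .merge] [4, 11, 7, 10, 9, 3, 1, 5, 2, 8, 0])))) (.flip (.name (.bit 1 6 (.front 1 (.drop (.tab 102 [.eseg 4 6, .front 1, .flip, .front 1, .front 1, .flip] [11, 10, 4, 6, 7, 9, 3, 2, 1, 5, 8, 0]))) (.front 1 (.name (.tab 102 [.flip, .eseg 4 6, .merge, .front 1, .flip, .front 1, .front 1, .flip] [11, 10, 4, 12, 7, 9, 3, 2,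 1, 5, 8, 0])))))))))) (.name (.bit 2 9 (.front 1 (.drop (.bit 1 6 (.front 1 (.drop (.tab 105 [.eseg 4 6, .front 1, .flip, .front 1, .front 1, .flip] [10, 7, 4, 6, 9, 5, 3, 1, 8, 2, 0]))) (.front 1 (.name (.tab 105 [.flip, .eseg 4 6, .merge, .front 1, .flip, .front 1, .front 1, .flip] [10, 7, 4, 11, 9, 5, 3, 1, 8, 2, 0])))))) (.front 1 (.name (.bit 11 9 (.drop (.bit 1 6 (.front 1 (.drop (.tab 106 [.eseg 4 6, .front 1, .flip, .front 1, .front 1, .flip] [10, 7, 4, 6, 11, 9, 5, 3, 1, 2, 8, 0]))) (.front 1 (.name (.tab 106 [.flip, .eseg 4 6, .merge, .front 1, .flip, .front 1, .front 1, .flip] [10, 7, 4, 12, 11, 9, 5, 3, 1, 2, 8, 0]))))) (.flip (.name (.bit 1 6 (.front 2 (.drop (.tab 107 [.eseg 4 6, .front 2, .flip, .front 2, .flip, .front 2, .front 1, .flip, .front 2, .flip] [10, 12, 7, 11, 4, 6, 9, 5, 3, 2, 1, 8, 0]))) (.front 2 (.name (.tab 107 [.flip, .eseg 4 6, .merge, .front 2, .flip, .front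 2, .flip, .front 2, .front 1, .flip, .front 2, .flip] [10, 12, 7, 11, 4, 13, 9, 5, 3, 2, 1, 8, 0])))))))))))))) (.front 1 (.flip (.whl 0 3 4 [6, 1, 8, 2, 7, 5]))))))))))))))) (.bit 0 6 (.bit 6 8 (.cert 1 10 0x8312810d388da0c34c412729928cc98608c2043102) (.bit 5 8 (.cert 7 11 0x20465011a608f4086a0a64c412519920c498608c2043102) (.att 8 (.cert 1 11 0x204348312711b3104a5034e5325199324798608c2043102) (.bit 0 7 (.bit 7 8 (.cert 2 10 0xa30a609f40469ca14c43a838d20ce9c608e1043082) (.bit 4 8 (.cert 6 11 0x20275011a72854086a0874a30a710f20ce9c608e1043082) (.front 1 (.att 8 (.cert 2 11 0x20234a30a609f310ea5034e50a748f20ce9c608e1043082) (.bit 4 5 (.att 0 (.cert 3 11 0x1822d220e809d3a4398825023a520939449c408e1042082) (.front 1 (.att 0 (.cert 3 11 0x2422ce20e809939429922d02325205310298408c1042082) (.bit 1 6 (.drop (.bit 2 7 (.drop (.tab 81 [] [8, 1, 2, 4, 5, 6, 7, 3, 0])) (.cert 3 10 0xe20e809d304498825023a520939449c408e1042082)))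 (.cert 3 10 0xc1167107404c9ca1502325205310298408c1042082))))) (.front 1 (.flip (.whl 0 3 4 [6, 1, 8, 2, 7, 5])))))))) (.bit 4 5 (.bit 4 8 (.cert 6 18 0xa402521028c61c43d021a201120c608054833a711328d0a04550524721640c91c658a01c400e) (.bit 7 8 (.cert 3 33 0x729430458804501087107080014804c042839c300e98840e236101d080a94840c02a6000394098885012a7113310e9ca6507025221414f18a48e42c6102385108209000c401a) (.att 0 (.cert 3 11 0x2422ce20e809939429922d02325205310298408c1042082) (.front 1 (.att 8 (.cert 2 21 0x608f4046840448318520128c618054a4205199404890675281a94113a479d24cc524721638cb18648a01c400e) (.bit 1 6 (.front 1 (.drop (.att 0 (.front 1 (.att 0 (.cert 3 12 0x405498225220e81293104a921ca41272893a85a840941042082) (.bit 2 9 (.front 1 (.drop (.bit 9 7 (.drop (.tab 57 [] [7, 8, 5, 9, 2, 1, 4, 3, 6, 0])) (.name (.tab 58 [.flip] [7, 10, 8, 5, 9, 2, 1, 4, 3, 6, 0]))))) (.cert 3 11 0x18225220e80a5409298824a41272893a45a440921042082))))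 (.bit 2 7 (.drop (.tab 112 [] [7, 8, 2, 5, 1, 4, 3, 6, 0])) (.name (.tab 113 [.flip, .flip] [9, 7, 8, 2, 5, 1, 4, 3, 6, 0])))))) (.cert 3 10 0xe20e608b404c9ca1502325205310298408c1042082))))))) (.bit 4 8 (.bit 7 8 (.cert 6 12 0x410088054402281153889a0e05042a7291394094838a01c400e) (.att 0 (.cert 7 12 0x4092a423d011a648b4086a0894c41241a520c4a460922043102) (.front 1 (.att 8 (.cert 2 11 0x20234c11e6021181094664e532749b4a0ca0c4903246192) (.att 0 (.cert 6 12 0x4046a0294e90e8225408690694e50a910f28c2a460921043082) (.bit 2 7 (.drop (.bit 1 6 (.drop (.tab 114 [.eseg 5 7] [5, 7, 3, 2, 4, 8, 6, 1, 0])) (.name (.bit 9 6 (.drop (.tab 115 [.eseg 5 7] [5, 7, 9, 3, 2, 6, 1, 4, 8, 0])) (.flip (.name (.tab 116 [.eseg 5 7, .front 1, .flip, .flip, .front 1] [5, 7, 10, 9, 3, 2, 6, 1, 4, 8, 0]))))))) (.name (.bit 1 6 (.front 1 (.drop (.tab 114 [.flip, .eseg 5 7, .merge] [5, 9, 3, 2, 4, 8, 6, 1, 0]))) (.front 1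 (.name (.bit 10 6 (.drop (.tab 115 [.flip, .eseg 5 7, .merge] [5, 9, 10, 3, 2, 6, 1, 4, 8, 0])) (.flip (.name (.tab 116 [.front 1, .flip, .eseg 5 7, .merge, .front 1, .flip, .flip, .front 1] [5, 9, 11, 10, 3, 2, 6, 1, 4, 8, 0])))))))))))))) (.bit 7 8 (.att 0 (.cert 2 11 0x2423c830a809931029923d0732729928cc98608c1043082) (.front 1 (.att 0 (.cert 9 12 0x40469823d023262094086a0e64e532418928cc98608c2043102) (.att 8 (.cert 9 12 0x40469823d023262094086a0e64e532418928cc98608c2043102) (.bit 1 6 (.front 1 (.drop (.bit 2 7 (.drop (.tab 112 [] [5, 4, 3, 7, 6, 8, 2, 1, 0])) (.name (.cert 9 12 0x404698235023262094086a0e64e532418928cc98608c2043102))))) (.cert 2 10 0xc11e4185404ca0e64c40a729928cc98608c1043082)))))) (.att 0 (.front 2 (.att 8 (.cert 2 12 0x484790615013262053247a9064ea36729928cc98608c1043082) (.front 1 (.flip (.front 2 (.flip (.whl 0 3 4 [6, 9, 1, 8, 2, 7, 5]))))))) (.front 1 (.att 0 (.bit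 8 9 (.cert 2 11 0x20234a30a60a731129ca15281a748720d2a460921043082) (.att 8 (.cert 2 12 0x3053a0234a30a72853112a90352a1e748720d2a460921043082) (.front 1 (.att 8 (.cert 9 13 0x808d3047a0464c412a41940869d46c8312729928cc98608c2043102) (.front 1 (.front 2 (.flip (.whl 0 3 4 [6, 1, 8, 2, 9, 7, 5])))))))) (.att 8 (.front 1 (.att 8 (.cert 9 13 0x608f408ca0234c412a419408690624ea36729928cc98608c2043102) (.bit 1 6 (.front 2 (.drop (.bit 9 7 (.drop (.bit 2 9 (.drop (.tab 113 [.eseg 5 7] [5, 7, 4, 3, 9, 6, 8, 2, 1, 0])) (.name (.cert 10 13 0x808d3046a0464c41294194086906252732729928cc98608c2043102)))) (.name (.bit 2 9 (.front 1 (.drop (.tab 113 [.flip, .eseg 5 7, .merge] [5, 10, 4, 3, 9, 6, 8, 2, 1, 0]))) (.front 1 (.name (.cert 11 14 0x1011a608d408c988252832810d524c90624ea36729928cc98608c2043102)))))))) (.cert 2 11 0x1823c830a80993102a5064e936729928cc98608c1043082)))) (.front 1 (.flip (.whl 0 3 4 [6,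 1, 8, 2, 7, 5])))))))))))))) (.bit 0 7 (.bit 7 8 (.cert 2 10 0xa30a609f40469ca15071a621d20ce9c608e1043082) (.bit 4 8 (.cert 6 11 0x20275011a72854086a0874a30a710f20ce9c608e1043082) (.front 1 (.att 8 (.cert 2 11 0x20234a30a609f310e9ca15281a419d3a479c608e1043082) (.bit 4 5 (.bit 5 8 (.cert 7 18 0xa402521028c61823d011a101120c6040548342519940489825cc524821640cb18648a01c400e) (.bit 6 8 (.cert 3 33 0x729430458800020227107408418804a402831838109884040327019380014840202a7011304f9825d01228301395098874e5325221314920868e42c61223841082090014501e) (.att 0 (.cert 3 11 0x1822d220e809d3a4398825023a520939449c408e1042082) (.front 1 (.att 8 (.cert 1 21 0x20153887a043483185201380894630a420419d4a06a0454a332941532479925cc524721638cb18648a01c400e) (.bit 2 7 (.front 1 (.drop (.att 0 (.front 1 (.att 0 (.cert 3 12 0x4054a422ce20a81293942a922ca40a62053283a840941042082) (.bit 1 9 (.front 1 (.drop (.bit 9 6 (.drop (.tab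 57 [] [6, 8, 4, 9, 1, 2, 5, 3, 7, 0])) (.name (.tab 58 [.flip] [6, 10, 8, 4, 9, 1, 2, 5, 3, 7, 0]))))) (.cert 3 11 0x2422ce20a80a540929ca14a40a62053243a440921042082)))) (.bit 1 6 (.drop (.tab 112 [] [6, 8, 1, 4, 2, 5, 3, 7, 0])) (.name (.tab 113 [.flip, .flip] [9, 6, 8, 1, 4, 2, 5, 3, 7, 0])))))) (.cert 3 10 0xe20e809d304598825023a520939449c408e1042082))))))) (.bit 5 8 (.bit 6 8 (.cert 7 12 0x310084054202260974048a0c04c42a8291414094838a01c400e) (.att 0 (.cert 6 12 0x4052a0235054a748740869ca15221e51a528c2a460921043082) (.front 1 (.att 8 (.cert 1 11 0x1c43d021a7021181090674c43a649f4a0ea0e59032c7196) (.att 0 (.cert 7 12 0x4847a0235024a82a540869922cc41251a520c4a460922043102) (.bit 1 6 (.drop (.bit 2 7 (.drop (.tab 114 [.eseg 4 6] [4, 6, 3, 1, 5, 8, 7, 2, 0])) (.name (.bit 9 7 (.drop (.tab 115 [.eseg 4 6] [4, 6, 9, 3, 1, 7, 2, 5, 8, 0])) (.flip (.name (.tab 116 [.eseg 4 6, .front 1, .flip, .flip,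 .front 1] [4, 6, 10, 9, 3, 1, 7, 2, 5, 8, 0]))))))) (.name (.bit 2 7 (.front 1 (.drop (.tab 114 [.flip, .eseg 4 6, .merge] [4, 9, 3, 1, 5, 8, 7, 2, 0]))) (.front 1 (.name (.bit 10 7 (.drop (.tab 115 [.flip, .eseg 4 6, .merge] [4, 9, 10, 3, 1, 7, 2, 5, 8, 0])) (.flip (.name (.tab 116 [.front 1, .flip, .eseg 4 6, .merge, .front 1, .flip, .flip, .front 1] [4, 9, 11, 10, 3, 1, 7, 2, 5, 8, 0])))))))))))))) (.bit 6 8 (.att 0 (.cert 1 11 0x2443d023a518939449d23d063a621d20ce9c608e2043102) (.front 1 (.att 0 (.cert 9 12 0x4046a0275063a810d394298874a30a710f20ce9c608e1043082) (.att 8 (.cert 9 12 0x4046a0275063a810d394298874a30a710f20ce9c608e1043082) (.bit 2 7 (.front 1 (.drop (.bit 1 6 (.drop (.tab 112 [] [4, 5, 3, 6, 7, 8, 1, 2, 0])) (.name (.cert 9 12 0x4046a0275063a810d394298874a30a710d20ce9c608e1043082))))) (.cert 1 10 0xe21e811d28c4a0c74e512621d20ce9c608e2043102)))))) (.att 0 (.front 2 (.att 8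 (.cert 1 12 0x28c4a443d023a7289520e9d23cca3e621d20ce9c608e2043102) (.front 2 (.front 2 (.front 2 (.flip (.whl 0 3 4 [6, 1, 8, 2, 9, 7, 5]))))))) (.front 1 (.att 0 (.bit 8 9 (.cert 1 11 0x2043483127127395298825281a648b28d2a460922043102) (.att 8 (.cert 1 12 0x408690624e24e620952069ca94c916950f28d2a460922043102) (.front 1 (.att 8 (.cert 9 13 0x808d404ea9074e50a810d28c29947ce21e621d20ce9c608e1043082) (.front 2 (.front 2 (.flip (.front 2 (.flip (.whl 0 3 4 [6, 9, 1, 8, 2, 7, 5])))))))))) (.att 8 (.front 1 (.att 8 (.cert 9 13 0x809d40469ca15021aa41d28c29c43cca3e621d20ce9c608e1043082) (.bit 2 7 (.front 2 (.drop (.bit 9 6 (.drop (.bit 1 9 (.drop (.tab 113 [.eseg 4 6] [4, 6, 5, 3, 9, 7, 8, 1, 2, 0])) (.name (.cert 10 13 0x809d40469ca15283a810d3886a4c74a30a621d20ce9c608e1043082)))) (.name (.bit 1 9 (.front 1 (.drop (.tab 113 [.flip, .eseg 4 6, .merge] [4, 10, 5, 3, 9, 7, 8, 1, 2, 0]))) (.front 1 (.name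 (.cert 11 14 0x1011a809d40869ca15283a51853886a9274ca3e621d20ce9c608e1043082)))))))) (.cert 1 11 0x1c43ca312811d4a0e9ca24c93e621d20ce9c608e2043102)))) (.front 1 (.front 1 (.flip (.whl 0 3 4 [6, 1, 8, 2, 7, 5]))))))))))))))) (.bit 4 5 (.bit 4 8 (.cert 3 10 0xe20e608b080888044e50a6209290290488814420a2) (.bit 5 8 (.cert 7 18 0xa402521028c61823d011a101120c6040548342519940489825cc524821640cb18648a01c400e) (.bit 6 8 (.cert 1 20 0x20c61c43ca4022011408688054a318521028cca0455061a711320cea0c54c524721638cb18648a01c400e) (.bit 7 8 (.cert 2 20 0x20c604044c11e5201404684054a318521028cc9825d071a809120cea0e44c524721638cb18648a01c400e) (.att 8 (.cert 1 22 0xa318418c1008a0434e21e5201100a94841022a419d4a0694664e226648f4a0a9925cc524721638cb18648a01c400e) (.front 1 (.att 8 (.cert 2 22 0x202a518c2900906302022608f404694840c12e419d404894665281a748f4a089d24cc524721638cb18648a01c400e) (.att 0 (.front 1 (.att 0 (.cert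 3 12 0x40549822d220e8129524398824a41272893a85a840941042082) (.bit 2 9 (.front 1 (.drop (.front 1 (.att 0 (.front 1 (.att 0 (.cert 3 13 0xa08b4882a02b5025a74875a859ca14a40a620532c3ac40961042082) (.bit 1 10 (.front 1 (.drop (.bit 10 6 (.drop (.bit 9 7 (.drop (.tab 59 [] [6, 7, 8, 4, 5, 10, 9, 1, 2, 3, 0])) (.name (.tab 60 [.flip] [7, 11, 6, 8, 5, 4, 9, 10, 2, 1, 3, 0])))) (.name (.bit 9 7 (.front 1 (.drop (.tab 60 [.flip] [6, 11, 7, 8, 4, 5, 10, 9, 1, 2, 3, 0]))) (.front 1 (.name (.tab 61 [.front 1, .flip, .front 1, .flip, .front 1] [6, 7, 11, 12, 8, 4, 5, 10, 9, 1, 2, 3, 0])))))))) (.cert 3 12 0x5045a02a5220a748740949ca14a40a62053283a840941042082)))) (.bit 1 6 (.drop (.bit 9 7 (.drop (.tab 70 [] [6, 8, 7, 1, 4, 5, 2, 9, 3, 0])) (.name (.tab 74 [.flip] [7, 10, 6, 8, 1, 5, 4, 9, 2, 3, 0])))) (.name (.bit 9 7 (.front 1 (.drop (.tab 71 [.flip, .flip] [10, 6, 8, 7, 1, 4, 5, 2, 9, 3, 0]))) (.front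 1 (.name (.tab 75 [.front 1, .flip, .front 1, .flip, .front 1, .flip] [10, 6, 7, 11, 8, 1, 4, 5, 9, 2, 3, 0])))))))))) (.cert 3 11 0x1822d220e80a5409298824a41272893a45a440921042082)))) (.front 1 (.att 0 (.front 1 (.att 0 (.cert 3 12 0x4054a422ce20e72854094a922ca40a62053283a840941042082) (.bit 1 9 (.front 1 (.drop (.bit 9 6 (.drop (.bit 2 7 (.drop (.tab 70 [] [7, 8, 6, 2, 5, 4, 1, 9, 3, 0])) (.name (.tab 71 [.flip, .flip] [10, 7, 8, 6, 2, 5, 4, 1, 9, 3, 0])))) (.name (.bit 2 7 (.front 1 (.drop (.tab 74 [.flip] [6, 10, 7, 8, 2, 4, 5, 9, 1, 3, 0]))) (.front 1 (.name (.tab 75 [.front 1, .flip, .front 1, .flip, .front 1, .front 1, .flip] [11, 7, 6, 10, 8, 2, 5, 4, 9, 1, 3, 0])))))))) (.cert 3 11 0x2422ce20e80a540929ca14a40a62053243a440921042082)))) (.bit 1 6 (.drop (.bit 2 7 (.drop (.tab 117 [] [8, 6, 7, 1, 2, 4, 5, 0, 3])) (.name (.tab 118 [.flip, .flip] [9, 7, 8, 6, 2, 1, 5, 4, 0, 3])))) (.name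 (.bit 2 7 (.front 1 (.drop (.tab 118 [.flip, .flip] [9, 6, 8, 7, 1, 2, 4, 5, 0, 3]))) (.front 1 (.name (.tab 119 [.front 1, .flip, .front 1, .flip, .flip, .front 1, .flip] [9, 10, 6, 7, 8, 1, 2, 4, 5, 0, 3])))))))))))))))) (.bit 4 8 (.bit 7 8 (.cert 6 12 0x100884044203a301d39429c44c833a518520c29c888e14440a2) (.bit 5 8 (.bit 6 8 (.cert 7 12 0x100a840544032301931049825ca332418928c498a88c2445122) (.att 0 (.cert 1 11 0x80450402901541409925ce2266215394894838a01c400e) (.att 8 (.cert 7 11 0xc094404a10111008906952126648b3104a488922444122) (.front 1 (.att 0 (.cert 2 11 0x20804202a901141409825ce9266215394894838a01c400e) (.att 8 (.cert 6 11 0xc094204a1015100a94695222e74873942a4a89214450a2) (.bit 2 7 (.drop (.bit 1 6 (.drop (.tab 120 [] [6, 7, 1, 4, 2, 5, 0, 3, 8])) (.name (.tab 115 [.flip] [6, 9, 7, 4, 1, 5, 2, 3, 0, 8])))) (.name (.bit 1 6 (.front 1 (.drop (.tab 115 [.flip] [7, 9, 6, 5, 2, 4, 1, 3,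 0, 8]))) (.front 1 (.name (.tab 116 [.flip, .front 1, .flip, .front 1] [6, 10, 7, 9, 4, 1, 5, 2, 3, 0, 8])))))))))))) (.bit 6 8 (.att 0 (.cert 1 12 0x408690624e24e72a53104a0c34a34a648b3247a460922043102) (.att 8 (.cert 7 11 0xc094404a10111008906952126648b3104a488922444122) (.bit 1 6 (.drop (.dia 6 8 1 4)) (.front 1 (.att 8 (.cert 2 14 0xa30a418530538c0642032728528cc98814e90e72993a4da4c89214460a2) (.att 0 (.cert 6 12 0x4046a0294e90e8225408690694e50a910f28c2a460921043082) (.front 1 (.name (.bit 9 6 (.drop (.bit 2 7 (.drop (.tab 91 [.eseg 5 7] [5, 7, 9, 3, 2, 1, 6, 0, 4, 8])) (.name (.tab 91 [.flip, .eseg 5 7, .merge] [5, 10, 9, 3, 2, 1, 6, 0, 4, 8])))) (.flip (.name (.bit 2 7 (.front 1 (.drop (.tab 92 [.eseg 5 7, .front 1, .flip, .front 1] [5, 7, 9, 10, 3, 2, 1, 6, 0, 4, 8]))) (.front 1 (.name (.tab 92 [.flip, .eseg 5 7, .merge, .front 1, .flip, .front 1] [5, 11, 9, 10, 3, 2, 1, 6, 0, 4, 8])))))))))))))))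 (.att 0 (.bit 8 9 (.cert 1 11 0x2043483127127395298825281a648b28d2a460922043102) (.cert 7 12 0x4092a0235211e82253245a0434834a620920c4a460922043102)) (.att 8 (.cert 7 11 0xc094404a10111008906952126648b3104a488922444122) (.front 1 (.att 0 (.bit 8 9 (.cert 2 11 0x20234a30a60a731129ca15281a748720d2a460921043082) (.cert 6 12 0x4046a0294e90e8225408690694e50a910f28c2a460921043082)) (.att 8 (.cert 6 14 0x104022011100aa5005022a9113410a9d20ce9267281394894838a01c400e) (.bit 2 7 (.drop (.bit 1 6 (.drop (.tab 121 [.eseg 5 7] [5, 7, 6, 3, 2, 4, 1, 0, 8])) (.name (.tab 122 [.eseg 5 7, .front 1, .flip, .front 1] [5, 6, 7, 9, 3, 4, 2, 1, 0, 8])))) (.name (.bit 1 6 (.front 1 (.drop (.tab 121 [.flip, .eseg 5 7, .merge] [5, 9, 6, 3, 2, 4, 1, 0, 8]))) (.front 1 (.name (.tab 122 [.front 1, .flip, .eseg 5 7, .merge, .front 1, .flip, .front 1] [5, 6, 9, 10, 3, 4, 2, 1, 0, 8])))))))))))))) (.bit 5 8 (.bit 6 8 (.cert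 7 12 0x310084054202260974048a0c04c42a8291414094838a01c400e) (.bit 7 8 (.front 1 (.att 0 (.cert 2 12 0x404694614c14e62253942a0e34834a748f3a43a460921043082) (.att 8 (.cert 6 11 0x4094604a1015100a94695222e74873942a4a89214450a2) (.bit 2 7 (.drop (.dia 7 8 2 5)) (.front 1 (.att 8 (.cert 1 14 0x8312518938938c074403a728920ce98824c916621d324fa4e8922447122) (.att 0 (.cert 7 12 0x4847a0235024a82a540869922cc41251a520c4a460922043102) (.front 1 (.name (.bit 9 7 (.drop (.bit 1 6 (.drop (.tab 91 [.eseg 4 6] [4, 6, 9, 3, 1, 2, 7, 0, 5, 8])) (.name (.tab 91 [.flip, .eseg 4 6, .merge] [4, 10, 9, 3, 1, 2, 7, 0, 5, 8])))) (.flip (.name (.bit 1 6 (.front 1 (.drop (.tab 92 [.eseg 4 6, .front 1, .flip, .front 1] [4, 6, 9, 10, 3, 1, 2, 7, 0, 5, 8]))) (.front 1 (.name (.tab 92 [.flip, .eseg 4 6, .merge, .front 1, .flip, .front 1] [4, 11, 9, 10, 3, 1, 2, 7, 0, 5, 8])))))))))))))))) (.att 0 (.bit 8 9 (.cert 1 11 0x2043483127127395298825281a648b28d2a460922043102)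 (.cert 7 12 0x4847a0235024a82a540869922cc41251a520c4a460922043102)) (.att 8 (.cert 7 14 0x20226201080a9920d212e8091324ba500505226215414094838a01c400e) (.front 1 (.att 0 (.bit 8 9 (.cert 2 11 0x20234a30a60a731129ca15281a748720d2a460921043082) (.cert 6 12 0x4052a0235054a810d3a4394694e50a910f28c2a460921043082)) (.att 8 (.cert 6 11 0xc094204a1015100a94695222e74873942a4a89214450a2) (.bit 2 7 (.drop (.bit 1 6 (.drop (.tab 121 [.eseg 4 6] [4, 6, 7, 3, 1, 5, 2, 0, 8])) (.name (.tab 121 [.flip, .eseg 4 6, .merge] [4, 9, 7, 3, 1, 5, 2, 0, 8])))) (.name (.bit 1 6 (.front 1 (.drop (.tab 122 [.eseg 4 6, .front 1, .flip, .front 1] [4, 7, 6, 9, 3, 5, 1, 2, 0, 8]))) (.front 1 (.name (.tab 122 [.flip, .eseg 4 6, .merge, .front 1, .flip, .front 1] [4, 7, 10, 9, 3, 5, 1, 2, 0, 8]))))))))))))) (.bit 6 8 (.bit 7 8 (.cert 2 14 0xc4021011080aa0244c12e830141c09885507227281394894838a01c400e) (.att 0 (.cert 1 12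 0x20c49c49d021a72a5418698824a34a648b3247a460922043102) (.front 1 (.att 8 (.cert 2 27 0x106302022620130478c0002000518531082021060428318305390684e50a830128cca0244e90e72993a4da4c890434619248510c209000c400e) (.att 0 (.front 1 (.att 0 (.cert 1 12 0x4094a443ca31272894194a923cea16622920d4a860942043102) (.front 2 (.att 8 (.cert 10 13 0x80a54046a0c94e90e810d394298895221e41a528c2a460921043082) (.bit 2 9 (.front 2 (.drop (.bit 1 6 (.drop (.bit 9 7 (.drop (.tab 68 [.eseg 5 7] [5, 7, 4, 3, 6, 9, 8, 1, 2, 0])) (.name (.tab 68 [.flip, .eseg 5 7, .merge] [5, 10, 4, 3, 6, 9, 8, 1, 2, 0])))) (.name (.cert 10 13 0x80a54046a0c94e90e810d394298895221a41a528c2a460921043082))))) (.cert 1 11 0x2443ca31281253944a0c94e916622520d2a460922043102)))))) (.front 1 (.att 8 (.front 1 (.att 8 (.cert 7 12 0x10128806420323025484da922c834a650b3112a4c8922446122) (.bit 6 9 (.drop (.bit 1 9 (.drop (.dia 8 9 1 6)) (.name (.bit 10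 9 (.drop (.bit 2 7 (.drop (.tab 99 [.eseg 5 7] [5, 7, 4, 10, 3, 2, 6, 9, 1, 0, 8])) (.name (.tab 99 [.flip, .eseg 5 7, .merge] [5, 11, 4, 10, 3, 2, 6, 9, 1, 0, 8])))) (.flip (.name (.bit 2 7 (.front 1 (.drop (.tab 102 [.eseg 5 7, .front 1, .flip, .flip, .front 1] [5, 7, 11, 10, 4, 3, 9, 2, 1, 6, 0, 8]))) (.front 1 (.name (.tab 102 [.flip, .eseg 5 7, .merge, .front 1, .flip, .flip, .front 1] [5, 12, 11, 10, 4, 3, 9, 2, 1, 6, 0, 8])))))))))) (.cert 7 11 0xc094404a2019080c90694c916909b3112a4c8922446122)))) (.bit 1 6 (.drop (.bit 2 7 (.drop (.tab 123 [.eseg 5 7] [5, 7, 4, 3, 2, 6, 0, 8, 1])) (.name (.tab 123 [.flip, .eseg 5 7, .merge] [5, 9, 4, 3, 2, 6, 0, 8, 1])))) (.name (.bit 9 6 (.drop (.bit 2 7 (.drop (.tab 124 [.eseg 5 7] [5, 7, 4, 9, 3, 6, 2, 1, 0, 8])) (.name (.tab 124 [.flip, .eseg 5 7, .merge] [5, 10, 4, 9, 3, 6, 2, 1, 0, 8])))) (.flip (.name (.bit 2 7 (.front 1 (.drop (.tab 125 [.eseg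 5 7, .front 1, .flip, .flip, .front 1] [5, 10, 7, 9, 4, 3, 6, 2, 1, 0, 8]))) (.front 1 (.name (.tab 125 [.flip, .eseg 5 7, .merge, .front 1, .flip, .flip, .front 1] [5, 10, 11, 9, 4, 3, 6, 2, 1, 0, 8])))))))))))))))) (.bit 7 8 (.att 8 (.cert 1 27 0x8054a318710f39408c000400041893893a0e7060428108394a20e04a342620920cea0454c43a648b324fa4e89053c719648910c4090014500e) (.front 1 (.att 0 (.cert 2 12 0x28c2a0234c14e62253942a0e34834a74873a47a460921043082) (.att 8 (.front 1 (.att 8 (.cert 6 12 0x100e84074204a3025488fa921ca34a75073952a4e89214470a2) (.front 2 (.att 0 (.cert 9 13 0xa08f4094a02350752650b408698824e552418928d4a860942043102) (.bit 7 9 (.front 1 (.drop (.bit 2 9 (.front 1 (.drop (.dia 8 9 2 7))) (.front 1 (.name (.bit 10 9 (.drop (.bit 1 6 (.drop (.tab 99 [.eseg 4 6] [4, 6, 5, 10, 3, 1, 7, 9, 2, 0, 8])) (.name (.tab 99 [.flip, .eseg 4 6, .merge] [4, 11, 5, 10, 3, 1, 7, 9, 2, 0, 8])))) (.flip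 (.name (.bit 1 6 (.front 1 (.drop (.tab 102 [.eseg 4 6, .front 1, .flip, .flip, .front 1] [4, 6, 11, 10, 5, 3, 9, 1, 2, 7, 0, 8]))) (.front 1 (.name (.tab 102 [.flip, .eseg 4 6, .merge, .front 1, .flip, .flip, .front 1] [4, 12, 11, 10, 5, 3, 9, 1, 2, 7, 0, 8])))))))))))) (.cert 6 11 0xc094204a101d100ea447ca34a74873952a4e89214470a2)))))) (.front 1 (.att 0 (.front 1 (.att 0 (.cert 2 12 0x4054a423c830a83a93102a923ce552650728d4a860941043082) (.bit 1 9 (.front 1 (.drop (.bit 9 6 (.drop (.bit 2 7 (.drop (.tab 68 [.eseg 4 6] [4, 6, 5, 3, 7, 9, 8, 2, 1, 0])) (.name (.cert 10 13 0x908d4092a0235074a9309408698824e54a418928d2a460922043102)))) (.name (.bit 2 7 (.front 1 (.drop (.tab 68 [.flip, .eseg 4 6, .merge] [4, 10, 5, 3, 7, 9, 8, 2, 1, 0]))) (.front 1 (.name (.cert 11 14 0x1211a808d4092a0e954912810d39529942ca34a620920c4a460922043102)))))))) (.cert 2 11 0x2423c830a80a53102a0e94c90e72a528d2a460921043082))))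 (.bit 1 6 (.drop (.bit 2 7 (.drop (.tab 123 [.eseg 4 6] [4, 6, 5, 3, 1, 7, 0, 8, 2])) (.name (.bit 9 7 (.drop (.tab 124 [.eseg 4 6] [4, 6, 5, 9, 3, 7, 1, 2, 0, 8])) (.flip (.name (.tab 125 [.eseg 4 6, .front 1, .flip, .flip, .front 1] [4, 10, 6, 9, 5, 3, 7, 1, 2, 0, 8]))))))) (.name (.bit 2 7 (.front 1 (.drop (.tab 123 [.flip, .eseg 4 6, .merge] [4, 9, 5, 3, 1, 7, 0, 8, 2]))) (.front 1 (.name (.bit 10 7 (.drop (.tab 124 [.flip, .eseg 4 6, .merge] [4, 9, 5, 10, 3, 7, 1, 2, 0, 8])) (.flip (.name (.tab 125 [.front 1, .flip, .eseg 4 6, .merge, .front 1, .flip, .flip, .front 1] [4, 11, 9, 10, 5, 3, 7, 1, 2, 0, 8]))))))))))))))) (.att 0 (.bit 8 9 (.cert 1 11 0x204348312712731049ca95281a51a53245a460922043102) (.att 8 (.cert 1 12 0x40869c49c8312a40d31049ca94c916950f28d2a460922043102) (.front 1 (.att 8 (.cert 1 13 0x810d20c49c49d481a72a531049942d491e51a55245a460922043102) (.att 0 (.front 3 (.att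 8 (.cert 2 13 0x908f20c2a02a4c40aa48f5a149d6acca0e72a928d4a860941043082) (.front 3 (.flip (.front 2 (.flip (.front 3 (.flip (.whl 0 3 4 [6, 10, 9, 1, 8, 2, 7, 5]))))))))) (.front 2 (.att 0 (.bit 8 10 (.cert 2 12 0x404694615215664ab3942a9034c452750720d4a860941043082) (.att 8 (.cert 2 13 0x808d485594614e50a64ab5a06988a4ea0ea58f20d4a860941043082) (.front 1 (.att 8 (.cert 10 14 0x1211e808d40929922d684a810d3ad398824e54a418928d2a460922043102) (.front 1 (.front 3 (.flip (.front 3 (.flip (.whl 0 3 4 [6, 9, 1, 8, 2, 10, 7, 5])))))))))) (.att 8 (.front 1 (.att 8 (.cert 10 14 0x1211e808d4092ad094c916810d3ad398824e54a418928d2a460922043102) (.bit 1 9 (.front 3 (.drop (.bit 10 7 (.drop (.bit 2 10 (.drop (.bit 9 6 (.drop (.tab 69 [.eseg 4 6, .eseg 5 7, .front 1, .front 1] [5, 4, 7, 6, 3, 10, 9, 8, 2, 1, 0])) (.name (.tab 69 [.flip, .eseg 4 6, .merge, .eseg 5 7, .front 1, .front 1] [5, 4, 7, 11, 3, 10,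 9, 8, 2, 1, 0])))) (.name (.cert 11 14 0x1211a808d4092a9094c916810d51d298824e54a418928d2a460922043102)))) (.name (.bit 2 10 (.front 1 (.drop (.bit 9 6 (.front 1 (.drop (.tab 69 [.eseg 4 6, .front 1, .flip, .eseg 5 7, .merge, .front 1, .front 1] [5, 4, 11, 6, 3, 10, 9, 8, 2, 1, 0]))) (.front 1 (.name (.tab 69 [.flip, .eseg 4 6, .merge, .front 1, .flip, .eseg 5 7, .merge, .front 1, .front 1] [5, 4, 11, 12, 3, 10, 9, 8, 2, 1, 0])))))) (.front 1 (.name (.cert 12 15 0x24235011a81255212a0434c91662095a9290624eb4e72a528d2a460922043102)))))))) (.cert 2 12 0x4052a423c830aa42531029921cea4e72a528d2a460921043082)))) (.front 2 (.flip (.front 2 (.flip (.whl 0 3 4 [6, 9, 1, 8, 2, 7, 5]))))))))))))) (.att 8 (.front 1 (.att 8 (.front 1 (.att 8 (.cert 7 13 0x202d081688094604a90af524590694c44ab50b32d3ad28962449122) (.front 3 (.att 8 (.cert 2 16 0x4857840a4830a518518149ca14c40aa4af28d49d61ce55265073ad5ad4896144a0a2)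 (.att 0 (.cert 9 14 0x1015a808d40869d61d485a652f58879ca14a30a622d20d6ac60961043082) (.bit 9 10 (.front 2 (.drop (.bit 1 9 (.front 2 (.drop (.dia 8 9 1 10))) (.front 2 (.name (.bit 11 9 (.drop (.bit 2 7 (.drop (.bit 10 6 (.drop (.tab 111 [.eseg 4 6, .eseg 5 7, .front 1] [4, 5, 6, 7, 11, 3, 10, 2, 9, 1, 0, 8])) (.name (.tab 111 [.flip, .eseg 4 6, .merge, .eseg 5 7, .front 1] [4, 5, 12, 7, 11, 3, 10, 2, 9, 1, 0, 8])))) (.name (.bit 10 6 (.front 1 (.drop (.tab 111 [.eseg 4 6, .front 1, .flip, .eseg 5 7, .merge, .front 1] [4, 5, 6, 12, 11, 3, 10, 2, 9, 1, 0, 8]))) (.front 1 (.name (.tab 111 [.flip, .eseg 4 6, .merge, .front 1, .flip, .eseg 5 7, .merge, .front 1] [4, 5, 13, 12, 11, 3, 10, 2, 9, 1, 0, 8]))))))) (.flip (.name (.bit 2 7 (.front 1 (.drop (.bit 10 6 (.front 1 (.drop (.tab 107 [.eseg 4 6, .eseg 5 7, .front 2, .flip, .flip, .front 1, .front 2] [4, 5, 6, 7, 12, 11, 3, 10, 9, 2, 1, 0,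 8]))) (.front 1 (.name (.tab 107 [.flip, .eseg 4 6, .merge, .eseg 5 7, .front 2, .flip, .flip, .front 1, .front 2] [4, 5, 13, 7, 12, 11, 3, 10, 9, 2, 1, 0, 8])))))) (.front 1 (.name (.bit 10 6 (.front 2 (.drop (.tab 107 [.eseg 4 6, .front 1, .flip, .eseg 5 7, .merge, .front 2, .flip, .flip, .front 1, .front 2] [4, 5, 6, 13, 12, 11, 3, 10, 9, 2, 1, 0, 8]))) (.front 2 (.name (.tab 107 [.flip, .eseg 4 6, .merge, .front 1, .flip, .eseg 5 7, .merge, .front 2, .flip, .flip, .front 1, .front 2] [4, 5, 14, 13, 12, 11, 3, 10, 9, 2, 1, 0, 8]))))))))))))))) (.cert 7 12 0x1812880a4205220254855a922c834a62253293a928942449122))))))) (.front 2 (.att 0 (.bit 8 10 (.cert 2 12 0x404694615215664ab3942a9034c452750720d4a860941043082) (.att 8 (.cert 2 13 0x808d485594614e50ab40d32559d41cc452a58f20d4a860941043082) (.front 1 (.att 8 (.cert 10 21 0x808d28c28c094404a90af40869ca14a34a648b39529d61cc41241893ad3ad2892244310258510c20841442082)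 (.att 0 (.cert 1 13 0xa10f409694624e512942d5a87992bceb16622d20d6ac60962043102) (.bit 2 10 (.front 1 (.drop (.bit 10 7 (.drop (.bit 9 6 (.drop (.bit 1 9 (.drop (.tab 69 [.eseg 4 6, .eseg 5 7, .front 1] [4, 5, 6, 7, 3, 9, 10, 8, 1, 2, 0])) (.name (.cert 11 14 0x10152808d4086a8e152852932950869ca14a30a622920d4a860941043082)))) (.name (.bit 1 9 (.front 1 (.drop (.tab 69 [.flip, .eseg 4 6, .merge, .eseg 5 7, .front 1] [4, 5, 11, 7, 3, 9, 10, 8, 1, 2, 0]))) (.front 1 (.name (.cert 12 15 0x20235015294294086a8e14e50ab4a9508694614cb56622920d4a860941043082))))))) (.name (.bit 9 6 (.front 1 (.drop (.bit 1 9 (.front 1 (.drop (.tab 69 [.eseg 4 6, .front 1, .flip, .eseg 5 7, .merge, .front 1] [4, 5, 6, 11, 3, 9, 10, 8, 1, 2, 0]))) (.front 1 (.name (.cert 12 15 0x20235015294294086ad414eb0e932950869ca14c452518520d4a860941043082)))))) (.front 1 (.name (.bit 1 9 (.front 2 (.drop (.tab 69 [.flip, .eseg 4 6,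 .merge, .front 1, .flip, .eseg 5 7, .merge, .front 1] [4, 5, 12, 11, 3, 9, 10, 8, 1, 2, 0]))) (.front 2 (.name (.cert 13 16 0x4046a02a56a0a810d4a14b12a5421a75873942998acc452518520d4a860941043082))))))))))) (.cert 1 12 0x508794625025272894a14992acea16622920d4a860942043102))))))) (.att 8 (.cert 2 18 0x202a10113100a0244c90690974a009925d4822a401310a9d44cea067291394094838a01c400e) (.bit 2 7 (.drop (.bit 9 6 (.drop (.bit 1 9 (.drop (.tab 126 [.eseg 4 6, .eseg 5 7, .front 1, .front 1] [5, 4, 7, 6, 3, 2, 9, 0, 8, 1])) (.name (.bit 10 9 (.drop (.tab 127 [.eseg 4 6, .eseg 5 7, .front 1] [4, 6, 5, 7, 10, 3, 9, 2, 1, 0, 8])) (.flip (.name (.tab 128 [.eseg 4 6, .eseg 5 7, .front 2, .flip, .flip, .front 1, .front 2] [4, 6, 5, 11, 7, 10, 3, 9, 2, 1, 0, 8]))))))) (.name (.bit 1 9 (.front 1 (.drop (.tab 126 [.flip, .eseg 4 6, .merge, .eseg 5 7, .front 1, .front 1] [5, 4, 7, 10, 3, 2, 9, 0, 8, 1]))) (.front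 1 (.name (.bit 11 9 (.drop (.tab 127 [.flip, .eseg 4 6, .merge, .eseg 5 7, .front 1] [4, 10, 5, 7, 11, 3, 9, 2, 1, 0, 8])) (.flip (.name (.tab 128 [.front 1, .flip, .eseg 4 6, .merge, .eseg 5 7, .front 2, .flip, .flip, .front 1, .front 2] [4, 10, 5, 12, 7, 11, 3, 9, 2, 1, 0, 8])))))))))) (.name (.bit 9 6 (.front 1 (.drop (.bit 1 9 (.front 1 (.drop (.tab 126 [.eseg 4 6, .front 1, .flip, .eseg 5 7, .merge, .front 1, .front 1] [5, 4, 10, 6, 3, 2, 9, 0, 8, 1]))) (.front 1 (.name (.bit 11 9 (.drop (.tab 127 [.eseg 4 6, .front 1, .flip, .eseg 5 7, .merge, .front 1] [4, 6, 5, 10, 11, 3, 9, 2, 1, 0, 8])) (.flip (.name (.tab 128 [.eseg 4 6, .front 2, .flip, .eseg 5 7, .merge, .front 2, .flip, .flip, .front 1, .front 2] [4, 6, 5, 12, 10, 11, 3, 9, 2, 1, 0, 8]))))))))) (.front 1 (.name (.bit 1 9 (.front 2 (.drop (.tab 126 [.flip, .eseg 4 6, .merge, .front 1, .flip, .eseg 5 7, .merge, .front 1, .front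 1] [5, 4, 10, 11, 3, 2, 9, 0, 8, 1]))) (.front 2 (.name (.bit 12 9 (.drop (.tab 127 [.flip, .eseg 4 6, .merge, .front 1, .flip, .eseg 5 7, .merge, .front 1] [4, 11, 5, 10, 12, 3, 9, 2, 1, 0, 8])) (.flip (.name (.tab 128 [.front 1, .flip, .eseg 4 6, .merge, .front 2, .flip, .eseg 5 7, .merge, .front 2, .flip, .flip, .front 1, .front 2] [4, 11, 5, 13, 10, 12, 3, 9, 2, 1, 0, 8]))))))))))))))))) (.front 1 (.att 0 (.bit 8 9 (.cert 2 11 0x14615011a60a7394298895281a41a53a43a460921043082) (.att 8 (.cert 2 12 0x40469829ca30a7285520698894e90e950f20d2a460921043082) (.front 1 (.att 8 (.cert 2 13 0x60a7404694614e50aa40d311290694ea0ea48f5243a460921043082) (.front 1 (.front 2 (.flip (.whl 0 3 4 [6, 1, 8, 2, 9, 7, 5])))))))) (.att 8 (.front 1 (.att 8 (.front 1 (.att 8 (.cert 6 13 0x202d08168c094204aa487489794694e54ab5073ad3ad289614490a2) (.bit 9 10 (.front 1 (.drop (.bit 2 9 (.front 1 (.drop (.dia 8 9 2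 10))) (.front 1 (.name (.bit 11 9 (.drop (.bit 10 7 (.drop (.bit 1 6 (.drop (.tab 111 [.eseg 4 6, .eseg 5 7, .front 1, .front 1] [5, 4, 7, 6, 11, 3, 10, 1, 9, 2, 0, 8])) (.name (.tab 111 [.flip, .eseg 4 6, .merge, .eseg 5 7, .front 1, .front 1] [5, 4, 7, 12, 11, 3, 10, 1, 9, 2, 0, 8])))) (.name (.bit 1 6 (.front 1 (.drop (.tab 111 [.eseg 4 6, .front 1, .flip, .eseg 5 7, .merge, .front 1, .front 1] [5, 4, 12, 6, 11, 3, 10, 1, 9, 2, 0, 8]))) (.front 1 (.name (.tab 111 [.flip, .eseg 4 6, .merge, .front 1, .flip, .eseg 5 7, .merge, .front 1, .front 1] [5, 4, 12, 13, 11, 3, 10, 1, 9, 2, 0, 8]))))))) (.flip (.name (.bit 10 7 (.front 1 (.drop (.bit 1 6 (.front 1 (.drop (.tab 107 [.eseg 4 6, .eseg 5 7, .front 2, .flip, .flip, .front 2, .front 2] [5, 4, 7, 6, 12, 11, 3, 10, 9, 1, 2, 0, 8]))) (.front 1 (.name (.tab 107 [.flip, .eseg 4 6, .merge, .eseg 5 7, .front 2, .flip, .flip, .front 2, .front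 2] [5, 4, 7, 13, 12, 11, 3, 10, 9, 1, 2, 0, 8])))))) (.front 1 (.name (.bit 1 6 (.front 2 (.drop (.tab 107 [.eseg 4 6, .front 1, .flip, .eseg 5 7, .merge, .front 2, .flip, .flip, .front 2, .front 2] [5, 4, 13, 6, 12, 11, 3, 10, 9, 1, 2, 0, 8]))) (.front 2 (.name (.tab 107 [.flip, .eseg 4 6, .merge, .front 1, .flip, .eseg 5 7, .merge, .front 2, .flip, .flip, .front 2, .front 2] [5, 4, 13, 14, 12, 11, 3, 10, 9, 1, 2, 0, 8]))))))))))))))) (.cert 6 12 0x1812880a420521025524394695225672a53a93a9289414490a2)))) (.bit 9 7 (.drop (.bit 2 9 (.drop (.bit 1 6 (.drop (.tab 126 [.eseg 4 6, .eseg 5 7, .front 1] [4, 5, 6, 7, 3, 1, 9, 0, 8, 2])) (.name (.tab 126 [.flip, .eseg 4 6, .merge, .eseg 5 7, .front 1] [4, 5, 10, 7, 3, 1, 9, 0, 8, 2])))) (.name (.bit 10 9 (.drop (.bit 1 6 (.drop (.tab 127 [.eseg 4 6, .eseg 5 7, .front 1, .front 1] [5, 7, 4, 6, 10, 3, 9, 1, 2, 0, 8])) (.name (.tab 127 [.flip, .eseg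 4 6, .merge, .eseg 5 7, .front 1, .front 1] [5, 7, 4, 11, 10, 3, 9, 1, 2, 0, 8])))) (.flip (.name (.bit 1 6 (.front 1 (.drop (.tab 128 [.eseg 4 6, .eseg 5 7, .front 2, .flip, .flip, .front 2, .front 2] [5, 7, 4, 11, 6, 10, 3, 9, 1, 2, 0, 8]))) (.front 1 (.name (.tab 128 [.flip, .eseg 4 6, .merge, .eseg 5 7, .front 2, .flip, .flip, .front 2, .front 2] [5, 7, 4, 11, 12, 10, 3, 9, 1, 2, 0, 8])))))))))) (.name (.bit 2 9 (.front 1 (.drop (.bit 1 6 (.front 1 (.drop (.tab 126 [.eseg 4 6, .front 1, .flip, .eseg 5 7, .merge, .front 1] [4, 5, 6, 10, 3, 1, 9, 0, 8, 2]))) (.front 1 (.name (.tab 126 [.flip, .eseg 4 6, .merge, .front 1, .flip, .eseg 5 7, .merge, .front 1] [4, 5, 11, 10, 3, 1, 9, 0, 8, 2])))))) (.front 1 (.name (.bit 11 9 (.drop (.bit 1 6 (.front 1 (.drop (.tab 127 [.eseg 4 6, .front 1, .flip, .eseg 5 7, .merge, .front 1, .front 1] [5, 10, 4, 6, 11, 3, 9, 1, 2, 0, 8]))) (.front 1 (.name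 (.tab 127 [.flip, .eseg 4 6, .merge, .front 1, .flip, .eseg 5 7, .merge, .front 1, .front 1] [5, 10, 4, 12, 11, 3, 9, 1, 2, 0, 8]))))) (.flip (.name (.bit 1 6 (.front 2 (.drop (.tab 128 [.eseg 4 6, .front 2, .flip, .eseg 5 7, .merge, .front 2, .flip, .flip, .front 2, .front 2] [5, 10, 4, 12, 6, 11, 3, 9, 1, 2, 0, 8]))) (.front 2 (.name (.tab 128 [.flip, .eseg 4 6, .merge, .front 2, .flip, .eseg 5 7, .merge, .front 2, .flip, .flip, .front 2, .front 2] [5, 10, 4, 12, 13, 11, 3, 9, 1, 2, 0, 8])))))))))))))) (.front 1 (.flip (.whl 0 3 4 [6, 1, 8, 2, 7, 5])))))))))))))))))))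

def trV2 : List (ℕ × ℕ × Tr) := [trA2g_19]

theorem ckV2 : chkL table preA2g trV2 19 = true := by decide +kernel

end Pool.Agent.Helper64.FL
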