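import Pool.Agent.Helper64.FL.TrV0
import Pool.Agent.Helper64.FL.TrV1
import Pool.Agent.Helper64.FL.TrV2
import Pool.Agent.Helper64.FL.TrV3
import Pool.Agent.Helper64.FL.TrV4
import Pool.Agent.Helper64.FL.TrV5

set_option autoImplicit false
set_option maxRecDepth 100000

namespace Pool.Agent.Helper64.FL

theorem chkL_append (tb0 : List Ent) (p : Pre) (l2 : List (ℕ × ℕ × Tr)) :
    ∀ (l1 : List (ℕ × ℕ × Tr)) (ch : ℕ),
      chkL tb0 p (l1 ++ l2) ch = (chkL tb0 p l1 ch && chkL tb0 p l2 (ch + l1.length))
  | [], ch => by simp [chkL]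
  | (k, m, t) :: l, ch => by
    have h := chkL_append tb0 p l2 l (Nat.succ ch)
    have e : Nat.succ ch + l.length = ch + ((k, m, t) :: l).length := by
      simp only [List.length_cons]; omega
    rw [e] at h
    simp only [List.cons_append, chkL, h, Bool.and_assoc]

def trA2g : List (ℕ × ℕ × Tr) := trV0 ++ (trV1 ++ (trV2 ++ (trV3 ++ (trV4 ++ trV5))))

theorem ckA2g : chkP table preA2g trA2g = true := by
  have h1 : (okI preA2g && Nat.beq trA2g.length (Nat.shiftLeft 1 preA2g.q.length)) = true := by
    decide +kernel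
  have h2 : chkL table preA2g trA2g 0 = true := by
    have l0 : trV0.length = 18 := by decide +kernel
    have l1 : trV1.length = 1 := by decide +kernel
    have l2 : trV2.length = 1 := by decide +kernel
    have l3 : trV3.length = 11 := by decide +kernel
    have l4 : trV4.length = 83 := by decide +kernel
    rw [trA2g, chkL_append, chkL_append, chkL_append, chkL_append, chkL_append,
      l0, l1, l2, l3, l4, ckV0, ckV1, ckV2, ckV3, ckV4, ckV5]
    rfl
  rw [chkP, h1, h2]
  rfl

end Pool.Agent.Helper64.FL
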