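import Pool.Agent.Helper64.FL.TrT00
import Pool.Agent.Helper64.FL.TrT01
import Pool.Agent.Helper64.FL.TrT02
import Pool.Agent.Helper64.FL.TrT03
import Pool.Agent.Helper64.FL.TrT04
import Pool.Agent.Helper64.FL.TrT05
import Pool.Agent.Helper64.FL.TrT06
import Pool.Agent.Helper64.FL.TrT07
import Pool.Agent.Helper64.FL.TrT08
import Pool.Agent.Helper64.FL.TrT09
import Pool.Agent.Helper64.FL.TrT10
import Pool.Agent.Helper64.FL.TrT11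
import Pool.Agent.Helper64.FL.TrT12
import Pool.Agent.Helper64.FL.TrT13
import Pool.Agent.Helper64.FL.TrT14
import Pool.Agent.Helper64.FL.TrT15
import Pool.Agent.Helper64.FL.TrT16
import Pool.Agent.Helper64.FL.TrT17
import Pool.Agent.Helper64.FL.StC

/-! Full list for MP_866009_co: the configurations are excluded. -/

set_option autoImplicit false

namespace Pool.Agent.Helper64.FL

open Pool.Agent.Helper64.CT Pool.Agent.Helper64.DT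

theorem cks_CI : ∀ p ∈ preCIs, ∃ l, chkP table p l = true := by
  intro p hp
  simp only [preCIs, List.mem_cons, List.not_mem_nil, or_false] at hp
  rcases hp with rfl | rfl | rfl | rfl | rfl
  · exact ⟨_, ckA1c⟩
  · exact ⟨_, ckA1n⟩
  · exact ⟨_, ckA2g⟩
  · exact ⟨_, ckA2p⟩
  · exact ⟨_, ckA3⟩

theorem cks_B : ∀ p ∈ preBs, ∃ l, chkP table p l = true := by
  intro p hp
  simp only [preBs, List.mem_cons, List.not_mem_nil, or_false] at hp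
  rcases hp with rfl | rfl | rfl | rfl | rfl | rfl | rfl | rfl | rfl | rfl | rfl | rfl | rfl |
    rfl | rfl | rfl | rfl | rfl | rfl | rfl | rfl | rfl | rfl | rfl | rfl | rfl | rfl | rfl |
    rfl | rfl | rfl | rfl | rfl | rfl | rfl | rfl | rfl | rfl | rfl | rfl | rfl
  · exact ⟨_, ckB2⟩
  · exact ⟨_, ckIIAa0⟩
  · exact ⟨_, ckIIAa1⟩
  · exact ⟨_, ckIIAa2⟩
  · exact ⟨_, ckIIAa3⟩
  · exact ⟨_, ckIIAa5⟩
  · exact ⟨_, ckIIAa6⟩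
  · exact ⟨_, ckIIAa7⟩
  · exact ⟨_, ckIIAb0⟩
  · exact ⟨_, ckIIAb1⟩
  · exact ⟨_, ckIIAb2⟩
  · exact ⟨_, ckIIAb3⟩
  · exact ⟨_, ckIIAb5⟩
  · exact ⟨_, ckIIAb6⟩
  · exact ⟨_, ckIIAb7⟩
  · exact ⟨_, ckK100⟩
  · exact ⟨_, ckK101⟩
  · exact ⟨_, ckK102⟩
  · exact ⟨_, ckK110⟩
  · exact ⟨_, ckK111⟩
  · exact ⟨_, ckK112⟩
  · exact ⟨_, ckK120⟩
  · exact ⟨_, ckK121⟩
  · exact ⟨_, ckK122⟩
  · exact ⟨_, ckK2000⟩
  · exact ⟨_, ckK2001⟩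
  · exact ⟨_, ckK2010⟩
  · exact ⟨_, ckK2011⟩
  · exact ⟨_, ckK2100⟩
  · exact ⟨_, ckK2101⟩
  · exact ⟨_, ckK2110⟩
  · exact ⟨_, ckK2111⟩
  · exact ⟨_, ckBB000⟩
  · exact ⟨_, ckBB001⟩
  · exact ⟨_, ckBB010⟩
  · exact ⟨_, ckBB011⟩
  · exact ⟨_, ckBB100⟩
  · exact ⟨_, ckBB101⟩
  · exact ⟨_, ckBB110⟩
  · exact ⟨_, ckBB111⟩
  · exact ⟨_, ckBC⟩

theorem cks_C : ∀ p ∈ preCs, ∃ l, chkP table p l = true := by
  intro p hp
  simp only [preCs, List.mem_cons, List.not_mem_nil, or_false] at hp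
  rcases hp with rfl | rfl | rfl | rfl | rfl | rfl | rfl | rfl | rfl | rfl | rfl | rfl | rfl |
    rfl | rfl | rfl | rfl | rfl | rfl | rfl | rfl | rfl | rfl | rfl | rfl | rfl | rfl | rfl |
    rfl | rfl
  · exact ⟨_, ckHA00⟩
  · exact ⟨_, ckHA01⟩
  · exact ⟨_, ckHA10⟩
  · exact ⟨_, ckHA11⟩
  · exact ⟨_, ckHA20⟩
  · exact ⟨_, ckHA21⟩
  · exact ⟨_, ckHB000⟩
  · exact ⟨_, ckHB001⟩
  · exact ⟨_, ckHB010⟩
  · exact ⟨_, ckHB011⟩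
  · exact ⟨_, ckHB100⟩
  · exact ⟨_, ckHB101⟩
  · exact ⟨_, ckHB110⟩
  · exact ⟨_, ckHB111⟩
  · exact ⟨_, ckHC00⟩
  · exact ⟨_, ckHC01⟩
  · exact ⟨_, ckHC10⟩
  · exact ⟨_, ckHC11⟩
  · exact ⟨_, ckHC20⟩
  · exact ⟨_, ckHC21⟩
  · exact ⟨_, ckPy⟩
  · exact ⟨_, ckPr⟩
  · exact ⟨_, ckCia⟩
  · exact ⟨_, ckCib⟩
  · exact ⟨_, ckCid⟩
  · exact ⟨_, ckCif⟩
  · exact ⟨_, ckKB⟩
  · exact ⟨_, ckAB⟩
  · exact ⟨_, ckC4a⟩
  · exact ⟨_, ckC4b⟩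

theorem noP_of {V : Type} (hPRE : ST_PRE) {G : SimpleGraph V} (hR : Red G)
    (hO : ¬ Out G table) (P : List Pre) (hP : ∀ p ∈ P, ∃ l, chkP table p l = true) :
    NoP G P := by
  intro p hp f L hM
  obtain ⟨l, hl⟩ := hP p hp
  exact hO (hPRE V G table p f L l hR hM hl)

end Pool.Agent.Helper64.FL
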