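import Pool.Agent.Helper64.DT.Defs

/-! Full list for MP_866009_co: the symbolic engine (states, proof trees, checker). -/

set_option autoImplicit false

namespace Pool.Agent.Helper64.FL

open Pool.Agent.Helper64.CT Pool.Agent.Helper64.DT
open Pool.Agent.Helper64.HG (Ovl Model Circ IC HellyCircle ChordModel)

/-! ### bits -/

/-- the bit `i` of `m` -/
def tb (m i : ℕ) : Bool := Nat.beq (Nat.land (Nat.shiftRight m i) 1) 1

/-- set the bit `i` -/
def sb (m i : ℕ) : ℕ := Nat.lor m (Nat.shiftLeft 1 i)

/-- all bits of `a` are bits of `b` -/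
def sub (a b : ℕ) : Bool := Nat.beq (Nat.land a b) a

/-- index of the unordered pair `i`, `j` -/
def px (i j : ℕ) : ℕ := bif Nat.ble i j then Nat.add (Nat.mul 32 j) i else Nat.add (Nat.mul 32 i) j

/-- index of the ordered pair `i`, `j` -/
def ox (i j : ℕ) : ℕ := Nat.add (Nat.mul 32 i) j

/-! ### states -/

/-- a segment: a path between the named vertices `u` and `w`; `cl` is the set of the named vertices
known to have no neighbour in its interior -/
structure Seg where
  u : ℕ
  w : ℕ
  cl : ℕ

/-- a state: named vertices `0, …, n-1`, known edges, known non-edges, segments -/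
structure Sk where
  n : ℕ
  e : ℕ
  d : ℕ
  sg : List Seg

def eb (s : Sk) (i j : ℕ) : Bool := tb s.e (px i j)
def db (s : Sk) (i j : ℕ) : Bool := tb s.d (px i j)

/-- `i` and `j` are different named vertices -/
def okp (s : Sk) (i j : ℕ) : Bool := Nat.blt i s.n && Nat.blt j s.n && !(Nat.beq i j)

/-! ### the steps -/

def setE (s : Sk) (i j : ℕ) : Sk := ⟨s.n, sb s.e (px i j), s.d, s.sg⟩
def setD (s : Sk) (i j : ℕ) : Sk := ⟨s.n, s.e, sb s.d (px i j), s.sg⟩

/-- move the segment number `k` to the front -/
def frontL : ℕ → List Seg → List Seg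
  | _, [] => []
  | 0, l => l
  | k + 1, g :: l =>
    match frontL k l with
    | [] => [g]
    | h :: t => h :: g :: t

def front (s : Sk) (k : ℕ) : Sk := ⟨s.n, s.e, s.d, frontL k s.sg⟩

/-- add the bit `z` to all segments -/
def addz (z : ℕ) : List Seg → List Seg
  | [] => []
  | g :: l => ⟨g.u, g.w, sb g.cl z⟩ :: addz z l

/-- the head segment is clean to `x` -/
def clean (s : Sk) (x : ℕ) : Sk :=
  match s.sg with
  | [] => s
  | g :: l => ⟨s.n, s.e, s.d, ⟨g.u, g.w, sb g.cl x⟩ :: l⟩

/-- the first interior vertex of the head segment adjacent to `x` gets a name -/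
def attach (s : Sk) (x : ℕ) : Sk :=
  match s.sg with
  | [] => s
  | g :: l => ⟨Nat.succ s.n, sb s.e (px x s.n),
      sb (Nat.lor s.d (Nat.shiftLeft g.cl (Nat.mul 32 s.n))) (px g.u g.w),
      ⟨g.u, s.n, sb (sb g.cl x) g.w⟩ :: ⟨s.n, g.w, sb g.cl g.u⟩ :: addz s.n l⟩

/-- the first interior vertex of the head segment gets a name -/
def nameS (s : Sk) : Sk :=
  match s.sg with
  | [] => s
  | g :: l => ⟨Nat.succ s.n, sb s.e (px g.u s.n),
      Nat.lor s.d (Nat.shiftLeft g.cl (Nat.mul 32 s.n)),
      ⟨s.n, g.w, sb g.cl g.u⟩ :: addz s.n l⟩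

def flipS (s : Sk) : Sk :=
  match s.sg with
  | [] => s
  | g :: l => ⟨s.n, s.e, s.d, ⟨g.w, g.u, g.cl⟩ :: l⟩

def dropS (s : Sk) : Sk :=
  match s.sg with
  | [] => s
  | _ :: l => ⟨s.n, s.e, s.d, l⟩

/-! ### certificates -/

/-- the bit for the right hand side -/
def one : ℕ := Nat.shiftLeft 1 1024

def vb (i j : ℕ) : ℕ := Nat.shiftLeft 1 (ox i j)

/-- an equation is coded as `kind + 4 * (x + 32 * (v + 32 * w))`; its vector, `0` if not valid;
all vertices are different from `z` -/
def eqv (s : Sk) (z c : ℕ) : ℕ :=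
  let k := Nat.land c 3
  let x := Nat.land (Nat.shiftRight c 2) 31
  let v := Nat.land (Nat.shiftRight c 7) 31
  let w := Nat.land (Nat.shiftRight c 12) 31
  bif Nat.beq x z || Nat.beq v z || Nat.beq w z then 0 else
  match k with
  | 0 => bif eb s v w && okp s v w then Nat.xor (Nat.xor (vb v w) (vb w v)) one else 0
  | 1 => bif eb s v w && okp s v w && db s x v && db s x w && okp s x v && okp s x w then
      Nat.xor (vb x v) (vb x w) else 0
  | 2 => bif db s v w && okp s v w && eb s x v && eb s x w && okp s x v && okp s x w then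
      Nat.xor (Nat.xor (Nat.xor (vb v w) (vb w v)) (Nat.xor (vb x v) (vb x w))) one else 0
  | _ => 0

/-- the equation of a segment between `v` and `w` clean to `x` -/
def segq (s : Sk) (x v w : ℕ) : List Seg → Bool
  | [] => false
  | g :: l => ((Nat.beq g.u v && Nat.beq g.w w) || (Nat.beq g.u w && Nat.beq g.w v)) && tb g.cl x
      || segq s x v w l

/-- like `eqv` for the kind 3: the segment equation -/
def eqs (s : Sk) (z c : ℕ) : ℕ :=
  let x := Nat.land (Nat.shiftRight c 2) 31
  let v := Nat.land (Nat.shiftRight c 7) 31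
  let w := Nat.land (Nat.shiftRight c 12) 31
  bif Nat.beq x z || Nat.beq v z || Nat.beq w z then 0 else
  bif segq s x v w s.sg && db s x v && db s x w && okp s x v && okp s x w then
    Nat.xor (vb x v) (vb x w) else 0

def eqq (s : Sk) (z c : ℕ) : ℕ := bif Nat.beq (Nat.land c 3) 3 then eqs s z c else eqv s z c

/-- the sum of `k` equations, coded in base `2 ^ 17` in `m`, is `one` -/
def crt (s : Sk) (z : ℕ) : ℕ → ℕ → ℕ → Bool
  | 0, _, a => Nat.beq a one
  | k + 1, m, a => crt s z k (Nat.shiftRight m 17)
      (Nat.xor a (eqq s z (Nat.land m 131071)))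

/-! ### chains (for wheels and ladders) -/

/-- `i` is known to be nonadjacent to all members of the list -/
def nall (s : Sk) (i : ℕ) : List ℕ → Bool
  | [] => true
  | j :: l => db s i j && okp s i j && nall s i l

/-- set of bits -/
def msk : List ℕ → ℕ
  | [] => 0
  | i :: l => sb (msk l) i

/-- the list `i :: l` of named vertices together with the segments in `sg` (in this order, all of
them being used) forms an induced path; all segments are clean to the vertices in `m` except to
their ends -/
def chn (s : Sk) (m : ℕ) : ℕ → List ℕ → List Seg → Bool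
  | _, [], sg => match sg with
    | [] => true
    | _ :: _ => false
  | i, j :: l, sg => nall s i l && (bif eb s i j then okp s i j && chn s m j l sg else
      match sg with
      | [] => false
      | g :: t => Nat.beq g.u i && Nat.beq g.w j && okp s i j &&
          sub m (sb (sb g.cl i) j) && chn s m j l t)

/-- wheel leaf: hub `h`, rim `r, i :: l` -/
def whl (s : Sk) (h r i : ℕ) (l : List ℕ) : Bool :=
  Nat.beq (msk (h :: r :: i :: l)) (Nat.pred (Nat.shiftLeft 1 s.n)) &&
  !(tb (msk (r :: i :: l)) h) && chn s (msk (r :: i :: l)) i l s.sg && okp s h r && eb s r i && okp s r i &&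
  (match l.reverse with
   | [] => false
   | j :: t => eb s r j && okp s r j && nall s r t)

/-- known rungs -/
def rung (s : Sk) (h k : ℕ) : List ℕ → ℕ
  | [] => 0
  | i :: l => bif eb s h i && eb s k i then Nat.succ (rung s h k l) else rung s h k l

/-- pure vertex -/
def pur (s : Sk) (h k i : ℕ) : Bool := (eb s h i && db s k i) || (db s h i && eb s k i)

/-- ladder leaf: connector `c`, hubs `h`, `k`, path `i :: l` -/
def ldr (s : Sk) (c h k i : ℕ) (l : List ℕ) : Bool :=
  Nat.beq (msk (c :: h :: k :: i :: l)) (Nat.pred (Nat.shiftLeft 1 s.n)) &&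
  !(tb (msk (i :: l)) h) && !(tb (msk (i :: l)) k) &&
  chn s (msk (c :: i :: l)) i l s.sg && okp s c h && okp s c k && eb s c h && eb s c k &&
  okp s h k && db s h k && nall s c (i :: l) && Nat.ble 3 (rung s h k l) && pur s h k i &&
  (match l.reverse with
   | [] => false
   | j :: _ => pur s h k j)

/-! ### the table leaf -/

/-- a graph of the table: `n` vertices, rigid edges, elastic edges (to be replaced by paths) -/
structure Ent where
  n : ℕ
  rg : List (ℕ × ℕ)
  el : List (ℕ × ℕ)

/-- operations on fully known states; `a` is the set of the named vertices still alive -/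
inductive TOp where
  | front (k : ℕ)
  | flip
  | eseg (i j : ℕ)
  | merge

structure TS where
  a : ℕ
  s : Sk

def allc (s : Sk) (z c : ℕ) : ℕ → Bool
  | 0 => true
  | k + 1 => (!(tb c k) || (db s z k && okp s z k)) && allc s z c k

/-- all segments have the bit `z` -/
def allz (z : ℕ) : List Seg → Bool
  | [] => true
  | g :: l => tb g.cl z && allz z l

def clr (m i : ℕ) : ℕ := Nat.xor m (Nat.land m (Nat.shiftLeft 1 i))

def tap (o : TOp) (t : TS) : Option TS :=
  match o with
  | TOp.front k => some ⟨t.a, front t.s k⟩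
  | TOp.flip => some ⟨t.a, flipS t.s⟩
  | TOp.eseg i j => bif eb t.s i j && okp t.s i j && tb t.a i && tb t.a j then
      some ⟨t.a, ⟨t.s.n, t.s.e, t.s.d, ⟨i, j, clr (clr (Nat.pred (Nat.shiftLeft 1 t.s.n)) i) j⟩ ::
        t.s.sg⟩⟩ else none
  | TOp.merge =>
    match t.s.sg with
    | g :: h :: l =>
      bif Nat.beq g.w h.u && tb t.a g.u && tb t.a g.w && tb t.a h.w && db t.s g.u h.w && okp t.s g.u h.w && tb g.cl h.w &&
        tb h.cl g.u && allc t.s g.w (Nat.land g.cl h.cl) t.s.n && allz g.w l then
        some ⟨clr t.a g.w, ⟨t.s.n, t.s.e, t.s.d, ⟨g.u, h.w, Nat.land g.cl h.cl⟩ :: l⟩⟩ else none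
    | _ => none

def taps : List TOp → TS → Option TS
  | [], t => some t
  | o :: l, t => match tap o t with
    | none => none
    | some t' => taps l t'

/-- membership of a pair in a list of pairs, in both orders -/
def memp (i j : ℕ) : List (ℕ × ℕ) → Bool
  | [] => false
  | (a, b) :: l => (Nat.beq a i && Nat.beq b j) || (Nat.beq a j && Nat.beq b i) || memp i j l

def nth : List ℕ → ℕ → ℕ
  | [], _ => 0
  | a :: _, 0 => a
  | _ :: l, k + 1 => nth l k

/-- the pairs `i, j` with `i < k` agree with the table -/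
def prs (T : Ent) (s : Sk) (p : List ℕ) (j : ℕ) : ℕ → Bool
  | 0 => true
  | i + 1 => okp s (nth p i) (nth p j) &&
      (bif memp i j T.rg then eb s (nth p i) (nth p j) && !(memp i j T.el) else
        memp i j T.el || db s (nth p i) (nth p j)) && prs T s p j i

def prA (T : Ent) (s : Sk) (p : List ℕ) : ℕ → Bool
  | 0 => true
  | j + 1 => prs T s p j j && prA T s p j

/-- the segments agree with the elastic edges, all segments are clean to `m` except to their ends -/
def sgs (m : ℕ) (p : List ℕ) : List (ℕ × ℕ) → List Seg → Bool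
  | [], [] => true
  | (a, b) :: l, g :: t => Nat.beq g.u (nth p a) && Nat.beq g.w (nth p b) &&
      sub m (sb (sb g.cl g.u) g.w) && sgs m p l t
  | _, _ => false

def allb (n : ℕ) : List (ℕ × ℕ) → Bool
  | [] => true
  | (a, b) :: l => Nat.blt a n && Nat.blt b n && !(Nat.beq a b) && allb n l

/-- the final comparison with the entry `T` of the table -/
def fin (T : Ent) (t : TS) (p : List ℕ) : Bool :=
  Nat.beq p.length T.n && Nat.beq (msk p) t.a && allb T.n T.el && prA T t.s p T.n &&
    sgs t.a p T.el t.s.sg

/-! ### trees -/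

inductive Tr where
  | dia (a b c d : ℕ)
  | cert (z k m : ℕ)
  | whl (h r i : ℕ) (l : List ℕ)
  | ldr (c h k i : ℕ) (l : List ℕ)
  | tab (i : ℕ) (o : List TOp) (p : List ℕ)
  | bit (i j : ℕ) (t1 t0 : Tr)
  | front (k : ℕ) (t : Tr)
  | flip (t : Tr)
  | drop (t : Tr)
  | att (x : ℕ) (t1 t0 : Tr)
  | name (t : Tr)

def getT : List Ent → ℕ → Option Ent
  | [], _ => none
  | a :: _, 0 => some a
  | _ :: l, k + 1 => getT l k

/-- the checker; `cv`: the state covers the whole graph -/
def chk (tb0 : List Ent) (cv : Bool) : Tr → Sk → Bool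
  | Tr.dia a b c d, s => eb s a b && eb s a c && eb s b c && eb s a d && eb s b d && db s c d &&
      okp s a b && okp s a c && okp s b c && okp s a d && okp s b d && okp s c d
  | Tr.cert z k m, s => crt s z k m 0 && (Nat.blt z s.n)
  | Tr.whl h r i l, s => cv && whl s h r i l
  | Tr.ldr c h k i l, s => cv && ldr s c h k i l
  | Tr.tab i o p, s => cv && (match getT tb0 i with
    | none => false
    | some T => match taps o ⟨Nat.pred (Nat.shiftLeft 1 s.n), s⟩ with
      | none => false
      | some t => fin T t p)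
  | Tr.bit i j t1 t0, s => okp s i j && chk tb0 cv t1 (setE s i j) && chk tb0 cv t0 (setD s i j)
  | Tr.front k t, s => chk tb0 cv t (front s k)
  | Tr.flip t, s => chk tb0 cv t (flipS s)
  | Tr.drop t, s => (match s.sg with
    | [] => false
    | g :: _ => eb s g.u g.w && okp s g.u g.w) && chk tb0 cv t (dropS s)
  | Tr.att x t1 t0, s => (match s.sg with
    | [] => false
    | g :: _ => okp s x g.u && okp s x g.w && !(tb g.cl x)) && Nat.blt s.n 32 &&
      chk tb0 cv t1 (attach s x) && chk tb0 cv t0 (clean s x)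
  | Tr.name t, s => (match s.sg with
    | [] => false
    | g :: _ => db s g.u g.w && okp s g.u g.w) && Nat.blt s.n 32 && chk tb0 cv t (nameS s)

end Pool.Agent.Helper64.FL
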