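import Pool.Agent.Helper64.FL.Sem

/-! Full list for MP_866009_co: the families of the list in structural form. -/

set_option autoImplicit false

namespace Pool.Agent.Helper64.FL

open Pool.Agent.Helper64.CT Pool.Agent.Helper64.DT
open Pool.Agent.Helper64.HG (Ovl Model Circ IC HellyCircle ChordModel)

variable {V : Type}

/-- minimally non-circle and diamond-free -/
structure MinNC (G : SimpleGraph V) : Prop where
  df : DF G
  nc : ¬ Circ G
  mn : ∀ z : V, Circ (G.induce {v | v ≠ z})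

/-- `G` is the diamond -/
def DiaS (G : SimpleGraph V) : Prop := ∃ a b c d : V, G.Adj a b ∧ G.Adj a c ∧ G.Adj b c ∧
  G.Adj a d ∧ G.Adj b d ∧ c ≠ d ∧ ¬ G.Adj c d ∧ ∀ x, x = a ∨ x = b ∨ x = c ∨ x = d

/-- wheels: `r :: M` is an induced cycle of length at least four, `h` is the hub; `h` has three
pairwise nonadjacent neighbours and no three consecutive neighbours on the cycle -/
def WheelS (G : SimpleGraph V) : Prop := ∃ (h r : V) (M : List V), IPt G M ∧ 3 ≤ M.length ∧ h ≠ r ∧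
  h ∉ M ∧ r ∉ M ∧ (∀ x ∈ M, G.Adj r x ↔ (M.head? = some x ∨ M.getLast? = some x)) ∧
  (∀ x, x = h ∨ x = r ∨ x ∈ M) ∧
  (∃ a b c, G.Adj h a ∧ G.Adj h b ∧ G.Adj h c ∧ a ≠ b ∧ a ≠ c ∧ b ≠ c ∧ ¬ G.Adj a b ∧ ¬ G.Adj a c ∧
    ¬ G.Adj b c) ∧
  ∀ a b c, G.Adj a b → G.Adj b c → a ≠ c → a ≠ h → b ≠ h → c ≠ h →
    ¬ (G.Adj h a ∧ G.Adj h b ∧ G.Adj h c)

open Classical in
/-- number of the vertices in `M` adjacent to both `h` and `k` -/
noncomputable def rungs (G : SimpleGraph V) (h k : V) (M : List V) : ℕ :=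
  (M.filter (fun x => decide (G.Adj h x ∧ G.Adj k x))).length

/-- `M` is an induced path whose first vertex is adjacent to exactly one of the nonadjacent
vertices `h` and `k` (to `h` if `a = true`), whose last vertex is adjacent to exactly one of them
(to `h` if `b = true`), while every other vertex of `M` is adjacent to both or to none; adjacent
vertices of `M` are not both adjacent to both -/
structure LadM (G : SimpleGraph V) (h k : V) (M : List V) (a b : Bool) : Prop where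
  ip : IPt G M
  two : 2 ≤ M.length
  ne : h ≠ k
  nadj : ¬ G.Adj h k
  hM : h ∉ M
  kM : k ∉ M
  fst : ∀ x ∈ M.head?, (G.Adj h x ↔ a = true) ∧ (G.Adj k x ↔ a = false)
  lst : ∀ x ∈ M.getLast?, (G.Adj h x ↔ b = true) ∧ (G.Adj k x ↔ b = false)
  mid : ∀ x ∈ M, M.head? ≠ some x → M.getLast? ≠ some x → (G.Adj h x ↔ G.Adj k x)
  ind : ∀ x ∈ M, ∀ y ∈ M, G.Adj x y → ¬ (G.Adj h x ∧ G.Adj k x ∧ G.Adj h y ∧ G.Adj k y)

/-- two vertices adjacent to both `h` and `k` with a common neighbour in `M` -/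
def Gap1 (G : SimpleGraph V) (h k : V) (M : List V) : Prop := ∃ x ∈ M, ∃ y ∈ M, ∃ z ∈ M, x ≠ y ∧
  G.Adj h x ∧ G.Adj k x ∧ G.Adj h y ∧ G.Adj k y ∧ G.Adj x z ∧ G.Adj z y

/-- ladders without connector -/
def LadS (G : SimpleGraph V) : Prop := ∃ (h k : V) (M : List V) (a b : Bool), LadM G h k M a b ∧
  (∀ x, x = h ∨ x = k ∨ x ∈ M) ∧
  ((a = b ∧ Odd (rungs G h k M) ∧ 3 ≤ rungs G h k M) ∨
    (a ≠ b ∧ Even (rungs G h k M) ∧ 4 ≤ rungs G h k M) ∨
    (a ≠ b ∧ rungs G h k M = 2 ∧ ¬ Gap1 G h k M))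

/-- ladders with a connector `c` -/
def LadC (G : SimpleGraph V) : Prop := ∃ (c h k : V) (M : List V) (a b : Bool), LadM G h k M a b ∧
  (∀ x, x = c ∨ x = h ∨ x = k ∨ x ∈ M) ∧ c ∉ M ∧ (∀ x, G.Adj c x ↔ x = h ∨ x = k) ∧
  ((a = b ∧ Even (rungs G h k M) ∧ 2 ≤ rungs G h k M) ∨
    (a ≠ b ∧ Odd (rungs G h k M) ∧ 3 ≤ rungs G h k M) ∨
    (a ≠ b ∧ rungs G h k M = 2 ∧ Gap1 G h k M))

/-- a ring of links: the vertices `n 0, …, n (m-1)` form a clique, `P i` is the interior of an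
induced path from `n i` to `n (i+1)` (indices modulo `m`) with at least two interior vertices -/
structure Ring (G : SimpleGraph V) (m : ℕ) (n : ℕ → V) (P : ℕ → List V) : Prop where
  m3 : 3 ≤ m
  clq : ∀ i j, i < m → j < m → i ≠ j → G.Adj (n i) (n j)
  len : ∀ i, i < m → 2 ≤ (P i).length
  pth : ∀ i, i < m → IPt G (P i)
  fst : ∀ i, i < m → ∀ x ∈ P i, G.Adj (n i) x ↔ (P i).head? = some x
  lst : ∀ i, i < m → ∀ x ∈ P i, G.Adj (n ((i + 1) % m)) x ↔ (P i).getLast? = some x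
  cln : ∀ i j, i < m → j < m → j ≠ i → j ≠ (i + 1) % m → ∀ x ∈ P i, ¬ G.Adj (n j) x
  dis : ∀ i j, i < m → j < m → ∀ x ∈ P i, x ≠ n j
  sep : ∀ i j, i < m → j < m → i ≠ j → ∀ x ∈ P i, ∀ y ∈ P j, x ≠ y ∧ ¬ G.Adj x y

/-- rings with an even number of links -/
def RingE (G : SimpleGraph V) : Prop := ∃ (m : ℕ) (n : ℕ → V) (P : ℕ → List V), Ring G m n P ∧
  Even m ∧ 4 ≤ m ∧ ∀ x, (∃ i, i < m ∧ x = n i) ∨ ∃ i, i < m ∧ x ∈ P i

/-- rings with an odd number of links and a further vertex adjacent to the clique -/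
def RingO (G : SimpleGraph V) : Prop := ∃ (c : V) (m : ℕ) (n : ℕ → V) (P : ℕ → List V),
  Ring G m n P ∧ Odd m ∧ (∀ i, i < m → c ∉ P i ∧ c ≠ n i) ∧
  (∀ x, G.Adj c x ↔ ∃ i, i < m ∧ x = n i) ∧
  ∀ x, x = c ∨ (∃ i, i < m ∧ x = n i) ∨ ∃ i, i < m ∧ x ∈ P i

/-- the list -/
def InF (tb0 : List Ent) (G : SimpleGraph V) : Prop :=
  DiaS G ∨ WheelS G ∨ LadS G ∨ LadC G ∨ RingE G ∨ RingO G ∨ ∃ T ∈ tb0, Real G T

end Pool.Agent.Helper64.FL
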