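import Pool.Agent.Helper64.FL.Pre

set_option autoImplicit false

namespace Pool.Agent.Helper64.FL

/-- symbols: 0=x 1=n12 2=n23 3=n31 4=bl 5=br 6=cl 7=cr 8=al 9=ar -/
def preB2 : Pre :=
  ⟨10,
    [(0, 1), (0, 2), (0, 3), (4, 1), (5, 2), (6, 2), (7, 3), (8, 3), (9, 1)],
    [(0, 4), (0, 5), (4, 3), (5, 3), (0, 6), (6, 4), (6, 5), (0, 7), (7, 4), (7, 5), (6, 1), (7, 1), (0, 8), (8, 4), (8, 5), (8, 6), (8, 7), (0, 9), (9, 4), (9, 5), (9, 6), (9, 7), (8, 2), (9, 2)],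
    [(1, 2), (1, 3), (2, 3)],
    [(4, 5), (6, 7), (8, 9)],
    [([(4, 5)], 4, 2), ([(4, 5)], 5, 1), ([(6, 7)], 6, 3), ([(6, 7)], 7, 2), ([(8, 9)], 8, 1), ([(8, 9)], 9, 3)],
    [],
    [(4, 5, []), (6, 7, []), (8, 9, [])]⟩

/-- symbols: 0=x 1=n 2=a 3=b 4=bl 5=br 6=cl 7=cr 8=u 9=u' -/
def preBI : Pre :=
  ⟨10,
    [(0, 1), (0, 2), (0, 3), (4, 1), (5, 2), (6, 1), (7, 3), (8, 1), (8, 2), (9, 1), (9, 3)],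
    [(0, 4), (0, 5), (4, 3), (5, 3), (0, 6), (6, 4), (6, 5), (0, 7), (7, 4), (7, 5), (6, 2), (7, 2), (0, 8), (8, 4), (8, 5), (8, 6), (8, 7), (0, 9), (9, 4), (9, 5), (9, 6), (9, 7), (8, 3), (9, 2)],
    [(1, 2), (1, 3), (2, 3)],
    [(4, 5), (6, 7)],
    [([(4, 5)], 4, 2), ([(4, 5)], 5, 1), ([(6, 7)], 6, 3), ([(6, 7)], 7, 1)],
    [],
    [(4, 5, []), (6, 7, []), (8, 9, [1, 2, 3])]⟩

/-- symbols: 0=x 1=p 2=p' 3=q 4=t 5=w 6=z 7=r 8=ea 9=eb -/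
def preIIAa0 : Pre :=
  ⟨10,
    [(0, 1), (0, 2), (0, 3), (4, 1), (4, 2), (5, 1), (6, 1), (7, 3), (8, 1), (9, 2)],
    [(0, 4), (0, 5), (4, 3), (5, 2), (0, 6), (6, 4), (6, 5), (0, 7), (7, 4), (7, 5), (6, 2), (0, 8), (8, 4), (8, 5), (8, 6), (8, 7), (0, 9), (9, 4), (9, 5), (9, 6), (9, 7), (8, 2), (8, 3), (9, 3)],
    [(1, 2), (1, 3), (2, 3)],
    [(6, 7)],
    [([(6, 7)], 6, 3)],
    [],
    [(6, 7, [1, 2]), (8, 9, [1]), (4, 5, [1, 2, 3])]⟩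

/-- symbols: 0=x 1=p 2=p' 3=q 4=t 5=w 6=z 7=r 8=ea 9=eb -/
def preIIAa1 : Pre :=
  ⟨10,
    [(0, 1), (0, 2), (0, 3), (4, 1), (4, 2), (5, 1), (6, 1), (7, 3), (8, 2), (9, 1)],
    [(0, 4), (0, 5), (4, 3), (5, 2), (0, 6), (6, 4), (6, 5), (0, 7), (7, 4), (7, 5), (6, 2), (0, 8), (8, 4), (8, 5), (8, 6), (8, 7), (0, 9), (9, 4), (9, 5), (9, 6), (9, 7), (8, 1), (8, 3), (9, 3)],
    [(1, 2), (1, 3), (2, 3)],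
    [(6, 7)],
    [([(6, 7)], 6, 3)],
    [],
    [(6, 7, [1, 2]), (8, 9, [2]), (4, 5, [1, 2, 3])]⟩

/-- symbols: 0=x 1=p 2=p' 3=q 4=t 5=w 6=z 7=r 8=c 9=f -/
def preIIAa2 : Pre :=
  ⟨10,
    [(0, 1), (0, 2), (0, 3), (4, 1), (4, 2), (5, 1), (6, 1), (7, 3), (8, 1), (8, 2), (9, 3)],
    [(0, 4), (0, 5), (4, 3), (5, 2), (0, 6), (6, 4), (6, 5), (0, 7), (7, 4), (7, 5), (6, 2), (0, 8), (8, 4), (8, 5), (8, 6), (8, 7), (8, 3), (0, 9), (9, 8), (9, 6), (9, 7)],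
    [(1, 2), (1, 3), (2, 3), (4, 9)],
    [(6, 7), (5, 9)],
    [([(6, 7)], 6, 3), ([(4, 9), (9, 5)], 4, 5)],
    [],
    [(6, 7, [1, 2]), (4, 9, [1, 2]), (9, 5, [1, 2, 3])]⟩

/-- symbols: 0=x 1=p 2=p' 3=q 4=t 5=w 6=z 7=r 8=c 9=f 10=y 11=y2 -/
def preIIAa3 : Pre :=
  ⟨12,
    [(0, 1), (0, 2), (0, 3), (4, 1), (4, 2), (5, 1), (6, 1), (7, 3), (8, 1), (8, 2), (10, 3), (11, 9)],
    [(0, 4), (0, 5), (4, 3), (5, 2), (0, 6), (6, 4), (6, 5), (0, 7), (7, 4), (7, 5), (6, 2), (0, 8), (8, 4), (8, 5), (8, 6), (8, 7), (8, 3), (4, 3), (5, 3), (0, 9), (9, 8), (9, 6), (9, 7), (9, 3), (0, 10), (10, 8), (10, 6), (10, 7), (0, 11), (11, 8), (11, 6), (11, 7)],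
    [(1, 2), (1, 3), (2, 3), (11, 4), (11, 5), (10, 4), (10, 5), (10, 9)],
    [(6, 7), (4, 9), (5, 9), (10, 11)],
    [([(6, 7)], 6, 3), ([(4, 9), (9, 5)], 4, 5), ([(10, 11)], 11, 3), ([(4, 9)], 4, 11), ([(10, 11)], 10, 4), ([(10, 11)], 10, 9), ([(10, 11)], 10, 5)],
    [],
    [(6, 7, [1, 2]), (4, 9, [1, 2]), (9, 5, [1, 2, 11, 10]), (10, 11, [1, 2])]⟩

/-- symbols: 0=x 1=p 2=p' 3=q 4=s 5=t 6=w 7=z 8=r 9=c 10=f -/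
def preIIAa5 : Pre :=
  ⟨11,
    [(0, 1), (0, 2), (0, 3), (0, 4), (5, 1), (5, 2), (6, 1), (7, 1), (8, 3), (9, 1), (9, 2), (10, 4)],
    [(0, 5), (0, 6), (5, 3), (6, 2), (0, 7), (7, 5), (7, 6), (0, 8), (8, 5), (8, 6), (7, 2), (0, 9), (9, 5), (9, 6), (9, 7), (9, 8), (9, 3), (9, 4), (0, 10), (10, 9), (10, 7), (10, 8)],
    [(1, 2), (1, 3), (1, 4), (2, 3), (2, 4), (3, 4)],
    [(7, 8), (5, 10), (6, 10)],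
    [([(7, 8)], 7, 3), ([(5, 10)], 5, 4), ([(5, 10), (10, 6)], 5, 6)],
    [],
    [(7, 8, [1, 2, 4]), (5, 10, [1, 2, 3]), (10, 6, [1, 2, 3, 4])]⟩

/-- symbols: 0=x 1=p 2=p' 3=q 4=s 5=t 6=w 7=z 8=r 9=c 10=f 11=y 12=y2 -/
def preIIAa6 : Pre :=
  ⟨13,
    [(0, 1), (0, 2), (0, 3), (0, 4), (5, 1), (5, 2), (6, 1), (7, 1), (8, 3), (9, 1), (9, 2), (11, 4), (12, 10)],
    [(0, 5), (0, 6), (5, 3), (6, 2), (0, 7), (7, 5), (7, 6), (0, 8), (8, 5), (8, 6), (7, 2), (0, 9), (9, 5), (9, 6), (9, 7), (9, 8), (9, 3), (9, 4), (5, 4), (6, 4), (0, 10), (10, 9), (10, 7), (10, 8), (10, 4), (0, 11), (11, 9), (11, 7), (11, 8), (0, 12), (12, 9), (12, 7), (12, 8)],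
    [(1, 2), (1, 3), (1, 4), (2, 3), (2, 4), (3, 4), (12, 5), (12, 6), (11, 5), (11, 6), (11, 10)],
    [(7, 8), (5, 10), (6, 10), (11, 12)],
    [([(7, 8)], 7, 3), ([(5, 10), (10, 6)], 5, 6), ([(11, 12)], 12, 4), ([(5, 10)], 5, 12), ([(11, 12)], 11, 5), ([(11, 12)], 11, 10), ([(11, 12)], 11, 6)],
    [],
    [(7, 8, [1, 2, 4]), (5, 10, [1, 2, 3]), (10, 6, [1, 2, 3, 12, 11]), (11, 12, [1, 2, 3])]⟩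

/-- symbols: 0=x 1=p 2=p' 3=q 4=s 5=t 6=w 7=z 8=r 9=c 10=c' -/
def preIIAa7 : Pre :=
  ⟨11,
    [(0, 1), (0, 2), (0, 3), (0, 4), (5, 1), (5, 2), (6, 1), (7, 1), (8, 3), (9, 1), (9, 2), (9, 4), (10, 4), (5, 4)],
    [(0, 5), (0, 6), (5, 3), (6, 2), (0, 7), (7, 5), (7, 6), (0, 8), (8, 5), (8, 6), (7, 2), (0, 9), (9, 5), (9, 6), (9, 7), (9, 8), (0, 10), (10, 5), (10, 6), (10, 7), (10, 8), (9, 3), (10, 1), (10, 2), (10, 3)],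
    [(1, 2), (1, 3), (1, 4), (2, 3), (2, 4), (3, 4)],
    [(7, 8)],
    [([(7, 8)], 7, 3)],
    [],
    [(7, 8, [1, 2, 4]), (9, 10, [1, 2, 4]), (5, 6, [1, 2, 3, 4])]⟩

/-- symbols: 0=x 1=p 2=p' 3=q 4=t 5=w 6=z 7=r 8=ea 9=eb -/
def preIIAb0 : Pre :=
  ⟨10,
    [(0, 1), (0, 2), (0, 3), (4, 1), (4, 2), (5, 1), (6, 2), (7, 3), (8, 1), (9, 2)],
    [(0, 4), (0, 5), (4, 3), (5, 2), (0, 6), (6, 4), (6, 5), (0, 7), (7, 4), (7, 5), (6, 1), (0, 8), (8, 4), (8, 5), (8, 6), (8, 7), (0, 9), (9, 4), (9, 5), (9, 6), (9, 7), (8, 2), (8, 3), (9, 3)],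
    [(1, 2), (1, 3), (2, 3)],
    [(6, 7)],
    [([(6, 7)], 6, 3)],
    [],
    [(6, 7, [1, 2]), (8, 9, [1]), (4, 5, [1, 2, 3])]⟩

/-- symbols: 0=x 1=p 2=p' 3=q 4=t 5=w 6=z 7=r 8=ea 9=eb -/
def preIIAb1 : Pre :=
  ⟨10,
    [(0, 1), (0, 2), (0, 3), (4, 1), (4, 2), (5, 1), (6, 2), (7, 3), (8, 2), (9, 1)],
    [(0, 4), (0, 5), (4, 3), (5, 2), (0, 6), (6, 4), (6, 5), (0, 7), (7, 4), (7, 5), (6, 1), (0, 8), (8, 4), (8, 5), (8, 6), (8, 7), (0, 9), (9, 4), (9, 5), (9, 6), (9, 7), (8, 1), (8, 3), (9, 3)],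
    [(1, 2), (1, 3), (2, 3)],
    [(6, 7)],
    [([(6, 7)], 6, 3)],
    [],
    [(6, 7, [1, 2]), (8, 9, [2]), (4, 5, [1, 2, 3])]⟩

/-- symbols: 0=x 1=p 2=p' 3=q 4=t 5=w 6=z 7=r 8=c 9=f -/
def preIIAb2 : Pre :=
  ⟨10,
    [(0, 1), (0, 2), (0, 3), (4, 1), (4, 2), (5, 1), (6, 2), (7, 3), (8, 1), (8, 2), (9, 3)],
    [(0, 4), (0, 5), (4, 3), (5, 2), (0, 6), (6, 4), (6, 5), (0, 7), (7, 4), (7, 5), (6, 1), (0, 8), (8, 4), (8, 5), (8, 6), (8, 7), (8, 3), (0, 9), (9, 8), (9, 6), (9, 7)],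
    [(1, 2), (1, 3), (2, 3), (4, 9)],
    [(6, 7), (5, 9)],
    [([(6, 7)], 6, 3), ([(4, 9), (9, 5)], 4, 5)],
    [],
    [(6, 7, [1, 2]), (4, 9, [1, 2]), (9, 5, [1, 2, 3])]⟩

/-- symbols: 0=x 1=p 2=p' 3=q 4=t 5=w 6=z 7=r 8=c 9=f 10=y 11=y2 -/
def preIIAb3 : Pre :=
  ⟨12,
    [(0, 1), (0, 2), (0, 3), (4, 1), (4, 2), (5, 1), (6, 2), (7, 3), (8, 1), (8, 2), (10, 3), (11, 9)],
    [(0, 4), (0, 5), (4, 3), (5, 2), (0, 6), (6, 4), (6, 5), (0, 7), (7, 4), (7, 5), (6, 1), (0, 8), (8, 4), (8, 5), (8, 6), (8, 7), (8, 3), (4, 3), (5, 3), (0, 9), (9, 8), (9, 6), (9, 7), (9, 3), (0, 10), (10, 8), (10, 6), (10, 7), (0, 11), (11, 8), (11, 6), (11, 7)],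
    [(1, 2), (1, 3), (2, 3), (11, 4), (11, 5), (10, 4), (10, 5), (10, 9)],
    [(6, 7), (4, 9), (5, 9), (10, 11)],
    [([(6, 7)], 6, 3), ([(4, 9), (9, 5)], 4, 5), ([(10, 11)], 11, 3), ([(4, 9)], 4, 11), ([(10, 11)], 10, 4), ([(10, 11)], 10, 9), ([(10, 11)], 10, 5)],
    [],
    [(6, 7, [1, 2]), (4, 9, [1, 2]), (9, 5, [1, 2, 11, 10]), (10, 11, [1, 2])]⟩

/-- symbols: 0=x 1=p 2=p' 3=q 4=s 5=t 6=w 7=z 8=r 9=c 10=f -/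
def preIIAb5 : Pre :=
  ⟨11,
    [(0, 1), (0, 2), (0, 3), (0, 4), (5, 1), (5, 2), (6, 1), (7, 2), (8, 3), (9, 1), (9, 2), (10, 4)],
    [(0, 5), (0, 6), (5, 3), (6, 2), (0, 7), (7, 5), (7, 6), (0, 8), (8, 5), (8, 6), (7, 1), (0, 9), (9, 5), (9, 6), (9, 7), (9, 8), (9, 3), (9, 4), (0, 10), (10, 9), (10, 7), (10, 8)],
    [(1, 2), (1, 3), (1, 4), (2, 3), (2, 4), (3, 4)],
    [(7, 8), (5, 10), (6, 10)],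
    [([(7, 8)], 7, 3), ([(5, 10)], 5, 4), ([(5, 10), (10, 6)], 5, 6)],
    [],
    [(7, 8, [1, 2, 4]), (5, 10, [1, 2, 3]), (10, 6, [1, 2, 3, 4])]⟩

/-- symbols: 0=x 1=p 2=p' 3=q 4=s 5=t 6=w 7=z 8=r 9=c 10=f 11=y 12=y2 -/
def preIIAb6 : Pre :=
  ⟨13,
    [(0, 1), (0, 2), (0, 3), (0, 4), (5, 1), (5, 2), (6, 1), (7, 2), (8, 3), (9, 1), (9, 2), (11, 4), (12, 10)],
    [(0, 5), (0, 6), (5, 3), (6, 2), (0, 7), (7, 5), (7, 6), (0, 8), (8, 5), (8, 6), (7, 1), (0, 9), (9, 5), (9, 6), (9, 7), (9, 8), (9, 3), (9, 4), (5, 4), (6, 4), (0, 10), (10, 9), (10, 7), (10, 8), (10, 4), (0, 11), (11, 9), (11, 7), (11, 8), (0, 12), (12, 9), (12, 7), (12, 8)],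
    [(1, 2), (1, 3), (1, 4), (2, 3), (2, 4), (3, 4), (12, 5), (12, 6), (11, 5), (11, 6), (11, 10)],
    [(7, 8), (5, 10), (6, 10), (11, 12)],
    [([(7, 8)], 7, 3), ([(5, 10), (10, 6)], 5, 6), ([(11, 12)], 12, 4), ([(5, 10)], 5, 12), ([(11, 12)], 11, 5), ([(11, 12)], 11, 10), ([(11, 12)], 11, 6)],
    [],
    [(7, 8, [1, 2, 4]), (5, 10, [1, 2, 3]), (10, 6, [1, 2, 3, 12, 11]), (11, 12, [1, 2, 3])]⟩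

/-- symbols: 0=x 1=p 2=p' 3=q 4=s 5=t 6=w 7=z 8=r 9=c 10=c' -/
def preIIAb7 : Pre :=
  ⟨11,
    [(0, 1), (0, 2), (0, 3), (0, 4), (5, 1), (5, 2), (6, 1), (7, 2), (8, 3), (9, 1), (9, 2), (9, 4), (10, 4), (5, 4)],
    [(0, 5), (0, 6), (5, 3), (6, 2), (0, 7), (7, 5), (7, 6), (0, 8), (8, 5), (8, 6), (7, 1), (0, 9), (9, 5), (9, 6), (9, 7), (9, 8), (0, 10), (10, 5), (10, 6), (10, 7), (10, 8), (9, 3), (10, 1), (10, 2), (10, 3)],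
    [(1, 2), (1, 3), (1, 4), (2, 3), (2, 4), (3, 4)],
    [(7, 8)],
    [([(7, 8)], 7, 3)],
    [],
    [(7, 8, [1, 2, 4]), (9, 10, [1, 2, 4]), (5, 6, [1, 2, 3, 4])]⟩

/-- symbols: 0=x 1=p 2=p' 3=t 4=w 5=ea 6=eb 7=ga 8=gb -/
def preK100 : Pre :=
  ⟨9,
    [(0, 1), (0, 2), (3, 1), (3, 2), (4, 1), (5, 1), (6, 2), (7, 1), (8, 2)],
    [(0, 3), (0, 4), (4, 2), (0, 5), (5, 3), (5, 4), (0, 6), (6, 3), (6, 4), (5, 2), (6, 1), (0, 7), (7, 3), (7, 4), (7, 5), (7, 6), (0, 8), (8, 3), (8, 4), (8, 5), (8, 6), (7, 2), (8, 1)],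
    [(1, 2)],
    [],
    [],
    [],
    [(3, 4, [1, 2]), (5, 6, [1]), (7, 8, [1])]⟩

/-- symbols: 0=x 1=p 2=p' 3=t 4=w 5=ea 6=eb 7=ga 8=gb -/
def preK101 : Pre :=
  ⟨9,
    [(0, 1), (0, 2), (3, 1), (3, 2), (4, 1), (5, 1), (6, 2), (7, 1), (8, 2), (8, 1)],
    [(0, 3), (0, 4), (4, 2), (0, 5), (5, 3), (5, 4), (0, 6), (6, 3), (6, 4), (5, 2), (6, 1), (0, 7), (7, 3), (7, 4), (7, 5), (7, 6), (0, 8), (8, 3), (8, 4), (8, 5), (8, 6), (7, 2)],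
    [(1, 2)],
    [],
    [],
    [],
    [(3, 4, [1, 2]), (5, 6, [1]), (7, 8, [1])]⟩

/-- symbols: 0=x 1=p 2=p' 3=t 4=w 5=ea 6=eb 7=ga 8=gb -/
def preK102 : Pre :=
  ⟨9,
    [(0, 1), (0, 2), (3, 1), (3, 2), (4, 1), (5, 1), (6, 2), (7, 2), (8, 1), (8, 2)],
    [(0, 3), (0, 4), (4, 2), (0, 5), (5, 3), (5, 4), (0, 6), (6, 3), (6, 4), (5, 2), (6, 1), (0, 7), (7, 3), (7, 4), (7, 5), (7, 6), (0, 8), (8, 3), (8, 4), (8, 5), (8, 6), (7, 1)],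
    [(1, 2)],
    [],
    [],
    [],
    [(3, 4, [1, 2]), (5, 6, [1]), (7, 8, [2])]⟩

/-- symbols: 0=x 1=p 2=p' 3=t 4=w 5=ea 6=eb 7=ga 8=gb -/
def preK110 : Pre :=
  ⟨9,
    [(0, 1), (0, 2), (3, 1), (3, 2), (4, 1), (5, 1), (6, 2), (6, 1), (7, 1), (8, 2)],
    [(0, 3), (0, 4), (4, 2), (0, 5), (5, 3), (5, 4), (0, 6), (6, 3), (6, 4), (5, 2), (0, 7), (7, 3), (7, 4), (7, 5), (7, 6), (0, 8), (8, 3), (8, 4), (8, 5), (8, 6), (7, 2), (8, 1)],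
    [(1, 2)],
    [],
    [],
    [],
    [(3, 4, [1, 2]), (5, 6, [1]), (7, 8, [1])]⟩

/-- symbols: 0=x 1=p 2=p' 3=t 4=w 5=ea 6=eb 7=ga 8=gb -/
def preK111 : Pre :=
  ⟨9,
    [(0, 1), (0, 2), (3, 1), (3, 2), (4, 1), (5, 1), (6, 2), (6, 1), (7, 1), (8, 2), (8, 1)],
    [(0, 3), (0, 4), (4, 2), (0, 5), (5, 3), (5, 4), (0, 6), (6, 3), (6, 4), (5, 2), (0, 7), (7, 3), (7, 4), (7, 5), (7, 6), (0, 8), (8, 3), (8, 4), (8, 5), (8, 6), (7, 2)],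
    [(1, 2)],
    [],
    [],
    [],
    [(3, 4, [1, 2]), (5, 6, [1]), (7, 8, [1])]⟩

/-- symbols: 0=x 1=p 2=p' 3=t 4=w 5=ea 6=eb 7=ga 8=gb -/
def preK112 : Pre :=
  ⟨9,
    [(0, 1), (0, 2), (3, 1), (3, 2), (4, 1), (5, 1), (6, 2), (6, 1), (7, 2), (8, 1), (8, 2)],
    [(0, 3), (0, 4), (4, 2), (0, 5), (5, 3), (5, 4), (0, 6), (6, 3), (6, 4), (5, 2), (0, 7), (7, 3), (7, 4), (7, 5), (7, 6), (0, 8), (8, 3), (8, 4), (8, 5), (8, 6), (7, 1)],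
    [(1, 2)],
    [],
    [],
    [],
    [(3, 4, [1, 2]), (5, 6, [1]), (7, 8, [2])]⟩

/-- symbols: 0=x 1=p 2=p' 3=t 4=w 5=ea 6=eb 7=ga 8=gb -/
def preK120 : Pre :=
  ⟨9,
    [(0, 1), (0, 2), (3, 1), (3, 2), (4, 1), (5, 2), (6, 1), (6, 2), (7, 1), (8, 2)],
    [(0, 3), (0, 4), (4, 2), (0, 5), (5, 3), (5, 4), (0, 6), (6, 3), (6, 4), (5, 1), (0, 7), (7, 3), (7, 4), (7, 5), (7, 6), (0, 8), (8, 3), (8, 4), (8, 5), (8, 6), (7, 2), (8, 1)],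
    [(1, 2)],
    [],
    [],
    [],
    [(3, 4, [1, 2]), (5, 6, [2]), (7, 8, [1])]⟩

/-- symbols: 0=x 1=p 2=p' 3=t 4=w 5=ea 6=eb 7=ga 8=gb -/
def preK121 : Pre :=
  ⟨9,
    [(0, 1), (0, 2), (3, 1), (3, 2), (4, 1), (5, 2), (6, 1), (6, 2), (7, 1), (8, 2), (8, 1)],
    [(0, 3), (0, 4), (4, 2), (0, 5), (5, 3), (5, 4), (0, 6), (6, 3), (6, 4), (5, 1), (0, 7), (7, 3), (7, 4), (7, 5), (7, 6), (0, 8), (8, 3), (8, 4), (8, 5), (8, 6), (7, 2)],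
    [(1, 2)],
    [],
    [],
    [],
    [(3, 4, [1, 2]), (5, 6, [2]), (7, 8, [1])]⟩

/-- symbols: 0=x 1=p 2=p' 3=t 4=w 5=ea 6=eb 7=ga 8=gb -/
def preK122 : Pre :=
  ⟨9,
    [(0, 1), (0, 2), (3, 1), (3, 2), (4, 1), (5, 2), (6, 1), (6, 2), (7, 2), (8, 1), (8, 2)],
    [(0, 3), (0, 4), (4, 2), (0, 5), (5, 3), (5, 4), (0, 6), (6, 3), (6, 4), (5, 1), (0, 7), (7, 3), (7, 4), (7, 5), (7, 6), (0, 8), (8, 3), (8, 4), (8, 5), (8, 6), (7, 1)],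
    [(1, 2)],
    [],
    [],
    [],
    [(3, 4, [1, 2]), (5, 6, [2]), (7, 8, [2])]⟩

/-- symbols: 0=x 1=p 2=p' 3=s 4=t 5=w 6=c 7=al 8=be 9=f 10=y 11=y2 -/
def preK2000 : Pre :=
  ⟨12,
    [(0, 1), (0, 2), (0, 3), (4, 1), (4, 2), (4, 3), (5, 1), (6, 1), (6, 2), (7, 1), (8, 2), (10, 3), (11, 9)],
    [(0, 4), (0, 5), (5, 2), (0, 6), (6, 4), (6, 5), (6, 3), (0, 7), (7, 4), (7, 5), (7, 6), (0, 8), (8, 4), (8, 5), (8, 6), (7, 2), (0, 9), (9, 4), (9, 5), (9, 6), (7, 3), (8, 3), (9, 3), (0, 10), (10, 4), (10, 5), (10, 6), (0, 11), (11, 4), (11, 5), (11, 6)],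
    [(1, 2), (1, 3), (2, 3), (11, 7), (11, 8), (10, 7), (10, 9), (10, 8)],
    [(7, 9), (8, 9), (10, 11)],
    [([(7, 9), (9, 8)], 7, 8), ([(9, 8)], 9, 2), ([(10, 11)], 11, 3), ([(7, 9)], 7, 11), ([(10, 11)], 10, 7), ([(10, 11)], 10, 9), ([(10, 11)], 10, 8)],
    [],
    [(4, 5, [1, 2, 3]), (7, 9, [1]), (9, 8, [1, 10, 11]), (10, 11, [1, 2])]⟩

/-- symbols: 0=x 1=p 2=p' 3=s 4=t 5=w 6=c 7=al 8=be 9=f -/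
def preK2001 : Pre :=
  ⟨10,
    [(0, 1), (0, 2), (0, 3), (4, 1), (4, 2), (4, 3), (5, 1), (6, 1), (6, 2), (7, 1), (8, 2), (9, 3)],
    [(0, 4), (0, 5), (5, 2), (0, 6), (6, 4), (6, 5), (6, 3), (0, 7), (7, 4), (7, 5), (7, 6), (0, 8), (8, 4), (8, 5), (8, 6), (7, 2), (0, 9), (9, 4), (9, 5), (9, 6)],
    [(1, 2), (1, 3), (2, 3)],
    [(7, 9), (8, 9)],
    [([(7, 9), (9, 8)], 7, 8), ([(9, 8)], 9, 2), ([(7, 9)], 7, 3)],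
    [],
    [(4, 5, [1, 2, 3]), (7, 9, [1]), (9, 8, [1, 3])]⟩

/-- symbols: 0=x 1=p 2=p' 3=s 4=t 5=w 6=c 7=al 8=be 9=f 10=y 11=y2 -/
def preK2010 : Pre :=
  ⟨12,
    [(0, 1), (0, 2), (0, 3), (4, 1), (4, 2), (4, 3), (5, 1), (6, 1), (6, 2), (7, 2), (8, 1), (10, 3), (11, 9)],
    [(0, 4), (0, 5), (5, 2), (0, 6), (6, 4), (6, 5), (6, 3), (0, 7), (7, 4), (7, 5), (7, 6), (0, 8), (8, 4), (8, 5), (8, 6), (7, 1), (0, 9), (9, 4), (9, 5), (9, 6), (7, 3), (8, 3), (9, 3), (0, 10), (10, 4), (10, 5), (10, 6), (0, 11), (11, 4), (11, 5), (11, 6)],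
    [(1, 2), (1, 3), (2, 3), (11, 7), (11, 8), (10, 7), (10, 9), (10, 8)],
    [(7, 9), (8, 9), (10, 11)],
    [([(7, 9), (9, 8)], 7, 8), ([(9, 8)], 9, 1), ([(10, 11)], 11, 3), ([(7, 9)], 7, 11), ([(10, 11)], 10, 7), ([(10, 11)], 10, 9), ([(10, 11)], 10, 8)],
    [],
    [(4, 5, [1, 2, 3]), (7, 9, [2]), (9, 8, [2, 10, 11]), (10, 11, [2, 1])]⟩

/-- symbols: 0=x 1=p 2=p' 3=s 4=t 5=w 6=c 7=al 8=be 9=f -/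
def preK2011 : Pre :=
  ⟨10,
    [(0, 1), (0, 2), (0, 3), (4, 1), (4, 2), (4, 3), (5, 1), (6, 1), (6, 2), (7, 2), (8, 1), (9, 3)],
    [(0, 4), (0, 5), (5, 2), (0, 6), (6, 4), (6, 5), (6, 3), (0, 7), (7, 4), (7, 5), (7, 6), (0, 8), (8, 4), (8, 5), (8, 6), (7, 1), (0, 9), (9, 4), (9, 5), (9, 6)],
    [(1, 2), (1, 3), (2, 3)],
    [(7, 9), (8, 9)],
    [([(7, 9), (9, 8)], 7, 8), ([(9, 8)], 9, 1), ([(7, 9)], 7, 3)],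
    [],
    [(4, 5, [1, 2, 3]), (7, 9, [2]), (9, 8, [2, 3])]⟩

/-- symbols: 0=x 1=p 2=p' 3=s 4=t 5=w 6=c 7=c' 8=al 9=be 10=f 11=y 12=y2 -/
def preK2100 : Pre :=
  ⟨13,
    [(0, 1), (0, 2), (0, 3), (4, 1), (4, 2), (4, 3), (5, 1), (6, 1), (6, 2), (6, 3), (7, 3), (8, 1), (9, 2), (11, 3), (12, 10)],
    [(0, 4), (0, 5), (5, 2), (0, 6), (6, 4), (6, 5), (0, 7), (7, 4), (7, 5), (7, 1), (7, 2), (0, 8), (8, 4), (8, 5), (8, 6), (8, 7), (0, 9), (9, 4), (9, 5), (9, 6), (9, 7), (8, 2), (0, 10), (10, 4), (10, 5), (10, 6), (10, 7), (8, 3), (9, 3), (10, 3), (0, 11), (11, 4), (11, 5), (11, 6), (11, 7), (0, 12), (12, 4), (12, 5), (12, 6), (12, 7)],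
    [(1, 2), (1, 3), (2, 3), (12, 8), (12, 9), (11, 8), (11, 10), (11, 9)],
    [(8, 10), (9, 10), (11, 12)],
    [([(8, 10), (10, 9)], 8, 9), ([(10, 9)], 10, 2), ([(11, 12)], 12, 3), ([(8, 10)], 8, 12), ([(11, 12)], 11, 8), ([(11, 12)], 11, 10), ([(11, 12)], 11, 9)],
    [],
    [(4, 5, [1, 2, 3]), (6, 7, [1, 2, 3]), (8, 10, [1]), (10, 9, [1, 11, 12]), (11, 12, [1, 2])]⟩

/-- symbols: 0=x 1=p 2=p' 3=s 4=t 5=w 6=c 7=c' 8=al 9=be 10=f -/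
def preK2101 : Pre :=
  ⟨11,
    [(0, 1), (0, 2), (0, 3), (4, 1), (4, 2), (4, 3), (5, 1), (6, 1), (6, 2), (6, 3), (7, 3), (8, 1), (9, 2), (10, 3)],
    [(0, 4), (0, 5), (5, 2), (0, 6), (6, 4), (6, 5), (0, 7), (7, 4), (7, 5), (7, 1), (7, 2), (0, 8), (8, 4), (8, 5), (8, 6), (8, 7), (0, 9), (9, 4), (9, 5), (9, 6), (9, 7), (8, 2), (0, 10), (10, 4), (10, 5), (10, 6), (10, 7)],
    [(1, 2), (1, 3), (2, 3)],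
    [(8, 10), (9, 10)],
    [([(8, 10), (10, 9)], 8, 9), ([(10, 9)], 10, 2), ([(8, 10)], 8, 3)],
    [],
    [(4, 5, [1, 2, 3]), (6, 7, [1, 2, 3]), (8, 10, [1]), (10, 9, [1, 3])]⟩

/-- symbols: 0=x 1=p 2=p' 3=s 4=t 5=w 6=c 7=c' 8=al 9=be 10=f 11=y 12=y2 -/
def preK2110 : Pre :=
  ⟨13,
    [(0, 1), (0, 2), (0, 3), (4, 1), (4, 2), (4, 3), (5, 1), (6, 1), (6, 2), (6, 3), (7, 3), (8, 2), (9, 1), (11, 3), (12, 10)],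
    [(0, 4), (0, 5), (5, 2), (0, 6), (6, 4), (6, 5), (0, 7), (7, 4), (7, 5), (7, 1), (7, 2), (0, 8), (8, 4), (8, 5), (8, 6), (8, 7), (0, 9), (9, 4), (9, 5), (9, 6), (9, 7), (8, 1), (0, 10), (10, 4), (10, 5), (10, 6), (10, 7), (8, 3), (9, 3), (10, 3), (0, 11), (11, 4), (11, 5), (11, 6), (11, 7), (0, 12), (12, 4), (12, 5), (12, 6), (12, 7)],
    [(1, 2), (1, 3), (2, 3), (12, 8), (12, 9), (11, 8), (11, 10), (11, 9)],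
    [(8, 10), (9, 10), (11, 12)],
    [([(8, 10), (10, 9)], 8, 9), ([(10, 9)], 10, 1), ([(11, 12)], 12, 3), ([(8, 10)], 8, 12), ([(11, 12)], 11, 8), ([(11, 12)], 11, 10), ([(11, 12)], 11, 9)],
    [],
    [(4, 5, [1, 2, 3]), (6, 7, [1, 2, 3]), (8, 10, [2]), (10, 9, [2, 11, 12]), (11, 12, [2, 1])]⟩

/-- symbols: 0=x 1=p 2=p' 3=s 4=t 5=w 6=c 7=c' 8=al 9=be 10=f -/
def preK2111 : Pre :=
  ⟨11,
    [(0, 1), (0, 2), (0, 3), (4, 1), (4, 2), (4, 3), (5, 1), (6, 1), (6, 2), (6, 3), (7, 3), (8, 2), (9, 1), (10, 3)],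
    [(0, 4), (0, 5), (5, 2), (0, 6), (6, 4), (6, 5), (0, 7), (7, 4), (7, 5), (7, 1), (7, 2), (0, 8), (8, 4), (8, 5), (8, 6), (8, 7), (0, 9), (9, 4), (9, 5), (9, 6), (9, 7), (8, 1), (0, 10), (10, 4), (10, 5), (10, 6), (10, 7)],
    [(1, 2), (1, 3), (2, 3)],
    [(8, 10), (9, 10)],
    [([(8, 10), (10, 9)], 8, 9), ([(10, 9)], 10, 1), ([(8, 10)], 8, 3)],
    [],
    [(4, 5, [1, 2, 3]), (6, 7, [1, 2, 3]), (8, 10, [2]), (10, 9, [2, 3])]⟩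

/-- symbols: 0=x 1=a 2=b 3=a' 4=t 5=w 6=y 7=f 8=y2 9=bl 10=br 11=cl 12=cr -/
def preBB000 : Pre :=
  ⟨13,
    [(0, 1), (0, 2), (0, 3), (4, 1), (4, 2), (4, 3), (5, 1), (6, 3), (8, 7), (9, 1), (10, 2), (11, 3), (12, 2)],
    [(0, 4), (0, 5), (5, 2), (0, 6), (6, 2), (0, 7), (0, 8), (0, 9), (9, 4), (9, 5), (9, 6), (9, 7), (9, 8), (0, 10), (10, 4), (10, 5), (10, 6), (10, 7), (10, 8), (9, 3), (10, 3), (0, 11), (11, 4), (11, 5), (11, 6), (11, 7), (11, 8), (11, 9), (11, 10), (0, 12), (12, 4), (12, 5), (12, 6), (12, 7), (12, 8), (12, 9), (12, 10), (11, 1), (12, 1)],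
    [(1, 2), (1, 3), (2, 3), (8, 4), (8, 5), (6, 4), (6, 7), (6, 5)],
    [(4, 7), (5, 7), (6, 8), (9, 10), (11, 12)],
    [([(4, 7), (7, 5)], 4, 5), ([(4, 7)], 4, 8), ([(6, 8)], 6, 4), ([(6, 8)], 6, 7), ([(6, 8)], 6, 5), ([(9, 10)], 9, 2), ([(9, 10)], 10, 1), ([(11, 12)], 11, 2), ([(11, 12)], 12, 3)],
    [],
    [(4, 7, [1, 2, 3]), (7, 5, [1, 2, 3, 6, 8]), (6, 8, [1, 2, 3]), (9, 10, []), (11, 12, [])]⟩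

/-- symbols: 0=x 1=a 2=b 3=a' 4=t 5=w 6=y 7=bl 8=br 9=cl 10=cr -/
def preBB001 : Pre :=
  ⟨11,
    [(0, 1), (0, 2), (0, 3), (4, 1), (4, 2), (4, 3), (5, 1), (6, 3), (7, 1), (8, 2), (9, 3), (10, 2)],
    [(0, 4), (0, 5), (5, 2), (0, 6), (6, 2), (0, 7), (7, 4), (7, 5), (7, 6), (0, 8), (8, 4), (8, 5), (8, 6), (7, 3), (8, 3), (0, 9), (9, 4), (9, 5), (9, 6), (9, 7), (9, 8), (0, 10), (10, 4), (10, 5), (10, 6), (10, 7), (10, 8), (9, 1), (10, 1)],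
    [(1, 2), (1, 3), (2, 3), (4, 6)],
    [(5, 6), (7, 8), (9, 10)],
    [([(6, 5)], 4, 5), ([(7, 8)], 7, 2), ([(7, 8)], 8, 1), ([(9, 10)], 9, 2), ([(9, 10)], 10, 3)],
    [],
    [(4, 6, [1, 2, 3]), (6, 5, [1, 2, 3]), (7, 8, []), (9, 10, [])]⟩

/-- symbols: 0=x 1=a 2=b 3=a' 4=t 5=w 6=y 7=f 8=y2 9=bl 10=br 11=cl 12=cr -/
def preBB010 : Pre :=
  ⟨13,
    [(0, 1), (0, 2), (0, 3), (4, 1), (4, 2), (4, 3), (5, 1), (6, 2), (8, 7), (9, 1), (10, 2), (11, 3), (12, 2)],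
    [(0, 4), (0, 5), (5, 2), (0, 6), (6, 3), (0, 7), (0, 8), (0, 9), (9, 4), (9, 5), (9, 6), (9, 7), (9, 8), (0, 10), (10, 4), (10, 5), (10, 6), (10, 7), (10, 8), (9, 3), (10, 3), (0, 11), (11, 4), (11, 5), (11, 6), (11, 7), (11, 8), (11, 9), (11, 10), (0, 12), (12, 4), (12, 5), (12, 6), (12, 7), (12, 8), (12, 9), (12, 10), (11, 1), (12, 1)],
    [(1, 2), (1, 3), (2, 3), (8, 4), (8, 5), (6, 4), (6, 7), (6, 5)],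
    [(4, 7), (5, 7), (6, 8), (9, 10), (11, 12)],
    [([(4, 7), (7, 5)], 4, 5), ([(4, 7)], 4, 8), ([(6, 8)], 6, 4), ([(6, 8)], 6, 7), ([(6, 8)], 6, 5), ([(9, 10)], 9, 2), ([(9, 10)], 10, 1), ([(11, 12)], 11, 2), ([(11, 12)], 12, 3)],
    [],
    [(4, 7, [1, 2, 3]), (7, 5, [1, 2, 3, 6, 8]), (6, 8, [1, 2, 3]), (9, 10, []), (11, 12, [])]⟩

/-- symbols: 0=x 1=a 2=b 3=a' 4=t 5=w 6=y 7=bl 8=br 9=cl 10=cr -/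
def preBB011 : Pre :=
  ⟨11,
    [(0, 1), (0, 2), (0, 3), (4, 1), (4, 2), (4, 3), (5, 1), (6, 2), (7, 1), (8, 2), (9, 3), (10, 2)],
    [(0, 4), (0, 5), (5, 2), (0, 6), (6, 3), (0, 7), (7, 4), (7, 5), (7, 6), (0, 8), (8, 4), (8, 5), (8, 6), (7, 3), (8, 3), (0, 9), (9, 4), (9, 5), (9, 6), (9, 7), (9, 8), (0, 10), (10, 4), (10, 5), (10, 6), (10, 7), (10, 8), (9, 1), (10, 1)],
    [(1, 2), (1, 3), (2, 3), (4, 6)],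
    [(5, 6), (7, 8), (9, 10)],
    [([(6, 5)], 4, 5), ([(7, 8)], 7, 2), ([(7, 8)], 8, 1), ([(9, 10)], 9, 2), ([(9, 10)], 10, 3)],
    [],
    [(4, 6, [1, 2, 3]), (6, 5, [1, 2, 3]), (7, 8, []), (9, 10, [])]⟩

/-- symbols: 0=x 1=a 2=b 3=a' 4=t 5=w 6=y 7=f 8=y2 9=bl 10=br 11=cl 12=cr -/
def preBB100 : Pre :=
  ⟨13,
    [(0, 1), (0, 2), (0, 3), (4, 1), (4, 2), (4, 3), (5, 2), (6, 3), (8, 7), (9, 1), (10, 2), (11, 3), (12, 2)],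
    [(0, 4), (0, 5), (5, 1), (0, 6), (6, 2), (0, 7), (0, 8), (0, 9), (9, 4), (9, 5), (9, 6), (9, 7), (9, 8), (0, 10), (10, 4), (10, 5), (10, 6), (10, 7), (10, 8), (9, 3), (10, 3), (0, 11), (11, 4), (11, 5), (11, 6), (11, 7), (11, 8), (11, 9), (11, 10), (0, 12), (12, 4), (12, 5), (12, 6), (12, 7), (12, 8), (12, 9), (12, 10), (11, 1), (12, 1)],
    [(1, 2), (1, 3), (2, 3), (8, 4), (8, 5), (6, 4), (6, 7), (6, 5)],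
    [(4, 7), (5, 7), (6, 8), (9, 10), (11, 12)],
    [([(4, 7), (7, 5)], 4, 5), ([(4, 7)], 4, 8), ([(6, 8)], 6, 4), ([(6, 8)], 6, 7), ([(6, 8)], 6, 5), ([(9, 10)], 9, 2), ([(9, 10)], 10, 1), ([(11, 12)], 11, 2), ([(11, 12)], 12, 3)],
    [],
    [(4, 7, [1, 2, 3]), (7, 5, [1, 2, 3, 6, 8]), (6, 8, [1, 2, 3]), (9, 10, []), (11, 12, [])]⟩

/-- symbols: 0=x 1=a 2=b 3=a' 4=t 5=w 6=y 7=bl 8=br 9=cl 10=cr -/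
def preBB101 : Pre :=
  ⟨11,
    [(0, 1), (0, 2), (0, 3), (4, 1), (4, 2), (4, 3), (5, 2), (6, 3), (7, 1), (8, 2), (9, 3), (10, 2)],
    [(0, 4), (0, 5), (5, 1), (0, 6), (6, 2), (0, 7), (7, 4), (7, 5), (7, 6), (0, 8), (8, 4), (8, 5), (8, 6), (7, 3), (8, 3), (0, 9), (9, 4), (9, 5), (9, 6), (9, 7), (9, 8), (0, 10), (10, 4), (10, 5), (10, 6), (10, 7), (10, 8), (9, 1), (10, 1)],
    [(1, 2), (1, 3), (2, 3), (4, 6)],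
    [(5, 6), (7, 8), (9, 10)],
    [([(6, 5)], 4, 5), ([(7, 8)], 7, 2), ([(7, 8)], 8, 1), ([(9, 10)], 9, 2), ([(9, 10)], 10, 3)],
    [],
    [(4, 6, [1, 2, 3]), (6, 5, [1, 2, 3]), (7, 8, []), (9, 10, [])]⟩

/-- symbols: 0=x 1=a 2=b 3=a' 4=t 5=w 6=y 7=f 8=y2 9=bl 10=br 11=cl 12=cr -/
def preBB110 : Pre :=
  ⟨13,
    [(0, 1), (0, 2), (0, 3), (4, 1), (4, 2), (4, 3), (5, 2), (6, 2), (8, 7), (9, 1), (10, 2), (11, 3), (12, 2)],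
    [(0, 4), (0, 5), (5, 1), (0, 6), (6, 3), (0, 7), (0, 8), (0, 9), (9, 4), (9, 5), (9, 6), (9, 7), (9, 8), (0, 10), (10, 4), (10, 5), (10, 6), (10, 7), (10, 8), (9, 3), (10, 3), (0, 11), (11, 4), (11, 5), (11, 6), (11, 7), (11, 8), (11, 9), (11, 10), (0, 12), (12, 4), (12, 5), (12, 6), (12, 7), (12, 8), (12, 9), (12, 10), (11, 1), (12, 1)],
    [(1, 2), (1, 3), (2, 3), (8, 4), (8, 5), (6, 4), (6, 7), (6, 5)],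
    [(4, 7), (5, 7), (6, 8), (9, 10), (11, 12)],
    [([(4, 7), (7, 5)], 4, 5), ([(4, 7)], 4, 8), ([(6, 8)], 6, 4), ([(6, 8)], 6, 7), ([(6, 8)], 6, 5), ([(9, 10)], 9, 2), ([(9, 10)], 10, 1), ([(11, 12)], 11, 2), ([(11, 12)], 12, 3)],
    [],
    [(4, 7, [1, 2, 3]), (7, 5, [1, 2, 3, 6, 8]), (6, 8, [1, 2, 3]), (9, 10, []), (11, 12, [])]⟩

/-- symbols: 0=x 1=a 2=b 3=a' 4=t 5=w 6=y 7=bl 8=br 9=cl 10=cr -/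
def preBB111 : Pre :=
  ⟨11,
    [(0, 1), (0, 2), (0, 3), (4, 1), (4, 2), (4, 3), (5, 2), (6, 2), (7, 1), (8, 2), (9, 3), (10, 2)],
    [(0, 4), (0, 5), (5, 1), (0, 6), (6, 3), (0, 7), (7, 4), (7, 5), (7, 6), (0, 8), (8, 4), (8, 5), (8, 6), (7, 3), (8, 3), (0, 9), (9, 4), (9, 5), (9, 6), (9, 7), (9, 8), (0, 10), (10, 4), (10, 5), (10, 6), (10, 7), (10, 8), (9, 1), (10, 1)],
    [(1, 2), (1, 3), (2, 3), (4, 6)],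
    [(5, 6), (7, 8), (9, 10)],
    [([(6, 5)], 4, 5), ([(7, 8)], 7, 2), ([(7, 8)], 8, 1), ([(9, 10)], 9, 2), ([(9, 10)], 10, 3)],
    [],
    [(4, 6, [1, 2, 3]), (6, 5, [1, 2, 3]), (7, 8, []), (9, 10, [])]⟩

/-- symbols: 0=x 1=a 2=b 3=b' 4=a' 5=t 6=w 7=l2 8=e2 9=l3 10=e3 -/
def preBC : Pre :=
  ⟨11,
    [(0, 1), (0, 2), (0, 3), (0, 4), (5, 1), (5, 2), (5, 3), (5, 4), (6, 2), (7, 1), (8, 2), (8, 3), (9, 4), (10, 2), (10, 3)],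
    [(0, 5), (0, 6), (6, 3), (0, 7), (7, 5), (7, 6), (0, 8), (8, 5), (8, 6), (7, 4), (8, 4), (0, 9), (9, 5), (9, 6), (9, 7), (9, 8), (0, 10), (10, 5), (10, 6), (10, 7), (10, 8), (9, 1), (10, 1)],
    [(1, 2), (1, 3), (1, 4), (2, 3), (2, 4), (3, 4)],
    [(7, 8), (9, 10)],
    [([(7, 8)], 7, 2), ([(7, 8)], 7, 3), ([(7, 8)], 8, 1), ([(9, 10)], 9, 2), ([(9, 10)], 9, 3), ([(9, 10)], 10, 4)],
    [],
    [(5, 6, [1, 2, 3, 4]), (7, 8, []), (9, 10, [])]⟩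

end Pool.Agent.Helper64.FL
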