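import Pool.Agent.Helper64.FL.PreCI
import Pool.Agent.Helper64.FL.PreB

/-! Full list for MP_866009_co: notions for the graph theoretic part. -/

set_option autoImplicit false

namespace Pool.Agent.Helper64.FL

open Pool.Agent.Helper64.CT Pool.Agent.Helper64.DT
open Pool.Agent.Helper64.HG (Ovl Model Circ IC HellyCircle ChordModel)

variable {V : Type}

/-- no configuration of the list occurs -/
def NoP (G : SimpleGraph V) (P : List Pre) : Prop :=
  ∀ p ∈ P, ∀ (f : ℕ → V) (L : List (List V)), ¬ PMod G p f L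

/-- `x` and `y` are connected inside `S` -/
def Cn (G : SimpleGraph V) (S : Set V) (x y : V) : Prop :=
  x ∈ S ∧ Relation.ReflTransGen (fun u w => G.Adj u w ∧ w ∈ S) x y

/-- induced path from `a` to `w` with interior `l`, trivial if `a = w` -/
def Pth (G : SimpleGraph V) (a : V) (l : List V) (w : V) : Prop :=
  (a = w ∧ l = []) ∨ (a ≠ w ∧ IPt G (a :: (l ++ [w])))

/-- disjoint and no edges between -/
def Anti (G : SimpleGraph V) (A B : Set V) : Prop := ∀ u ∈ A, ∀ v ∈ B, u ≠ v ∧ ¬ G.Adj u v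

/-- the component of `y` in `G - N[x]` -/
def KC (G : SimpleGraph V) (x y : V) : Set V := {z | Comp G x y z}

/-- induced path in `K` from `a` through `f` to `w`, interiors `l1` and `l2`; one or both parts may
be trivial -/
structure P2 (G : SimpleGraph V) (K : Set V) (a : V) (l1 : List V) (f : V) (l2 : List V) (w : V) :
    Prop where
  aK : a ∈ K
  fK : f ∈ K
  wK : w ∈ K
  l1K : ∀ u ∈ l1, u ∈ K
  l2K : ∀ u ∈ l2, u ∈ K
  p1 : Pth G a l1 f
  p2 : Pth G f l2 w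
  aw : a ≠ f → f ≠ w → a ≠ w ∧ ¬ G.Adj a w
  al2 : a ≠ f → ∀ u ∈ l2, a ≠ u ∧ ¬ G.Adj a u
  l1w : f ≠ w → ∀ u ∈ l1, u ≠ w ∧ ¬ G.Adj u w
  l12 : ∀ u ∈ l1, ∀ v ∈ l2, u ≠ v ∧ ¬ G.Adj u v

/-- `f` is the first vertex with property `φ` on the path from `t` through `f` to `w` -/
structure OnP (G : SimpleGraph V) (K : Set V) (φ : V → Prop) (t : V) (l1 : List V) (f : V)
    (l2 : List V) (w : V) : Prop extends P2 G K t l1 f l2 w where
  ff : φ f
  ft : t ≠ f → ¬ φ t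
  fl : ∀ u ∈ l1, ¬ φ u

/-- no vertex on the path from `t` through `f` to `w` has property `φ`; the path from `y` to `y2`
is a shortest path from a vertex with property `φ` to the neighbourhood of the first path, and `f`
is the first neighbour of `y2` on the first path -/
structure OffP (G : SimpleGraph V) (K : Set V) (φ : V → Prop) (t : V) (l1 : List V) (f : V)
    (l2 : List V) (w : V) (y : V) (l3 : List V) (y2 : V) : Prop extends P2 G K t l1 f l2 w where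
  nt : ¬ φ t
  nf : ¬ φ f
  nw : ¬ φ w
  nl1 : ∀ u ∈ l1, ¬ φ u
  nl2 : ∀ u ∈ l2, ¬ φ u
  yK : y ∈ K
  y2K : y2 ∈ K
  l3K : ∀ u ∈ l3, u ∈ K
  p3 : Pth G y l3 y2
  yφ : φ y
  y2φ : y ≠ y2 → ¬ φ y2
  l3φ : ∀ u ∈ l3, ¬ φ u
  y2f : G.Adj y2 f
  y2t : t ≠ f → ¬ G.Adj y2 t
  y2l : ∀ u ∈ l1, ¬ G.Adj y2 u
  sep : ∀ v, (v = t ∨ v = f ∨ v = w ∨ v ∈ l1 ∨ v ∈ l2) → y ≠ v ∧ y2 ≠ v ∧
    (y ≠ y2 → ¬ G.Adj y v) ∧ ∀ u ∈ l3, u ≠ v ∧ ¬ G.Adj u v

/-- link: shortest path in `K` between the neighbours of `a` and the neighbours of `b` -/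
structure Lnk (G : SimpleGraph V) (K : Set V) (a b l : V) (L : List V) (r : V) : Prop where
  lK : l ∈ K
  rK : r ∈ K
  LK : ∀ u ∈ L, u ∈ K
  pth : Pth G l L r
  la : G.Adj l a
  rb : G.Adj r b
  Lab : ∀ u ∈ L, ¬ G.Adj u a ∧ ¬ G.Adj u b
  lr : l ≠ r → ¬ G.Adj l b ∧ ¬ G.Adj r a

/-- path in `K` from `l` to the nearest neighbour `r` of `b` -/
structure Nrl (G : SimpleGraph V) (K : Set V) (l : V) (L : List V) (r b : V) : Prop where
  lK : l ∈ K
  rK : r ∈ K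
  LK : ∀ u ∈ L, u ∈ K
  pth : Pth G l L r
  rb : G.Adj r b
  Lb : ∀ u ∈ L, ¬ G.Adj u b
  lr : l ≠ r → ¬ G.Adj l b

/-- path in `K` -/
structure PtK (G : SimpleGraph V) (K : Set V) (l : V) (L : List V) (r : V) : Prop where
  lK : l ∈ K
  rK : r ∈ K
  LK : ∀ u ∈ L, u ∈ K
  pth : Pth G l L r

/-- violation of (CI) inside `S` -/
structure CIV (G : SimpleGraph V) (S : Set V) (v a b c : V) : Prop where
  va : G.Adj v a
  vb : G.Adj v b
  vc : G.Adj v c
  vS : v ∈ S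
  ab : Cn G (S ∩ Far G c) a b
  bc : Cn G (S ∩ Far G a) b c
  ac : Cn G (S ∩ Far G b) a c

/-- two legs of a subdivided claw centred at `o` (the legs may be trivial) are anticomplete -/
def LegX (G : SimpleGraph V) (o : V) (la : List V) (a : V) (lb : List V) (b : V) : Prop :=
  ∀ u, (u ∈ la ∨ (u = a ∧ a ≠ o)) → ∀ v, (v ∈ lb ∨ (v = b ∧ b ≠ o)) → u ≠ v ∧ ¬ G.Adj u v

/-- induced subdivided claw in `S` with centre `o` and ends `a`, `b`, `c`; legs may be trivial -/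
structure Clw (G : SimpleGraph V) (S : Set V) (o : V) (la : List V) (a : V) (lb : List V) (b : V)
    (lc : List V) (c : V) : Prop where
  oS : o ∈ S
  inS : ∀ u, (u ∈ la ∨ u ∈ lb ∨ u ∈ lc ∨ u = a ∨ u = b ∨ u = c) → u ∈ S
  pa : Pth G o la a
  pb : Pth G o lb b
  pc : Pth G o lc c
  ab : LegX G o la a lb b
  ac : LegX G o la a lc c
  bc : LegX G o lb b lc c

/-- the only edge between the paths `x, la, a` and `y, lb, b` is `x y` -/
def NetX (G : SimpleGraph V) (x : V) (la : List V) (a y : V) (lb : List V) (b : V) : Prop :=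
  ∀ u, (u = x ∨ u ∈ la ∨ u = a) → ∀ v, (v = y ∨ v ∈ lb ∨ v = b) → u ≠ v ∧
    (G.Adj u v → u = x ∧ v = y)

/-- induced net in `S` with triangle `x`, `y`, `z` and ends `a`, `b`, `c`; legs may be trivial -/
structure Net (G : SimpleGraph V) (S : Set V) (x y z : V) (la : List V) (a : V) (lb : List V)
    (b : V) (lc : List V) (c : V) : Prop where
  inS : ∀ u, (u = x ∨ u = y ∨ u = z ∨ u ∈ la ∨ u ∈ lb ∨ u ∈ lc ∨ u = a ∨ u = b ∨ u = c) → u ∈ S
  xy : G.Adj x y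
  xz : G.Adj x z
  yz : G.Adj y z
  pa : Pth G x la a
  pb : Pth G y lb b
  pc : Pth G z lc c
  ab : NetX G x la a y lb b
  ac : NetX G x la a z lc c
  bc : NetX G y lb b z lc c

/-- two anticomplete paths `a, la, a'` and `b, lb, b'` not attached to `c`, attached to the
neighbours `g`, `h` of `c` only by `a' g` and `b' h` (apart from possible further edges at `h`, `g`) -/
structure TwoL (G : SimpleGraph V) (v c g h a : V) (la : List V) (a' b : V) (lb : List V)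
    (b' : V) : Prop where
  cg : G.Adj c g
  ch : G.Adj c h
  ag : G.Adj a' g
  bh : G.Adj b' h
  pa : Pth G a la a'
  pb : Pth G b lb b'
  ab : ∀ u, (u = a ∨ u ∈ la ∨ u = a') → ∀ w, (w = b ∨ w ∈ lb ∨ w = b') → u ≠ w ∧ ¬ G.Adj u w
  ca : ∀ u, (u = a ∨ u ∈ la ∨ u = a') → u ≠ c ∧ ¬ G.Adj c u ∧ u ≠ g ∧ u ≠ h ∧ u ≠ v
  cb : ∀ u, (u = b ∨ u ∈ lb ∨ u = b') → u ≠ c ∧ ¬ G.Adj c u ∧ u ≠ g ∧ u ≠ h ∧ u ≠ v
  ga : (a ≠ a' → ¬ G.Adj a g) ∧ ∀ u ∈ la, ¬ G.Adj u g
  hb : (b ≠ b' → ¬ G.Adj b h) ∧ ∀ u ∈ lb, ¬ G.Adj u h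
  vg : v ≠ g
  vh : v ≠ h

/-- common part of the configurations of type IIA -/
structure IIA (G : SimpleGraph V) (x y1 y2 y3 p p' q t w z : V) (Lz : List V) (r : V) : Prop where
  c12 : ¬ Comp G x y1 y2
  c13 : ¬ Comp G x y1 y3
  c23 : ¬ Comp G x y2 y3
  xp : G.Adj x p
  xp' : G.Adj x p'
  xq : G.Adj x q
  tK : t ∈ KC G x y1
  wK : w ∈ KC G x y1
  tp : G.Adj t p
  tp' : G.Adj t p'
  tq : ¬ G.Adj t q
  wp : G.Adj w p
  wp' : ¬ G.Adj w p'
  q2 : q ∉ Att G x y2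
  zp : (G.Adj z p ∧ ¬ G.Adj z p') ∨ (G.Adj z p' ∧ ¬ G.Adj z p)
  zr : Nrl G (KC G x y3) z Lz r q

/-- the pair `p`, `p'` is split in `K` -/
def Spl3 (G : SimpleGraph V) (K : Set V) (p p' : V) : Prop := ∃ (l r : V) (L : List V),
  (G.Adj l p ∧ ¬ G.Adj l p' ∧ Nrl G K l L r p') ∨
  (G.Adj l p' ∧ ¬ G.Adj l p ∧ Nrl G K l L r p ∧ G.Adj r p')

/-- the configurations used for (CI) -/
def preCIs : List Pre := [preA1c, preA1n, preA2g, preA2p, preA3]

/-- the configurations used for three conflicting components -/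
def preBs : List Pre :=
  [preB2, preIIAa0, preIIAa1, preIIAa2, preIIAa3, preIIAa5, preIIAa6, preIIAa7, preIIAb0,
    preIIAb1, preIIAb2, preIIAb3, preIIAb5, preIIAb6, preIIAb7, preK100, preK101, preK102,
    preK110, preK111, preK112, preK120, preK121, preK122, preK2000, preK2001, preK2010, preK2011,
    preK2100, preK2101, preK2110, preK2111, preBB000, preBB001, preBB010, preBB011, preBB100,
    preBB101, preBB110, preBB111, preBC]

end Pool.Agent.Helper64.FL
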