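import Pool.Agent.Helper64.FL.StE

/-! Full list for MP_866009_co: start configurations with possible coincidences. -/

set_option autoImplicit false

namespace Pool.Agent.Helper64.FL

open Pool.Agent.Helper64.CT Pool.Agent.Helper64.DT
open Pool.Agent.Helper64.HG (Ovl Model Circ IC HellyCircle ChordModel)

/-- a start configuration: symbols `0, …, n-1`; `e`: adjacent pairs; `d`: different nonadjacent
pairs; `ne`: different pairs; `q`: pairs that may coincide; `c`: `(K, x, y)` means that `x` and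
`y` are different and nonadjacent if the two symbols of every pair in `K` are different; `cn`: the
same without nonadjacent; `g`: `(u, w, U)` is a path from `u` to `w` (trivial if `u` and `w`
coincide) whose interior is clean to all symbols not in `U` -/
structure Pre where
  n : ℕ
  e : List (ℕ × ℕ)
  d : List (ℕ × ℕ)
  ne : List (ℕ × ℕ)
  q : List (ℕ × ℕ)
  c : List (List (ℕ × ℕ) × ℕ × ℕ)
  cn : List (List (ℕ × ℕ) × ℕ × ℕ)
  g : List (ℕ × ℕ × List ℕ)

/-- membership in a list of numbers -/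
def memn (i : ℕ) : List ℕ → Bool
  | [] => false
  | a :: l => Nat.beq a i || memn i l

/-- `i`, `j` have a common relation to a third symbol that shows that they are different -/
def dis3 (p : Pre) (i j : ℕ) : ℕ → Bool
  | 0 => false
  | k + 1 => (memp i k p.e && memp j k p.d) || (memp i k p.d && memp j k p.e) || dis3 p i j k

/-- `i`, `j` are known to be different or are in the list `q` -/
def okd (p : Pre) (i j : ℕ) : Bool :=
  memp i j p.q || memp i j p.e || memp i j p.d || memp i j p.ne || dis3 p i j p.n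

def okR (p : Pre) (j : ℕ) : ℕ → Bool
  | 0 => true
  | i + 1 => okd p i j && okR p j i

def okA (p : Pre) : ℕ → Bool
  | 0 => true
  | j + 1 => okR p j j && okA p j

/-- replace `a` by `b` in a list -/
def repl (a b : ℕ) : List ℕ → List ℕ
  | [] => []
  | x :: l => (bif Nat.beq x a then b else x) :: repl a b l

/-- `[0, …, n-1]` -/
def idl : ℕ → List ℕ
  | 0 => []
  | n + 1 => idl n ++ [n]

/-- representatives for the coincidence pattern `ch` -/
def reps : List (ℕ × ℕ) → ℕ → List ℕ → List ℕ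
  | [], _, r => r
  | (i, j) :: l, ch, r => reps l (Nat.shiftRight ch 1)
      (bif Nat.beq (Nat.land ch 1) 1 then
        (bif Nat.ble (nth r i) (nth r j) then repl (nth r j) (nth r i) r
          else repl (nth r i) (nth r j) r) else r)

/-- number of the elements `k < m` of `r` with `r k = k` (the representatives) -/
def cnt (r : List ℕ) : ℕ → ℕ
  | 0 => 0
  | k + 1 => bif Nat.beq (nth r k) k then Nat.succ (cnt r k) else cnt r k

/-- the new index of the symbol `i` -/
def nu (r : List ℕ) (i : ℕ) : ℕ := cnt r (nth r i)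

/-- bits for a list of pairs; `none` if a pair is degenerate -/
def bits (r : List ℕ) : List (ℕ × ℕ) → Option ℕ
  | [] => some 0
  | (i, j) :: l =>
    match bits r l with
    | none => none
    | some m => bif Nat.beq (nu r i) (nu r j) then none else some (sb m (px (nu r i) (nu r j)))

/-- all pairs have different classes -/
def cnd (r : List ℕ) : List (ℕ × ℕ) → Bool
  | [] => true
  | (i, j) :: l => !(Nat.beq (nu r i) (nu r j)) && cnd r l

def bitc (r : List ℕ) : List (List (ℕ × ℕ) × ℕ × ℕ) → Option ℕ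
  | [] => some 0
  | (K, x, y) :: l =>
    match bitc r l with
    | none => none
    | some m =>
      bif cnd r K then
        bif Nat.beq (nu r x) (nu r y) then none else some (sb m (px (nu r x) (nu r y)))
      else some m

/-- the conditional facts in `cn` are satisfied by the classes -/
def cnk (r : List ℕ) : List (List (ℕ × ℕ) × ℕ × ℕ) → Bool
  | [] => true
  | (K, x, y) :: l => !(cnd r K && Nat.beq (nu r x) (nu r y)) && cnk r l

/-- the pattern `ch` is consistent with the classes -/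
def cons (r : List ℕ) : List (ℕ × ℕ) → ℕ → Bool
  | [], _ => true
  | (i, j) :: l, ch => (Nat.beq (Nat.land ch 1) 1 || !(Nat.beq (nu r i) (nu r j))) &&
      cons r l (Nat.shiftRight ch 1)

/-- mask of the new indices of the symbols `k < m` not in `U` -/
def mku (r : List ℕ) (U : List ℕ) : ℕ → ℕ
  | 0 => 0
  | k + 1 => bif memn k U then mku r U k else sb (mku r U k) (nu r k)

def segl (r : List ℕ) (n : ℕ) : List (ℕ × ℕ × List ℕ) → List Seg
  | [] => []
  | (u, w, U) :: l => bif Nat.beq (nu r u) (nu r w) then segl r n l else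
      ⟨nu r u, nu r w, clr (clr (mku r U n) (nu r u)) (nu r w)⟩ :: segl r n l

/-- the state for the coincidence pattern `ch` -/
def inst (p : Pre) (ch : ℕ) : Option Sk :=
  match bits (reps p.q ch (idl p.n)) p.e, bits (reps p.q ch (idl p.n)) p.d,
    bitc (reps p.q ch (idl p.n)) p.c with
  | some e, some d, some c =>
    bif Nat.beq (Nat.land e (Nat.lor d c)) 0 && cnk (reps p.q ch (idl p.n)) p.cn &&
        cons (reps p.q ch (idl p.n)) p.q ch then
      some ⟨cnt (reps p.q ch (idl p.n)) p.n, e, Nat.lor d c,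
        segl (reps p.q ch (idl p.n)) p.n p.g⟩ else none
  | _, _, _ => none

/-- all pairs and segments use symbols `< n`, pairs in `q` are increasing -/
def okI (p : Pre) : Bool :=
  p.e.all (fun x => Nat.blt x.1 p.n && Nat.blt x.2 p.n && !(Nat.beq x.1 x.2)) &&
  p.d.all (fun x => Nat.blt x.1 p.n && Nat.blt x.2 p.n && !(Nat.beq x.1 x.2)) &&
  p.ne.all (fun x => Nat.blt x.1 p.n && Nat.blt x.2 p.n && !(Nat.beq x.1 x.2)) &&
  p.q.all (fun x => Nat.blt x.1 x.2 && Nat.blt x.2 p.n) &&
  p.c.all (fun x => Nat.blt x.2.1 p.n && Nat.blt x.2.2 p.n && !(Nat.beq x.2.1 x.2.2) &&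
    x.1.all (fun y => Nat.blt y.1 p.n && Nat.blt y.2 p.n)) &&
  p.cn.all (fun x => Nat.blt x.2.1 p.n && Nat.blt x.2.2 p.n && !(Nat.beq x.2.1 x.2.2) &&
    x.1.all (fun y => Nat.blt y.1 p.n && Nat.blt y.2 p.n)) &&
  p.g.all (fun x => Nat.blt x.1 p.n && Nat.blt x.2.1 p.n && !(Nat.beq x.1 x.2.1)) &&
  Nat.ble p.n 32 && okA p p.n

/-- check of all coincidence patterns `ch, ch + 1, …` against a list of certificates and trees -/
def chkL (tb0 : List Ent) (p : Pre) : List (ℕ × ℕ × Tr) → ℕ → Bool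
  | [], _ => true
  | (k, m, t) :: l, ch =>
    (match inst p ch with
     | none => true
     | some s => crt s 32 k m 0 && chk tb0 true t s) && chkL tb0 p l (Nat.succ ch)

def chkP (tb0 : List Ent) (p : Pre) (l : List (ℕ × ℕ × Tr)) : Bool :=
  okI p && Nat.beq l.length (Nat.shiftLeft 1 p.q.length) && chkL tb0 p l 0

/-- check of root certificates only -/
def chkM (p : Pre) : List (ℕ × ℕ) → ℕ → Bool
  | [], _ => true
  | (k, m) :: l, ch =>
    (match inst p ch with
     | none => true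
     | some s => crt s 32 k m 0) && chkM p l (Nat.succ ch)

def chkR (p : Pre) (l : List (ℕ × ℕ)) : Bool :=
  okI p && Nat.beq l.length (Nat.shiftLeft 1 p.q.length) && chkM p l 0

variable {V : Type}

/-- the configuration `p` is realized by `f` and the interiors `L` of the paths -/
structure PMod (G : SimpleGraph V) (p : Pre) (f : ℕ → V) (L : List (List V)) : Prop where
  e : ∀ x ∈ p.e, G.Adj (f x.1) (f x.2)
  d : ∀ x ∈ p.d, f x.1 ≠ f x.2 ∧ ¬ G.Adj (f x.1) (f x.2)
  ne : ∀ x ∈ p.ne, f x.1 ≠ f x.2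
  c : ∀ x ∈ p.c, (∀ y ∈ x.1, f y.1 ≠ f y.2) → f x.2.1 ≠ f x.2.2 ∧ ¬ G.Adj (f x.2.1) (f x.2.2)
  cn : ∀ x ∈ p.cn, (∀ y ∈ x.1, f y.1 ≠ f y.2) → f x.2.1 ≠ f x.2.2
  len : L.length = p.g.length
  tri : ∀ y ∈ p.g.zip L, f y.1.1 = f y.1.2.1 → y.2 = []
  pth : ∀ y ∈ p.g.zip L, f y.1.1 ≠ f y.1.2.1 → IPt G (f y.1.1 :: (y.2 ++ [f y.1.2.1]))
  dis : ∀ y ∈ p.g.zip L, ∀ i < p.n, f i ∉ y.2
  cln : ∀ y ∈ p.g.zip L, ∀ i < p.n, i ∉ y.1.2.2 → f i ≠ f y.1.1 → f i ≠ f y.1.2.1 →
    ∀ x ∈ y.2, ¬ G.Adj (f i) x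
  sep : L.Pairwise (fun A B => ∀ x ∈ A, ∀ y ∈ B, x ≠ y ∧ ¬ G.Adj x y)

/-- representatives -/
def ST_RPS : Prop := ∀ (V : Type) (n : ℕ) (q : List (ℕ × ℕ)) (f : ℕ → V),
  (∀ x ∈ q, x.1 < x.2 ∧ x.2 < n) → (∀ i j, i < j → j < n → f i = f j → (i, j) ∈ q) →
  ∃ ch, ch < Nat.shiftLeft 1 q.length ∧ cons (reps q ch (idl n)) q ch = true ∧ (reps q ch (idl n)).length = n ∧
    (∀ i, i < n → nth (reps q ch (idl n)) i ≤ i ∧
      nth (reps q ch (idl n)) (nth (reps q ch (idl n)) i) = nth (reps q ch (idl n)) i) ∧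
    ∀ i j, i < n → j < n → (nth (reps q ch (idl n)) i = nth (reps q ch (idl n)) j ↔ f i = f j)

/-- new indices -/
def ST_NUB : Prop := ∀ (n : ℕ) (r : List ℕ),
  (∀ i, i < n → nth r i ≤ i ∧ nth r (nth r i) = nth r i) →
  (∀ i, i < n → nu r i < cnt r n) ∧
  (∀ i j, i < n → j < n → (nu r i = nu r j ↔ nth r i = nth r j)) ∧
  (∀ m, m < cnt r n → ∃ i, i < n ∧ nu r i = m) ∧ cnt r n ≤ n

/-- coincidence patterns -/
def ST_PIN : Prop := ∀ (V : Type) (G : SimpleGraph V) (p : Pre) (f : ℕ → V) (L : List (List V)),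
  PMod G p f L → okI p = true → ∃ ch s, ch < Nat.shiftLeft 1 p.q.length ∧ inst p ch = some s ∧
    ∃ f' L', Mod G s f' L' ∧ (∀ i, i < s.n → ∃ j, j < p.n ∧ f' i = f j) ∧
      ∀ y ∈ L', ∀ x ∈ y.2, ∃ A ∈ L, x ∈ A

/-- the engine for start configurations -/
def ST_PRE : Prop := ∀ (V : Type) (G : SimpleGraph V) (tb0 : List Ent) (p : Pre) (f : ℕ → V)
    (L : List (List V)) (l : List (ℕ × ℕ × Tr)), Red G → PMod G p f L → chkP tb0 p l = true →
  Out G tb0

/-- root certificates for start configurations -/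
def ST_PRC : Prop := ∀ (V : Type) (G : SimpleGraph V) (p : Pre) (f : ℕ → V)
    (L : List (List V)) (l : List (ℕ × ℕ)) (S : Set V), PMod G p f L → chkR p l = true →
  (∀ i, i < p.n → f i ∈ S) → (∀ A ∈ L, ∀ x ∈ A, x ∈ S) → ¬ NAJ G S

end Pool.Agent.Helper64.FL
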