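import Pool.Agent.Helper64.FL.Pre

set_option autoImplicit false

namespace Pool.Agent.Helper64.FL

/-- symbols: 0=v 1=a 2=b 3=c 4=o 5=a1 6=b1 7=c1 -/
def preA1c : Pre :=
  ⟨8,
    [(0, 1), (0, 2), (0, 3), (4, 5), (4, 6), (4, 7)],
    [(1, 2), (1, 3), (2, 3), (4, 1), (4, 2), (4, 3), (5, 2), (5, 3), (5, 6), (5, 7), (6, 1), (6, 3), (6, 7), (7, 1), (7, 2)],
    [(0, 4), (0, 5), (0, 6), (0, 7), (1, 5), (2, 6), (3, 7)],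
    [],
    [],
    [],
    [(5, 1, [0]), (6, 2, [0]), (7, 3, [0])]⟩

/-- symbols: 0=v 1=a 2=b 3=c 4=x 5=y 6=z -/
def preA1n : Pre :=
  ⟨7,
    [(0, 1), (0, 2), (0, 3), (4, 5), (4, 6), (5, 6)],
    [(1, 2), (1, 3), (2, 3), (4, 2), (4, 3), (5, 1), (5, 3), (6, 1), (6, 2)],
    [(4, 1), (5, 2), (6, 3), (0, 4), (0, 5), (0, 6)],
    [],
    [],
    [],
    [(4, 1, [0]), (5, 2, [0]), (6, 3, [0])]⟩

/-- symbols: 0=v 1=a 2=b 3=c 4=g 5=h 6=aj 7=as 8=bj 9=bt 10=q1 11=qk -/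
def preA2g : Pre :=
  ⟨12,
    [(0, 1), (0, 2), (0, 3), (3, 4), (3, 5), (7, 4), (9, 5), (10, 6), (11, 8)],
    [(1, 2), (1, 8), (1, 9), (6, 2), (6, 8), (6, 9), (7, 2), (7, 8), (7, 9), (3, 1), (3, 6), (3, 7), (3, 2), (3, 8), (3, 9), (3, 10), (3, 11), (5, 1), (5, 6), (5, 7), (4, 2), (4, 8), (4, 9)],
    [(4, 5), (1, 4), (6, 4), (2, 5), (8, 5), (0, 4), (0, 5), (10, 1), (10, 7), (11, 2), (11, 9), (10, 2), (10, 8), (10, 9), (11, 1), (11, 6), (11, 7)],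
    [(10, 11), (1, 6), (6, 7), (1, 7), (2, 8), (8, 9), (2, 9)],
    [([(1, 7)], 1, 4), ([(6, 7)], 6, 4), ([(2, 9)], 2, 5), ([(8, 9)], 8, 5), ([(1, 6)], 1, 10), ([(2, 8)], 2, 11), ([(10, 11)], 10, 2), ([(10, 11)], 10, 8), ([(10, 11)], 10, 9), ([(10, 11)], 11, 1), ([(10, 11)], 11, 6), ([(10, 11)], 11, 7), ([(1, 6), (6, 7)], 1, 7), ([(2, 8), (8, 9)], 2, 9)],
    [([(1, 6)], 1, 7), ([(6, 7)], 1, 7), ([(2, 8)], 2, 9), ([(8, 9)], 2, 9)],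
    [(10, 11, [0, 4, 5]), (1, 6, [0]), (6, 7, [0, 10, 11]), (2, 8, [0]), (8, 9, [0, 10, 11])]⟩

/-- symbols: 0=v 1=a 2=b 3=c 4=o 5=aj 6=as 7=bj 8=bt 9=q1 10=qk -/
def preA2p : Pre :=
  ⟨11,
    [(0, 1), (0, 2), (0, 3), (3, 4), (6, 4), (8, 4), (9, 5), (10, 7)],
    [(1, 2), (1, 7), (1, 8), (5, 2), (5, 7), (5, 8), (6, 2), (6, 7), (6, 8), (3, 1), (3, 5), (3, 6), (3, 2), (3, 7), (3, 8), (3, 9), (3, 10), (1, 4), (2, 4)],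
    [(5, 4), (7, 4), (0, 4), (9, 1), (9, 6), (10, 2), (10, 8), (9, 2), (9, 7), (9, 8), (10, 1), (10, 5), (10, 6)],
    [(9, 10), (1, 5), (5, 6), (1, 6), (2, 7), (7, 8), (2, 8)],
    [([(5, 6)], 5, 4), ([(7, 8)], 7, 4), ([(1, 5)], 1, 9), ([(2, 7)], 2, 10), ([(9, 10)], 9, 2), ([(9, 10)], 9, 7), ([(9, 10)], 9, 8), ([(9, 10)], 10, 1), ([(9, 10)], 10, 5), ([(9, 10)], 10, 6), ([(1, 5), (5, 6)], 1, 6), ([(2, 7), (7, 8)], 2, 8)],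
    [([(1, 5)], 1, 6), ([(5, 6)], 1, 6), ([(2, 7)], 2, 8), ([(7, 8)], 2, 8)],
    [(9, 10, [0, 4]), (1, 5, [0]), (5, 6, [0, 9, 10]), (2, 7, [0]), (7, 8, [0, 9, 10])]⟩

/-- symbols: 0=v 1=a 2=b 3=c 4=o 5=f 6=e 7=qk 8=r1 9=rm -/
def preA3 : Pre :=
  ⟨10,
    [(0, 1), (0, 2), (0, 3), (4, 2), (4, 3), (6, 7), (7, 2), (3, 8), (9, 5)],
    [(4, 1), (1, 2), (1, 3), (2, 3), (5, 2), (5, 3), (6, 2), (6, 3), (7, 3), (8, 2), (9, 2)],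
    [(7, 1), (7, 5), (0, 4), (9, 1), (9, 6), (8, 1), (8, 5), (8, 6)],
    [(1, 5), (5, 6), (1, 6), (8, 9)],
    [([(1, 5), (5, 6)], 1, 6), ([(1, 6)], 1, 7), ([(5, 6)], 5, 7), ([(8, 9)], 9, 3), ([(1, 5)], 1, 9), ([(8, 9)], 8, 1), ([(8, 9)], 8, 5), ([(8, 9)], 8, 6)],
    [([(1, 5)], 1, 6), ([(5, 6)], 1, 6)],
    [(1, 5, [0, 4]), (5, 6, [0, 4, 8, 9]), (8, 9, [0, 4, 7])]⟩

end Pool.Agent.Helper64.FL
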