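import Pool.Agent.Helper64.FL.Pre

set_option autoImplicit false

namespace Pool.Agent.Helper64.FL

/-- symbols: 0=h 1=k 2=d 3=d' 4=p 5=r 6=s 7=q -/
def preW1a : Pre :=
  ⟨8,
    [(0, 2), (1, 3), (4, 0), (7, 0), (5, 0), (5, 1), (6, 0), (6, 1)],
    [(0, 1), (4, 1), (7, 1), (2, 4), (3, 4), (2, 5), (3, 5), (2, 6), (3, 6), (2, 7), (3, 7), (4, 6), (4, 7), (5, 7), (5, 6)],
    [],
    [(2, 3)],
    [([(2, 3)], 0, 3), ([(2, 3)], 1, 2)],
    [],
    [(2, 3, []), (4, 5, [0, 1]), (6, 7, [0, 1]), (5, 6, [0, 1])]⟩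

def cerW1a : List (ℕ × ℕ) :=
  [(15, 0xc274a13a508930448c244c122521f39898c47ca416730b18899c808e2044102),
   (12, 0x204c882648316208d284698a3ca416419b314598608c2043102)]

theorem chkW1a : chkR preW1a cerW1a = true := by decide +kernel

/-- symbols: 0=h 1=k 2=d 3=d' 4=p 5=r 6=s 7=q -/
def preW1b : Pre :=
  ⟨8,
    [(0, 2), (1, 3), (4, 0), (7, 1), (5, 0), (5, 1), (6, 0), (6, 1)],
    [(0, 1), (4, 1), (7, 0), (2, 4), (3, 4), (2, 5), (3, 5), (2, 6), (3, 6), (2, 7), (3, 7), (4, 6), (4, 7), (5, 7), (5, 6)],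
    [],
    [(2, 3)],
    [([(2, 3)], 0, 3), ([(2, 3)], 1, 2)],
    [],
    [(2, 3, []), (4, 5, [0, 1]), (6, 7, [0, 1]), (5, 6, [0, 1])]⟩

def cerW1b : List (ℕ × ℕ) :=
  [(20, 0x100e94074a436311730489cc5c6122600d28069cc3c6226311f29059ca18c504620238c314618a2044102),
   (16, 0x200c88064c526419720c588234a11a520b314598818a40c5182308314418a2043102)]

theorem chkW1b : chkR preW1b cerW1b = true := by decide +kernel

end Pool.Agent.Helper64.FL
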