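import Pool.Agent.Helper64.FL.Eng

/-! Full list for MP_866009_co: the semantics of the symbolic engine. -/

set_option autoImplicit false

namespace Pool.Agent.Helper64.FL

open Pool.Agent.Helper64.CT Pool.Agent.Helper64.DT
open Pool.Agent.Helper64.HG (Ovl Model Circ IC HellyCircle ChordModel)

variable {V : Type}

/-- induced path: consecutive vertices are adjacent, others are different and nonadjacent -/
def IPt (G : SimpleGraph V) : List V → Prop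
  | [] => True
  | a :: l => (∀ x ∈ l, a ≠ x) ∧ (∀ b ∈ l.head?, G.Adj a b) ∧ (∀ x ∈ l.tail, ¬ G.Adj a x) ∧ IPt G l

/-- the Naji system has a solution on `S` -/
def NAJ (G : SimpleGraph V) (S : Set V) : Prop := ∃ b : V → V → Bool,
  (∀ x ∈ S, ∀ y ∈ S, G.Adj x y → b x y ≠ b y x) ∧
  (∀ c ∈ S, ∀ x ∈ S, ∀ y ∈ S, x ∈ Far G c → y ∈ Far G c → G.Adj x y → b c x = b c y) ∧
  (∀ n ∈ S, ∀ v ∈ S, ∀ w ∈ S, G.Adj n v → G.Adj n w → v ≠ w → ¬ G.Adj v w →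
    xor (xor (b v w) (b w v)) (xor (b n v) (b n w)) = true)

/-- diamond-free and all vertex-deleted subgraphs satisfy the Naji system -/
structure Red (G : SimpleGraph V) : Prop where
  df : DF G
  naj : ∀ z, NAJ G {v | v ≠ z}

/-- the vertex `f i` for every named vertex `i`, and the interiors of the segments, form a
configuration in `G` that is described by the state `s`; `A` is the set of the named vertices still
alive -/
structure ModA (G : SimpleGraph V) (A : ℕ → Prop) (s : Sk) (f : ℕ → V)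
    (L : List (Seg × List V)) : Prop where
  n32 : s.n ≤ 32
  alive : ∀ i, A i → i < s.n
  inj : ∀ i j, i < s.n → j < s.n → f i = f j → i = j
  adj : ∀ i j, i < 32 → j < 32 → eb s i j = true → i < s.n ∧ j < s.n ∧ (i ≠ j → G.Adj (f i) (f j))
  nad : ∀ i j, i < 32 → j < 32 → db s i j = true → i < s.n ∧ j < s.n ∧ (i ≠ j → ¬ G.Adj (f i) (f j))
  map : L.map Prod.fst = s.sg
  bnd : ∀ p ∈ L, p.1.u < s.n ∧ p.1.w < s.n ∧ p.1.u ≠ p.1.w
  pth : ∀ p ∈ L, IPt G (f p.1.u :: (p.2 ++ [f p.1.w]))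
  dis : ∀ p ∈ L, ∀ x ∈ p.2, ∀ i, A i → x ≠ f i
  cln : ∀ p ∈ L, ∀ i, tb p.1.cl i = true → i < s.n ∧ i ≠ p.1.u ∧ i ≠ p.1.w ∧
    ∀ x ∈ p.2, ¬ G.Adj (f i) x
  sep : L.Pairwise (fun p q => ∀ x ∈ p.2, ∀ y ∈ q.2, x ≠ y ∧ ¬ G.Adj x y)

/-- all named vertices are alive -/
def Mod (G : SimpleGraph V) (s : Sk) (f : ℕ → V) (L : List (Seg × List V)) : Prop :=
  ModA G (fun i => i < s.n) s f L

/-- the configuration covers the graph -/
def CovA (A : ℕ → Prop) (f : ℕ → V) (L : List (Seg × List V)) : Prop :=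
  ∀ x : V, (∃ i, A i ∧ x = f i) ∨ ∃ p ∈ L, x ∈ p.2

def Cov (s : Sk) (f : ℕ → V) (L : List (Seg × List V)) : Prop := CovA (fun i => i < s.n) f L

/-- the alive set given by a mask -/
def Al (t : TS) : ℕ → Prop := fun i => i < t.s.n ∧ tb t.a i = true

/-! ### outcomes -/

/-- the graph is a hole (or triangle) `r :: M` and a hub `h` -/
def Wh (G : SimpleGraph V) : Prop := ∃ (h r : V) (M : List V), IPt G M ∧ 2 ≤ M.length ∧ h ≠ r ∧
  h ∉ M ∧ r ∉ M ∧ (∀ x ∈ M, G.Adj r x ↔ (M.head? = some x ∨ M.getLast? = some x)) ∧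
  ∀ x, x = h ∨ x = r ∨ x ∈ M

/-- adjacent to exactly one of the two hubs -/
def Pure (G : SimpleGraph V) (h k x : V) : Prop :=
  (G.Adj h x ∧ ¬ G.Adj k x) ∨ (¬ G.Adj h x ∧ G.Adj k x)

/-- the graph consists of a connector `c`, two hubs `h`, `k` and an induced path with pure ends and
at least three rungs -/
def Ld (G : SimpleGraph V) : Prop := ∃ (c h k : V) (M : List V), IPt G M ∧ G.Adj c h ∧ G.Adj c k ∧
  h ≠ k ∧ ¬ G.Adj h k ∧ (∀ x ∈ M, x ≠ c ∧ x ≠ h ∧ x ≠ k ∧ ¬ G.Adj c x) ∧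
  (∀ x ∈ M.head?, Pure G h k x) ∧ (∀ x ∈ M.getLast?, Pure G h k x) ∧
  (∃ r1 ∈ M, ∃ r2 ∈ M, ∃ r3 ∈ M, r1 ≠ r2 ∧ r1 ≠ r3 ∧ r2 ≠ r3 ∧ G.Adj h r1 ∧ G.Adj k r1 ∧
    G.Adj h r2 ∧ G.Adj k r2 ∧ G.Adj h r3 ∧ G.Adj k r3) ∧
  ∀ x, x = c ∨ x = h ∨ x = k ∨ x ∈ M

/-- the graph is obtained from the entry `T` by replacing the elastic edges by paths -/
def Real (G : SimpleGraph V) (T : Ent) : Prop := ∃ (f : ℕ → V) (P : ℕ → List V),
  (∀ i j, i < j → j < T.n → f i ≠ f j ∧ (memp i j T.el = false →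
    (G.Adj (f i) (f j) ↔ memp i j T.rg = true))) ∧
  (∀ e a b, T.el[e]? = some (a, b) → a < T.n ∧ b < T.n ∧ a ≠ b ∧ IPt G (f a :: (P e ++ [f b])) ∧
    ∀ x ∈ P e, ∀ m, m < T.n → x ≠ f m ∧ (m ≠ a → m ≠ b → ¬ G.Adj x (f m))) ∧
  (∀ e e', e < e' → e' < T.el.length → ∀ x ∈ P e, ∀ y ∈ P e', x ≠ y ∧ ¬ G.Adj x y) ∧
  ∀ x, (∃ i, i < T.n ∧ x = f i) ∨ ∃ e, e < T.el.length ∧ x ∈ P e

def Out (G : SimpleGraph V) (tb0 : List Ent) : Prop :=
  Wh G ∨ Ld G ∨ ∃ T ∈ tb0, Real G T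

end Pool.Agent.Helper64.FL
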