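import Pool.Agent.Helper64.FL.Gr

/-! Full list for MP_866009_co: statements for (CI) and for three conflicting components. -/

set_option autoImplicit false

namespace Pool.Agent.Helper64.FL

open Pool.Agent.Helper64.CT Pool.Agent.Helper64.DT
open Pool.Agent.Helper64.HG (Ovl Model Circ IC HellyCircle ChordModel)

/-! ### Tools -/

/-- basic facts on `Cn`; `Comp` is `Cn` in `Far` -/
def ST_CNB : Prop := ∀ (V : Type) (G : SimpleGraph V),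
  (∀ S x y, Cn G S x y → y ∈ S ∧ Cn G S y x) ∧
  (∀ S x y z, Cn G S x y → Cn G S y z → Cn G S x z) ∧
  (∀ S T x y, S ⊆ T → Cn G S x y → Cn G T x y) ∧
  (∀ S x y, x ∈ S → y ∈ S → G.Adj x y → Cn G S x y) ∧
  (∀ c x y, Comp G c x y ↔ Cn G (Far G c) x y) ∧
  (∀ c x y, Comp G c x y → Cn G (KC G c x) x y) ∧
  ∀ S a l w, Pth G a l w → (a ∈ S ∧ w ∈ S ∧ ∀ u ∈ l, u ∈ S) → Cn G S a w

/-- reversal and basic facts on `Pth` -/
def ST_PTB : Prop := ∀ (V : Type) (G : SimpleGraph V),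
  (∀ a l w, Pth G a l w → Pth G w l.reverse a) ∧
  (∀ a l w, Pth G a l w → a ∉ l ∧ w ∉ l ∧ l.Nodup) ∧
  (∀ a z l w, Pth G a (z :: l) w → G.Adj a z ∧ a ≠ w ∧ ¬ G.Adj a w ∧ z ≠ w ∧ Pth G z l w ∧
    ∀ u ∈ l, a ≠ u ∧ ¬ G.Adj a u) ∧
  (∀ a w, Pth G a [] w → a = w ∨ G.Adj a w) ∧
  (∀ a w, G.Adj a w → Pth G a [] w) ∧ ∀ a, Pth G a [] a

/-- components of `G - N[x]` are anticomplete -/
def ST_SEP : Prop := ∀ (V : Type) (G : SimpleGraph V) (x y z : V), ¬ Comp G x y z →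
  Anti G (KC G x y) (KC G x z)

/-- shortest path between two sets -/
def ST_SPN : Prop := ∀ (V : Type) (G : SimpleGraph V) (S A B : Set V),
  (∃ a ∈ A, ∃ b ∈ B, Cn G S a b) → ∃ (y : V) (M : List V) (z : V), y ∈ A ∧ y ∈ S ∧ z ∈ B ∧ z ∈ S ∧
    Pth G y M z ∧ (∀ u ∈ M, u ∈ S ∧ u ∉ A ∧ u ∉ B) ∧ (y ≠ z → y ∉ B ∧ z ∉ A)

/-- last exit from a set -/
def ST_EXI : Prop := ∀ (V : Type) (G : SimpleGraph V) (S A : Set V) (a b : V), Cn G S a b →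
  a ∈ A → b ∉ A → ∃ u ∈ A, u ∈ S ∧ ∃ w, G.Adj u w ∧ Cn G (S \ A) w b

/-- shortest connection between two anticomplete sets -/
def ST_SP3 : Prop := ∀ (V : Type) (G : SimpleGraph V) (S A B : Set V) (a b : V), Cn G S a b →
  a ∈ A → b ∈ B → Anti G A B → ∃ (q : V) (M : List V) (q' : V), Pth G q M q' ∧
    (∀ u, (u = q ∨ u ∈ M ∨ u = q') → u ∈ S ∧ u ∉ A ∧ u ∉ B) ∧
    (∃ u ∈ A, u ∈ S ∧ G.Adj u q) ∧ (∃ u ∈ B, u ∈ S ∧ G.Adj u q') ∧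
    (∀ u ∈ M, ∀ w, w ∈ S → w ∈ A ∨ w ∈ B → ¬ G.Adj u w) ∧
    (q ≠ q' → ∀ w ∈ S, (w ∈ B → ¬ G.Adj q w) ∧ (w ∈ A → ¬ G.Adj q' w))

/-- the first vertex with property `φ` on a path -/
def ST_CUT : Prop := ∀ (V : Type) (G : SimpleGraph V) (K : Set V) (φ : V → Prop) (t w : V)
  (L : List V), PtK G K t L w → (φ t ∨ φ w ∨ ∃ u ∈ L, φ u) →
  ∃ l1 f l2, OnP G K φ t l1 f l2 w ∧ (∀ u ∈ l1, u ∈ L) ∧ (∀ u ∈ l2, u ∈ L) ∧
    (f = t ∨ f = w ∨ f ∈ L) ∧ ∀ u ∈ L, u ∈ l1 ∨ u = f ∨ u ∈ l2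

/-- a path and a vertex set attached to it -/
def ST_ONF : Prop := ∀ (V : Type) (G : SimpleGraph V) (K : Set V) (φ : V → Prop) (t w : V)
  (L : List V), PtK G K t L w → (∃ y0, φ y0 ∧ Cn G K y0 t) →
  ∃ l1 f l2, (∀ u ∈ l1, u ∈ L) ∧ (∀ u ∈ l2, u ∈ L) ∧ (f = t ∨ f = w ∨ f ∈ L) ∧
    (OnP G K φ t l1 f l2 w ∨ ∃ y l3 y2, OffP G K φ t l1 f l2 w y l3 y2)

def ST_LKX : Prop := ∀ (V : Type) (G : SimpleGraph V) (x y a b : V), a ∈ Att G x y →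
  b ∈ Att G x y → ∃ l L r, Lnk G (KC G x y) a b l L r

def ST_NRX : Prop := ∀ (V : Type) (G : SimpleGraph V) (x y l b : V), Comp G x y l →
  b ∈ Att G x y → ∃ L r, Nrl G (KC G x y) l L r b

def ST_PKX : Prop := ∀ (V : Type) (G : SimpleGraph V) (x y l r : V), Comp G x y l → Comp G x y r →
  ∃ L, PtK G (KC G x y) l L r

/-- two equivalence relations that are both proper do not cover all pairs -/
def ST_EQ2 : Prop := ∀ (V : Type) (A : Set V) (P Q : Set (Set V)),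
  (∃ u ∈ A, ∃ v ∈ A, ∃ M ∈ P, u ∈ M ∧ v ∉ M) → (∃ u ∈ A, ∃ v ∈ A, ∃ M ∈ Q, u ∈ M ∧ v ∉ M) →
  ∃ u ∈ A, ∃ v ∈ A, (∃ M ∈ P, u ∈ M ∧ v ∉ M) ∧ ∃ M ∈ Q, (u ∈ M ∧ v ∉ M) ∨ (v ∈ M ∧ u ∉ M)

/-- if `w` is adjacent neither to all attachments of `u` nor to all attachments of `v`, then `u`
and `v` are connected in `G - N[w]` -/
def ST_CCF : Prop := ∀ (V : Type) (G : SimpleGraph V) (x u v w p q : V), ¬ Comp G x u w →
  ¬ Comp G x v w → w ∈ Far G x → p ∈ Att G x u → ¬ G.Adj w p → q ∈ Att G x v → ¬ G.Adj w q →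
  Comp G w u v

/-! ### Asteroidal triples in a neighbourhood -/

def ST_NCV : Prop := ∀ (V : Type) (G : SimpleGraph V) (S : Set V) (v a b c : V),
  CIV G S v a b c → ¬ NAJ G S

/-- basic facts on violations of (CI) -/
def ST_CIB : Prop := ∀ (V : Type) (G : SimpleGraph V), (¬ CI G → ∃ v a b c, CIV G Set.univ v a b c) ∧
  (∀ S v a b c, CIV G S v a b c → CIV G S v b a c ∧ CIV G S v a c b ∧ a ≠ b ∧ a ≠ c ∧ b ≠ c ∧
    ¬ G.Adj a b ∧ ¬ G.Adj a c ∧ ¬ G.Adj b c ∧ a ∈ S ∧ b ∈ S ∧ c ∈ S) ∧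
  ∀ v a b c, CIV G Set.univ v a b c → ¬ CI G

/-- no further vertex is adjacent to `a`, `b`, `c` -/
def ST_CI0 : Prop := ∀ (V : Type) (G : SimpleGraph V), Red G → ∀ v a b c,
  CIV G Set.univ v a b c → ∀ o, o ≠ v → ¬ (G.Adj o a ∧ G.Adj o b ∧ G.Adj o c)

/-- no further vertex is adjacent to two of `a`, `b`, `c` -/
def ST_CI3 : Prop := ∀ (V : Type) (G : SimpleGraph V), Red G → NoP G preCIs → ∀ v a b c,
  CIV G Set.univ v a b c → ∀ o, o ≠ v → ¬ (G.Adj o b ∧ G.Adj o c)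

/-- a minimal connected set containing three vertices -/
def ST_STE : Prop := ∀ (V : Type) [Finite V] (G : SimpleGraph V) (S : Set V) (a b c : V),
  Cn G S a b → Cn G S a c → a ≠ b → a ≠ c → b ≠ c →
  (∃ o la lb lc, Clw G S o la a lb b lc c) ∨ ∃ x y z la lb lc, Net G S x y z la a lb b lc c

def ST_CA0 : Prop := ∀ (V : Type) (G : SimpleGraph V), NoP G preCIs → ∀ v a b c,
  CIV G Set.univ v a b c → ∀ o la lb lc, Clw G {u | u ≠ v} o la a lb b lc c → ¬ G.Adj o a →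
  ¬ G.Adj o b → ¬ G.Adj o c → o ≠ a → o ≠ b → o ≠ c → False

def ST_CA1 : Prop := ∀ (V : Type) (G : SimpleGraph V), NoP G preCIs → ∀ v a b c,
  CIV G Set.univ v a b c → ∀ x y z la lb lc, Net G {u | u ≠ v} x y z la a lb b lc c →
  x ≠ a → y ≠ b → z ≠ c → False

def ST_CA2 : Prop := ∀ (V : Type) (G : SimpleGraph V), NoP G preCIs → ∀ v a b c,
  CIV G Set.univ v a b c → ∀ g h la a' lb b', TwoL G v c g h a la a' b lb b' →
  ((g ≠ h ∧ (∀ u, (u = a ∨ u ∈ la ∨ u = a') → ¬ G.Adj u h) ∧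
      ∀ u, (u = b ∨ u ∈ lb ∨ u = b') → ¬ G.Adj u g) ∨
    (g = h ∧ ¬ G.Adj a g ∧ ¬ G.Adj b g)) → False

/-- the centre of the claw or a vertex of the triangle is one of the three vertices, or the centre
is adjacent to exactly one of them -/
def ST_CA3 : Prop := ∀ (V : Type) (G : SimpleGraph V), NoP G preCIs → ∀ v a b c,
  CIV G Set.univ v a b c →
  (∀ o, o ≠ v → ¬ (G.Adj o a ∧ G.Adj o b) ∧ ¬ (G.Adj o a ∧ G.Adj o c) ∧
    ¬ (G.Adj o b ∧ G.Adj o c)) →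
  (∀ o la lb lc, Clw G {u | u ≠ v} o la a lb b lc c → ¬ (o = c ∨ G.Adj o c)) ∧
  ∀ x y z la lb lc, Net G {u | u ≠ v} x y z la a lb b lc c → z ≠ c

def ST_CIM : Prop := ∀ (V : Type) [Finite V] (G : SimpleGraph V), Red G → NoP G preCIs → CI G

/-! ### Three pairwise conflicting components -/

def ST_QB2 : Prop := ∀ (V : Type) (G : SimpleGraph V), NoP G preBs → ∀ x y1 y2 y3 n12 n23 n31,
  ¬ Comp G x y1 y2 → ¬ Comp G x y1 y3 → ¬ Comp G x y2 y3 → G.Adj x n12 → G.Adj x n23 →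
  G.Adj x n31 → n12 ≠ n23 → n12 ≠ n31 → n23 ≠ n31 → n31 ∉ Att G x y2 → n12 ∉ Att G x y3 →
  n23 ∉ Att G x y1 → ∀ b Lb b' c Lc c' a La a', Lnk G (KC G x y2) n12 n23 b Lb b' →
  Lnk G (KC G x y3) n23 n31 c Lc c' → Lnk G (KC G x y1) n31 n12 a La a' → False

/-- the second component splits `p`, `p'` -/
def ST_QI0 : Prop := ∀ (V : Type) (G : SimpleGraph V), NoP G preBs →
  ∀ x y1 y2 y3 p p' q t w z Lz r, IIA G x y1 y2 y3 p p' q t w z Lz r → ∀ L e Le e',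
  PtK G (KC G x y1) t L w →
  ((G.Adj e p ∧ ¬ G.Adj e p' ∧ Nrl G (KC G x y2) e Le e' p') ∨
    (G.Adj e p' ∧ ¬ G.Adj e p ∧ Nrl G (KC G x y2) e Le e' p)) → False

/-- the vertex `c` of the second component is adjacent to `p`, `p'` and not to `s` -/
def ST_QI2 : Prop := ∀ (V : Type) (G : SimpleGraph V), NoP G preBs →
  ∀ x y1 y2 y3 p p' q t w z Lz r, IIA G x y1 y2 y3 p p' q t w z Lz r → ∀ c s l1 f l2,
  c ∈ KC G x y2 → G.Adj c p → G.Adj c p' → ¬ G.Adj c s → G.Adj x s →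
  (OnP G (KC G x y1) (fun u => G.Adj u s) t l1 f l2 w ∨
    ∃ y l3 y', OffP G (KC G x y1) (fun u => G.Adj u s) t l1 f l2 w y l3 y') → False

def ST_QI7 : Prop := ∀ (V : Type) (G : SimpleGraph V), NoP G preBs →
  ∀ x y1 y2 y3 p p' q t w z Lz r, IIA G x y1 y2 y3 p p' q t w z Lz r → ∀ L c Lc c' s,
  PtK G (KC G x y1) t L w → PtK G (KC G x y2) c Lc c' → G.Adj c p → G.Adj c p' → G.Adj c s →
  ¬ G.Adj c' p → ¬ G.Adj c' p' → G.Adj c' s → G.Adj t s → G.Adj x s → False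

def ST_QK1 : Prop := ∀ (V : Type) (G : SimpleGraph V), NoP G preBs →
  ∀ x y1 y2 y3 p p' t L w, ¬ Comp G x y1 y2 → ¬ Comp G x y1 y3 → ¬ Comp G x y2 y3 →
  G.Adj x p → G.Adj x p' → PtK G (KC G x y1) t L w → G.Adj t p → G.Adj t p' → G.Adj w p →
  ¬ G.Adj w p' → Spl3 G (KC G x y2) p p' → Spl3 G (KC G x y3) p p' → False

/-- pair `p`, `p'` split by the first and third component and not by the second one -/
def ST_QK2 : Prop := ∀ (V : Type) (G : SimpleGraph V), NoP G preBs →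
  ∀ x y1 y2 y3 p p' s t L w, ¬ Comp G x y1 y2 → ¬ Comp G x y1 y3 → ¬ Comp G x y2 y3 →
  G.Adj x p → G.Adj x p' → G.Adj x s → PtK G (KC G x y1) t L w → G.Adj t p → G.Adj t p' →
  G.Adj t s → G.Adj w p → ¬ G.Adj w p' →
  (∃ c ∈ KC G x y2, G.Adj c p ∧ G.Adj c p' ∧ (¬ G.Adj c s ∨
    (G.Adj c s ∧ ∃ Lc c', PtK G (KC G x y2) c Lc c' ∧ G.Adj c' s ∧ ¬ G.Adj c' p ∧
      ¬ G.Adj c' p'))) →
  s ≠ p → s ≠ p' →
  (∃ a b, ((a = p ∧ b = p') ∨ (a = p' ∧ b = p)) ∧ ∃ l l1 f l2 r, G.Adj l a ∧ ¬ G.Adj l b ∧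
    G.Adj r b ∧ (∀ u ∈ l1, ¬ G.Adj u b) ∧ (∀ u ∈ l2, ¬ G.Adj u b) ∧ (f ≠ r → ¬ G.Adj f b) ∧
    (OnP G (KC G x y3) (fun u => G.Adj u s) l l1 f l2 r ∨
      ∃ y l3 y', OffP G (KC G x y3) (fun u => G.Adj u s) l l1 f l2 r y l3 y')) → False

def ST_QBB : Prop := ∀ (V : Type) (G : SimpleGraph V), NoP G preBs →
  ∀ x y1 y2 y3 a b a' t w y, ¬ Comp G x y1 y2 → ¬ Comp G x y1 y3 → ¬ Comp G x y2 y3 →
  G.Adj x a → G.Adj x b → G.Adj x a' → a' ≠ b → a' ≠ a → a ≠ b →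
  a' ∉ Att G x y2 → a ∉ Att G x y3 →
  G.Adj t a → G.Adj t b → G.Adj t a' → ((G.Adj w a ∧ ¬ G.Adj w b) ∨ (G.Adj w b ∧ ¬ G.Adj w a)) →
  ((G.Adj y a' ∧ ¬ G.Adj y b) ∨ (G.Adj y b ∧ ¬ G.Adj y a')) → ∀ l1 f l2,
  (OnP G (KC G x y1) (fun u => u = y) t l1 f l2 w ∨
    ∃ y0 l3 y', OffP G (KC G x y1) (fun u => u = y) t l1 f l2 w y0 l3 y') → ∀ l L l' r R r',
  Lnk G (KC G x y2) a b l L l' → Lnk G (KC G x y3) a' b r R r' → False

def ST_QBC : Prop := ∀ (V : Type) (G : SimpleGraph V), NoP G preBs →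
  ∀ x y1 y2 y3 a b b' a' t L w, ¬ Comp G x y1 y2 → ¬ Comp G x y1 y3 → ¬ Comp G x y2 y3 →
  G.Adj x a → G.Adj x b → G.Adj x b' → G.Adj x a' → a' ∉ Att G x y2 → a ∉ Att G x y3 →
  PtK G (KC G x y1) t L w → G.Adj t a → G.Adj t b → G.Adj t b' → G.Adj t a' → G.Adj w b →
  ¬ G.Adj w b' → (∀ u ∈ KC G x y2, G.Adj u b ↔ G.Adj u b') →
  (∀ u ∈ KC G x y3, G.Adj u b ↔ G.Adj u b') → ∀ l Ll l' r R r',
  Lnk G (KC G x y2) a b l Ll l' → Lnk G (KC G x y3) a' b r R r' → False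

/-- a vertex complete to `A_2` and not complete to `A_3` -/
def ST_IIA : Prop := ∀ (V : Type) (G : SimpleGraph V), NoP G preBs → ∀ x y1 y2 y3 t q,
  Conf G x y1 y2 → Conf G x y1 y3 → Conf G x y2 y3 → Comp G x y1 t →
  (∀ n ∈ Att G x y2, G.Adj t n) → q ∈ Att G x y3 → ¬ G.Adj t q → False

/-- a vertex complete to `A_2` and to `A_3` -/
def ST_IIB : Prop := ∀ (V : Type) (G : SimpleGraph V), NoP G preBs → ∀ x y1 y2 y3 t n,
  Conf G x y1 y2 → Conf G x y1 y3 → Conf G x y2 y3 → Comp G x y1 t →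
  (∀ n ∈ Att G x y2, G.Adj t n) → (∀ n ∈ Att G x y3, G.Adj t n) → n ∈ Att G x y2 →
  n ∈ Att G x y3 → False

def ST_B3 : Prop := ∀ (V : Type) (G : SimpleGraph V), NoP G preBs → CI G → ∀ x y1 y2 y3,
  Conf G x y1 y2 → Conf G x y1 y3 → Conf G x y2 y3 → False

end Pool.Agent.Helper64.FL
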