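import Pool.Agent.Helper64.FL.StG
import Pool.Agent.Helper64.FL.Fam
import Pool.Agent.Helper64.FL.PreW

/-! Full list for MP_866009_co: statements for odd cycles of conflicts of length at least five. -/

set_option autoImplicit false

namespace Pool.Agent.Helper64.FL

open Pool.Agent.Helper64.CT Pool.Agent.Helper64.DT
open Pool.Agent.Helper64.HG (Ovl Model Circ IC HellyCircle ChordModel)

variable {V : Type}

/-! ### Notions -/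

/-- `c` solves the Naji system on `S` -/
def NJ (G : SimpleGraph V) (S : Set V) (b : V → V → Bool) : Prop :=
  (∀ x ∈ S, ∀ y ∈ S, G.Adj x y → b x y ≠ b y x) ∧
  (∀ c ∈ S, ∀ x ∈ S, ∀ y ∈ S, x ∈ Far G c → y ∈ Far G c → G.Adj x y → b c x = b c y) ∧
  (∀ n ∈ S, ∀ v ∈ S, ∀ w ∈ S, G.Adj n v → G.Adj n w → v ≠ w → ¬ G.Adj v w →
    xor (xor (b v w) (b w v)) (xor (b n v) (b n w)) = true)

/-- minimal odd cycle of conflicts -/
structure MOC (G : SimpleGraph V) (x : V) (k : ℕ) (y : ℕ → V) : Prop where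
  odd : Odd k
  k5 : 5 ≤ k
  per : ∀ i, y (i + k) = y i
  cf : ∀ i, Conf G x (y i) (y (i + 1))
  nc : ∀ i j, i + 2 ≤ j → j + 2 ≤ i + k → ¬ Conf G x (y i) (y j)
  ncm : ∀ i j, i < j → j < i + k → ¬ Comp G x (y i) (y j)
  min : ∀ (x' : V) (m : ℕ) (z : ℕ → V), Odd m → m < k → (∀ i, z (i + m) = z i) →
    ¬ ∀ i, Conf G x' (z i) (z (i + 1))

/-- the component of `y 0` dominates all components that are not consecutive to it -/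
def Dom0 (G : SimpleGraph V) (x : V) (k : ℕ) (y : ℕ → V) : Prop :=
  ∀ j, 2 ≤ j → j + 2 ≤ k → Le G x (y j) (y 0)

/-- attachments of the components dominated by that of `y 0` -/
def RR (G : SimpleGraph V) (x : V) (k : ℕ) (y : ℕ → V) : Set V :=
  {n | ∃ j, 2 ≤ j ∧ j + 2 ≤ k ∧ n ∈ Att G x (y j)}

/-- vertices in the component of `y 0` complete to `RR` -/
def UU (G : SimpleGraph V) (x : V) (k : ℕ) (y : ℕ → V) : Set V :=
  {u | Comp G x (y 0) u ∧ ∀ n ∈ RR G x k y, G.Adj u n}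

/-- nonconsecutive components different from that of `y 0` have disjoint attachments -/
def Dsj (G : SimpleGraph V) (x : V) (k : ℕ) (y : ℕ → V) : Prop :=
  ∀ i j, 1 ≤ i → i + 2 ≤ j → j < k → ∀ n, n ∈ Att G x (y i) → n ∉ Att G x (y j)

/-- nonconsecutive components have disjoint attachments -/
def DsjA (G : SimpleGraph V) (x : V) (k : ℕ) (y : ℕ → V) : Prop :=
  ∀ i j, i + 2 ≤ j → j + 2 ≤ i + k → ∀ n, n ∈ Att G x (y i) → n ∉ Att G x (y j)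

/-- arc: neighbours `n a, …, n b` of `x`, and `P i` (for `a ≤ i < b`) is the interior of an induced
path from `n i` to `n (i+1)` outside the neighbourhood of `x` (`n i`, `n j` may be adjacent) -/
structure Arc (G : SimpleGraph V) (x : V) (n : ℕ → V) (P : ℕ → List V) (a b : ℕ) : Prop where
  ab : a ≤ b
  xn : ∀ i, a ≤ i → i ≤ b → G.Adj x (n i)
  inj : ∀ i j, a ≤ i → i < j → j ≤ b → n i ≠ n j
  ne : ∀ i, a ≤ i → i < b → P i ≠ []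
  ip : ∀ i, a ≤ i → i < b → IPt G (P i)
  far : ∀ i, a ≤ i → i < b → ∀ u ∈ P i, u ∈ Far G x
  fst : ∀ i, a ≤ i → i < b → ∀ u ∈ P i, G.Adj (n i) u ↔ (P i).head? = some u
  lst : ∀ i, a ≤ i → i < b → ∀ u ∈ P i, G.Adj (n (i + 1)) u ↔ (P i).getLast? = some u
  cln : ∀ i j, a ≤ i → i < b → a ≤ j → j ≤ b → j ≠ i → j ≠ i + 1 → ∀ u ∈ P i, ¬ G.Adj (n j) u
  sep : ∀ i j, a ≤ i → i < j → j < b → ∀ u ∈ P i, ∀ w ∈ P j, u ≠ w ∧ ¬ G.Adj u w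

/-- the vertices of an arc -/
def arcV (x : V) (n : ℕ → V) (P : ℕ → List V) (a b : ℕ) : Set V :=
  {v | v = x ∨ (∃ i, a ≤ i ∧ i ≤ b ∧ v = n i) ∨ ∃ i, a ≤ i ∧ i < b ∧ v ∈ P i}

/-- the list `n a, P a, n (a+1), …, n (a+t)` -/
def arcL (n : ℕ → V) (P : ℕ → List V) : ℕ → ℕ → List V
  | a, 0 => [n a]
  | a, t + 1 => n a :: (P a ++ arcL n P (a + 1) t)

/-- a ladder with hubs `h`, `k` whose rungs are `n a, …, n (a+t)`, with ends `E1` and `E2` -/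
structure LPc (G : SimpleGraph V) (x h k : V) (E1 : List V) (n : ℕ → V) (P : ℕ → List V)
    (a t : ℕ) (E2 : List V) (α β : Bool) : Prop where
  arc : Arc G x n P a (a + t)
  st : ∀ i j, a ≤ i → i < j → j ≤ a + t → ¬ G.Adj (n i) (n j)
  hk : h ≠ k
  nhk : ¬ G.Adj h k
  hn : ∀ i, a ≤ i → i ≤ a + t → G.Adj h (n i) ∧ G.Adj k (n i)
  hP : ∀ i, a ≤ i → i < a + t → ∀ u ∈ P i, u ≠ h ∧ u ≠ k ∧ ¬ G.Adj h u ∧ ¬ G.Adj k u
  ne1 : E1 ≠ []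
  ne2 : E2 ≠ []
  ip1 : IPt G E1
  ip2 : IPt G E2
  h1 : ∀ u ∈ E1.head?, (G.Adj h u ↔ α = true) ∧ (G.Adj k u ↔ α = false)
  t1 : ∀ u ∈ E1.tail, ¬ G.Adj h u ∧ ¬ G.Adj k u
  h2 : ∀ u ∈ E2.getLast?, (G.Adj h u ↔ β = true) ∧ (G.Adj k u ↔ β = false)
  t2 : ∀ u ∈ E2.dropLast, ¬ G.Adj h u ∧ ¬ G.Adj k u
  e1 : ∀ u ∈ E1, u ≠ h ∧ u ≠ k ∧ (G.Adj u (n a) ↔ E1.getLast? = some u)
  e2 : ∀ u ∈ E2, u ≠ h ∧ u ≠ k ∧ (G.Adj u (n (a + t)) ↔ E2.head? = some u)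
  c1 : ∀ u ∈ E1, (∀ i, a ≤ i → i ≤ a + t → u ≠ n i ∧ (i ≠ a → ¬ G.Adj u (n i))) ∧
    ∀ i, a ≤ i → i < a + t → ∀ w ∈ P i, u ≠ w ∧ ¬ G.Adj u w
  c2 : ∀ u ∈ E2, (∀ i, a ≤ i → i ≤ a + t → u ≠ n i ∧ (i ≠ a + t → ¬ G.Adj u (n i))) ∧
    ∀ i, a ≤ i → i < a + t → ∀ w ∈ P i, u ≠ w ∧ ¬ G.Adj u w
  c12 : ∀ u ∈ E1, ∀ w ∈ E2, u ≠ w ∧ ¬ G.Adj u w

/-- the vertices of a ladder -/
def ladV (h k : V) (E1 : List V) (n : ℕ → V) (P : ℕ → List V) (a t : ℕ) (E2 : List V) : Set V :=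
  {v | v = h ∨ v = k ∨ v ∈ E1 ∨ v ∈ E2 ∨ (∃ i, a ≤ i ∧ i ≤ a + t ∧ v = n i) ∨
    ∃ i, a ≤ i ∧ i < a + t ∧ v ∈ P i}

/-- path `d, Ld, d'` connecting `h` and `k` -/
structure Con (G : SimpleGraph V) (h k d : V) (Ld : List V) (d' : V) : Prop where
  hd : G.Adj h d
  kd : G.Adj k d'
  pth : Pth G d Ld d'
  dd : d ≠ d' → ¬ G.Adj h d' ∧ ¬ G.Adj k d
  Lh : ∀ u ∈ Ld, ¬ G.Adj h u ∧ ¬ G.Adj k u
  nh : ∀ u, (u = d ∨ u ∈ Ld ∨ u = d') → u ≠ h ∧ u ≠ k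

/-- the case of one dominating component: a shortest path in the component of `y 0` from a vertex
mixed on the last attachments to a vertex mixed on the first attachments -/
structure D1P (G : SimpleGraph V) (x : V) (k : ℕ) (y : ℕ → V) (u0 : V) (Lu : List V) (um : V) :
    Prop where
  moc : MOC G x k y
  dom : Dom0 G x k y
  dsj : Dsj G x k y
  u1 : ∀ u ∈ UU G x k y, ∀ n ∈ Att G x (y 1), G.Adj u n
  p : PtK G (KC G x (y 0)) u0 Lu um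
  m0 : Mixed G u0 (Att G x (y (k - 1)))
  mm : Mixed G um (Att G x (y 1))
  in1 : ∀ u ∈ Lu, ¬ Mixed G u (Att G x (y 1)) ∧ ¬ Mixed G u (Att G x (y (k - 1)))
  e0 : u0 ≠ um → ¬ Mixed G u0 (Att G x (y 1)) ∧ ¬ Mixed G um (Att G x (y (k - 1)))

/-- closed sequence of links around `x` -/
structure Neck (G : SimpleGraph V) (x : V) (k : ℕ) (n : ℕ → V) (P : ℕ → List V) : Prop where
  k5 : 5 ≤ k
  pn : ∀ i, n (i + k) = n i
  pP : ∀ i, P (i + k) = P i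
  arc : ∀ a, Arc G x n P a (a + k - 1)

/-! ### Parity tools -/

def ST_NJC : Prop := ∀ (V : Type) (G : SimpleGraph V) (S : Set V) (b : V → V → Bool), NJ G S b →
  ∀ c ∈ S, ∀ u w, Cn G (S ∩ Far G c) u w → b c u = b c w

/-- triangle `x y z` and a further neighbour `u` of `x` -/
def ST_TRN : Prop := ∀ (V : Type) (G : SimpleGraph V) (S : Set V) (b : V → V → Bool), NJ G S b →
  ∀ x ∈ S, ∀ y ∈ S, ∀ z ∈ S, ∀ u ∈ S, G.Adj x y → G.Adj x z → G.Adj y z → G.Adj x u →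
    u ∈ Far G y → u ∈ Far G z → xor (b y u) (b z u) = xor (b x y) (b x z)

/-- three pairwise nonadjacent neighbours `x v w` of `n` -/
def ST_OVL : Prop := ∀ (V : Type) (G : SimpleGraph V) (S : Set V) (b : V → V → Bool), NJ G S b →
  ∀ n ∈ S, ∀ x ∈ S, ∀ v ∈ S, ∀ w ∈ S, G.Adj n x → G.Adj n v → G.Adj n w → v ≠ w → ¬ G.Adj v w →
    Cn G (S ∩ Far G v) w x → Cn G (S ∩ Far G w) v x → b x v ≠ b x w

def ST_ALT : Prop := ∀ (V : Type) (G : SimpleGraph V) (S : Set V) (b : V → V → Bool), NJ G S b →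
  ∀ x n P a m, Arc G x n P a m → arcV x n P a m ⊆ S →
    (∀ i, a ≤ i → i < m → ∀ u ∈ P i, ∀ w ∈ P i, b x u = b x w) ∧
    ∀ i, a ≤ i → i + 1 < m → ∀ u ∈ P i, ∀ w ∈ P (i + 1), b x u ≠ b x w

/-- an arc between adjacent vertices with an odd number of links -/
def ST_F2X : Prop := ∀ (V : Type) (G : SimpleGraph V) (S : Set V) (x : V) (n : ℕ → V)
  (P : ℕ → List V) (a m : ℕ), Arc G x n P a m → arcV x n P a m ⊆ S → G.Adj (n a) (n m) →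
  (∀ i, a < i → i < m → ¬ G.Adj (n a) (n i) ∧ ¬ G.Adj (n m) (n i)) → a + 3 ≤ m → Odd (m - a) →
  ¬ NAJ G S

/-- three vertices of a clique at `x` that are ends of gaps -/
def ST_F1X : Prop := ∀ (V : Type) (G : SimpleGraph V) (S : Set V) (x : V) (y l m : ℕ → V),
  x ∈ S → (∀ i < 3, y i ∈ S ∧ G.Adj x (y i) ∧ l i ∈ S ∧ l i ∈ Far G x ∧ G.Adj (y i) (l i) ∧
    m i ∈ S ∧ G.Adj x (m i)) →
  (∀ i < 3, ∀ j < 3, i ≠ j → G.Adj (y i) (y j) ∧ l i ∈ Far G (y j)) →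
  (∀ i < 3, ∀ j < 3, m i ∈ Far G (y j)) →
  (∀ i < 3, ∀ j < 3, i ≠ j → Cn G (S ∩ Far G (y j)) (l i) (m i)) → ¬ NAJ G S

/-- even rings -/
def ST_RGE : Prop := ∀ (V : Type) (G : SimpleGraph V) (S : Set V) (m : ℕ) (n : ℕ → V)
  (P : ℕ → List V), Ring G m n P → Even m → 4 ≤ m → (∀ i, i < m → n i ∈ S ∧ ∀ u ∈ P i, u ∈ S) →
  ¬ NAJ G S

/-- ladders without connector -/
def ST_LDS : Prop := ∀ (V : Type) (G : SimpleGraph V) (S : Set V) (h k : V) (M : List V)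
  (a b : Bool), LadM G h k M a b → h ∈ S → k ∈ S → (∀ u ∈ M, u ∈ S) →
  ((a = b ∧ Odd (rungs G h k M) ∧ 3 ≤ rungs G h k M) ∨
    (a ≠ b ∧ Even (rungs G h k M) ∧ 4 ≤ rungs G h k M)) → ¬ NAJ G S

/-- ladders with a connector, arbitrary interior -/
def ST_W1 : Prop := ∀ (V : Type) (G : SimpleGraph V) (S : Set V) (h k d : V) (Ld : List V)
  (d' : V) (M : List V), h ≠ k → ¬ G.Adj h k → Con G h k d Ld d' → IPt G M →
  (∀ u, (u = d ∨ u ∈ Ld ∨ u = d') → u ∈ S ∧ ∀ v ∈ M, u ≠ v ∧ ¬ G.Adj u v) → h ∉ M → k ∉ M →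
  h ∈ S → k ∈ S → (∀ u ∈ M, u ∈ S) → (∀ u ∈ M.head?, Pure G h k u) →
  (∀ u ∈ M.getLast?, Pure G h k u) →
  (∃ r ∈ M, ∃ s ∈ M, r ≠ s ∧ ¬ G.Adj r s ∧ G.Adj h r ∧ G.Adj k r ∧ G.Adj h s ∧ G.Adj k s) →
  ¬ NAJ G S

/-! ### Arcs -/

/-- joining induced paths -/
def ST_JIN : Prop := ∀ (V : Type) (G : SimpleGraph V) (A B : List V), IPt G A → IPt G B →
  (∀ u ∈ A, ∀ w ∈ B, u ≠ w ∧ (G.Adj u w ↔ A.getLast? = some u ∧ B.head? = some w)) →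
  IPt G (A ++ B)

/-- existence of arcs through components -/
def ST_ARX : Prop := ∀ (V : Type) (G : SimpleGraph V) (x : V) (y n : ℕ → V) (a b : ℕ), a < b →
  (∀ i, a ≤ i → i < b → n i ∈ Att G x (y (i + 1)) ∧ n (i + 1) ∈ Att G x (y (i + 1))) →
  (∀ i j, a ≤ i → i < b → a ≤ j → j ≤ b → j ≠ i → j ≠ i + 1 → n j ∉ Att G x (y (i + 1))) →
  (∀ i j, a ≤ i → i < j → j ≤ b → n i ≠ n j) →
  (∀ i j, a < i → i < j → j ≤ b → ¬ Comp G x (y i) (y j)) →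
  ∃ P, Arc G x n P a b ∧ ∀ i, a ≤ i → i < b → ∀ u ∈ P i, Comp G x (y (i + 1)) u

/-- subarcs, and connectivity along an arc -/
def ST_ARC : Prop := ∀ (V : Type) (G : SimpleGraph V) (x : V) (n : ℕ → V) (P : ℕ → List V)
  (a b : ℕ), Arc G x n P a b →
  (∀ c d, a ≤ c → c ≤ d → d ≤ b → Arc G x n P c d) ∧
  ∀ w, (∀ i, a ≤ i → i ≤ b → n i ∈ Far G w) → (∀ i, a ≤ i → i < b → ∀ u ∈ P i, u ∈ Far G w) →
    ∀ i j, a ≤ i → i ≤ b → a ≤ j → j ≤ b → Comp G w (n i) (n j)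

/-- an arc with pairwise nonadjacent `n i` is an induced path -/
def ST_ARI : Prop := ∀ (V : Type) (G : SimpleGraph V) (x : V) (n : ℕ → V) (P : ℕ → List V)
  (a t : ℕ), Arc G x n P a (a + t) → (∀ i j, a ≤ i → i < j → j ≤ a + t → ¬ G.Adj (n i) (n j)) →
  IPt G (arcL n P a t) ∧ (arcL n P a t).head? = some (n a) ∧
  (arcL n P a t).getLast? = some (n (a + t)) ∧
  (∀ v, v ∈ arcL n P a t ↔ (∃ i, a ≤ i ∧ i ≤ a + t ∧ v = n i) ∨ ∃ i, a ≤ i ∧ i < a + t ∧ v ∈ P i) ∧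
  ∀ h k, (∀ i, a ≤ i → i ≤ a + t → G.Adj h (n i) ∧ G.Adj k (n i)) →
    (∀ i, a ≤ i → i < a + t → ∀ u ∈ P i, ¬ G.Adj h u ∧ ¬ G.Adj k u) →
    rungs G h k (arcL n P a t) = t + 1

/-- ladders from pieces -/
def ST_LPA : Prop := ∀ (V : Type) (G : SimpleGraph V) (x h k : V) (E1 : List V) (n : ℕ → V)
  (P : ℕ → List V) (a t : ℕ) (E2 : List V) (α β : Bool), LPc G x h k E1 n P a t E2 α β →
  LadM G h k (E1 ++ (arcL n P a t ++ E2)) α β ∧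
  rungs G h k (E1 ++ (arcL n P a t ++ E2)) = t + 1 ∧
  ∀ v, v ∈ ladV h k E1 n P a t E2 ↔ v = h ∨ v = k ∨ v ∈ E1 ++ (arcL n P a t ++ E2)

/-- parity of ladders from pieces; in a reduced graph such a ladder is the whole graph -/
def ST_LPN : Prop := ∀ (V : Type) (G : SimpleGraph V) (x h k : V) (E1 : List V) (n : ℕ → V)
  (P : ℕ → List V) (a t : ℕ) (E2 : List V) (α β : Bool), LPc G x h k E1 n P a t E2 α β →
  ((α = β ∧ Even t ∧ 2 ≤ t) ∨ (α ≠ β ∧ Odd t ∧ 3 ≤ t)) →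
  (∀ S, ladV h k E1 n P a t E2 ⊆ S → ¬ NAJ G S) ∧
  (Red G → LadS G ∧ ∀ v, v ∈ ladV h k E1 n P a t E2)

def ST_LPW : Prop := ∀ (V : Type) (G : SimpleGraph V) (x h k : V) (E1 : List V) (n : ℕ → V)
  (P : ℕ → List V) (a t : ℕ) (E2 : List V) (α β : Bool), LPc G x h k E1 n P a t E2 α β → 1 ≤ t →
  ∀ d Ld d', Con G h k d Ld d' →
  (∀ u, (u = d ∨ u ∈ Ld ∨ u = d') → (∀ v ∈ E1, u ≠ v ∧ ¬ G.Adj u v) ∧
    (∀ v ∈ E2, u ≠ v ∧ ¬ G.Adj u v) ∧ (∀ i, a ≤ i → i ≤ a + t → u ≠ n i ∧ ¬ G.Adj u (n i)) ∧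
    ∀ i, a ≤ i → i < a + t → ∀ w ∈ P i, u ≠ w ∧ ¬ G.Adj u w) →
  ∀ S, ladV h k E1 n P a t E2 ⊆ S → (∀ u, (u = d ∨ u ∈ Ld ∨ u = d') → u ∈ S) → ¬ NAJ G S

/-! ### Minimal odd cycles of conflicts -/

def ST_MOC : Prop := ∀ (V : Type) (G : SimpleGraph V),
  (∀ x y1 y2 y3, Conf G x y1 y2 → Conf G x y1 y3 → Conf G x y2 y3 → False) → ¬ CII G →
  ∃ x k y, MOC G x k y

/-- shifts and reflection -/
def ST_SHF : Prop := ∀ (V : Type) (G : SimpleGraph V) (x : V) (k : ℕ) (y : ℕ → V), MOC G x k y →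
  (∀ s, MOC G x k (fun i => y (i + s))) ∧ MOC G x k (fun i => y ((k - 1) * i)) ∧
  (∀ i, Comp G x (y i) (y i)) ∧
  (Dom0 G x k y → Dom0 G x k (fun i => y ((k - 1) * i)) ∧
    RR G x k (fun i => y ((k - 1) * i)) = RR G x k y ∧
    UU G x k (fun i => y ((k - 1) * i)) = UU G x k y) ∧
  (Dsj G x k y → Dsj G x k (fun i => y ((k - 1) * i))) ∧ y ((k - 1) * (k - 1)) = y 1

def ST_PRP : Prop := ∀ (V : Type) (G : SimpleGraph V) (x a b d : V), Le G x a b → Conf G x a d →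
  ¬ Conf G x d b → ¬ Comp G x d b → Le G x d b

def ST_DOM : Prop := ∀ (V : Type) (G : SimpleGraph V) (x : V) (k : ℕ) (y : ℕ → V), MOC G x k y →
  ∀ i j n, i + 2 ≤ j → j + 2 ≤ i + k → n ∈ Att G x (y i) → n ∈ Att G x (y j) →
    Dom0 G x k (fun l => y (l + i)) ∨ Dom0 G x k (fun l => y (l + j))

def ST_DO2 : Prop := ∀ (V : Type) (G : SimpleGraph V) (x : V) (k : ℕ) (y : ℕ → V), MOC G x k y →
  ∀ i j, i + 2 ≤ j → j + 2 ≤ i + k → Dom0 G x k (fun l => y (l + i)) →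
    ¬ Dom0 G x k (fun l => y (l + j))

def ST_TCH : Prop := ∀ (V : Type) (G : SimpleGraph V) (x : V) (k : ℕ) (y : ℕ → V), MOC G x k y →
  ∃ z, MOC G x k z ∧ (DsjA G x k z ∨ (Dom0 G x k z ∧ Dom0 G x k (fun l => z (l + 1)) ∧
    ∀ i j, 2 ≤ i → i + 2 ≤ j → j < k → ∀ n, n ∈ Att G x (z i) → n ∉ Att G x (z j)) ∨
    (Dom0 G x k z ∧ Dsj G x k z))

/-- facts on a dominating component -/
def ST_D0F : Prop := ∀ (V : Type) (G : SimpleGraph V) (x : V) (k : ℕ) (y : ℕ → V), MOC G x k y →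
  Dom0 G x k y → (∃ u, u ∈ UU G x k y) ∧
  (∀ u, Comp G x (y 0) u → u ∈ UU G x k y ∨ ∀ n ∈ RR G x k y, ¬ G.Adj u n) ∧
  (∀ n ∈ RR G x k y, n ∈ Att G x (y 0)) ∧ (∃ n ∈ RR G x k y, ∃ m ∈ RR G x k y, n ≠ m) ∧
  (∃ n ∈ RR G x k y, n ∈ Att G x (y 1)) ∧ ∃ n ∈ RR G x k y, n ∈ Att G x (y (k - 1))

/-- stability -/
def ST_STB : Prop := ∀ (V : Type) (G : SimpleGraph V), DF G → ∀ x u n m, u ≠ x → n ≠ m →
  G.Adj x n → G.Adj x m → G.Adj u n → G.Adj u m →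
  (¬ G.Adj x u → ¬ G.Adj n m) ∧ (¬ G.Adj n m → ¬ G.Adj x u)

def ST_L3 : Prop := ∀ (V : Type) (G : SimpleGraph V) (x : V) (k : ℕ) (y : ℕ → V), MOC G x k y →
  Dom0 G x k y → ∀ u ∈ UU G x k y, (∀ n ∈ Att G x (y 1), G.Adj u n) ∨
    ∀ n ∈ Att G x (y (k - 1)), G.Adj u n

def ST_D2D : Prop := ∀ (V : Type) (G : SimpleGraph V) (x : V) (k : ℕ) (y : ℕ → V), Red G →
  MOC G x k y → Dom0 G x k y → Dom0 G x k (fun l => y (l + 1)) →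
  (∀ i j, 2 ≤ i → i + 2 ≤ j → j < k → ∀ n, n ∈ Att G x (y i) → n ∉ Att G x (y j)) → False

/-! ### One dominating component -/

def ST_CLX : Prop := ∀ (V : Type) (G : SimpleGraph V) (x : V) (k : ℕ) (y : ℕ → V), DF G → CI G →
  MOC G x k y → Dom0 G x k y → (∀ u ∈ UU G x k y, ∀ n ∈ Att G x (y 1), G.Adj u n) ∨
    ∀ u ∈ UU G x k y, ∀ n ∈ Att G x (y (k - 1)), G.Adj u n

def ST_D1S : Prop := ∀ (V : Type) (G : SimpleGraph V) (x : V) (k : ℕ) (y : ℕ → V), MOC G x k y →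
  Dom0 G x k y → Dsj G x k y → (∀ u ∈ UU G x k y, ∀ n ∈ Att G x (y 1), G.Adj u n) →
  ∃ u0 Lu um, D1P G x k y u0 Lu um

def ST_D1F : Prop := ∀ (V : Type) (G : SimpleGraph V) (x : V) (k : ℕ) (y : ℕ → V) (u0 : V)
  (Lu : List V) (um : V), D1P G x k y u0 Lu um →
  (∀ u ∈ Lu, (u ∈ UU G x k y ∧ ∀ j, 1 ≤ j → j < k → ∀ n ∈ Att G x (y j), G.Adj u n) ∨
    (u ∉ UU G x k y ∧ ∀ j, 1 ≤ j → j < k → ∀ n ∈ Att G x (y j), ¬ G.Adj u n)) ∧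
  um ∉ UU G x k y ∧ (∀ n ∈ RR G x k y, ¬ G.Adj um n) ∧
  (u0 ≠ um → ∀ n ∈ Att G x (y (k - 1)), ¬ G.Adj um n) ∧
  (u0 ∉ UU G x k y → (∀ n ∈ RR G x k y, ¬ G.Adj u0 n) ∧
    (u0 ≠ um → ∀ n ∈ Att G x (y 1), ¬ G.Adj u0 n)) ∧ (u0 ∈ UU G x k y → u0 ≠ um)

/-- the arc through the other components -/
def ST_D1A : Prop := ∀ (V : Type) (G : SimpleGraph V) (x : V) (k : ℕ) (y : ℕ → V) (u0 : V)
  (Lu : List V) (um : V), DF G → D1P G x k y u0 Lu um → ∀ p q, p ∈ Att G x (y 1) →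
  p ∉ RR G x k y → q ∈ Att G x (y (k - 1)) → q ∉ RR G x k y → ∃ n P, Arc G x n P 0 (k - 1) ∧
    n 0 = p ∧ n (k - 1) = q ∧ (∀ i, 1 ≤ i → i + 2 ≤ k → n i ∈ Att G x (y i) ∧
      n i ∈ Att G x (y (i + 1)) ∧ n i ∈ RR G x k y) ∧
    (∀ i, i + 1 < k → ∀ u ∈ P i, Comp G x (y (i + 1)) u) ∧
    (∀ i j, i < j → j + 2 ≤ k → ¬ G.Adj (n i) (n j)) ∧
    ∀ i, i + 2 ≤ k → G.Adj q (n i) → ∀ j, j + 2 ≤ k → j ≠ i → ¬ G.Adj q (n j)

/-- no end and no interior vertex in `UU` -/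
def ST_DI0 : Prop := ∀ (V : Type) (G : SimpleGraph V) (x : V) (k : ℕ) (y : ℕ → V) (u0 : V)
  (Lu : List V) (um : V), DF G → CI G → D1P G x k y u0 Lu um → u0 ∉ UU G x k y →
  (∀ u ∈ Lu, u ∉ UU G x k y) → False

/-- exactly one interior vertex in `UU` -/
def ST_DI1 : Prop := ∀ (V : Type) (G : SimpleGraph V) (x : V) (k : ℕ) (y : ℕ → V) (u0 : V)
  (l1 : List V) (f : V) (l2 : List V) (um : V), Red G → D1P G x k y u0 (l1 ++ f :: l2) um →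
  u0 ∉ UU G x k y → f ∈ UU G x k y → (∀ u ∈ l1, u ∉ UU G x k y) → (∀ u ∈ l2, u ∉ UU G x k y) →
  LadS G

/-- two interior vertices in `UU` -/
def ST_DI2 : Prop := ∀ (V : Type) (G : SimpleGraph V) (x : V) (k : ℕ) (y : ℕ → V) (u0 : V)
  (Lu : List V) (um : V), Red G → D1P G x k y u0 Lu um →
  (∃ f ∈ Lu, ∃ g ∈ Lu, f ≠ g ∧ f ∈ UU G x k y ∧ g ∈ UU G x k y) → False

/-- the first vertex is in `UU`, no interior vertex is -/
def ST_DJ0 : Prop := ∀ (V : Type) (G : SimpleGraph V) (x : V) (k : ℕ) (y : ℕ → V) (u0 : V)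
  (Lu : List V) (um : V), Red G → CI G → D1P G x k y u0 Lu um → u0 ∈ UU G x k y →
  (∀ u ∈ Lu, u ∉ UU G x k y) → LadS G

/-- the first vertex and exactly one interior vertex are in `UU` -/
def ST_DJ1 : Prop := ∀ (V : Type) (G : SimpleGraph V) (x : V) (k : ℕ) (y : ℕ → V) (u0 : V)
  (l1 : List V) (f : V) (l2 : List V) (um : V), Red G → D1P G x k y u0 (l1 ++ f :: l2) um →
  u0 ∈ UU G x k y → f ∈ UU G x k y → (∀ u ∈ l1, u ∉ UU G x k y) →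
  (∀ u ∈ l2, u ∉ UU G x k y) → False

def ST_D1M : Prop := ∀ (V : Type) (G : SimpleGraph V) (x : V) (k : ℕ) (y : ℕ → V), Red G → CI G →
  MOC G x k y → Dom0 G x k y → Dsj G x k y → LadS G

/-! ### Necklaces -/

def ST_NKX : Prop := ∀ (V : Type) (G : SimpleGraph V) (x : V) (k : ℕ) (y : ℕ → V), MOC G x k y →
  DsjA G x k y → ∃ n P, Neck G x k n P

def ST_NKC : Prop := ∀ (V : Type) (G : SimpleGraph V) (x : V) (k : ℕ) (n : ℕ → V)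
  (P : ℕ → List V), Red G → Neck G x k n P → Odd k →
  ∀ v, v = x ∨ (∃ i, i < k ∧ v = n i) ∨ ∃ i, i < k ∧ v ∈ P i

/-- the content of a gap begins and ends in the same clique -/
def ST_SAR : Prop := ∀ (V : Type) (G : SimpleGraph V) (x : V) (k : ℕ) (n : ℕ → V)
  (P : ℕ → List V), CI G → Neck G x k n P → ∀ i j, i + 2 ≤ j → j ≤ i + k →
  (n i = n j ∨ G.Adj (n i) (n j)) → (∀ l, i < l → l < j → ¬ G.Adj (n i) (n l)) →
  (∀ l, i < l → l < j → ¬ G.Adj (n j) (n l)) →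
  n (i + 1) = n (j - 1) ∨ G.Adj (n (i + 1)) (n (j - 1))

def ST_F2A : Prop := ∀ (V : Type) (G : SimpleGraph V) (x : V) (k : ℕ) (n : ℕ → V)
  (P : ℕ → List V), Red G → Neck G x k n P → ∀ i j, i + 3 ≤ j → j < i + k → Odd (j - i) →
  G.Adj (n i) (n j) → (∀ l, i < l → l < j → ¬ G.Adj (n i) (n l)) → False

def ST_F1A : Prop := ∀ (V : Type) (G : SimpleGraph V) (x : V) (k : ℕ) (n : ℕ → V)
  (P : ℕ → List V), Red G → Neck G x k n P → ∀ i j i' j', i + 2 ≤ j → j ≤ i' → i' + 2 ≤ j' →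
  j' ≤ i + k → ¬ (j = i' ∧ j' = i + k) → (n i = n j ∨ G.Adj (n i) (n j)) →
  (n i' = n j' ∨ G.Adj (n i') (n j')) → (n i = n i' ∨ G.Adj (n i) (n i')) →
  (∀ l, i < l → l < j → ¬ G.Adj (n i) (n l)) →
  (∀ l, i' < l → l < j' → ¬ G.Adj (n i') (n l)) → False

/-- combinatorics of the cyclic word of blocks -/
def ST_NKW : Prop := ∀ (k : ℕ) (B : ℕ → ℕ → Prop), Odd k → 5 ≤ k → (∀ i, B i i) →
  (∀ i j, B i j → B j i) → (∀ i j l, B i j → B j l → B i l) → (∀ i, B i (i + k)) →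
  (∀ i j, i + 2 ≤ j → j ≤ i + k → B i j → (∀ l, i < l → l < j → ¬ B i l) →
    B (i + 1) (j - 1)) →
  (∀ i j, i + 3 ≤ j → j < i + k → Odd (j - i) → B i j → ∃ l, i < l ∧ l < j ∧ B i l) →
  (∀ i j i' j', i + 2 ≤ j → j ≤ i' → i' + 2 ≤ j' → j' ≤ i + k → ¬ (j = i' ∧ j' = i + k) →
    B i j → B i' j' → B i i' → (∀ l, i < l → l < j → ¬ B i l) → ∃ l, i' < l ∧ l < j' ∧ B i' l) →
  (∀ i j, B i j) ∨ ∃ i, ∀ j, i < j → j < i + k → ¬ B i j ∧ ∀ l, i < l → l < i + k → B j l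

/-- all in one clique -/
def ST_NKO : Prop := ∀ (V : Type) (G : SimpleGraph V) (x : V) (k : ℕ) (n : ℕ → V)
  (P : ℕ → List V), Red G → Neck G x k n P → Odd k → (∀ i j, n i = n j ∨ G.Adj (n i) (n j)) →
  RingO G

/-- all but one in one clique -/
def ST_NKE : Prop := ∀ (V : Type) (G : SimpleGraph V) (x : V) (k : ℕ) (n : ℕ → V)
  (P : ℕ → List V), Red G → Neck G x k n P → Odd k → ∀ i, (∀ j, i < j → j < i + k →
    ¬ G.Adj (n i) (n j) ∧ ∀ l, i < l → l < i + k → n j = n l ∨ G.Adj (n j) (n l)) → False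

def ST_NKM : Prop := ∀ (V : Type) (G : SimpleGraph V) (x : V) (k : ℕ) (y : ℕ → V), Red G → CI G →
  MOC G x k y → DsjA G x k y → RingO G

/-- result of parts 2 and 3 -/
def ST_B5 : Prop := ∀ (V : Type) (G : SimpleGraph V), Red G → CI G → NoP G preBs →
  CII G ∨ LadS G ∨ RingO G

end Pool.Agent.Helper64.FL
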