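import Pool.Agent.Helper64.FL.Table
import Pool.Agent.Helper64.FL.PreCI
import Pool.Agent.Helper64.FL.PreB
import Pool.Agent.Helper64.FL.PreC

set_option autoImplicit false

namespace Pool.Agent.Helper64.FL

/-- placeholder for coincidence patterns that are impossible -/
def tr0 : ℕ × ℕ × Tr := (0, 0, .dia 0 0 0 0)

end Pool.Agent.Helper64.FL
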