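import Pool.Agent.Helper64.FL.TrB

set_option autoImplicit false
set_option maxRecDepth 100000

namespace Pool.Agent.Helper64.FL

def trA1c_0 : ℕ × ℕ × Tr :=
  (15, 0x8c1c251e128b310294834a4127209390298834670e230f19c58c40861042082, (.att 0 (.cert 1 15 0xce2c461e2323310698884e412520929069c8846746828b4147a060902043102) (.front 1 (.att 0 (.cert 2 15 0x4a8c670e128f29109c814a41a620531069c8846746830f4183a060901043082) (.front 2 (.att 0 (.cert 3 15 0x4a8c460e128b310294884a4127205390498885070e838b1191a040901042082) (.bit 0 4 (.bit 0 5 (.bit 0 6 (.dia 0 4 5 6) (.bit 0 7 (.dia 0 4 5 7) (.bit 1 5 (.front 2 (.drop (.dia 0 5 1 4))) (.front 2 (.name (.tab 0 [.flip, .front 2, .flip, .front 2, .flip, .flip, .front 1, .flip, .front 2, .flip] [8, 6, 7, 1, 2, 3, 5, 4, 0])))))) (.bit 0 6 (.bit 0 7 (.dia 0 4 6 7) (.bit 2 6 (.front 1 (.drop (.dia 0 6 2 4))) (.front 1 (.name (.tab 0 [.front 2,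 .flip, .front 1, .flip, .front 2, .flip, .flip, .front 2, .flip, .front 2, .flip] [8, 5, 7, 2, 1, 3, 6, 4, 0]))))) (.bit 0 7 (.bit 3 7 (.drop (.dia 0 7 3 4)) (.name (.tab 0 [.front 2, .flip, .front 2, .flip, .front 2, .flip, .front 1, .flip, .front 2, .flip, .front 2, .flip] [8, 5, 6, 3, 1, 2, 7, 4, 0]))) (.tab 1 [.front 2, .flip, .front 2, .flip, .front 2, .flip, .front 1, .front 2] [1, 5, 2, 3, 6, 7, 0, 4])))) (.bit 0 5 (.bit 0 6 (.bit 0 7 (.bit 7 3 (.drop (.bit 6 2 (.drop (.bit 5 1 (.drop (.tab 2 [] [1, 2, 3, 5, 6, 7, 4, 0])) (.name (.tab 3 [.flip, .flip] [8, 1, 2, 3, 5, 6, 7, 4, 0])))) (.name (.bit 5 1 (.front 1 (.drop (.tab 3 [.flip, .flip] [8, 2, 1, 3, 6, 5, 7, 4, 0]))) (.front 1 (.name (.tab 4 [.flip, .front 1, .flip, .front 1, .flip, .front 1, .flip] [8, 9, 2, 1, 3, 6, 5, 7, 4, 0]))))))) (.name (.bit 6 2 (.front 1 (.drop (.bit 5 1 (.front 1 (.drop (.tab 3 [.flip,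 .flip] [8, 3, 1, 2, 7, 5, 6, 4, 0]))) (.front 1 (.name (.tab 4 [.flip, .front 1, .flip, .front 1, .flip, .front 1, .flip] [8, 9, 3, 1, 2, 7, 5, 6, 4, 0])))))) (.front 1 (.name (.bit 5 1 (.front 2 (.drop (.tab 4 [.flip, .front 1, .flip, .front 1, .flip, .front 1, .flip] [8, 9, 3, 2, 1, 7, 6, 5, 4, 0]))) (.front 2 (.name (.tab 5 [.flip, .front 1, .flip, .front 2, .flip, .front 2, .flip, .front 2, .flip, .front 2, .flip] [8, 9, 10, 3, 2, 1, 7, 6, 5, 4, 0]))))))))) (.bit 6 2 (.front 1 (.drop (.bit 5 1 (.front 1 (.drop (.tab 6 [.flip, .flip] [7, 3, 1, 2, 4, 5, 6, 0]))) (.front 1 (.name (.tab 7 [.flip, .front 1, .flip, .front 1, .flip, .front 1, .flip] [7, 8, 3, 1, 2, 4, 5, 6, 0])))))) (.front 1 (.name (.bit 5 1 (.front 2 (.drop (.tab 7 [.flip, .front 1, .flip, .front 1, .flip, .front 1, .flip] [7, 8, 3, 2, 1, 4, 6, 5, 0]))) (.front 2 (.name (.tab 8 [.flip, .front 1, .flip,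 .front 2, .flip, .front 2, .flip, .front 2, .flip, .front 2, .flip] [7, 8, 9, 3, 2, 1, 4, 6, 5, 0])))))))) (.bit 0 7 (.bit 7 3 (.drop (.bit 5 1 (.front 1 (.drop (.tab 6 [.flip, .flip] [6, 2, 1, 3, 4, 5, 7, 0]))) (.front 1 (.name (.tab 7 [.flip, .front 1, .flip, .front 1, .flip, .front 1, .flip] [6, 8, 2, 1, 3, 4, 5, 7, 0]))))) (.name (.bit 5 1 (.front 2 (.drop (.tab 7 [.front 1, .flip, .front 1, .flip, .flip, .front 1, .flip] [6, 8, 2, 3, 1, 4, 7, 5, 0]))) (.front 2 (.name (.tab 8 [.flip, .front 2, .flip, .front 2, .flip, .front 2, .flip, .front 1, .flip, .front 2, .flip] [6, 8, 9, 2, 3, 1, 4, 7, 5, 0])))))) (.bit 5 1 (.front 2 (.drop (.tab 9 [.front 1, .flip, .front 1, .flip, .flip, .front 1, .flip] [6, 7, 2, 3, 1, 4, 5, 0]))) (.front 2 (.name (.tab 10 [.flip, .front 2, .flip, .front 2, .flip, .front 2, .flip, .front 1, .flip, .front 2, .flip] [6, 7, 8, 2, 3, 1, 4, 5,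 0])))))) (.bit 0 6 (.bit 0 7 (.bit 7 3 (.drop (.bit 6 2 (.drop (.tab 6 [.flip, .flip] [5, 1, 2, 3, 4, 6, 7, 0])) (.name (.tab 7 [.front 1, .flip, .front 1, .flip, .flip, .front 1, .flip] [5, 8, 1, 2, 3, 4, 6, 7, 0])))) (.name (.bit 6 2 (.front 1 (.drop (.tab 7 [.front 1, .flip, .front 1, .flip, .flip, .front 1, .flip] [5, 8, 1, 3, 2, 4, 7, 6, 0]))) (.front 1 (.name (.tab 8 [.front 2, .flip, .front 1, .flip, .front 2, .flip, .front 1, .flip, .front 1, .flip, .front 2, .flip] [5, 8, 9, 1, 3, 2, 4, 7, 6, 0])))))) (.bit 6 2 (.front 1 (.drop (.tab 9 [.front 1, .flip, .front 1, .flip, .flip, .front 1, .flip] [5, 7, 1, 3, 2, 4, 6, 0]))) (.front 1 (.name (.tab 10 [.front 2, .flip, .front 1, .flip, .front 2, .flip, .front 1, .flip, .front 1, .flip, .front 2, .flip] [5, 7, 8, 1, 3, 2, 4, 6, 0]))))) (.bit 0 7 (.bit 7 3 (.drop (.tab 9 [.front 1, .flip, .front 1, .flip, .flip, .front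 1, .flip] [5, 6, 1, 2, 3, 4, 7, 0])) (.name (.tab 10 [.front 2, .flip, .front 2, .flip, .front 2, .flip, .flip, .front 1, .flip, .front 2, .flip] [5, 6, 8, 1, 2, 3, 4, 7, 0]))) (.tab 11 [.front 2, .flip, .front 2, .flip, .front 2, .flip, .front 1, .front 2] [1, 5, 2, 3, 6, 7, 0, 4])))))))))))

def trA1c : List (ℕ × ℕ × Tr) := [trA1c_0]

theorem ckA1c : chkP table preA1c trA1c = true := by decide +kernel

def trA1n_0 : ℕ × ℕ × Tr :=
  (12, 0x11438482c241e62853104948346616330711478c40861042082, (.att 0 (.cert 1 12 0x114f8cc2c451e6209290698a74e416331f39079c608e2043102) (.front 1 (.att 0 (.cert 2 12 0x90f8cc1c241e6285290698874e50e331f39479c608e1043082) (.front 2 (.att 0 (.cert 3 12 0x90f8482c450e6285310494874e60e229f39859c408e1042082) (.bit 0 4 (.bit 0 5 (.bit 0 6 (.bit 1 4 (.front 2 (.drop (.dia 0 4 1 5))) (.bit 2 5 (.front 1 (.drop (.dia 0 5 2 4))) (.bit 3 6 (.drop (.dia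 0 6 3 4)) (.name (.front 1 (.name (.front 2 (.name (.tab 12 [.flip, .front 1, .flip, .front 2, .flip, .front 2, .flip, .front 2, .flip, .front 2, .flip] [7, 8, 9, 3, 2, 1, 6, 5, 4, 0]))))))))) (.dia 4 5 0 6)) (.bit 0 6 (.dia 4 6 0 5) (.bit 6 3 (.drop (.bit 5 2 (.drop (.bit 4 1 (.drop (.tab 13 [] [2, 3, 1, 5, 6, 0, 4])) (.name (.tab 14 [.flip] [1, 7, 2, 3, 5, 6, 0, 4])))) (.name (.bit 4 1 (.front 1 (.drop (.tab 15 [.flip, .flip] [7, 2, 3, 1, 5, 6, 0, 4]))) (.front 1 (.name (.tab 16 [.flip, .front 1, .flip, .front 1, .front 1, .flip] [7, 2, 1, 8, 3, 5, 6, 0, 4]))))))) (.name (.bit 5 2 (.front 1 (.drop (.bit 4 1 (.front 1 (.drop (.tab 15 [.flip, .flip] [7, 3, 2, 1, 6, 5, 0, 4]))) (.front 1 (.name (.tab 16 [.flip, .front 1, .flip, .front 1, .front 1, .flip] [7, 3, 1, 8, 2, 6, 5, 0, 4])))))) (.front 1 (.name (.bit 4 1 (.front 2 (.drop (.tab 17 [.flip, .front 1, .flip, .front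 1, .flip, .front 1, .flip] [7, 8, 3, 2, 1, 6, 5, 0, 4]))) (.front 2 (.name (.tab 18 [.flip, .front 1, .flip, .front 2, .flip, .front 2, .front 2, .flip, .front 2, .flip] [7, 8, 3, 2, 1, 9, 6, 5, 0, 4]))))))))))) (.bit 0 5 (.bit 0 6 (.dia 5 6 0 4) (.bit 6 3 (.drop (.bit 5 2 (.drop (.bit 4 1 (.drop (.tab 13 [] [1, 3, 2, 4, 6, 0, 5])) (.name (.tab 15 [.flip, .flip] [7, 1, 3, 2, 4, 6, 0, 5])))) (.name (.bit 4 1 (.front 1 (.drop (.tab 14 [.flip] [2, 7, 1, 3, 4, 6, 0, 5]))) (.front 1 (.name (.tab 16 [.flip, .front 1, .flip, .front 1, .flip] [8, 1, 2, 7, 3, 4, 6, 0, 5]))))))) (.name (.bit 5 2 (.front 1 (.drop (.bit 4 1 (.front 1 (.drop (.tab 15 [.flip, .flip] [7, 3, 1, 2, 6, 4, 0, 5]))) (.front 1 (.name (.tab 17 [.flip, .front 1, .flip, .front 1, .flip, .front 1, .flip] [7, 8, 3, 1, 2, 6, 4, 0, 5])))))) (.front 1 (.name (.bit 4 1 (.front 2 (.drop (.tab 16 [.flip, .front 1, .flip,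 .front 1, .front 1, .flip] [7, 3, 2, 8, 1, 6, 4, 0, 5]))) (.front 2 (.name (.tab 18 [.flip, .front 1, .flip, .front 2, .flip, .front 1, .front 2, .flip, .front 2, .flip] [7, 9, 3, 1, 2, 8, 6, 4, 0, 5])))))))))) (.bit 0 6 (.bit 6 3 (.drop (.bit 5 2 (.drop (.bit 4 1 (.drop (.tab 13 [] [1, 2, 3, 4, 5, 0, 6])) (.name (.tab 15 [.flip, .flip] [7, 1, 2, 3, 4, 5, 0, 6])))) (.name (.bit 4 1 (.front 1 (.drop (.tab 15 [.flip, .flip] [7, 2, 1, 3, 5, 4, 0, 6]))) (.front 1 (.name (.tab 17 [.flip, .front 1, .flip, .front 1, .flip, .front 1, .flip] [7, 8, 2, 1, 3, 5, 4, 0, 6]))))))) (.name (.bit 5 2 (.front 1 (.drop (.bit 4 1 (.front 1 (.drop (.tab 14 [.flip] [3, 7, 1, 2, 4, 5, 0, 6]))) (.front 1 (.name (.tab 16 [.flip, .front 1, .flip, .front 1, .flip] [8, 1, 3, 7, 2, 4, 5, 0, 6])))))) (.front 1 (.name (.bit 4 1 (.front 2 (.drop (.tab 16 [.flip, .front 1, .flip, .front 1, .flip] [8,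 2, 3, 7, 1, 5, 4, 0, 6]))) (.front 2 (.name (.tab 18 [.flip, .front 1, .flip, .front 2, .flip, .front 2, .flip, .front 2, .flip] [8, 9, 2, 1, 3, 7, 5, 4, 0, 6]))))))))) (.bit 6 3 (.drop (.bit 5 2 (.drop (.bit 4 1 (.drop (.tab 19 [] [1, 2, 3, 0, 4, 5, 6])) (.name (.tab 20 [.flip] [1, 7, 2, 3, 0, 4, 5, 6])))) (.name (.bit 4 1 (.front 1 (.drop (.tab 20 [.flip] [2, 7, 1, 3, 0, 5, 4, 6]))) (.front 1 (.name (.tab 21 [.flip, .front 1, .flip, .front 1] [1, 2, 8, 7, 3, 0, 4, 5, 6]))))))) (.name (.bit 5 2 (.front 1 (.drop (.bit 4 1 (.front 1 (.drop (.tab 20 [.flip] [3, 7, 1, 2, 0, 6, 4, 5]))) (.front 1 (.name (.tab 21 [.flip, .front 1, .flip, .front 1] [1, 3, 8, 7, 2, 0, 4, 6, 5])))))) (.front 1 (.name (.bit 4 1 (.front 2 (.drop (.tab 21 [.flip, .front 1, .flip, .front 1] [2, 3, 8, 7, 1, 0, 5, 6, 4]))) (.front 2 (.name (.tab 22 [.flip, .front 1, .flip, .front 2, .flip, .front 1,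 .front 2] [1, 2, 3, 9, 8, 7, 0, 4, 5, 6]))))))))))))))))))

def trA1n : List (ℕ × ℕ × Tr) := [trA1n_0]

theorem ckA1n : chkP table preA1n trA1n = true := by decide +kernel

end Pool.Agent.Helper64.FL
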